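import Pool.Agent.Lock.Facets

set_option autoImplicit false

/-!
# The facets of a face that avoid a vertex are connected
-/

namespace Pool.Agent.Lock

open Module Relation Set

variable {ι : Type*} {V : Type*} [AddCommGroup V] [Module ℝ V] [FiniteDimensional ℝ V]
  {x : ι → V} [Finite ι]

/-- a facet of `A` that contains `B` and avoids `j` -/
theorem exists_facet_in {A B : Set ι} (hA : Face x A) (hB : Face x B) (hBA : B ⊆ A) {j : ι}
    (hjA : j ∈ A) (hj : j ∉ B) :
    ∃ F, Face x F ∧ rk x F + 1 = rk x A ∧ B ⊆ F ∧ F ⊆ A ∧ j ∉ F := by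
  induction' hn : rk x A - rk x B using Nat.strong_induction_on with n ih generalizing B
  have hss : B ⊂ A := hBA.ssubset_of_ne fun h => hj (h ▸ hjA)
  have hlt := rk_lt hB hss
  by_cases h1 : rk x B + 1 = rk x A
  · exact ⟨B, hB, h1, subset_rfl, hBA, hj⟩
  · have step : ∃ B', Face x B' ∧ B ⊆ B' ∧ B' ⊆ A ∧ rk x B' = rk x B + 1 ∧ j ∉ B' := by
      obtain ⟨l, h0, hl⟩ := hB
      obtain ⟨G, g1, g2, g3, g4, g5⟩ := up hA ⟨l, h0, hl⟩ hBA h0 hjA (hl j hj)
      by_cases hjG : j ∈ G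
      · have hGss : G ⊂ A := by
          refine g3.ssubset_of_ne ?_
          rintro rfl
          omega
        obtain ⟨k, hkA, hk⟩ := exists_of_ssubset hGss
        obtain ⟨m, m0, m1⟩ := g1
        obtain ⟨G', k1, k2, k3, k4, k5⟩ := up hA ⟨l, h0, hl⟩ hBA
          (fun i hi => m0 i (g2 hi)) hkA (m1 k hk)
        refine ⟨G', k1, k2, k3, k4, fun h => ?_⟩
        have := k5 j h hj
        rw [m0 j hjG] at this
        exact lt_irrefl _ this
      · exact ⟨G, g1, g2, g3, g4, hjG⟩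
    obtain ⟨B', b1, b2, b5, b3, b4⟩ := step
    obtain ⟨F, f1, f2, f3, f4⟩ := ih (rk x A - rk x B') (by omega) b1 b5 b4 rfl
    exact ⟨F, f1, f2, b2.trans f3, f4⟩

/-- separation by a facet of the cone of a face -/
theorem facet_sep {X : Set ι} (hX : Face x X) {w : V} (hw : w ∈ Submodule.span ℝ (x '' X))
    {l : V →ₗ[ℝ] ℝ} (hl : ∀ i ∈ X, 0 ≤ l (x i)) (hlw : l w < 0) :
    ∃ (R : Set ι) (r : V →ₗ[ℝ] ℝ), Face x R ∧ R ⊆ X ∧ rk x R + 1 = rk x X ∧
      (∀ i ∈ R, r (x i) = 0) ∧ (∀ i ∈ X, i ∉ R → 0 < r (x i)) ∧ r w < 0 := by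
  classical
  induction' hn : (X \ {i | i ∈ X ∧ l (x i) = 0}).ncard using Nat.strong_induction_on with n ih
    generalizing l
  set Z : Set ι := {i | i ∈ X ∧ l (x i) = 0} with hZ
  have hpos : ∀ i ∈ X, i ∉ Z → 0 < l (x i) := fun i hi hiZ =>
    lt_of_le_of_ne (hl i hi) fun h => hiZ ⟨hi, h.symm⟩
  have hZf : Face x Z := face_of_face hX (fun i hi => hi.1) l (fun i hi => hi.2) hpos
  have hZX : Z ⊆ X := fun i hi => hi.1
  have hss : Z ⊂ X := by
    refine hZX.ssubset_of_ne fun h => ?_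
    have h1 : Submodule.span ℝ (x '' X) ≤ LinearMap.ker l := by
      refine zero_on_span fun i hi => ?_
      rw [← h] at hi
      exact hi.2
    have h2 : l w = 0 := h1 hw
    rw [h2] at hlw
    exact lt_irrefl _ hlw
  have hlt := rk_lt hZf hss
  by_cases h1 : rk x Z + 1 = rk x X
  · exact ⟨Z, l, hZf, hZX, h1, fun i hi => hi.2, hpos, hlw⟩
  -- a functional vanishing on `Z` and `w`, but not on `X`
  obtain ⟨k, hkX, hk⟩ : ∃ k ∈ X, x k ∉ Submodule.span ℝ (insert w (x '' Z)) := by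
    by_contra hcon
    push Not at hcon
    have h2 : Submodule.span ℝ (x '' X) ≤ Submodule.span ℝ (insert w (x '' Z)) := by
      rw [Submodule.span_le]
      rintro _ ⟨i, hi, rfl⟩
      exact hcon i hi
    have h3 := Submodule.finrank_mono h2
    have h4 : finrank ℝ (Submodule.span ℝ (insert w (x '' Z))) ≤ 1 + rk x Z := by
      rw [Submodule.span_insert]
      refine (Submodule.finrank_add_le_finrank_add_finrank _ _).trans ?_
      have h6 := finrank_span_le_card (R := ℝ) ({w} : Set V)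
      simp only [Set.toFinset_singleton, Finset.card_singleton] at h6
      exact Nat.add_le_add_right h6 _
    have h5 : rk x X ≤ 1 + rk x Z := h3.trans h4
    omega
  obtain ⟨f, hfk, hf⟩ := Submodule.exists_le_ker_of_notMem hk
  have hf0 : ∀ i ∈ Z, f (x i) = 0 := fun i hi =>
    hf (Submodule.subset_span (Or.inr ⟨i, hi, rfl⟩))
  have hfw : f w = 0 := hf (Submodule.subset_span (Or.inl rfl))
  obtain ⟨m, hmk, hm0, hmw⟩ : ∃ m : V →ₗ[ℝ] ℝ, m (x k) < 0 ∧ (∀ i ∈ Z, m (x i) = 0) ∧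
      m w = 0 := by
    rcases lt_or_gt_of_ne hfk with h | h
    · exact ⟨f, h, hf0, hfw⟩
    · exact ⟨-f, by simpa using h, fun i hi => by simp [hf0 i hi], by simp [hfw]⟩
  obtain ⟨a, ⟨haX, ha⟩, hmin⟩ := Set.exists_min_image {i | i ∈ X ∧ m (x i) < 0}
    (fun i => l (x i) / (-m (x i))) (Set.toFinite _) ⟨k, hkX, hmk⟩
  have haZ : a ∉ Z := fun h => by
    rw [hm0 a h] at ha
    exact lt_irrefl _ ha
  set t : ℝ := l (x a) / (-m (x a)) with ht
  have ht0 : 0 < t := div_pos (hpos a haX haZ) (by linarith)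
  have hta : t * (-m (x a)) = l (x a) := div_mul_cancel₀ _ (by linarith)
  have hl' : ∀ i ∈ X, 0 ≤ (l + t • m) (x i) := by
    intro i hi
    rw [LinearMap.add_apply, LinearMap.smul_apply, smul_eq_mul]
    by_cases h : m (x i) < 0
    · have h2 : t ≤ l (x i) / (-m (x i)) := hmin i ⟨hi, h⟩
      rw [le_div_iff₀ (by linarith)] at h2
      linarith
    · push Not at h
      have := mul_nonneg ht0.le h
      linarith [hl i hi]
  have hlw' : (l + t • m) w < 0 := by
    rw [LinearMap.add_apply, LinearMap.smul_apply, hmw, smul_zero, add_zero]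
    exact hlw
  refine ih _ ?_ hl' hlw' rfl
  rw [← hn]
  refine Set.ncard_lt_ncard ⟨fun i hi => ⟨hi.1, fun h => hi.2 ⟨hi.1, ?_⟩⟩, fun h => ?_⟩
  · rw [LinearMap.add_apply, LinearMap.smul_apply, h.2, hm0 i h, smul_zero, add_zero]
  · have h2 := h ⟨haX, haZ⟩
    apply h2.2
    refine ⟨haX, ?_⟩
    rw [LinearMap.add_apply, LinearMap.smul_apply, smul_eq_mul]
    linarith

omit [Finite ι] in
/-- the functional of a facet vanishes only on its span -/
theorem mem_facet_span {G X : Set ι} (hXG : X ⊆ G) (hr : rk x X + 1 = rk x G)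
    {l : V →ₗ[ℝ] ℝ} (h0 : ∀ i ∈ X, l (x i) = 0) {u : ι} (hu : u ∈ G) (hlu : l (x u) ≠ 0) {w : V}
    (hw : w ∈ Submodule.span ℝ (x '' G)) (hlw : l w = 0) : w ∈ Submodule.span ℝ (x '' X) := by
  have h1 : Submodule.span ℝ (x '' X) ≤ Submodule.span ℝ (x '' G) ⊓ LinearMap.ker l :=
    le_inf (Submodule.span_mono (image_mono hXG)) (zero_on_span h0)
  have h2 : Submodule.span ℝ (x '' G) ⊓ LinearMap.ker l < Submodule.span ℝ (x '' G) := by
    refine lt_of_le_of_ne inf_le_left fun h => hlu ?_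
    have h3 : x u ∈ Submodule.span ℝ (x '' G) ⊓ LinearMap.ker l := by
      rw [h]; exact Submodule.subset_span ⟨u, hu, rfl⟩
    exact h3.2
  have h3 := Submodule.finrank_lt_finrank_of_lt h2
  have h4 : Submodule.span ℝ (x '' X) = Submodule.span ℝ (x '' G) ⊓ LinearMap.ker l := by
    refine Submodule.eq_of_le_of_finrank_le h1 ?_
    unfold rk at hr
    omega
  rw [h4]
  exact ⟨hw, hlw⟩

omit [Finite ι] in
/-- two functionals of the same facet are proportional -/
theorem facet_prop {X R : Set ι} (hR : Face x R) (hRX : R ⊆ X) (hr : rk x R + 1 = rk x X)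
    {l r : V →ₗ[ℝ] ℝ} (l0 : ∀ i ∈ R, l (x i) = 0) (l1 : ∀ i ∈ X, i ∉ R → 0 < l (x i))
    (r0 : ∀ i ∈ R, r (x i) = 0) (r1 : ∀ i ∈ X, i ∉ R → 0 < r (x i)) {w : V}
    (hw : w ∈ Submodule.span ℝ (x '' X)) (hrw : r w < 0) : l w < 0 := by
  obtain ⟨j, hj, hjR⟩ : ∃ j ∈ X, j ∉ R := by
    by_contra hcon
    push Not at hcon
    have := rk_mono (x := x) hcon
    omega
  have a1 := l1 j hj hjR
  have a2 := r1 j hj hjR
  have h1 : Submodule.span ℝ (x '' insert j R) = Submodule.span ℝ (x '' X) := by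
    refine Submodule.eq_of_le_of_finrank_le
      (Submodule.span_mono (image_mono (insert_subset hj hRX))) ?_
    have h2 : rk x R < rk x (insert j R) := rk_lt hR (ssubset_insert hjR)
    unfold rk at h2 hr
    omega
  have h2 : Submodule.span ℝ (x '' insert j R) ≤
      LinearMap.ker (r (x j) • l - l (x j) • r) := by
    refine zero_on_span ?_
    rintro i (rfl | hi)
    · simp only [LinearMap.sub_apply, LinearMap.smul_apply, smul_eq_mul]
      ring
    · simp only [LinearMap.sub_apply, LinearMap.smul_apply, smul_eq_mul, l0 i hi, r0 i hi]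
      ring
  rw [h1] at h2
  have h3 : r (x j) * l w - l (x j) * r w = 0 := h2 hw
  have h4 : l (x j) * r w < 0 := mul_neg_of_pos_of_neg a1 hrw
  have h5 : r (x j) * l w < 0 := by linarith
  by_contra hn
  push Not at hn
  have := mul_nonneg a2.le hn
  linarith

/-- **The facets of a face that avoid a given vertex are connected.** -/
theorem antistar {G : Set ι} (hG : Face x G) {u : ι} (hu : u ∈ G) {m : ℕ}
    (hr : rk x G = m + 2) {X Y : Set ι} (hX : Good x (G \ {u}) m X)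
    (hY : Good x (G \ {u}) m Y) : Reach x (G \ {u}) m X Y := by
  classical
  have hfun : ∃ lf : Set ι → V →ₗ[ℝ] ℝ, ∀ X, Face x X → (∀ i ∈ X, lf X (x i) = 0) ∧
      ∀ i ∉ X, 0 < lf X (x i) := by
    have : ∀ X : Set ι, ∃ l : V →ₗ[ℝ] ℝ, Face x X → (∀ i ∈ X, l (x i) = 0) ∧
        ∀ i ∉ X, 0 < l (x i) := by
      intro X
      by_cases h : Face x X
      · obtain ⟨l, h1⟩ := h
        exact ⟨l, fun _ => h1⟩
      · exact ⟨0, fun h' => absurd h' h⟩
    choose lf hlf using this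
    exact ⟨lf, hlf⟩
  obtain ⟨lf, hlf⟩ := hfun
  set z : V := ∑ i ∈ (Set.toFinite Y).toFinset, x i with hz
  have huN : ∀ {X : Set ι}, Good x (G \ {u}) m X → u ∉ X := fun hX h => (hX.2.1 h).2 rfl
  have hsub : ∀ {X : Set ι}, Good x (G \ {u}) m X → X ⊆ G := fun hX i hi => (hX.2.1 hi).1
  have hzG : z ∈ Submodule.span ℝ (x '' G) := by
    refine Submodule.sum_mem _ fun i hi => Submodule.subset_span ⟨i, ?_, rfl⟩
    exact hsub hY ((Set.Finite.mem_toFinset _).1 hi)
  have hzY : ∀ {l : V →ₗ[ℝ] ℝ}, (∀ i ∈ Y, l (x i) = 0) → l z = 0 := by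
    intro l h
    rw [hz, map_sum]
    exact Finset.sum_eq_zero fun i hi => h i ((Set.Finite.mem_toFinset _).1 hi)
  have hznn : ∀ {l : V →ₗ[ℝ] ℝ}, (∀ i, 0 ≤ l (x i)) → 0 ≤ l z := by
    intro l h
    rw [hz, map_sum]
    exact Finset.sum_nonneg fun i _ => h i
  have hzpos : ∀ {l : V →ₗ[ℝ] ℝ}, (∀ i, 0 ≤ l (x i)) → (∃ i ∈ Y, 0 < l (x i)) → 0 < l z := by
    rintro l h ⟨i, hi, hi'⟩
    rw [hz, map_sum]
    exact Finset.sum_pos' (fun i _ => h i) ⟨i, (Set.Finite.mem_toFinset _).2 hi, hi'⟩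
  set μ : Set ι → ℝ := fun X => lf X z / lf X (x u) with hμ
  induction' hn : {X' | Good x (G \ {u}) m X' ∧ μ X' < μ X}.ncard using
    Nat.strong_induction_on with n ih generalizing X
  by_cases hXY : X = Y
  · subst hXY
    exact Reach.refl' hX
  obtain ⟨x0, x1⟩ := hlf X hX.1
  obtain ⟨y0, y1⟩ := hlf Y hY.1
  have ha : 0 < lf X (x u) := x1 u (huN hX)
  have hb : 0 < lf X z := by
    refine hzpos (fun i => nonneg_of x0 x1 i) ?_
    by_contra hcon
    push Not at hcon
    apply hXY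
    refine (eq_of_rk hY.1 (fun i hi => ?_) (by rw [hX.2.2, hY.2.2])).symm
    by_contra hiX
    exact absurd (x1 i hiX) (not_lt.2 (hcon i hi))
  set a := lf X (x u) with hadef
  set b := lf X z with hbdef
  set w : V := a • z - b • x u with hw
  have hwG : w ∈ Submodule.span ℝ (x '' G) :=
    Submodule.sub_mem _ (Submodule.smul_mem _ _ hzG)
      (Submodule.smul_mem _ _ (Submodule.subset_span ⟨u, hu, rfl⟩))
  have hXw : lf X w = 0 := by
    rw [hw, map_sub, map_smul, map_smul, smul_eq_mul, smul_eq_mul, ← hadef, ← hbdef]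
    ring
  have hwX := mem_facet_span (hsub hX) (by rw [hX.2.2, hr]) x0 hu ha.ne' hwG hXw
  have hYw : lf Y w < 0 := by
    rw [hw, map_sub, map_smul, map_smul, smul_eq_mul, smul_eq_mul, hzY y0]
    have := mul_pos hb (y1 u (huN hY))
    linarith
  obtain ⟨R, r, hR, hRX, hrR, r0, r1, hrw⟩ := facet_sep hX.1 hwX
    (fun i _ => nonneg_of y0 y1 i) hYw
  obtain ⟨j, hj, hjR⟩ : ∃ j ∈ X, j ∉ R := by
    by_contra hcon
    push Not at hcon
    have := rk_mono (x := x) hcon
    omega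
  obtain ⟨X', f1, f2, f3, f4, f5⟩ := exists_facet_in hG hR (hRX.trans (hsub hX))
    (hsub hX hj) hjR
  have hrX' : rk x X' = m + 1 := by omega
  obtain ⟨z0, z1⟩ := hlf X' f1
  have hint : X ∩ X' = R := by
    refine (eq_of_rk hR (subset_inter hRX f3) ?_).symm
    have : X ∩ X' ⊂ X := inter_subset_left.ssubset_of_ne fun h => by
      have h6 : j ∈ X ∩ X' := by rw [h]; exact hj
      exact f5 h6.2
    have := rk_lt (hX.1.inter f1) this
    omega
  have hl1 : ∀ i ∈ X, i ∉ R → 0 < lf X' (x i) := fun i hi hiR =>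
    z1 i fun h => hiR (by rw [← hint]; exact ⟨hi, h⟩)
  have hX'w : lf X' w < 0 :=
    facet_prop hR hRX hrR (fun i hi => z0 i (f3 hi)) hl1 r0 r1 hwX hrw
  have hX'w2 : a * lf X' z - b * lf X' (x u) < 0 := by
    rw [hw, map_sub, map_smul, map_smul, smul_eq_mul, smul_eq_mul] at hX'w
    exact hX'w
  have hnn := hznn (l := lf X') (fun i => nonneg_of z0 z1 i)
  have hu'pos : 0 < lf X' (x u) := by
    have h2 := mul_nonneg ha.le hnn
    by_contra hneg
    push Not at hneg
    have := mul_nonneg hb.le (neg_nonneg.2 hneg)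
    linarith
  have huX' : u ∉ X' := fun h => by
    rw [z0 u h] at hu'pos
    exact lt_irrefl _ hu'pos
  have hgX' : Good x (G \ {u}) m X' := by
    refine ⟨f1, fun i hi => ⟨f4 hi, fun h => huX' ?_⟩, hrX'⟩
    have : i = u := h
    rw [← this]; exact hi
  have hμlt : μ X' < μ X := by
    show lf X' z / lf X' (x u) < b / a
    rw [div_lt_div_iff₀ hu'pos ha]
    linarith
  have hstep : Reach x (G \ {u}) m X X' :=
    reach_of_common hX hgX' hRX f3 (by rw [hX.2.2] at hrR; omega)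
  refine hstep.trans (ih _ ?_ hgX' rfl)
  rw [← hn]
  refine Set.ncard_lt_ncard ⟨fun Q hQ => ⟨hQ.1, hQ.2.trans hμlt⟩, fun h => ?_⟩
  exact lt_irrefl _ (h ⟨hgX', hμlt⟩).2

end Pool.Agent.Lock
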