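import Pool.Agent.Lock.Planar2

set_option autoImplicit false

/-!
# Configurations of rank at most four (polytopes of dimension at most three)
-/

namespace Pool.Agent.Lock

open Module Relation

variable {ι : Type*} {V : Type*} [AddCommGroup V] [Module ℝ V] [FiniteDimensional ℝ V]
  {x : ι → V} {φ : V →ₗ[ℝ] ℝ}

section core

variable [Fintype ι]

/-- A strip of 2-faces and an edge path that are disjoint, between two vertices of a 3-polytope
that are in no common 2-face. -/
theorem planar (hφ : ∀ i, 0 < φ (x i)) (hE : AllExt x) {A : Set ι} (hA : Face x A)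
    (hr : rk x A = 4) {a b : ι} (ha : a ∈ A) (hb : b ∈ A) (hab : a ≠ b)
    (hno : ∀ F ∈ TF x A, ¬ (a ∈ F ∧ b ∈ F)) :
    ∃ U₁ U₂ : Set ι, U₁ ⊆ A ∧ U₂ ⊆ A ∧ U₁ ∩ U₂ ⊆ {a, b} ∧ PathIn x U₁ 2 a b ∧
      PathIn x U₂ 1 a b := by
  classical
  have hnadj : ¬ Ed x A a b := by
    intro h
    obtain ⟨F, -, -, hF, -, h1, -, -⟩ := two_faces hE hA hr h
    exact hno F hF h1
  obtain ⟨U, hU, hd⟩ := disjoint_paths hφ hE hA ha hb hab (g := 3) (by rw [hr])
  obtain ⟨z₁, p1, p2, p3⟩ := path_chain (hU 0)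
  obtain ⟨z₂, q1, q2, q3⟩ := path_chain (hU 1)
  have h01 : ∀ v, v ∈ U 0 → v ∈ U 1 → v = a ∨ v = b := fun v h1 h2 => by
    have := hd 0 1 (by decide) ⟨h1, h2⟩
    simpa using this
  have h02 : ∀ v, v ∈ U 0 → v ∈ U 2 → v = a ∨ v = b := fun v h1 h2 => by
    have := hd 0 2 (by decide) ⟨h1, h2⟩
    simpa using this
  have h12 : ∀ v, v ∈ U 1 → v ∈ U 2 → v = a ∨ v = b := fun v h1 h2 => by
    have := hd 1 2 (by decide) ⟨h1, h2⟩
    simpa using this
  -- the closed curve
  have hsupp : ∀ i j, z₁ i j + z₂ i j ≠ 0 → z₁ i j ≠ 0 ∨ z₂ i j ≠ 0 := by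
    intro i j h
    by_contra hcon
    push Not at hcon
    rw [hcon.1, hcon.2] at h
    exact h (add_zero 0)
  obtain ⟨s, hs⟩ := even_bd hφ hE hA hr (z := fun i j => z₁ i j + z₂ i j)
    (fun i j => by rw [p1 i j, q1 i j]) (fun i j h => by
      rcases hsupp i j h with h1 | h1
      · exact (p2 i j h1).1
      · exact (q2 i j h1).1) (fun v => by
      rw [Finset.sum_add_distrib, p3, q3]
      exact CharTwo.add_self_eq_zero _)
  -- the third path
  obtain ⟨a', b', ha', hb', h3⟩ := cn_interior hab hnadj (hU 2)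
  set X : Set ι := {w | Cn (Ed x A) (U 2 \ {a, b}) a' w} with hX
  have hXU : ∀ w ∈ X, w ∈ U 2 ∧ w ≠ a ∧ w ≠ b := by
    intro w hw
    have := Cn.mem_right hw
    refine ⟨this.1, ?_, ?_⟩
    · rintro rfl; exact this.2 (by simp)
    · rintro rfl; exact this.2 (by simp)
  have hXA : X ⊆ A := by
    intro w hw
    refine Cn.ind (P := fun w => w ∈ A) hw ha'.2.2.2 ?_
    intro u v _ _ huv _
    exact huv.2.2.2
  have hXz : ∀ v ∈ X, ∀ w, bd x A s v w = 0 := by
    intro v hv w
    obtain ⟨k1, k2, k3⟩ := hXU v hv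
    rw [← hs]
    by_contra hne
    rcases hsupp v w hne with h1 | h1
    · rcases h02 v (p2 v w h1).2.1 k1 with h2 | h2
      · exact k2 h2
      · exact k3 h2
    · rcases h12 v (q2 v w h1).2.1 k1 with h2 | h2
      · exact k2 h2
      · exact k3 h2
  obtain ⟨F₀, -, -, hF₀, -, ⟨haF₀, ha'F₀⟩, -, -⟩ := two_faces hE hA hr ha'
  have ha'X : a' ∈ X := Cn.refl' h3.1
  have hside : ∀ v ∈ X, ∀ F ∈ TF x A, v ∈ F → s F = s F₀ := by
    intro v hv
    have h5 : v ∈ X ∧ ∀ F ∈ TF x A, v ∈ F → s F = s F₀ := by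
      refine Cn.ind (P := fun v => v ∈ X ∧ ∀ F ∈ TF x A, v ∈ F → s F = s F₀) hv ⟨ha'X, ?_⟩ ?_
      · intro F hF hvF
        exact side_const hE hA hr (hXA ha'X) (hXz _ ha'X) hF hF₀ hvF ha'F₀
      · rintro u w hu ⟨huX, hP⟩ huw hw
        have hwX : w ∈ X := Cn.tail huX huw hw
        refine ⟨hwX, fun F hF hwF => ?_⟩
        obtain ⟨D, -, -, hD, -, ⟨huD, hwD⟩, -, -⟩ := two_faces hE hA hr huw
        rw [side_const hE hA hr (hXA hwX) (hXz w hwX) hF hD hwF hwD]
        exact hP D hD huD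
    exact h5.2
  -- the faces of the other side
  set S : Set (Set ι) := {F | F ∈ TF x A ∧ s F = s F₀ + 1} with hS
  have hSX : ∀ F ∈ S, Good x (A \ X) 2 F := by
    rintro F ⟨hF, h1⟩
    obtain ⟨f1, f2, f3⟩ := mem_TF.1 hF
    refine ⟨f1, fun i hi => ⟨f3 hi, fun hiX => ?_⟩, f2⟩
    have := hside i hiX F hF hi
    rw [this] at h1
    have e : ∀ p : ZMod 2, p ≠ p + 1 := by decide
    exact e _ h1
  set R : Set (Set ι) := {F | F ∈ S ∧ ∃ F₁, F₁ ∈ S ∧ a ∈ F₁ ∧
    ReflTransGen (fun F F' => Nb x (A \ X) 2 F F' ∧ F' ∈ S) F₁ F} with hR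
  have hRS : ∀ F ∈ R, F ∈ S := fun F hF => hF.1
  have hRa : ∀ F ∈ S, a ∈ F → F ∈ R := fun F hF haF => ⟨hF, F, hF, haF, ReflTransGen.refl⟩
  have hRadj : ∀ i j, Ed x A i j → ∀ F F', F ∈ R → F' ∈ S → F ≠ F' → i ∈ F ∧ j ∈ F →
      i ∈ F' ∧ j ∈ F' → F' ∈ R := by
    rintro i j hij F F' ⟨hF, F₁, k1, k2, k3⟩ hF' hne h1 h2
    refine ⟨hF', F₁, k1, k2, k3.tail ⟨⟨hSX F hF, hSX F' hF', ?_⟩, hF'⟩⟩
    have g1 := hSX F hF
    have g2 := hSX F' hF'
    have h4 : rk x (F ∩ F') < 3 := by
      have hss : F ∩ F' ⊂ F := by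
        refine Set.inter_subset_left.ssubset_of_ne fun h' => hne ?_
        exact eq_of_rk g1.1 (Set.inter_eq_left.1 h') (by rw [g1.2.2, g2.2.2])
      have := rk_lt (g1.1.inter g2.1) hss
      rw [g1.2.2] at this
      exact this
    have h5 : rk x {i, j} ≤ rk x (F ∩ F') := rk_mono (by
      rintro _ (rfl | rfl)
      · exact ⟨h1.1, h2.1⟩
      · exact ⟨h1.2, h2.2⟩)
    rw [rk_pair hE hij.1] at h5
    omega
  set r : Set ι → ZMod 2 := fun F => if F ∈ R then 1 else 0 with hrdef
  have r1 : ∀ F, F ∈ R → r F = 1 := fun F h => if_pos h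
  have r0 : ∀ F, F ∉ R → r F = 0 := fun F h => if_neg h
  -- boundary edges of `R` are on the curve
  have claimA : ∀ i j, bd x A r i j ≠ 0 → z₁ i j + z₂ i j ≠ 0 := by
    intro i j hb
    have hij : Ed x A i j := by
      by_contra hn
      exact hb (bd_of_not hn)
    obtain ⟨F, F', f1, f2, f3, f4, f5, -⟩ := two_faces hE hA hr hij
    rw [hs i j, bd_eq hE hA hr hij f1 f2 f3 f4 f5]
    rw [bd_eq hE hA hr hij f1 f2 f3 f4 f5] at hb
    have main : ∀ F F', F ≠ F' → F ∈ TF x A → F' ∈ TF x A → i ∈ F ∧ j ∈ F →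
        i ∈ F' ∧ j ∈ F' → F ∈ R → F' ∉ R → s F + s F' ≠ 0 := by
      intro F F' f1 f2 f3 f4 f5 hFR hF'R
      have h6 : s F = s F₀ + 1 := (hRS F hFR).2
      have h7 : s F' ≠ s F₀ + 1 := fun h => hF'R
        (hRadj i j hij F F' hFR ⟨f3, h⟩ f1 f4 f5)
      have e : ∀ p q r : ZMod 2, p = r + 1 → q ≠ r + 1 → p + q ≠ 0 := by decide
      exact e _ _ _ h6 h7
    by_cases hFR : F ∈ R
    · by_cases hF'R : F' ∈ R
      · rw [r1 F hFR, r1 F' hF'R] at hb
        exact absurd (by decide) hb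
      · exact main F F' f1 f2 f3 f4 f5 hFR hF'R
    · by_cases hF'R : F' ∈ R
      · rw [add_comm]
        exact main F' F f1.symm f3 f2 f5 f4 hF'R hFR
      · rw [r0 F hFR, r0 F' hF'R] at hb
        exact absurd (add_zero 0) hb
  have claimB : ∀ w, z₁ a w + z₂ a w ≠ 0 → bd x A r a w ≠ 0 := by
    intro w hz
    have hij : Ed x A a w := by
      rcases hsupp a w hz with h1 | h1
      · exact (p2 _ _ h1).1
      · exact (q2 _ _ h1).1
    obtain ⟨F, F', f1, f2, f3, f4, f5, -⟩ := two_faces hE hA hr hij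
    rw [hs a w, bd_eq hE hA hr hij f1 f2 f3 f4 f5] at hz
    rw [bd_eq hE hA hr hij f1 f2 f3 f4 f5]
    have e : ∀ p q r : ZMod 2, p + q ≠ 0 → (p = r + 1 ∧ q ≠ r + 1) ∨ (q = r + 1 ∧ p ≠ r + 1) := by
      decide
    rcases e _ _ (s F₀) hz with ⟨h6, h7⟩ | ⟨h6, h7⟩
    · rw [r1 F (hRa F ⟨f2, h6⟩ f4.1), r0 F' fun h => h7 (hRS F' h).2]
      decide
    · rw [r1 F' (hRa F' ⟨f3, h6⟩ f5.1), r0 F fun h => h7 (hRS F h).2]
      decide
  have claimC : ∀ w, bd x A r a w = z₁ a w + z₂ a w := by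
    intro w
    by_cases h1 : z₁ a w + z₂ a w = 0
    · rw [h1]
      by_contra h2
      exact claimA a w h2 h1
    · rw [zm2 _ h1, zm2 _ (claimB w h1)]
  -- some face of `R` contains `b`
  obtain ⟨F, hFR, hbF⟩ : ∃ F ∈ R, b ∈ F := by
    by_contra hcon
    push Not at hcon
    set W : ι → ι → ZMod 2 := fun i j => if i ∈ U 0 ∧ j ∈ U 0 then bd x A r i j else 0 with hW
    have w1 : ∀ i j, W i j = W j i := by
      intro i j
      simp only [hW, and_comm, bd_symm i j]
    have w2 : ∀ i, W i i = 0 := by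
      intro i
      have : ¬ Ed x A i i := fun h => h.1 rfl
      simp only [hW, bd_of_not this, ite_self]
    have hsum := handshake w1 w2
    have w3 : ∀ v, v ≠ a → ∑ w, W v w = 0 := by
      intro v hva
      by_cases hvU : v ∈ U 0
      · by_cases hvb : v = b
        · subst hvb
          refine Finset.sum_eq_zero fun w _ => ?_
          have : bd x A r v w = 0 := by
            by_cases hij : Ed x A v w
            · obtain ⟨F, F', f1, f2, f3, f4, f5, -⟩ := two_faces hE hA hr hij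
              rw [bd_eq hE hA hr hij f1 f2 f3 f4 f5, r0 F fun h => hcon F h f4.1,
                r0 F' fun h => hcon F' h f5.1, add_zero]
            · exact bd_of_not hij
          simp only [hW, this, ite_self]
        · have e1 : ∀ w, W v w = bd x A r v w := by
            intro w
            by_cases h1 : bd x A r v w = 0
            · simp only [hW, h1, ite_self]
            · have h2 := claimA v w h1
              have hw : w ∈ U 0 := by
                rcases hsupp v w h2 with h3 | h3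
                · exact (p2 _ _ h3).2.2
                · rcases h01 v hvU (q2 _ _ h3).2.1 with h4 | h4
                  · exact absurd h4 hva
                  · exact absurd h4 hvb
              simp only [hW, hvU, hw, and_self, if_true]
          rw [Finset.sum_congr rfl fun w _ => e1 w]
          exact bd_bd hE r v
      · refine Finset.sum_eq_zero fun w _ => ?_
        simp only [hW, hvU, false_and, if_false]
    have w4 : ∑ w, W a w = 1 := by
      have haU : a ∈ U 0 := (hU 0).1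
      have e1 : ∀ w, W a w = z₁ a w := by
        intro w
        by_cases hw : w ∈ U 0
        · simp only [hW, haU, hw, and_self, if_true]
          rw [claimC w]
          have : z₂ a w = 0 := by
            by_contra hne
            obtain ⟨h1, h2, h3⟩ := q2 _ _ hne
            rcases h01 w hw h3 with h4 | h4
            · exact h1.1 h4.symm
            · rw [h4] at h1
              exact hnadj h1
          rw [this, add_zero]
        · have h1 : z₁ a w = 0 := by
            by_contra hne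
            exact hw (p2 _ _ hne).2.2
          simp only [hW, hw, and_false, if_false, h1]
      rw [Finset.sum_congr rfl fun w _ => e1 w, p3 a, if_pos rfl, if_neg hab, add_zero]
    rw [Finset.sum_eq_single a (fun v _ hv => w3 v hv) fun h => absurd (Finset.mem_univ _) h,
      w4] at hsum
    exact absurd hsum (by decide)
  obtain ⟨hFS, F₁, hF₁S, haF₁, hreach⟩ := hFR
  refine ⟨A \ X, X ∪ {a, b}, sdiff_le, ?_, ?_, ⟨F₁, F, haF₁, hbF, hSX F₁ hF₁S, hSX F hFS,
    hreach.lift id fun _ _ h => h.1⟩, ?_⟩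
  · rintro w (hw | rfl | rfl)
    · exact hXA hw
    · exact ha
    · exact hb
  · rintro w ⟨hw, hw' | hw'⟩
    · exact absurd hw' hw.2
    · exact hw'
  · apply path_of_cn hE (A := A) hab
    have c1 : Cn (Ed x A) (X ∪ {a, b}) a a' := (Cn.refl' (by simp)).tail ha' (Or.inl ha'X)
    have c2 : Cn (Ed x A) (X ∪ {a, b}) a b' ∧ b' ∈ X := by
      refine h3.ind (P := fun w => Cn (Ed x A) (X ∪ {a, b}) a w ∧ w ∈ X) ⟨c1, ha'X⟩ ?_
      rintro u v hu ⟨c3, huX⟩ huv hv
      have hvX : v ∈ X := Cn.tail huX huv hv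
      exact ⟨c3.tail huv (Or.inl hvX), hvX⟩
    exact c2.1.tail hb' (by simp)

end core

variable [Finite ι]

/-- **Polytopes of dimension at most three.** -/
theorem hl_low (hφ : ∀ i, 0 < φ (x i)) (hE : AllExt x) (hr : rk x Set.univ ≤ 4) : HL x := by
  classical
  haveI : Fintype ι := Fintype.ofFinite ι
  intro A hA a ha b hb hab k c hc
  have hrA : rk x A ≤ 4 := (rk_mono (Set.subset_univ A)).trans hr
  by_cases h1 : ∀ i, c i ≤ 1
  · exact lp_ones hφ hE hA ha hb hab hc h1
  push Not at h1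
  obtain ⟨i, hi⟩ := h1
  by_cases h2 : c i + 1 = rk x A
  · exact lp_single hA ha hb hc h2
  have h3 := Finset.single_le_sum (f := c) (fun j _ => Nat.zero_le _) (Finset.mem_univ i)
  have hci : c i = 2 := by omega
  have hr4 : rk x A = 4 := by omega
  by_cases h4 : ∃ F ∈ TF x A, a ∈ F ∧ b ∈ F
  · obtain ⟨F, hF, haF, hbF⟩ := h4
    obtain ⟨f1, f2, f3⟩ := mem_TF.1 hF
    refine lp_lift hφ hE f1 hA f3 haF hbF (fun c₀ h5 => ?_) hc
    by_cases h6 : ∀ i, c₀ i ≤ 1
    · exact lp_ones hφ hE f1 haF hbF hab h5 h6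
    · push Not at h6
      obtain ⟨j, hj⟩ := h6
      have h7 := Finset.single_le_sum (f := c₀) (fun j _ => Nat.zero_le _) (Finset.mem_univ j)
      exact lp_single f1 haF hbF h5 (i := j) (by omega)
  · push Not at h4
    obtain ⟨U₁, U₂, u1, u2, u3, u4, u5⟩ := planar hφ hE hA hr4 ha hb hab
      (fun F hF h => h4 F hF h.1 h.2)
    have hone : ∀ j, j ≠ i → 1 ≤ c j → c j = 1 ∧ ∀ l, l ≠ i → 1 ≤ c l → l = j := by
      intro j hj hcj
      have e1 := sum_two_le' c (Ne.symm hj)
      refine ⟨by omega, fun l hl hcl => ?_⟩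
      by_contra hlj
      have e2 : c i + (c j + c l) ≤ ∑ k, c k := by
        rw [← Finset.add_sum_erase Finset.univ c (Finset.mem_univ i),
          ← Finset.add_sum_erase (Finset.univ.erase i) c
            (Finset.mem_erase.2 ⟨hj, Finset.mem_univ j⟩)]
        have := Finset.single_le_sum (f := c) (fun j _ => Nat.zero_le _)
          (Finset.mem_erase.2 ⟨hlj, Finset.mem_erase.2 ⟨hl, Finset.mem_univ l⟩⟩ :
            l ∈ (Finset.univ.erase i).erase j)
        omega
      omega
    refine ⟨fun j => if j = i then U₁ else U₂, fun j => ?_, fun j hj => ?_,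
      fun j l hjl hj hl => ?_⟩
    · dsimp only
      split_ifs
      · exact u1
      · exact u2
    · by_cases hji : j = i
      · subst hji
        simp only [if_true, hci]
        exact u4
      · simp only [if_neg hji, (hone j hji hj).1]
        exact u5
    · by_cases hji : j = i
      · subst hji
        simp only [if_true, if_neg hjl.symm]
        exact u3
      · by_cases hli : l = i
        · subst hli
          simp only [if_true, if_neg hji]
          rw [Set.inter_comm]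
          exact u3
        · exact absurd ((hone j hji hj).2 l hli hl).symm hjl

end Pool.Agent.Lock
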