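import Mathlib

set_option autoImplicit false

/-!
# Closed pseudomanifolds, retractions to a facet, and Lemke paths
-/

namespace Pool.Agent.Lock

open Relation

/-- A finite family of `d`-sets in which every ridge lies in exactly two members. -/
structure PM (d : ℕ) (K : Set (Finset ℕ)) : Prop where
  fin : K.Finite
  card : ∀ σ ∈ K, σ.card = d
  two : ∀ σ ∈ K, ∀ u ∈ σ, ∃ τ ∈ K, τ ≠ σ ∧ σ.erase u ⊆ τ ∧
    ∀ ρ ∈ K, σ.erase u ⊆ ρ → ρ = σ ∨ ρ = τ

/-- `r` labels the vertices by the elements of `v`; exactly `v` and `w` see all labels, and a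
common element of `v` and `w` is the only one with its label. -/
structure Ret (K : Set (Finset ℕ)) (v w : Finset ℕ) (r : ℕ → ℕ) : Prop where
  mem : ∀ σ ∈ K, ∀ x ∈ σ, r x ∈ v
  fix : ∀ x ∈ v, r x = x
  top : v ⊆ w.image r
  only : ∀ σ ∈ K, v ⊆ σ.image r → σ = v ∨ σ = w
  uniq : ∀ x ∈ v, x ∈ w → ∀ σ ∈ K, ∀ y ∈ σ, r y = x → y = x

/-- Every pair of different members has such a labelling. -/
def Her (K : Set (Finset ℕ)) : Prop := ∀ v ∈ K, ∀ w ∈ K, v ≠ w → ∃ r, Ret K v w r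

theorem inj_of_cover {s t : Finset ℕ} {r : ℕ → ℕ} (h : t ⊆ s.image r) (hc : s.card ≤ t.card) :
    Set.InjOn r s ∧ s.image r = t := by
  have h1 : (s.image r).card ≤ s.card := Finset.card_image_le
  have h2 := Finset.card_le_card h
  have h3 : (s.image r).card = s.card := by omega
  refine ⟨Finset.card_image_iff.1 h3, ?_⟩
  exact (Finset.eq_of_subset_of_card_le h (by omega)).symm

theorem eq_erase {s t : Finset ℕ} (h : s ⊆ t) (hc : s.card + 1 = t.card) :
    ∃ u ∈ t, s = t.erase u := by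
  obtain ⟨u, hu, hus⟩ : ∃ u ∈ t, u ∉ s := by
    by_contra hcon
    push Not at hcon
    have := Finset.card_le_card (show t ⊆ s from hcon)
    omega
  refine ⟨u, hu, ?_⟩
  apply Finset.eq_of_subset_of_card_le
  · intro x hx
    exact Finset.mem_erase.2 ⟨fun h' => hus (h' ▸ hx), h hx⟩
  · rw [Finset.card_erase_of_mem hu]; omega

section lemke

variable {d : ℕ} {K : Set (Finset ℕ)} {v w : Finset ℕ} {r : ℕ → ℕ}

/-- one step of the Lemke path without the label `l` -/
def Stp (K : Set (Finset ℕ)) (v : Finset ℕ) (r : ℕ → ℕ) (l : ℕ) (σ τ : Finset ℕ) : Prop :=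
  σ ∈ K ∧ τ ∈ K ∧ τ ≠ σ ∧ ∃ u ∈ σ, σ.erase u ⊆ τ ∧ v.erase l ⊆ (σ.erase u).image r

theorem Stp.symm (hK : PM d K) {l : ℕ} {σ τ : Finset ℕ} (h : Stp K v r l σ τ) :
    Stp K v r l τ σ := by
  obtain ⟨h1, h2, h3, u, hu, h4, h5⟩ := h
  obtain ⟨u', hu', e⟩ := eq_erase h4 (by
    rw [Finset.card_erase_of_mem hu, hK.card σ h1, hK.card τ h2]
    have := Finset.card_pos.2 ⟨u, hu⟩
    rw [hK.card σ h1] at this
    omega)
  refine ⟨h2, h1, h3.symm, u', hu', ?_, ?_⟩
  · rw [← e]; exact Finset.erase_subset _ _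
  · rw [← e]; exact h5

theorem exits_eq (hK : PM d K) (hr : Ret K v w r) (hv : v ∈ K) {l : ℕ} (hl : l ∈ v)
    {σ : Finset ℕ} (hσ : σ ∈ K) (hns : ¬ v ⊆ σ.image r) :
    Even (σ.filter fun u => v.erase l ⊆ (σ.erase u).image r).card := by
  classical
  by_cases h0 : (σ.filter fun u => v.erase l ⊆ (σ.erase u).image r) = ∅
  · rw [h0]; simp
  obtain ⟨u0, hu0⟩ := Finset.nonempty_iff_ne_empty.2 h0
  obtain ⟨hu0, hg0⟩ := Finset.mem_filter.1 hu0
  have hvc := hK.card v hv
  have hσc := hK.card σ hσ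
  have hd : 0 < d := by rw [← hvc]; exact Finset.card_pos.2 ⟨l, hl⟩
  obtain ⟨hinj, himg⟩ := inj_of_cover hg0 (by
    rw [Finset.card_erase_of_mem hu0, Finset.card_erase_of_mem hl, hvc, hσc])
  have hne : r u0 ≠ l := by
    intro h
    apply hns
    intro x hx
    by_cases hxl : x = l
    · rw [hxl, ← h]; exact Finset.mem_image_of_mem _ hu0
    · exact Finset.image_subset_image (Finset.erase_subset _ _)
        (hg0 (Finset.mem_erase.2 ⟨hxl, hx⟩))
  have h1 : r u0 ∈ (σ.erase u0).image r := hg0 (Finset.mem_erase.2 ⟨hne, hr.mem σ hσ u0 hu0⟩)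
  obtain ⟨u1, hu1, hu10⟩ := Finset.mem_image.1 h1
  obtain ⟨hu1ne, hu1σ⟩ := Finset.mem_erase.1 hu1
  have e : (σ.filter fun u => v.erase l ⊆ (σ.erase u).image r) = {u0, u1} := by
    ext u
    rw [Finset.mem_filter, Finset.mem_insert, Finset.mem_singleton]
    constructor
    · rintro ⟨hu, hg⟩
      by_contra hcon
      push Not at hcon
      have hue : u ∈ σ.erase u0 := Finset.mem_erase.2 ⟨hcon.1, hu⟩
      have h2 : r u ∈ v.erase l := by
        rw [← himg]; exact Finset.mem_image_of_mem _ hue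
      obtain ⟨y, hy, hyu⟩ := Finset.mem_image.1 (hg h2)
      obtain ⟨hyne, hyσ⟩ := Finset.mem_erase.1 hy
      by_cases hy0 : y = u0
      · subst hy0
        exact hcon.2 (hinj (by exact_mod_cast hue) (by exact_mod_cast hu1) (by rw [← hyu, hu10]))
      · exact hyne (hinj (by exact_mod_cast Finset.mem_erase.2 ⟨hy0, hyσ⟩)
          (by exact_mod_cast hue) hyu)
    · rintro (rfl | rfl)
      · exact ⟨hu0, hg0⟩
      · refine ⟨hu1σ, fun x hx => ?_⟩
        obtain ⟨y, hy, hyx⟩ := Finset.mem_image.1 (hg0 hx)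
        obtain ⟨hy0, hyσ⟩ := Finset.mem_erase.1 hy
        by_cases hyu : y = u
        · subst hyu
          exact Finset.mem_image.2 ⟨u0, Finset.mem_erase.2 ⟨hu1ne.symm, hu0⟩,
            by rw [← hu10, hyx]⟩
        · exact Finset.mem_image.2 ⟨y, Finset.mem_erase.2 ⟨hyu, hyσ⟩, hyx⟩
  rw [e, Finset.card_pair hu1ne.symm]
  exact even_two

theorem exits_v (hr : Ret K v w r) {l : ℕ} (hl : l ∈ v) :
    (v.filter fun u => v.erase l ⊆ (v.erase u).image r) = {l} := by
  ext u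
  rw [Finset.mem_filter, Finset.mem_singleton]
  constructor
  · rintro ⟨hu, hg⟩
    by_contra hne
    obtain ⟨y, hy, hyu⟩ := Finset.mem_image.1 (hg (Finset.mem_erase.2 ⟨hne, hu⟩))
    obtain ⟨h1, h2⟩ := Finset.mem_erase.1 hy
    rw [hr.fix y h2] at hyu
    exact h1 hyu
  · rintro rfl
    refine ⟨hl, fun x hx => Finset.mem_image.2 ⟨x, hx, hr.fix x (Finset.mem_of_mem_erase hx)⟩⟩

/-- The Lemke path without the label `l` leads from `v` to `w`. -/
theorem lemke (hK : PM d K) (hr : Ret K v w r) (hv : v ∈ K) {l : ℕ}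
    (hl : l ∈ v) : ReflTransGen (Stp K v r l) v w := by
  classical
  by_contra hcon
  set T : Finset (Finset ℕ) := hK.fin.toFinset.filter fun σ => ReflTransGen (Stp K v r l) v σ
    with hT
  have hTm : ∀ σ, σ ∈ T ↔ σ ∈ K ∧ ReflTransGen (Stp K v r l) v σ := by
    intro σ
    rw [hT, Finset.mem_filter, Set.Finite.mem_toFinset]
  have hvc := hK.card v hv
  have hd : 0 < d := by rw [← hvc]; exact Finset.card_pos.2 ⟨l, hl⟩
  set good : Finset ℕ → Prop := fun ρ => v.erase l ⊆ ρ.image r with hgood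
  set R : Finset (Finset ℕ) := (T.biUnion fun σ => σ.image fun u => σ.erase u).filter good
    with hR
  have hRm : ∀ ρ, ρ ∈ R ↔ (∃ σ ∈ T, ∃ u ∈ σ, σ.erase u = ρ) ∧ good ρ := by
    intro ρ
    rw [hR, Finset.mem_filter, Finset.mem_biUnion]
    simp only [Finset.mem_image]
  have key := Finset.sum_card_bipartiteAbove_eq_sum_card_bipartiteBelow
    (s := T) (t := R) (fun σ ρ => ρ ⊆ σ)
  -- the right side is even
  have hE : Even (∑ ρ ∈ R, (T.bipartiteBelow (fun σ ρ => ρ ⊆ σ) ρ).card) := by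
    apply Finset.even_sum
    intro ρ hρ
    obtain ⟨⟨σ, hσ, u, hu, hρu⟩, hg⟩ := (hRm ρ).1 hρ
    obtain ⟨hσK, hσr⟩ := (hTm σ).1 hσ
    obtain ⟨τ, hτ, hne, hsub, huniq⟩ := hK.two σ hσK u hu
    have hτT : τ ∈ T := (hTm τ).2 ⟨hτ, hσr.tail ⟨hσK, hτ, hne, u, hu, hsub, by
      rw [hρu]; exact hg⟩⟩
    have e : T.bipartiteBelow (fun σ ρ => ρ ⊆ σ) ρ = {σ, τ} := by
      ext κ
      rw [Finset.mem_bipartiteBelow, Finset.mem_insert, Finset.mem_singleton]
      constructor
      · rintro ⟨h1, h2⟩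
        exact huniq κ ((hTm κ).1 h1).1 (by rw [hρu]; exact h2)
      · rintro (rfl | rfl)
        · exact ⟨hσ, by rw [← hρu]; exact Finset.erase_subset _ _⟩
        · exact ⟨hτT, by rw [← hρu]; exact hsub⟩
    rw [e, Finset.card_pair hne.symm]
    exact even_two
  have hab : ∀ σ ∈ T, (R.bipartiteAbove (fun σ ρ => ρ ⊆ σ) σ).card =
      (σ.filter fun u => v.erase l ⊆ (σ.erase u).image r).card := by
    intro σ hσ
    symm
    apply Finset.card_bij (fun u _ => σ.erase u)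
    · intro u hu
      obtain ⟨hu1, hu2⟩ := Finset.mem_filter.1 hu
      rw [Finset.mem_bipartiteAbove]
      exact ⟨(hRm _).2 ⟨⟨σ, hσ, u, hu1, rfl⟩, hu2⟩, Finset.erase_subset _ _⟩
    · intro u hu u' hu' h
      obtain ⟨hu1, -⟩ := Finset.mem_filter.1 hu
      by_contra hne
      have : u ∈ σ.erase u' := Finset.mem_erase.2 ⟨hne, hu1⟩
      rw [← h] at this
      exact Finset.notMem_erase u σ this
    · intro ρ hρ
      rw [Finset.mem_bipartiteAbove] at hρ
      obtain ⟨h1, h2⟩ := hρ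
      obtain ⟨⟨σ', hσ', u', hu', hρu⟩, hg⟩ := (hRm ρ).1 h1
      obtain ⟨u, hu, e⟩ := eq_erase h2 (by
        rw [← hρu, Finset.card_erase_of_mem hu', hK.card σ' ((hTm σ').1 hσ').1,
          hK.card σ ((hTm σ).1 hσ).1]
        omega)
      exact ⟨u, Finset.mem_filter.2 ⟨hu, by rw [← e]; exact hg⟩, e.symm⟩
  rw [Finset.sum_congr rfl hab] at key
  have hvT : v ∈ T := (hTm v).2 ⟨hv, ReflTransGen.refl⟩
  rw [← Finset.add_sum_erase _ _ hvT, exits_v hr hl, Finset.card_singleton] at key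
  have hE2 : Even (∑ σ ∈ T.erase v, (σ.filter fun u => v.erase l ⊆ (σ.erase u).image r).card) := by
    apply Finset.even_sum
    intro σ hσ
    obtain ⟨h1, h2⟩ := Finset.mem_erase.1 hσ
    obtain ⟨h3, h4⟩ := (hTm σ).1 h2
    apply exits_eq hK hr hv hl h3
    intro h5
    rcases hr.only σ h3 h5 with h6 | h6
    · exact h1 h6
    · exact hcon (h6 ▸ h4)
  rw [← key] at hE
  have := (Nat.even_add.1 hE).2 hE2
  exact absurd this (by decide)

end lemke

end Pool.Agent.Lock
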