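import Pool.Agent.Lock.Step
import Pool.Agent.Lock.Retr

set_option autoImplicit false

/-!
# Simple polytopes: disjoint thick paths from a retraction
-/

namespace Pool.Agent.Lock

open Module Relation

variable {ι : Type*} {V : Type*} [AddCommGroup V] [Module ℝ V] {x : ι → V}

/-- The sets `B j` cut out the face `A` of the configuration with the combinatorial type dual to
`K`. -/
structure Typ (x : ι → V) (A : Set ι) (K : Set (Finset ℕ)) (B : ℕ → Set ι) : Prop where
  face : ∀ j, (B j).Nonempty → Face x (B j)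
  sub : ∀ j, B j ⊆ A
  ex : ∀ i ∈ A, ∃ σ ∈ K, ∀ j, j ∈ σ ↔ i ∈ B j
  sur : ∀ σ ∈ K, ∃ i ∈ A, ∀ j, j ∈ σ ↔ i ∈ B j

/-- The face given by the facets in `J`. -/
def fc (A : Set ι) (B : ℕ → Set ι) (J : Finset ℕ) : Set ι := {i | i ∈ A ∧ ∀ j ∈ J, i ∈ B j}

theorem fc_empty (A : Set ι) (B : ℕ → Set ι) : fc A B ∅ = A := by
  ext i; simp [fc]

theorem fc_insert (A : Set ι) (B : ℕ → Set ι) (u : ℕ) (J : Finset ℕ) :
    fc A B (insert u J) = B u ∩ fc A B J := by
  ext i
  simp only [fc, Finset.mem_insert, forall_eq_or_imp, Set.mem_setOf_eq, Set.mem_inter_iff]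
  tauto

theorem fc_anti {A : Set ι} {B : ℕ → Set ι} {J J' : Finset ℕ} (h : J ⊆ J') :
    fc A B J' ⊆ fc A B J := fun _ hi => ⟨hi.1, fun j hj => hi.2 j (h hj)⟩

variable {A : Set ι} {K : Set (Finset ℕ)} {B : ℕ → Set ι}

theorem fc_face (hA : Face x A) (hT : Typ x A K B) {σ : Finset ℕ} (hσ : σ ∈ K) (J : Finset ℕ)
    (hJ : J ⊆ σ) : Face x (fc A B J) := by
  obtain ⟨i, hi, hij⟩ := hT.sur σ hσ
  induction J using Finset.induction_on with
  | empty => rw [fc_empty]; exact hA
  | insert u J hu ih =>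
    rw [fc_insert]
    exact (hT.face u ⟨i, (hij u).1 (hJ (Finset.mem_insert_self u J))⟩).inter
      (ih ((Finset.subset_insert u J).trans hJ))

theorem fc_strict {d : ℕ} (hK : PM d K) (hT : Typ x A K B) {σ : Finset ℕ} (hσ : σ ∈ K)
    {J : Finset ℕ} {u : ℕ} (hu : u ∉ J) (hJ : insert u J ⊆ σ) :
    fc A B (insert u J) ⊂ fc A B J := by
  refine ⟨fc_anti (Finset.subset_insert u J), fun h => ?_⟩
  have huσ : u ∈ σ := hJ (Finset.mem_insert_self u J)
  obtain ⟨τ, hτ, hne, hsub, -⟩ := hK.two σ hσ u huσ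
  obtain ⟨i, hi, hij⟩ := hT.sur τ hτ
  have h1 : i ∈ fc A B J := ⟨hi, fun j hj => (hij j).1 (hsub (Finset.mem_erase.2
    ⟨fun e => hu (e ▸ hj), hJ (Finset.mem_insert_of_mem hj)⟩))⟩
  have h2 : u ∈ τ := (hij u).2 ((h h1).2 u (Finset.mem_insert_self u J))
  apply hne
  symm
  apply Finset.eq_of_subset_of_card_le
  · intro y hy
    by_cases hyu : y = u
    · rw [hyu]; exact h2
    · exact hsub (Finset.mem_erase.2 ⟨hyu, hy⟩)
  · rw [hK.card σ hσ, hK.card τ hτ]

section rank

variable [FiniteDimensional ℝ V] [Finite ι] {φ : V →ₗ[ℝ] ℝ}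

omit [Finite ι] in
/-- the dimension of the faces -/
theorem fc_rk (hE : AllExt x) {d : ℕ} (hK : PM d K) (hA : Face x A) (hT : Typ x A K B)
    (hr : rk x A = d + 1) {σ : Finset ℕ} (hσ : σ ∈ K) {J : Finset ℕ} (hJ : J ⊆ σ) :
    rk x (fc A B J) + J.card = d + 1 := by
  have upper : ∀ J : Finset ℕ, J ⊆ σ → rk x (fc A B J) + J.card ≤ d + 1 := by
    intro J
    induction J using Finset.induction_on with
    | empty => intro _; rw [fc_empty, hr]; simp
    | insert u J hu ih =>
      intro hJ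
      have h1 := ih ((Finset.subset_insert u J).trans hJ)
      have h2 := rk_lt (fc_face hA hT hσ _ hJ) (fc_strict hK hT hσ hu hJ)
      rw [Finset.card_insert_of_notMem hu]
      omega
  have lower : ∀ n : ℕ, ∀ J : Finset ℕ, J ⊆ σ → (σ \ J).card = n →
      n + 1 ≤ rk x (fc A B J) := by
    intro n
    induction n with
    | zero =>
      intro J hJ hn
      obtain ⟨i, hi, hij⟩ := hT.sur σ hσ
      have h1 : ({i} : Set ι) ⊆ fc A B J := by
        rintro _ rfl
        exact ⟨hi, fun j hj => (hij j).1 (hJ hj)⟩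
      have h2 := rk_mono (x := x) h1
      rw [(hE i).2] at h2
      omega
    | succ n ih =>
      intro J hJ hn
      obtain ⟨u, hu⟩ : (σ \ J).Nonempty := by
        rw [← Finset.card_pos]; omega
      obtain ⟨huσ, huJ⟩ := Finset.mem_sdiff.1 hu
      have hJ' : insert u J ⊆ σ := Finset.insert_subset huσ hJ
      have h1 := ih (insert u J) hJ' (by
        have e : σ \ insert u J = (σ \ J).erase u := by
          ext y
          simp only [Finset.mem_sdiff, Finset.mem_insert, Finset.mem_erase]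
          tauto
        rw [e, Finset.card_erase_of_mem hu, hn]
        rfl)
      have h2 := rk_lt (fc_face hA hT hσ _ hJ') (fc_strict hK hT hσ huJ hJ')
      omega
  have h1 := upper J hJ
  have h2 := lower _ J hJ rfl
  have h3 := Finset.card_sdiff_add_card_eq_card hJ
  rw [hK.card σ hσ] at h3
  omega

variable {v w : Finset ℕ} {r : ℕ → ℕ}

/-- The vertices that see all labels outside `D`. -/
def see (A : Set ι) (B : ℕ → Set ι) (r : ℕ → ℕ) (C : Finset ℕ) : Set ι :=
  {i | i ∈ A ∧ ∀ c ∈ C, ∃ y, i ∈ B y ∧ r y = c}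

omit [Finite ι] in
/-- The thick path of a block `D` of labels. -/
theorem block_path (hE : AllExt x) {d : ℕ} (hK : PM d K) (hA : Face x A) (hT : Typ x A K B)
    (hrk : rk x A = d + 1) (hr : Ret K v w r) (hv : v ∈ K) (hw : w ∈ K) {a b : ι} (ha : a ∈ A)
    (hav : ∀ j, j ∈ v ↔ a ∈ B j) (hb : b ∈ A) (hbw : ∀ j, j ∈ w ↔ b ∈ B j) {D : Finset ℕ}
    (hD : D ⊆ v) (hDne : D.Nonempty) : PathIn x (see A B r (v \ D)) D.card a b := by
  classical
  obtain ⟨l, hlD⟩ := hDne
  have hl : l ∈ v := hD hlD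
  set C := v \ D with hC
  have hCv : C ⊆ v := Finset.sdiff_subset
  have hCl : C ⊆ v.erase l := fun c hc => by
    rw [hC, Finset.mem_sdiff] at hc
    exact Finset.mem_erase.2 ⟨fun h => hc.2 (h ▸ hlD), hc.1⟩
  have hvc := hK.card v hv
  have hCc : C.card + D.card = d := by
    rw [← hvc]; exact Finset.card_sdiff_add_card_eq_card hD
  have hDpos : 0 < D.card := Finset.card_pos.2 ⟨l, hlD⟩
  -- the face of a ridge
  set Jf : Finset ℕ → Finset ℕ := fun ρ => ρ.filter fun y => r y ∈ C with hJf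
  have hJsub : ∀ ρ, Jf ρ ⊆ ρ := fun ρ => Finset.filter_subset _ _
  have hJcard : ∀ σ ∈ K, ∀ u ∈ σ, v.erase l ⊆ (σ.erase u).image r →
      (Jf (σ.erase u)).card = C.card := by
    intro σ hσ u hu hg
    obtain ⟨hinj, himg⟩ := inj_of_cover hg (by
      rw [Finset.card_erase_of_mem hu, Finset.card_erase_of_mem hl, hvc, hK.card σ hσ])
    have e : (Jf (σ.erase u)).image r = C := by
      ext c
      rw [Finset.mem_image]
      constructor
      · rintro ⟨y, hy, rfl⟩
        exact (Finset.mem_filter.1 hy).2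
      · intro hc
        obtain ⟨y, hy, hyc⟩ := Finset.mem_image.1 (hg (hCl hc))
        exact ⟨y, Finset.mem_filter.2 ⟨hy, by rw [hyc]; exact hc⟩, hyc⟩
    rw [← e, Finset.card_image_of_injOn]
    exact hinj.mono (by exact_mod_cast hJsub _)
  have hgood : ∀ σ ∈ K, ∀ u ∈ σ, v.erase l ⊆ (σ.erase u).image r →
      Good x (see A B r C) D.card (fc A B (Jf (σ.erase u))) := by
    intro σ hσ u hu hg
    have hs : Jf (σ.erase u) ⊆ σ := (hJsub _).trans (Finset.erase_subset _ _)
    refine ⟨fc_face hA hT hσ _ hs, ?_, ?_⟩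
    · intro i hi
      refine ⟨hi.1, fun c hc => ?_⟩
      obtain ⟨y, hy, hyc⟩ := Finset.mem_image.1 (hg (hCl hc))
      exact ⟨y, hi.2 y (Finset.mem_filter.2 ⟨hy, by rw [hyc]; exact hc⟩), hyc⟩
    · have h1 := fc_rk hE hK hA hT hrk hσ hs
      rw [hJcard σ hσ u hu hg] at h1
      omega
  have hJv : Jf (v.erase l) = C := by
    ext c
    rw [hJf, Finset.mem_filter]
    constructor
    · rintro ⟨h1, h2⟩
      rwa [hr.fix c (Finset.mem_of_mem_erase h1)] at h2
    · intro hc
      exact ⟨hCl hc, by rwa [hr.fix c (hCv hc)]⟩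
  have hgv : v.erase l ⊆ (v.erase l).image r := fun y hy =>
    Finset.mem_image.2 ⟨y, hy, hr.fix y (Finset.mem_of_mem_erase hy)⟩
  have hstart : Good x (see A B r C) D.card (fc A B C) := by
    have := hgood v hv l hl hgv
    rwa [hJv] at this
  -- all exits of the facets on the path are reached
  have main : ∀ σ, ReflTransGen (Stp K v r l) v σ → σ ∈ K ∧ ∀ u ∈ σ,
      v.erase l ⊆ (σ.erase u).image r →
      Reach x (see A B r C) D.card (fc A B C) (fc A B (Jf (σ.erase u))) := by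
    intro σ h
    induction h with
    | refl =>
      refine ⟨hv, fun u hu hg => ?_⟩
      have : u ∈ v.filter fun u => v.erase l ⊆ (v.erase u).image r :=
        Finset.mem_filter.2 ⟨hu, hg⟩
      rw [exits_v hr hl, Finset.mem_singleton] at this
      rw [this, hJv]
      exact Reach.refl' hstart
    | tail _ h ih =>
      rename_i σ τ _
      obtain ⟨hσ, hτ, hne, u, hu, hsub, hg⟩ := h
      refine ⟨hτ, fun u' hu' hg' => ?_⟩
      have h1 := ih.2 u hu hg
      refine h1.trans ?_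
      by_cases hJJ : Jf (σ.erase u) = Jf (τ.erase u')
      · rw [← hJJ]
        exact Reach.refl' (hgood σ hσ u hu hg)
      · have s1 : Jf (σ.erase u) ⊆ Jf τ := Finset.filter_subset_filter _ hsub
        have s2 : Jf (τ.erase u') ⊆ Jf τ :=
          Finset.filter_subset_filter _ (Finset.erase_subset _ _)
        have c1 := hJcard σ hσ u hu hg
        have c2 := hJcard τ hτ u' hu' hg'
        have c3 : (Jf τ).card ≤ C.card + 1 := by
          have : Jf τ ⊆ insert u' (Jf (τ.erase u')) := by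
            intro y hy
            obtain ⟨h2, h3⟩ := Finset.mem_filter.1 hy
            by_cases hyu : y = u'
            · rw [hyu]; exact Finset.mem_insert_self _ _
            · exact Finset.mem_insert_of_mem (Finset.mem_filter.2
                ⟨Finset.mem_erase.2 ⟨hyu, h2⟩, h3⟩)
          refine (Finset.card_le_card this).trans ((Finset.card_insert_le _ _).trans ?_)
          omega
        have c4 : C.card < (Jf τ).card := by
          by_contra hcon
          push Not at hcon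
          apply hJJ
          rw [Finset.eq_of_subset_of_card_le s1 (by omega),
            Finset.eq_of_subset_of_card_le s2 (by omega)]
        have hrkτ := fc_rk hE hK hA hT hrk hτ (hJsub τ)
        exact reach_of_common (hgood σ hσ u hu hg) (hgood τ hτ u' hu' hg') (fc_anti s1)
          (fc_anti s2) (by omega)
  have hw' := main w (lemke hK hr hv hl)
  -- the last exit
  obtain ⟨u, hu, hg⟩ : ∃ u ∈ w, v.erase l ⊆ (w.erase u).image r := by
    obtain ⟨u, hu, hul⟩ := Finset.mem_image.1 (hr.top hl)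
    refine ⟨u, hu, fun y hy => ?_⟩
    obtain ⟨hyl, hyv⟩ := Finset.mem_erase.1 hy
    obtain ⟨z, hz, hzy⟩ := Finset.mem_image.1 (hr.top hyv)
    refine Finset.mem_image.2 ⟨z, Finset.mem_erase.2 ⟨fun h => hyl ?_, hz⟩, hzy⟩
    rw [← hzy, h, hul]
  refine ⟨fc A B C, fc A B (Jf (w.erase u)), ⟨ha, fun j hj => (hav j).1 (hCv hj)⟩,
    ⟨hb, fun j hj => (hbw j).1 (Finset.mem_of_mem_erase (hJsub _ hj))⟩, hw'.2 u hu hg⟩

end rank

/-- blocks of given sizes -/
theorem exists_blocks {κ : Type*} [Fintype κ] (c : κ → ℕ) (v : Finset ℕ)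
    (h : ∑ i, c i = v.card) : ∃ D : κ → Finset ℕ, (∀ i, D i ⊆ v) ∧ (∀ i, (D i).card = c i) ∧
      ∀ i j, i ≠ j → Disjoint (D i) (D j) := by
  classical
  have hc : Fintype.card v = Fintype.card (Σ i, Fin (c i)) := by
    rw [Fintype.card_coe, Fintype.card_sigma, ← h]
    simp
  set e : v ≃ Σ i, Fin (c i) := Fintype.equivOfCardEq hc
  refine ⟨fun i => Finset.univ.image fun k : Fin (c i) => ((e.symm ⟨i, k⟩ : v) : ℕ), ?_, ?_, ?_⟩
  · intro i x hx
    obtain ⟨k, -, rfl⟩ := Finset.mem_image.1 hx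
    exact (e.symm ⟨i, k⟩).2
  · intro i
    rw [Finset.card_image_of_injective, Finset.card_univ, Fintype.card_fin]
    intro k k' hk
    have h1 := e.symm.injective (Subtype.ext hk)
    simpa using h1
  · intro i j hij
    rw [Finset.disjoint_left]
    intro x hx hx'
    obtain ⟨k, -, rfl⟩ := Finset.mem_image.1 hx
    obtain ⟨k', -, h2⟩ := Finset.mem_image.1 hx'
    have h1 := e.symm.injective (Subtype.ext h2)
    exact hij (congrArg Sigma.fst h1).symm

/-- The disjoint paths in a simple polytope. -/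
theorem lp_simple [FiniteDimensional ℝ V] [Finite ι] (hE : AllExt x) {d : ℕ} (hK : PM d K)
    (hH : Her K) (hA : Face x A) (hT : Typ x A K B) (hrk : rk x A = d + 1) {a b : ι}
    (ha : a ∈ A) (hb : b ∈ A) (hab : a ≠ b) {κ : Type*} [Fintype κ] (c : κ → ℕ)
    (hs : ∑ i, c i = d) : LP x A a b c := by
  classical
  obtain ⟨v, hv, hav⟩ := hT.ex a ha
  obtain ⟨w, hw, hbw⟩ := hT.ex b hb
  -- a vertex is determined by its facets
  have huniq : ∀ σ ∈ K, ∀ i ∈ A, ∀ i' ∈ A, (∀ j, j ∈ σ ↔ i ∈ B j) → (∀ j, j ∈ σ ↔ i' ∈ B j) →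
      i = i' := by
    intro σ hσ i hi i' hi' h h'
    have h1 := fc_rk hE hK hA hT hrk hσ (Finset.Subset.refl σ)
    rw [hK.card σ hσ] at h1
    have h2 : i ∈ fc A B σ := ⟨hi, fun j hj => (h j).1 hj⟩
    have h3 : i' ∈ fc A B σ := ⟨hi', fun j hj => (h' j).1 hj⟩
    have h4 := atom_single hE ⟨fc_face hA hT hσ σ (Finset.Subset.refl σ), by omega⟩ h2
    rw [h4] at h3
    exact h3.symm
  have hvw : v ≠ w := by
    rintro rfl
    exact hab (huniq v hv a ha b hb hav hbw)
  obtain ⟨r, hr⟩ := hH v hv w hw hvw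
  obtain ⟨D, hDv, hDc, hDd⟩ := exists_blocks c v (by rw [hs, hK.card v hv])
  refine ⟨fun i => see A B r (v \ D i), fun i j hj => hj.1, fun i hi => ?_,
    fun i j hij hi hj => ?_⟩
  · have := block_path hE hK hA hT hrk hr hv hw ha hav hb hbw (hDv i)
      (Finset.card_pos.1 (by rw [hDc]; exact hi))
    rwa [hDc] at this
  · rintro k ⟨hk, hk'⟩
    obtain ⟨σ, hσ, hkσ⟩ := hT.ex k hk.1
    have h1 : v ⊆ σ.image r := by
      intro y hy
      have : y ∈ v \ D i ∨ y ∈ v \ D j := by
        by_cases h : y ∈ D i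
        · right
          exact Finset.mem_sdiff.2 ⟨hy, Finset.disjoint_left.1 (hDd i j hij) h⟩
        · left
          exact Finset.mem_sdiff.2 ⟨hy, h⟩
      rcases this with h | h
      · obtain ⟨z, hz, hzy⟩ := hk.2 y h
        exact Finset.mem_image.2 ⟨z, (hkσ z).2 hz, hzy⟩
      · obtain ⟨z, hz, hzy⟩ := hk'.2 y h
        exact Finset.mem_image.2 ⟨z, (hkσ z).2 hz, hzy⟩
    rcases hr.only σ hσ h1 with h2 | h2
    · left
      exact huniq σ hσ k hk.1 a ha hkσ (h2 ▸ hav)
    · right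
      exact huniq σ hσ k hk.1 b hb hkσ (h2 ▸ hbw)

end Pool.Agent.Lock
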