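import Pool.Agent.Lock.Wedge

set_option autoImplicit false

/-!
# Replacing the star of a face
-/

namespace Pool.Agent.Lock

variable {d : ℕ} {K L : Set (Finset ℕ)} {F : Finset ℕ}

/-- The members of `K` that contain `F` are replaced: `F` is exchanged for the other members of
`L`. -/
def subst (K : Set (Finset ℕ)) (F : Finset ℕ) (L : Set (Finset ℕ)) : Set (Finset ℕ) :=
  {ρ | (ρ ∈ K ∧ ¬ F ⊆ ρ) ∨ ∃ σ ∈ K, F ⊆ σ ∧ ∃ τ ∈ L, τ ≠ F ∧ ρ = τ ∪ (σ \ F)}

theorem sub_or_eq {s t : Finset ℕ} (hc : s.card = t.card) (h : s ≠ t) : ∃ y ∈ s, y ∉ t :=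
  exists_mem_notMem h hc

/-- standing assumptions -/
structure Sub (d : ℕ) (K : Set (Finset ℕ)) (F : Finset ℕ) (L : Set (Finset ℕ)) : Prop where
  pmK : PM d K
  pmL : PM F.card L
  mem : F ∈ L
  new : ∀ τ ∈ L, ∀ σ ∈ K, ∀ x ∈ τ, x ∈ σ → x ∈ F
  ex : ∃ σ ∈ K, F ⊆ σ

variable (h : Sub d K F L)

include h

theorem Sub.new' {τ σ : Finset ℕ} (hτ : τ ∈ L) (hτF : τ ≠ F) :
    ∃ y ∈ τ, y ∉ F ∧ ∀ σ ∈ K, y ∉ σ := by
  obtain ⟨y, hy, hyF⟩ := sub_or_eq (by rw [h.pmL.card τ hτ]) hτF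
  exact ⟨y, hy, hyF, fun σ hσ hyσ => hyF (h.new τ hτ σ hσ y hy hyσ)⟩

theorem Sub.card_two {σ τ : Finset ℕ} (hσ : σ ∈ K) (hF : F ⊆ σ) (hτ : τ ∈ L) :
    (τ ∪ (σ \ F)).card = d := by
  rw [Finset.card_union_of_disjoint, h.pmL.card τ hτ, add_comm,
    Finset.card_sdiff_add_card_eq_card hF, h.pmK.card σ hσ]
  rw [Finset.disjoint_left]
  intro x hx hx'
  obtain ⟨h1, h2⟩ := Finset.mem_sdiff.1 hx'
  exact h2 (h.new τ hτ σ hσ x hx h1)

/-- a subset of a new member -/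
theorem Sub.sub_two {σ σ' τ τ' A : Finset ℕ} (hσ' : σ' ∈ K) (hτ : τ ∈ L)
    (hA : A ⊆ τ) (hsub : A ⊆ τ' ∪ (σ' \ F)) : A ⊆ τ' := by
  intro y hy
  rcases Finset.mem_union.1 (hsub hy) with h1 | h1
  · exact h1
  · obtain ⟨h2, h3⟩ := Finset.mem_sdiff.1 h1
    exact absurd (h.new τ hτ σ' hσ' y (hA hy) h2) h3

theorem Sub.sub_two' {σ σ' τ' A : Finset ℕ} (hσ : σ ∈ K) (hF' : F ⊆ σ') (hτ' : τ' ∈ L)
    (hA : A ⊆ σ) (hsub : A ⊆ τ' ∪ (σ' \ F)) : A ⊆ σ' := by
  intro y hy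
  rcases Finset.mem_union.1 (hsub hy) with h1 | h1
  · exact hF' (h.new τ' hτ' σ hσ y h1 (hA hy))
  · exact (Finset.mem_sdiff.1 h1).1

theorem pm_subst : PM d (subst K F L) := by
  classical
  refine ⟨?_, ?_, ?_⟩
  · have h1 := h.pmK.fin.union (h.pmL.fin.image2 (fun τ σ => τ ∪ (σ \ F)) h.pmK.fin)
    refine h1.subset ?_
    rintro ρ (⟨hρ, -⟩ | ⟨σ, hσ, -, τ, hτ, -, rfl⟩)
    · exact Or.inl hρ
    · exact Or.inr ⟨τ, hτ, σ, hσ, rfl⟩
  · rintro ρ (⟨hρ, -⟩ | ⟨σ, hσ, hF, τ, hτ, -, rfl⟩)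
    · exact h.pmK.card ρ hρ
    · exact h.card_two hσ hF hτ
  · rintro ρ (⟨hρ, hFρ⟩ | ⟨σ, hσ, hF, τ, hτ, hτF, rfl⟩) u hu
    · obtain ⟨ρ', hρ', hne, hsub, huniq⟩ := h.pmK.two ρ hρ u hu
      by_cases hF' : F ⊆ ρ'
      · -- the other member is replaced
        obtain ⟨x, hx, e⟩ := eq_erase hsub (by
          rw [Finset.card_erase_of_mem hu, h.pmK.card ρ hρ, h.pmK.card ρ' hρ']
          have := Finset.card_pos.2 ⟨u, hu⟩
          rw [h.pmK.card ρ hρ] at this
          omega)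
        have hxF : x ∈ F := by
          by_contra hn
          apply hFρ
          intro y hy
          have : y ∈ ρ'.erase x := Finset.mem_erase.2 ⟨fun e => hn (e ▸ hy), hF' hy⟩
          rw [← e] at this
          exact Finset.mem_of_mem_erase this
        obtain ⟨τ, hτ, hτne, hτsub, hτuniq⟩ := h.pmL.two F h.mem x hxF
        refine ⟨τ ∪ (ρ' \ F), Or.inr ⟨ρ', hρ', hF', τ, hτ, hτne, rfl⟩, ?_, ?_, ?_⟩
        · intro e'
          obtain ⟨y, hy, -, hyK⟩ := h.new' (σ := ρ) hτ hτne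
          apply hyK ρ hρ
          rw [← e']
          exact Finset.mem_union_left _ hy
        · rw [e]
          intro y hy
          obtain ⟨h1, h2⟩ := Finset.mem_erase.1 hy
          by_cases hyF : y ∈ F
          · exact Finset.mem_union_left _ (hτsub (Finset.mem_erase.2 ⟨h1, hyF⟩))
          · exact Finset.mem_union_right _ (Finset.mem_sdiff.2 ⟨h2, hyF⟩)
        · rintro κ (⟨hκ, hFκ⟩ | ⟨σ'', hσ'', hF'', τ'', hτ'', hτ''F, rfl⟩) hs
          · left
            exact (huniq κ hκ hs).resolve_right fun e' => hFκ (e' ▸ hF')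
          · right
            have h1 := h.sub_two' hρ hF'' hτ'' (Finset.erase_subset u ρ) hs
            have h2 := (huniq σ'' hσ'' h1).resolve_left fun e' => hFρ (e' ▸ hF'')
            rw [h2] at hs ⊢
            rw [e] at hs
            have h3 : F.erase x ⊆ τ'' := by
              intro y hy
              obtain ⟨h4, h5⟩ := Finset.mem_erase.1 hy
              rcases Finset.mem_union.1 (hs (Finset.mem_erase.2 ⟨h4, hF' h5⟩)) with h6 | h6
              · exact h6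
              · exact absurd h5 (Finset.mem_sdiff.1 h6).2
            rw [(hτuniq τ'' hτ'' h3).resolve_left hτ''F]
      · refine ⟨ρ', Or.inl ⟨hρ', hF'⟩, hne, hsub, ?_⟩
        rintro κ (⟨hκ, hFκ⟩ | ⟨σ'', hσ'', hF'', τ'', hτ'', hτ''F, rfl⟩) hs
        · exact huniq κ hκ hs
        · exfalso
          have h1 := h.sub_two' hρ hF'' hτ'' (Finset.erase_subset u ρ) hs
          rcases huniq σ'' hσ'' h1 with e' | e'
          · exact hFρ (e' ▸ hF'')
          · exact hF' (e' ▸ hF'')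
    · have hdis : ∀ y ∈ τ, y ∉ σ \ F := fun y hy hy' => by
        obtain ⟨h1, h2⟩ := Finset.mem_sdiff.1 hy'
        exact h2 (h.new τ hτ σ hσ y hy h1)
      by_cases huτ : u ∈ τ
      · -- remove an element of `τ`
        have e0 : (τ ∪ (σ \ F)).erase u = τ.erase u ∪ (σ \ F) := by
          ext y
          simp only [Finset.mem_erase, Finset.mem_union]
          constructor
          · rintro ⟨h1, h2 | h2⟩
            · exact Or.inl ⟨h1, h2⟩
            · exact Or.inr h2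
          · rintro (⟨h1, h2⟩ | h2)
            · exact ⟨h1, Or.inl h2⟩
            · exact ⟨fun e' => hdis u huτ (e' ▸ h2), Or.inr h2⟩
        rw [e0]
        obtain ⟨τ', hτ', hne, hsub, huniq⟩ := h.pmL.two τ hτ u huτ
        by_cases hτ'F : τ' = F
        · subst hτ'F
          rename' τ' => F
          obtain ⟨x, hx, e⟩ := eq_erase hsub (by
            rw [Finset.card_erase_of_mem huτ, h.pmL.card τ hτ]
            have := Finset.card_pos.2 ⟨u, huτ⟩
            rw [h.pmL.card τ hτ] at this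
            omega)
          have e1 : τ.erase u ∪ (σ \ F) = σ.erase x := by
            rw [e]
            ext y
            simp only [Finset.mem_erase, Finset.mem_union, Finset.mem_sdiff]
            constructor
            · rintro (⟨h1, h2⟩ | ⟨h1, h2⟩)
              · exact ⟨h1, hF h2⟩
              · exact ⟨fun e' => h2 (e' ▸ hx), h1⟩
            · rintro ⟨h1, h2⟩
              by_cases hyF : y ∈ F
              · exact Or.inl ⟨h1, hyF⟩
              · exact Or.inr ⟨h2, hyF⟩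
          rw [e1]
          obtain ⟨σ', hσ', hne', hsub', huniq'⟩ := h.pmK.two σ hσ x (hF hx)
          have hFσ' : ¬ F ⊆ σ' := by
            intro hF'
            apply hne'
            symm
            apply eq_of_subset_pm h.pmK hσ hσ'
            intro y hy
            by_cases hyx : y = x
            · rw [hyx]; exact hF' hx
            · exact hsub' (Finset.mem_erase.2 ⟨hyx, hy⟩)
          refine ⟨σ', Or.inl ⟨hσ', hFσ'⟩, ?_, hsub', ?_⟩
          · intro e'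
            obtain ⟨y, hy, -, hyK⟩ := h.new' (σ := σ) hτ hτF
            apply hyK σ' hσ'
            rw [e']
            exact Finset.mem_union_left _ hy
          · rintro κ (⟨hκ, hFκ⟩ | ⟨σ'', hσ'', hF'', τ'', hτ'', hτ''F, rfl⟩) hs
            · right
              exact (huniq' κ hκ hs).resolve_left fun e' => hFκ (e' ▸ hF)
            · left
              have h3 : F.erase x ⊆ τ'' := by
                intro y hy
                obtain ⟨h4, h5⟩ := Finset.mem_erase.1 hy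
                rcases Finset.mem_union.1 (hs (Finset.mem_erase.2 ⟨h4, hF h5⟩)) with h6 | h6
                · exact h6
                · exact absurd h5 (Finset.mem_sdiff.1 h6).2
              rw [← e] at h3
              have h4 := (huniq τ'' hτ'' h3).resolve_right hτ''F
              have h5 : σ ⊆ σ'' := by
                intro y hy
                by_cases hyF : y ∈ F
                · exact hF'' hyF
                · exact h.sub_two' hσ hF'' hτ'' (Finset.erase_subset x σ) hs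
                    (Finset.mem_erase.2 ⟨fun e' => hyF (e' ▸ hx), hy⟩)
              rw [h4, eq_of_subset_pm h.pmK hσ hσ'' h5]
        · refine ⟨τ' ∪ (σ \ F), Or.inr ⟨σ, hσ, hF, τ', hτ', hτ'F, rfl⟩, ?_, ?_, ?_⟩
          · intro e'
            apply hne
            apply eq_of_subset_pm h.pmL hτ' hτ
            exact h.sub_two (σ := σ) hσ hτ' (Finset.Subset.refl _)
              (by rw [← e']; exact Finset.subset_union_left)
          · exact Finset.union_subset_union_left hsub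
          · rintro κ (⟨hκ, hFκ⟩ | ⟨σ'', hσ'', hF'', τ'', hτ'', hτ''F, rfl⟩) hs
            · exfalso
              have h1 : τ.erase u ⊆ F := fun y hy =>
                h.new τ hτ κ hκ y (Finset.mem_of_mem_erase hy) (hs (Finset.mem_union_left _ hy))
              rcases huniq F h.mem h1 with e' | e'
              · exact hτF e'.symm
              · exact hτ'F e'.symm
            · have h1 : τ.erase u ⊆ τ'' := h.sub_two (σ := σ) hσ'' hτ (Finset.erase_subset u τ)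
                (Finset.subset_union_left.trans hs)
              have h2 : σ \ F ⊆ σ'' := h.sub_two' hσ hF'' hτ'' Finset.sdiff_subset
                (Finset.subset_union_right.trans hs)
              have h3 : σ = σ'' := by
                apply eq_of_subset_pm h.pmK hσ hσ''
                intro y hy
                by_cases hyF : y ∈ F
                · exact hF'' hyF
                · exact h2 (Finset.mem_sdiff.2 ⟨hy, hyF⟩)
              rcases huniq τ'' hτ'' h1 with e' | e'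
              · left; rw [e', h3]
              · right; rw [e', h3]
      · -- remove an element of `σ \ F`
        have huσ : u ∈ σ \ F := (Finset.mem_union.1 hu).resolve_left huτ
        obtain ⟨huσ1, huF⟩ := Finset.mem_sdiff.1 huσ
        have e0 : (τ ∪ (σ \ F)).erase u = τ ∪ (σ.erase u \ F) := by
          ext y
          simp only [Finset.mem_erase, Finset.mem_union, Finset.mem_sdiff]
          constructor
          · rintro ⟨h1, h2 | h2⟩
            · exact Or.inl h2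
            · exact Or.inr ⟨⟨h1, h2.1⟩, h2.2⟩
          · rintro (h2 | h2)
            · exact ⟨fun e' => huτ (e' ▸ h2), Or.inl h2⟩
            · exact ⟨h2.1.1, Or.inr ⟨h2.1.2, h2.2⟩⟩
        rw [e0]
        obtain ⟨σ', hσ', hne, hsub, huniq⟩ := h.pmK.two σ hσ u huσ1
        have hF' : F ⊆ σ' := fun y hy => hsub (Finset.mem_erase.2 ⟨fun e' => huF (e' ▸ hy), hF hy⟩)
        refine ⟨τ ∪ (σ' \ F), Or.inr ⟨σ', hσ', hF', τ, hτ, hτF, rfl⟩, ?_, ?_, ?_⟩
        · intro e'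
          apply hne
          apply eq_of_subset_pm h.pmK hσ' hσ
          intro y hy
          by_cases hyF : y ∈ F
          · exact hF hyF
          · exact h.sub_two' hσ' hF hτ Finset.sdiff_subset
              (by rw [← e']; exact Finset.subset_union_right) (Finset.mem_sdiff.2 ⟨hy, hyF⟩)
        · exact Finset.union_subset_union_right (Finset.sdiff_subset_sdiff hsub le_rfl)
        · rintro κ (⟨hκ, hFκ⟩ | ⟨σ'', hσ'', hF'', τ'', hτ'', hτ''F, rfl⟩) hs
          · exfalso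
            obtain ⟨y, hy, -, hyK⟩ := h.new' (σ := σ) hτ hτF
            exact hyK κ hκ (hs (Finset.mem_union_left _ hy))
          · have h1 : τ ⊆ τ'' := h.sub_two (σ := σ) hσ'' hτ (Finset.Subset.refl _)
              (Finset.subset_union_left.trans hs)
            have h2 : σ.erase u \ F ⊆ σ'' := h.sub_two' hσ hF'' hτ''
              (Finset.sdiff_subset.trans (Finset.erase_subset _ _))
              (Finset.subset_union_right.trans hs)
            have h3 : σ.erase u ⊆ σ'' := by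
              intro y hy
              by_cases hyF : y ∈ F
              · exact hF'' hyF
              · exact h2 (Finset.mem_sdiff.2 ⟨hy, hyF⟩)
            rw [← eq_of_subset_pm h.pmL hτ hτ'' h1]
            rcases huniq σ'' hσ'' h3 with e' | e'
            · left; rw [e']
            · right; rw [e']

/-! ### The labellings -/

/-- two old members -/
theorem her_subst_oo {v w : Finset ℕ} (hv : v ∈ K) (hFv : ¬ F ⊆ v) (hw : w ∈ K) (hFw : ¬ F ⊆ w)
    {s : ℕ → ℕ} (hs : Ret K v w s) : ∃ r, Ret (subst K F L) v w r := by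
  classical
  obtain ⟨u, huF, huv⟩ := Finset.not_subset.1 hFv
  obtain ⟨σ₀, hσ₀, hFσ₀⟩ := h.ex
  set r : ℕ → ℕ := fun x => if ∃ σ ∈ K, x ∈ σ then s x else s u with hr
  have rK : ∀ σ ∈ K, ∀ x ∈ σ, r x = s x := fun σ hσ x hx => if_pos ⟨σ, hσ, hx⟩
  have rN : ∀ x, (¬ ∃ σ ∈ K, x ∈ σ) → r x = s u := fun x hx => if_neg hx
  have su : s u ∈ v := hs.mem σ₀ hσ₀ u (hFσ₀ huF)
  refine ⟨r, ?_, ?_, ?_, ?_, ?_⟩
  · intro ρ _ x _
    by_cases hx : ∃ σ ∈ K, x ∈ σ
    · obtain ⟨σ, hσ, hx⟩ := hx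
      rw [rK σ hσ x hx]
      exact hs.mem σ hσ x hx
    · rw [rN x hx]; exact su
  · intro x hx
    rw [rK v hv x hx, hs.fix x hx]
  · intro y hy
    obtain ⟨z, hz, hzy⟩ := Finset.mem_image.1 (hs.top hy)
    exact Finset.mem_image.2 ⟨z, hz, by rw [rK w hw z hz, hzy]⟩
  · rintro ρ (⟨hρ, -⟩ | ⟨σ, hσ, hF, τ, hτ, hτF, rfl⟩) hcov
    · apply hs.only ρ hρ
      intro y hy
      obtain ⟨z, hz, hzy⟩ := Finset.mem_image.1 (hcov hy)
      rw [rK ρ hρ z hz] at hzy
      exact Finset.mem_image.2 ⟨z, hz, hzy⟩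
    · exfalso
      have : v ⊆ σ.image s := by
        intro y hy
        obtain ⟨z, hz, hzy⟩ := Finset.mem_image.1 (hcov hy)
        by_cases hz' : ∃ σ ∈ K, z ∈ σ
        · obtain ⟨σ', hσ', hz'⟩ := hz'
          rw [rK σ' hσ' z hz'] at hzy
          rcases Finset.mem_union.1 hz with h1 | h1
          · exact Finset.mem_image.2 ⟨z, hF (h.new τ hτ σ' hσ' z h1 hz'), hzy⟩
          · exact Finset.mem_image.2 ⟨z, (Finset.mem_sdiff.1 h1).1, hzy⟩
        · rw [rN z hz'] at hzy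
          exact Finset.mem_image.2 ⟨u, hF huF, hzy⟩
      rcases hs.only σ hσ this with e | e
      · exact hFv (e ▸ hF)
      · exact hFw (e ▸ hF)
  · intro x hx hxw ρ _ y _ hyx
    by_cases hy : ∃ σ ∈ K, y ∈ σ
    · obtain ⟨σ, hσ, hy⟩ := hy
      rw [rK σ hσ y hy] at hyx
      exact hs.uniq x hx hxw σ hσ y hy hyx
    · rw [rN y hy] at hyx
      have := hs.uniq x hx hxw σ₀ hσ₀ u (hFσ₀ huF) hyx
      rw [← this] at hx
      exact absurd hx huv

/-- an old and a new member -/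
theorem her_subst_on {v σ τ : Finset ℕ} (hv : v ∈ K) (hFv : ¬ F ⊆ v) (hσ : σ ∈ K) (hF : F ⊆ σ)
    (hτ : τ ∈ L) {s t : ℕ → ℕ} (hs : Ret K v σ s) (ht : Ret L F τ t) :
    ∃ r, Ret (subst K F L) v (τ ∪ (σ \ F)) r := by
  classical
  set r : ℕ → ℕ := fun x => if ∃ τ ∈ L, x ∈ τ then s (t x) else s x with hr
  have rL : ∀ τ ∈ L, ∀ x ∈ τ, r x = s (t x) := fun τ hτ x hx => if_pos ⟨τ, hτ, hx⟩
  have rN : ∀ x, (¬ ∃ τ ∈ L, x ∈ τ) → r x = s x := fun x hx => if_neg hx
  have rK : ∀ σ ∈ K, ∀ x ∈ σ, r x = s x := by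
    intro σ' hσ' x hx
    by_cases hx' : ∃ τ ∈ L, x ∈ τ
    · obtain ⟨τ', hτ', hx'⟩ := hx'
      have := h.new τ' hτ' σ' hσ' x hx' hx
      rw [rL τ' hτ' x hx', ht.fix x this]
    · exact rN x hx'
  refine ⟨r, ?_, ?_, ?_, ?_, ?_⟩
  · rintro ρ (⟨hρ, -⟩ | ⟨σ', hσ', hF', τ', hτ', -, rfl⟩) x hx
    · rw [rK ρ hρ x hx]
      exact hs.mem ρ hρ x hx
    · rcases Finset.mem_union.1 hx with h1 | h1
      · rw [rL τ' hτ' x h1]
        exact hs.mem σ hσ _ (hF (ht.mem τ' hτ' x h1))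
      · have h2 := (Finset.mem_sdiff.1 h1).1
        rw [rK σ' hσ' x h2]
        exact hs.mem σ' hσ' x h2
  · intro x hx
    rw [rK v hv x hx, hs.fix x hx]
  · intro y hy
    obtain ⟨z, hz, hzy⟩ := Finset.mem_image.1 (hs.top hy)
    by_cases hzF : z ∈ F
    · obtain ⟨z', hz', hz'z⟩ := Finset.mem_image.1 (ht.top hzF)
      exact Finset.mem_image.2 ⟨z', Finset.mem_union_left _ hz', by
        rw [rL τ hτ z' hz', hz'z, hzy]⟩
    · exact Finset.mem_image.2 ⟨z, Finset.mem_union_right _ (Finset.mem_sdiff.2 ⟨hz, hzF⟩), by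
        rw [rK σ hσ z hz, hzy]⟩
  · rintro ρ (⟨hρ, hFρ⟩ | ⟨σ', hσ', hF', τ', hτ', hτ'F, rfl⟩) hcov
    · left
      have : v ⊆ ρ.image s := by
        intro y hy
        obtain ⟨z, hz, hzy⟩ := Finset.mem_image.1 (hcov hy)
        rw [rK ρ hρ z hz] at hzy
        exact Finset.mem_image.2 ⟨z, hz, hzy⟩
      exact (hs.only ρ hρ this).resolve_right fun e => hFρ (e ▸ hF)
    · right
      have h1 : v ⊆ σ'.image s := by
        intro y hy
        obtain ⟨z, hz, hzy⟩ := Finset.mem_image.1 (hcov hy)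
        rcases Finset.mem_union.1 hz with h1 | h1
        · rw [rL τ' hτ' z h1] at hzy
          exact Finset.mem_image.2 ⟨t z, hF' (ht.mem τ' hτ' z h1), hzy⟩
        · have h2 := (Finset.mem_sdiff.1 h1).1
          rw [rK σ' hσ' z h2] at hzy
          exact Finset.mem_image.2 ⟨z, h2, hzy⟩
      have h2 := (hs.only σ' hσ' h1).resolve_left fun e => hFv (e ▸ hF')
      subst h2
      obtain ⟨hinj, -⟩ := inj_of_cover h1 (by rw [h.pmK.card _ hσ, h.pmK.card _ hv])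
      have h3 : F ⊆ τ'.image t := by
        intro f hf
        obtain ⟨z, hz, hzy⟩ := Finset.mem_image.1 (hcov (hs.mem σ' hσ f (hF hf)))
        rcases Finset.mem_union.1 hz with h1 | h1
        · rw [rL τ' hτ' z h1] at hzy
          refine Finset.mem_image.2 ⟨z, h1, ?_⟩
          exact hinj (by exact_mod_cast hF (ht.mem τ' hτ' z h1)) (by exact_mod_cast hF hf) hzy
        · obtain ⟨h2, h3⟩ := Finset.mem_sdiff.1 h1
          rw [rK σ' hσ z h2] at hzy
          have := hinj (by exact_mod_cast h2) (by exact_mod_cast hF hf) hzy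
          rw [this] at h3
          exact absurd hf h3
      rw [(ht.only τ' hτ' h3).resolve_left hτ'F]
  · intro x hx hxw ρ hρ y hy hyx
    have hxσ : x ∈ σ := by
      rcases Finset.mem_union.1 hxw with h1 | h1
      · exact hF (h.new τ hτ v hv x h1 hx)
      · exact (Finset.mem_sdiff.1 h1).1
    have key : ∀ σ' ∈ K, y ∈ σ' → y = x := by
      intro σ' hσ' hy'
      rw [rK σ' hσ' y hy'] at hyx
      exact hs.uniq x hx hxσ σ' hσ' y hy' hyx
    rcases hρ with ⟨hρ, -⟩ | ⟨σ', hσ', hF', τ', hτ', hτ'F, rfl⟩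
    · exact key ρ hρ hy
    · rcases Finset.mem_union.1 hy with h1 | h1
      · rw [rL τ' hτ' y h1] at hyx
        have h2 := ht.mem τ' hτ' y h1
        have h3 := hs.uniq x hx hxσ σ hσ _ (hF h2) hyx
        rw [h3] at h2
        have hxτ : x ∈ τ := by
          rcases Finset.mem_union.1 hxw with h4 | h4
          · exact h4
          · exact absurd h2 (Finset.mem_sdiff.1 h4).2
        exact ht.uniq x h2 hxτ τ' hτ' y h1 h3
      · exact key σ' hσ' (Finset.mem_sdiff.1 h1).1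

/-- two new members with the same part in `L` -/
theorem her_subst_nn_left {σ σ' τ : Finset ℕ} (hσ : σ ∈ K) (hF : F ⊆ σ) (hσ' : σ' ∈ K)
    (hF' : F ⊆ σ') (hne : σ ≠ σ') (hτ : τ ∈ L) (hτF : τ ≠ F) {s : ℕ → ℕ} (hs : Ret K σ σ' s) :
    ∃ r, Ret (subst K F L) (τ ∪ (σ \ F)) (τ ∪ (σ' \ F)) r := by
  classical
  obtain ⟨a, haσ, haσ'⟩ := sub_or_eq (by rw [h.pmK.card _ hσ, h.pmK.card _ hσ']) hne
  have haF : a ∉ F := fun h' => haσ' (hF' h')
  set r : ℕ → ℕ := fun x => if x ∈ τ then x else if ∃ τ ∈ L, x ∈ τ then a else s x with hr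
  have rτ : ∀ x ∈ τ, r x = x := fun x hx => if_pos hx
  have rL : ∀ x, x ∉ τ → (∃ τ ∈ L, x ∈ τ) → r x = a := fun x hx hx' =>
    (if_neg hx).trans (if_pos hx')
  have rN : ∀ x, (¬ ∃ τ ∈ L, x ∈ τ) → r x = s x := fun x hx =>
    (if_neg fun h' => hx ⟨τ, hτ, h'⟩).trans (if_neg hx)
  have nL : ∀ σ ∈ K, ∀ x ∈ σ, x ∉ F → ¬ ∃ τ ∈ L, x ∈ τ := fun σ hσ x hx hxF ⟨τ, hτ, h'⟩ =>
    hxF (h.new τ hτ σ hσ x h' hx)
  -- the labels outside `L` avoid `F`
  have sF : ∀ σ'' ∈ K, ∀ x ∈ σ'', (¬ ∃ τ ∈ L, x ∈ τ) → s x ∈ σ \ F := by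
    intro σ'' hσ'' x hx hxL
    refine Finset.mem_sdiff.2 ⟨hs.mem σ'' hσ'' x hx, fun h' => hxL ?_⟩
    have := hs.uniq (s x) (hF h') (hF' h') σ'' hσ'' x hx rfl
    exact ⟨F, h.mem, by rw [this]; exact h'⟩
  have hdis : ∀ σ ∈ K, ∀ y ∈ τ, y ∉ σ \ F := fun σ hσ y hy hy' => by
    obtain ⟨h1, h2⟩ := Finset.mem_sdiff.1 hy'
    exact h2 (h.new τ hτ σ hσ y hy h1)
  have hmem : ∀ ρ ∈ subst K F L, ∀ x ∈ ρ, (¬ ∃ τ ∈ L, x ∈ τ) → ∃ σ'' ∈ K, x ∈ σ'' := by
    rintro ρ (⟨hρ, -⟩ | ⟨σ'', hσ'', hF'', τ'', hτ'', -, rfl⟩) x hx hxL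
    · exact ⟨ρ, hρ, hx⟩
    · rcases Finset.mem_union.1 hx with h1 | h1
      · exact absurd ⟨τ'', hτ'', h1⟩ hxL
      · exact ⟨σ'', hσ'', (Finset.mem_sdiff.1 h1).1⟩
  have haτ : a ∉ τ := fun h' => haF (h.new τ hτ σ hσ a h' haσ)
  -- where a label of `τ` comes from
  have lτ : ∀ ρ ∈ subst K F L, ∀ z ∈ ρ, ∀ y ∈ τ, r z = y → z = y := by
    intro ρ hρ z hz y hy hzy
    by_cases h1 : z ∈ τ
    · rw [rτ z h1] at hzy; exact hzy
    by_cases h2 : ∃ τ ∈ L, z ∈ τ
    · rw [rL z h1 h2] at hzy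
      exact absurd (hzy ▸ hy) haτ
    · obtain ⟨σ'', hσ'', h3⟩ := hmem ρ hρ z hz h2
      rw [rN z h2] at hzy
      have := sF σ'' hσ'' z h3 h2
      rw [hzy] at this
      exact absurd this (hdis σ hσ y hy)
  refine ⟨r, ?_, ?_, ?_, ?_, ?_⟩
  · intro ρ hρ x hx
    by_cases h1 : x ∈ τ
    · rw [rτ x h1]; exact Finset.mem_union_left _ h1
    by_cases h2 : ∃ τ ∈ L, x ∈ τ
    · rw [rL x h1 h2]; exact Finset.mem_union_right _ (Finset.mem_sdiff.2 ⟨haσ, haF⟩)
    · obtain ⟨σ'', hσ'', h3⟩ := hmem ρ hρ x hx h2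
      rw [rN x h2]
      exact Finset.mem_union_right _ (sF σ'' hσ'' x h3 h2)
  · intro x hx
    rcases Finset.mem_union.1 hx with h1 | h1
    · exact rτ x h1
    · obtain ⟨h2, h3⟩ := Finset.mem_sdiff.1 h1
      rw [rN x (nL σ hσ x h2 h3), hs.fix x h2]
  · intro y hy
    rcases Finset.mem_union.1 hy with h1 | h1
    · exact Finset.mem_image.2 ⟨y, Finset.mem_union_left _ h1, rτ y h1⟩
    · obtain ⟨h2, h3⟩ := Finset.mem_sdiff.1 h1
      obtain ⟨z, hz, hzy⟩ := Finset.mem_image.1 (hs.top h2)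
      have hzF : z ∉ F := by
        intro h'
        rw [hs.fix z (hF h')] at hzy
        exact h3 (hzy ▸ h')
      exact Finset.mem_image.2 ⟨z, Finset.mem_union_right _ (Finset.mem_sdiff.2 ⟨hz, hzF⟩), by
        rw [rN z (nL σ' hσ' z hz hzF), hzy]⟩
  · intro ρ hρ hcov
    have hτρ : τ ⊆ ρ := by
      intro y hy
      obtain ⟨z, hz, hzy⟩ := Finset.mem_image.1 (hcov (Finset.mem_union_left _ hy))
      rw [← lτ ρ hρ z hz y hy hzy]
      exact hz
    have hρ' := hρ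
    rcases hρ with ⟨hρ, hFρ⟩ | ⟨σ'', hσ'', hF'', τ'', hτ'', hτ''F, rfl⟩
    · exfalso
      obtain ⟨y, hy, -, hyK⟩ := h.new' (σ := σ) hτ hτF
      exact hyK ρ hρ (hτρ hy)
    · have e1 : τ = τ'' := eq_of_subset_pm h.pmL hτ hτ''
        (h.sub_two (σ := σ) hσ'' hτ (Finset.Subset.refl _) hτρ)
      subst e1
      have h1 : σ ⊆ σ''.image s := by
        intro y hy
        by_cases hyF : y ∈ F
        · exact Finset.mem_image.2 ⟨y, hF'' hyF, hs.fix y hy⟩
        · obtain ⟨z, hz, hzy⟩ := Finset.mem_image.1 (hcov (Finset.mem_union_right _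
            (Finset.mem_sdiff.2 ⟨hy, hyF⟩)))
          rcases Finset.mem_union.1 hz with h1 | h1
          · rw [rτ z h1] at hzy
            rw [hzy] at h1
            exact absurd (h.new τ hτ σ hσ y h1 hy) hyF
          · obtain ⟨h2, h3⟩ := Finset.mem_sdiff.1 h1
            rw [rN z (nL σ'' hσ'' z h2 h3)] at hzy
            exact Finset.mem_image.2 ⟨z, h2, hzy⟩
      rcases hs.only σ'' hσ'' h1 with e | e
      · left; rw [e]
      · right; rw [e]
  · intro x hx hxw ρ hρ y hy hyx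
    rcases Finset.mem_union.1 hx with h1 | h1
    · exact lτ ρ hρ y hy x h1 hyx
    · obtain ⟨h2, h3⟩ := Finset.mem_sdiff.1 h1
      have hxτ : x ∉ τ := fun h' => hdis σ hσ x h' h1
      have hxσ' : x ∈ σ' := (Finset.mem_sdiff.1 ((Finset.mem_union.1 hxw).resolve_left hxτ)).1
      by_cases h4 : y ∈ τ
      · rw [rτ y h4] at hyx; exact hyx
      by_cases h5 : ∃ τ ∈ L, y ∈ τ
      · rw [rL y h4 h5] at hyx
        rw [← hyx] at hxσ'
        exact absurd hxσ' haσ'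
      · obtain ⟨σ'', hσ'', h6⟩ := hmem ρ hρ y hy h5
        rw [rN y h5] at hyx
        exact hs.uniq x h2 hxσ' σ'' hσ'' y h6 hyx

/-- two new members with the same part in `K` -/
theorem her_subst_nn_right {σ τ τ' : Finset ℕ} (hσ : σ ∈ K) (hτ : τ ∈ L) (hτF : τ ≠ F)
    (hτ' : τ' ∈ L) (hτ'F : τ' ≠ F) {t : ℕ → ℕ} (ht : Ret L τ τ' t) :
    ∃ r, Ret (subst K F L) (τ ∪ (σ \ F)) (τ' ∪ (σ \ F)) r := by
  classical
  obtain ⟨y₀, hy₀F, hy₀τ⟩ := sub_or_eq (by rw [h.pmL.card τ hτ]) hτF.symm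
  have hb := ht.mem F h.mem y₀ hy₀F
  set r : ℕ → ℕ := fun x => if x ∈ σ \ F then x else if ∃ τ ∈ L, x ∈ τ then t x else t y₀ with hr
  have rσ : ∀ x ∈ σ \ F, r x = x := fun x hx => if_pos hx
  have hdis : ∀ τ ∈ L, ∀ y ∈ τ, y ∉ σ \ F := fun τ hτ y hy hy' => by
    obtain ⟨h1, h2⟩ := Finset.mem_sdiff.1 hy'
    exact h2 (h.new τ hτ σ hσ y hy h1)
  have rL : ∀ τ ∈ L, ∀ x ∈ τ, r x = t x := fun τ hτ x hx =>
    (if_neg (hdis τ hτ x hx)).trans (if_pos ⟨τ, hτ, hx⟩)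
  have rN : ∀ x, x ∉ σ \ F → (¬ ∃ τ ∈ L, x ∈ τ) → r x = t y₀ := fun x hx hx' =>
    (if_neg hx).trans (if_neg hx')
  -- where a label outside `τ` comes from
  have lσ : ∀ z, ∀ y ∈ σ \ F, r z = y → z = y := by
    intro z y hy hzy
    by_cases h1 : z ∈ σ \ F
    · rw [rσ z h1] at hzy; exact hzy
    by_cases h2 : ∃ τ ∈ L, z ∈ τ
    · obtain ⟨τ'', hτ'', h2⟩ := h2
      rw [rL τ'' hτ'' z h2] at hzy
      have := ht.mem τ'' hτ'' z h2
      rw [hzy] at this
      exact absurd hy (hdis τ hτ y this)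
    · rw [rN z h1 h2] at hzy
      rw [hzy] at hb
      exact absurd hy (hdis τ hτ y hb)
  refine ⟨r, ?_, ?_, ?_, ?_, ?_⟩
  · intro ρ _ x _
    by_cases h1 : x ∈ σ \ F
    · rw [rσ x h1]; exact Finset.mem_union_right _ h1
    by_cases h2 : ∃ τ ∈ L, x ∈ τ
    · obtain ⟨τ'', hτ'', h2⟩ := h2
      rw [rL τ'' hτ'' x h2]
      exact Finset.mem_union_left _ (ht.mem τ'' hτ'' x h2)
    · rw [rN x h1 h2]
      exact Finset.mem_union_left _ hb
  · intro x hx
    rcases Finset.mem_union.1 hx with h1 | h1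
    · rw [rL τ hτ x h1, ht.fix x h1]
    · exact rσ x h1
  · intro y hy
    rcases Finset.mem_union.1 hy with h1 | h1
    · obtain ⟨z, hz, hzy⟩ := Finset.mem_image.1 (ht.top h1)
      exact Finset.mem_image.2 ⟨z, Finset.mem_union_left _ hz, by rw [rL τ' hτ' z hz, hzy]⟩
    · exact Finset.mem_image.2 ⟨y, Finset.mem_union_right _ h1, rσ y h1⟩
  · rintro ρ (⟨hρ, hFρ⟩ | ⟨σ'', hσ'', hF'', τ'', hτ'', hτ''F, rfl⟩) hcov
    · exfalso
      have : τ ⊆ F.image t := by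
        intro y hy
        obtain ⟨z, hz, hzy⟩ := Finset.mem_image.1 (hcov (Finset.mem_union_left _ hy))
        by_cases h1 : z ∈ σ \ F
        · rw [rσ z h1] at hzy
          rw [hzy] at h1
          exact absurd h1 (hdis τ hτ y hy)
        by_cases h2 : ∃ τ ∈ L, z ∈ τ
        · obtain ⟨τ'', hτ'', h2⟩ := h2
          rw [rL τ'' hτ'' z h2] at hzy
          exact Finset.mem_image.2 ⟨z, h.new τ'' hτ'' ρ hρ z h2 hz, hzy⟩
        · rw [rN z h1 h2] at hzy
          exact Finset.mem_image.2 ⟨y₀, hy₀F, hzy⟩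
      rcases ht.only F h.mem this with e | e
      · exact hτF e.symm
      · exact hτ'F e.symm
    · have h1 : σ \ F ⊆ τ'' ∪ (σ'' \ F) := by
        intro y hy
        obtain ⟨z, hz, hzy⟩ := Finset.mem_image.1 (hcov (Finset.mem_union_right _ hy))
        rw [← lσ z y hy hzy]; exact hz
      have h2 : σ ⊆ σ'' := by
        intro y hy
        by_cases hyF : y ∈ F
        · exact hF'' hyF
        · exact h.sub_two' hσ hF'' hτ'' Finset.sdiff_subset h1 (Finset.mem_sdiff.2 ⟨hy, hyF⟩)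
      have e1 := eq_of_subset_pm h.pmK hσ hσ'' h2
      subst e1
      have h3 : τ ⊆ τ''.image t := by
        intro y hy
        obtain ⟨z, hz, hzy⟩ := Finset.mem_image.1 (hcov (Finset.mem_union_left _ hy))
        rcases Finset.mem_union.1 hz with h4 | h4
        · rw [rL τ'' hτ'' z h4] at hzy
          exact Finset.mem_image.2 ⟨z, h4, hzy⟩
        · rw [rσ z h4] at hzy
          rw [hzy] at h4
          exact absurd h4 (hdis τ hτ y hy)
      rcases ht.only τ'' hτ'' h3 with e | e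
      · left; rw [e]
      · right; rw [e]
  · intro x hx hxw ρ _ y _ hyx
    by_cases hxσ : x ∈ σ \ F
    · exact lσ y x hxσ hyx
    · have hxτ := (Finset.mem_union.1 hx).resolve_right hxσ
      have hxτ' := (Finset.mem_union.1 hxw).resolve_right hxσ
      by_cases h1 : y ∈ σ \ F
      · rw [rσ y h1] at hyx; exact hyx
      by_cases h2 : ∃ τ ∈ L, y ∈ τ
      · obtain ⟨τ'', hτ'', h2⟩ := h2
        rw [rL τ'' hτ'' y h2] at hyx
        exact ht.uniq x hxτ hxτ' τ'' hτ'' y h2 hyx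
      · rw [rN y h1 h2] at hyx
        have := ht.uniq x hxτ hxτ' F h.mem y₀ hy₀F hyx
        rw [← this] at hxτ
        exact absurd hxτ hy₀τ

/-- the choice of the exchanged element -/
theorem exists_exchange {τ τ' : Finset ℕ} (hτ : τ ∈ L) (hτF : τ ≠ F) (hτ' : τ' ∈ L)
    (hτ'F : τ' ≠ F) (hne : τ ≠ τ') {t : ℕ → ℕ} (ht : Ret L τ τ' t) :
    ∃ g ∈ τ', g ∉ τ ∧ ∃ m ∈ τ, m ∉ F.image t ∧ m ≠ t g := by
  classical
  by_contra hcon
  push Not at hcon
  obtain ⟨m₀, hm₀, hm₀F⟩ : ∃ m ∈ τ, m ∉ F.image t := by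
    by_contra hn
    push Not at hn
    rcases ht.only F h.mem hn with e | e
    · exact hτF e.symm
    · exact hτ'F e.symm
  obtain ⟨g₀, hg₀, hg₀τ⟩ := sub_or_eq (by rw [h.pmL.card τ hτ, h.pmL.card τ' hτ']) hne.symm
  have c1 : ∀ g ∈ τ', g ∉ τ → ∀ m ∈ τ, m ∉ F.image t → m = t g := hcon
  obtain ⟨hinj, -⟩ := inj_of_cover ht.top (by rw [h.pmL.card τ hτ, h.pmL.card τ' hτ'])
  have hg₀m := c1 g₀ hg₀ hg₀τ m₀ hm₀ hm₀F
  have honly : ∀ g ∈ τ', g ∉ τ → g = g₀ := by
    intro g hg hgτ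
    have := c1 g hg hgτ m₀ hm₀ hm₀F
    exact hinj (by exact_mod_cast hg) (by exact_mod_cast hg₀) (by rw [← this, hg₀m])
  have hsub : τ'.erase g₀ ⊆ F := by
    intro y hy
    obtain ⟨h1, h2⟩ := Finset.mem_erase.1 hy
    have hyτ : y ∈ τ := by
      by_contra hn
      exact h1 (honly y h2 hn)
    have hyF : y ∈ F.image t := by
      by_contra hn
      have h3 := c1 g₀ hg₀ hg₀τ y hyτ hn
      have h4 := ht.uniq y hyτ h2 τ' hτ' g₀ hg₀ h3.symm
      exact h1 h4.symm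
    obtain ⟨z, hz, hzy⟩ := Finset.mem_image.1 hyF
    rw [← ht.uniq y hyτ h2 F h.mem z hz hzy]
    exact hz
  have hsub' : τ'.erase g₀ ⊆ τ := by
    intro y hy
    obtain ⟨h1, h2⟩ := Finset.mem_erase.1 hy
    by_contra hn
    exact h1 (honly y h2 hn)
  obtain ⟨κ, -, -, -, huniq⟩ := h.pmL.two τ' hτ' g₀ hg₀
  have e1 := (huniq F h.mem hsub).resolve_left hτ'F.symm
  have e2 := (huniq τ hτ hsub').resolve_left hne
  exact hτF (e2.trans e1.symm)

/-- two new members that differ in both parts -/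
theorem her_subst_nn {σ σ' τ τ' : Finset ℕ} (hσ : σ ∈ K) (hF : F ⊆ σ) (hσ' : σ' ∈ K)
    (hF' : F ⊆ σ') (hneσ : σ ≠ σ') (hτ : τ ∈ L) (hτF : τ ≠ F) (hτ' : τ' ∈ L)
    (hτ'F : τ' ≠ F) (hneτ : τ ≠ τ') {s t : ℕ → ℕ} (hs : Ret K σ σ' s) (ht : Ret L τ τ' t) :
    ∃ r, Ret (subst K F L) (τ ∪ (σ \ F)) (τ' ∪ (σ' \ F)) r := by
  classical
  obtain ⟨g, hgσ', hgσ⟩ := sub_or_eq (by rw [h.pmK.card _ hσ, h.pmK.card _ hσ']) hneσ.symm
  obtain ⟨k, hkτ', hkτ, m, hmτ, hmF, hmk⟩ := exists_exchange h hτ hτF hτ' hτ'F hneτ ht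
  have hgF : g ∉ F := fun h' => hgσ (hF h')
  have nL : ∀ σ ∈ K, ∀ x ∈ σ, x ∉ F → ¬ ∃ τ ∈ L, x ∈ τ := fun σ hσ x hx hxF ⟨τ, hτ, h'⟩ =>
    hxF (h.new τ hτ σ hσ x h' hx)
  have hgL := nL σ' hσ' g hgσ' hgF
  have hgk : g ≠ k := fun e => hgL ⟨τ', hτ', e ▸ hkτ'⟩
  set r : ℕ → ℕ := fun x => if x = g then t k else if x = k then s g else
    if ∃ τ ∈ L, x ∈ τ then t x else s x with hr
  have rg : r g = t k := if_pos rfl
  have rk : r k = s g := (if_neg hgk.symm).trans (if_pos rfl)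
  have ng : ∀ τ ∈ L, ∀ x ∈ τ, x ≠ g := fun τ hτ x hx e => hgL ⟨τ, hτ, e ▸ hx⟩
  have nk : ∀ x, (¬ ∃ τ ∈ L, x ∈ τ) → x ≠ k := fun x hx e => hx ⟨τ', hτ', e ▸ hkτ'⟩
  have rL : ∀ τ ∈ L, ∀ x ∈ τ, x ≠ k → r x = t x := fun τ hτ x hx hxk =>
    (if_neg (ng τ hτ x hx)).trans ((if_neg hxk).trans (if_pos ⟨τ, hτ, hx⟩))
  have rN : ∀ x, x ≠ g → (¬ ∃ τ ∈ L, x ∈ τ) → r x = s x := fun x hxg hx =>
    (if_neg hxg).trans ((if_neg (nk x hx)).trans (if_neg hx))
  have tk : t k ∈ τ := ht.mem τ' hτ' k hkτ'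
  have sF : ∀ σ'' ∈ K, ∀ x ∈ σ'', (¬ ∃ τ ∈ L, x ∈ τ) → s x ∈ σ \ F := by
    intro σ'' hσ'' x hx hxL
    refine Finset.mem_sdiff.2 ⟨hs.mem σ'' hσ'' x hx, fun h' => hxL ?_⟩
    have := hs.uniq (s x) (hF h') (hF' h') σ'' hσ'' x hx rfl
    exact ⟨F, h.mem, by rw [this]; exact h'⟩
  have sg : s g ∈ σ \ F := sF σ' hσ' g hgσ' hgL
  have hdis : ∀ τ ∈ L, ∀ σ ∈ K, ∀ y ∈ τ, y ∉ σ \ F := fun τ hτ σ hσ y hy hy' => by
    obtain ⟨h1, h2⟩ := Finset.mem_sdiff.1 hy'
    exact h2 (h.new τ hτ σ hσ y hy h1)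
  have hmem : ∀ ρ ∈ subst K F L, ∀ x ∈ ρ, (¬ ∃ τ ∈ L, x ∈ τ) → ∃ σ'' ∈ K, x ∈ σ'' := by
    rintro ρ (⟨hρ, -⟩ | ⟨σ'', hσ'', hF'', τ'', hτ'', -, rfl⟩) x hx hxL
    · exact ⟨ρ, hρ, hx⟩
    · rcases Finset.mem_union.1 hx with h1 | h1
      · exact absurd ⟨τ'', hτ'', h1⟩ hxL
      · exact ⟨σ'', hσ'', (Finset.mem_sdiff.1 h1).1⟩
  -- where the labels come from
  have lτ : ∀ ρ ∈ subst K F L, ∀ z ∈ ρ, ∀ y ∈ τ, r z = y →
      (z = g ∧ y = t k) ∨ (z ≠ k ∧ (∃ τ ∈ L, z ∈ τ) ∧ t z = y) := by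
    intro ρ hρ z hz y hy hzy
    by_cases h1 : z = g
    · rw [h1, rg] at hzy
      exact Or.inl ⟨h1, hzy.symm⟩
    by_cases h2 : z = k
    · rw [h2, rk] at hzy
      rw [hzy] at sg
      exact absurd sg (hdis τ hτ σ hσ y hy)
    by_cases h3 : ∃ τ ∈ L, z ∈ τ
    · right
      obtain ⟨τ'', hτ'', h3⟩ := h3
      rw [rL τ'' hτ'' z h3 h2] at hzy
      exact ⟨h2, ⟨τ'', hτ'', h3⟩, hzy⟩
    · obtain ⟨σ'', hσ'', h4⟩ := hmem ρ hρ z hz h3
      rw [rN z h1 h3] at hzy
      have := sF σ'' hσ'' z h4 h3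
      rw [hzy] at this
      exact absurd this (hdis τ hτ σ hσ y hy)
  have lσ : ∀ ρ ∈ subst K F L, ∀ z ∈ ρ, ∀ y ∈ σ \ F, r z = y →
      (z = k ∧ y = s g) ∨ (z ≠ g ∧ (¬ ∃ τ ∈ L, z ∈ τ) ∧ s z = y) := by
    intro ρ hρ z hz y hy hzy
    by_cases h1 : z = g
    · rw [h1, rg] at hzy
      rw [hzy] at tk
      exact absurd hy (hdis τ hτ σ hσ y tk)
    by_cases h2 : z = k
    · rw [h2, rk] at hzy
      exact Or.inl ⟨h2, hzy.symm⟩
    by_cases h3 : ∃ τ ∈ L, z ∈ τ
    · obtain ⟨τ'', hτ'', h3⟩ := h3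
      rw [rL τ'' hτ'' z h3 h2] at hzy
      have := ht.mem τ'' hτ'' z h3
      rw [hzy] at this
      exact absurd hy (hdis τ hτ σ hσ y this)
    · rw [rN z h1 h3] at hzy
      exact Or.inr ⟨h1, h3, hzy⟩
  refine ⟨r, ?_, ?_, ?_, ?_, ?_⟩
  · intro ρ hρ x hx
    by_cases h1 : x = g
    · rw [h1, rg]; exact Finset.mem_union_left _ tk
    by_cases h2 : x = k
    · rw [h2, rk]; exact Finset.mem_union_right _ sg
    by_cases h3 : ∃ τ ∈ L, x ∈ τ
    · obtain ⟨τ'', hτ'', h3⟩ := h3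
      rw [rL τ'' hτ'' x h3 h2]
      exact Finset.mem_union_left _ (ht.mem τ'' hτ'' x h3)
    · obtain ⟨σ'', hσ'', h4⟩ := hmem ρ hρ x hx h3
      rw [rN x h1 h3]
      exact Finset.mem_union_right _ (sF σ'' hσ'' x h4 h3)
  · intro x hx
    rcases Finset.mem_union.1 hx with h1 | h1
    · rw [rL τ hτ x h1 (fun e => hkτ (e ▸ h1)), ht.fix x h1]
    · obtain ⟨h2, h3⟩ := Finset.mem_sdiff.1 h1
      rw [rN x (fun e => hgσ (e ▸ h2)) (nL σ hσ x h2 h3), hs.fix x h2]
  · intro y hy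
    rcases Finset.mem_union.1 hy with h1 | h1
    · obtain ⟨z, hz, hzy⟩ := Finset.mem_image.1 (ht.top h1)
      by_cases hzk : z = k
      · exact Finset.mem_image.2 ⟨g, Finset.mem_union_right _ (Finset.mem_sdiff.2 ⟨hgσ', hgF⟩),
          by rw [rg, ← hzk, hzy]⟩
      · exact Finset.mem_image.2 ⟨z, Finset.mem_union_left _ hz, by rw [rL τ' hτ' z hz hzk, hzy]⟩
    · obtain ⟨h2, h3⟩ := Finset.mem_sdiff.1 h1
      obtain ⟨z, hz, hzy⟩ := Finset.mem_image.1 (hs.top h2)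
      have hzF : z ∉ F := by
        intro h'
        rw [hs.fix z (hF h')] at hzy
        exact h3 (hzy ▸ h')
      by_cases hzg : z = g
      · exact Finset.mem_image.2 ⟨k, Finset.mem_union_left _ hkτ', by rw [rk, ← hzg, hzy]⟩
      · exact Finset.mem_image.2 ⟨z, Finset.mem_union_right _ (Finset.mem_sdiff.2 ⟨hz, hzF⟩), by
          rw [rN z hzg (nL σ' hσ' z hz hzF), hzy]⟩
  · intro ρ hρ hcov
    have hρ' := hρ
    rcases hρ with ⟨hρ, hFρ⟩ | ⟨σ'', hσ'', hF'', τ'', hτ'', hτ''F, rfl⟩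
    · exfalso
      obtain ⟨z, hz, hzm⟩ := Finset.mem_image.1 (hcov (Finset.mem_union_left _ hmτ))
      rcases lτ ρ hρ' z hz m hmτ hzm with ⟨-, h1⟩ | ⟨-, ⟨τ'', hτ'', h1⟩, h2⟩
      · exact hmk h1
      · exact hmF (Finset.mem_image.2 ⟨z, h.new τ'' hτ'' ρ hρ z h1 hz, h2⟩)
    · have A1 : ∀ y ∈ τ, y ∈ (τ''.erase k).image t ∨ (y = t k ∧ g ∈ σ'') := by
        intro y hy
        obtain ⟨z, hz, hzy⟩ := Finset.mem_image.1 (hcov (Finset.mem_union_left _ hy))
        rcases lτ _ hρ' z hz y hy hzy with ⟨h1, h2⟩ | ⟨h1, h2, h3⟩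
        · right
          refine ⟨h2, ?_⟩
          rw [h1] at hz
          rcases Finset.mem_union.1 hz with h3 | h3
          · exact absurd ⟨τ'', hτ'', h3⟩ hgL
          · exact (Finset.mem_sdiff.1 h3).1
        · left
          refine Finset.mem_image.2 ⟨z, Finset.mem_erase.2 ⟨h1, ?_⟩, h3⟩
          rcases Finset.mem_union.1 hz with h4 | h4
          · exact h4
          · obtain ⟨h5, h6⟩ := Finset.mem_sdiff.1 h4
            exact absurd h2 (nL σ'' hσ'' z h5 h6)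
      have A2 : ∀ y ∈ σ \ F, y ∈ ((σ'' \ F).erase g).image s ∨ (y = s g ∧ k ∈ τ'') := by
        intro y hy
        obtain ⟨z, hz, hzy⟩ := Finset.mem_image.1 (hcov (Finset.mem_union_right _ hy))
        rcases lσ _ hρ' z hz y hy hzy with ⟨h1, h2⟩ | ⟨h1, h2, h3⟩
        · right
          refine ⟨h2, ?_⟩
          rw [h1] at hz
          rcases Finset.mem_union.1 hz with h3 | h3
          · exact h3
          · exact absurd h3 (hdis τ' hτ' σ'' hσ'' k hkτ')
        · left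
          refine Finset.mem_image.2 ⟨z, Finset.mem_erase.2 ⟨h1, ?_⟩, h3⟩
          rcases Finset.mem_union.1 hz with h4 | h4
          · exact absurd ⟨τ'', hτ'', h4⟩ h2
          · exact h4
      have cF := fun (σ : Finset ℕ) (hσ : σ ∈ K) (hF : F ⊆ σ) =>
        (Finset.card_sdiff_add_card_eq_card hF).trans (h.pmK.card σ hσ)
      have B1 : k ∉ τ'' → g ∉ σ'' := by
        intro hk hg
        have h1 : σ \ F ⊆ ((σ'' \ F).erase g).image s := fun y hy =>
          (A2 y hy).resolve_right fun h' => hk h'.2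
        have h3 := Finset.card_le_card h1
        have h4 := (Finset.card_image_le (s := (σ'' \ F).erase g) (f := s))
        have h5 : g ∈ σ'' \ F := Finset.mem_sdiff.2 ⟨hg, hgF⟩
        rw [Finset.card_erase_of_mem h5] at h4
        have h6 := cF σ hσ hF
        have h7 := cF σ'' hσ'' hF''
        have h8 := Finset.card_pos.2 ⟨g, h5⟩
        omega
      have B2 : g ∉ σ'' → k ∉ τ'' := by
        intro hg hk
        have h1 : τ ⊆ (τ''.erase k).image t := fun y hy =>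
          (A1 y hy).resolve_right fun h' => hg h'.2
        have h3 := Finset.card_le_card h1
        have h4 := (Finset.card_image_le (s := τ''.erase k) (f := t))
        rw [Finset.card_erase_of_mem hk] at h4
        rw [h.pmL.card τ hτ] at h3
        rw [h.pmL.card τ'' hτ''] at h4
        have h8 := Finset.card_pos.2 ⟨k, hk⟩
        rw [h.pmL.card τ'' hτ''] at h8
        omega
      have C1 : τ ⊆ τ''.image t ∧ (k ∈ τ'' ↔ g ∈ σ'') ∧ σ ⊆ σ''.image s := by
        have hiff : k ∈ τ'' ↔ g ∈ σ'' :=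
          ⟨fun h1 => by_contra fun h2 => B2 h2 h1, fun h1 => by_contra fun h2 => B1 h2 h1⟩
        refine ⟨fun y hy => ?_, hiff, fun y hy => ?_⟩
        · rcases A1 y hy with h1 | ⟨h1, h2⟩
          · exact Finset.image_subset_image (Finset.erase_subset _ _) h1
          · rw [h1]; exact Finset.mem_image_of_mem _ (hiff.2 h2)
        · by_cases hyF : y ∈ F
          · exact Finset.mem_image.2 ⟨y, hF'' hyF, hs.fix y hy⟩
          · rcases A2 y (Finset.mem_sdiff.2 ⟨hy, hyF⟩) with h1 | ⟨h1, h2⟩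
            · exact Finset.image_subset_image ((Finset.erase_subset _ _).trans
                Finset.sdiff_subset) h1
            · rw [h1]; exact Finset.mem_image_of_mem _ (hiff.1 h2)
      obtain ⟨c1, c2, c3⟩ := C1
      rcases ht.only τ'' hτ'' c1 with e1 | e1
      · left
        have h1 : g ∉ σ'' := fun h' => hkτ (e1 ▸ c2.2 h')
        rw [e1, (hs.only σ'' hσ'' c3).resolve_right fun e => h1 (e ▸ hgσ')]
      · right
        have h1 : g ∈ σ'' := c2.1 (e1 ▸ hkτ')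
        rw [e1, (hs.only σ'' hσ'' c3).resolve_left fun e => hgσ (e ▸ h1)]
  · intro x hx hxw ρ hρ y hy hyx
    rcases Finset.mem_union.1 hx with h1 | h1
    · have hxτ' : x ∈ τ' := by
        rcases Finset.mem_union.1 hxw with h2 | h2
        · exact h2
        · exact absurd h2 (hdis τ hτ σ' hσ' x h1)
      rcases lτ ρ hρ y hy x h1 hyx with ⟨-, h2⟩ | ⟨-, ⟨τ'', hτ'', h3⟩, h4⟩
      · have := ht.uniq x h1 hxτ' τ' hτ' k hkτ' h2.symm
        rw [← this] at h1
        exact absurd h1 hkτ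
      · exact ht.uniq x h1 hxτ' τ'' hτ'' y h3 h4
    · obtain ⟨h2, h3⟩ := Finset.mem_sdiff.1 h1
      have hxσ' : x ∈ σ' := by
        rcases Finset.mem_union.1 hxw with h4 | h4
        · exact absurd h1 (hdis τ' hτ' σ hσ x h4)
        · exact (Finset.mem_sdiff.1 h4).1
      rcases lσ ρ hρ y hy x h1 hyx with ⟨-, h4⟩ | ⟨-, h4, h5⟩
      · have := hs.uniq x h2 hxσ' σ' hσ' g hgσ' h4.symm
        rw [← this] at h2
        exact absurd h2 hgσ
      · obtain ⟨σ'', hσ'', h6⟩ := hmem ρ hρ y hy h4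
        exact hs.uniq x h2 hxσ' σ'' hσ'' y h6 h5

theorem her_subst (hHK : Her K) (hHL : Her L) : Her (subst K F L) := by
  classical
  have hS := pm_subst h
  have main : ∀ v ∈ K, ¬ F ⊆ v → ∀ w ∈ subst K F L, v ≠ w → ∃ r, Ret (subst K F L) v w r := by
    rintro v hv hFv w (⟨hw, hFw⟩ | ⟨σ, hσ, hF, τ, hτ, hτF, rfl⟩) hne
    · obtain ⟨s, hs⟩ := hHK v hv w hw hne
      exact her_subst_oo h hv hFv hw hFw hs
    · have h1 : v ≠ σ := fun e => hFv (e ▸ hF)
      obtain ⟨s, hs⟩ := hHK v hv σ hσ h1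
      obtain ⟨t, ht⟩ := hHL F h.mem τ hτ hτF.symm
      exact her_subst_on h hv hFv hσ hF hτ hs ht
  intro v hv w hw hvw
  have hv' := hv
  have hw' := hw
  rcases hv with ⟨hv, hFv⟩ | ⟨σ, hσ, hF, τ, hτ, hτF, rfl⟩
  · exact main v hv hFv w hw hvw
  · rcases hw with ⟨hw, hFw⟩ | ⟨σ', hσ', hF', τ', hτ', hτ'F, rfl⟩
    · obtain ⟨r, hr⟩ := main w hw hFw _ hv' hvw.symm
      exact hr.symm (by rw [hS.card _ hv', hS.card _ hw']) hw' hv'
    · by_cases e1 : σ = σ'
      · subst e1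
        have hne : τ ≠ τ' := fun e => hvw (by rw [e])
        obtain ⟨t, ht⟩ := hHL τ hτ τ' hτ' hne
        exact her_subst_nn_right h hσ hτ hτF hτ' hτ'F ht
      · obtain ⟨s, hs⟩ := hHK σ hσ σ' hσ' e1
        by_cases e2 : τ = τ'
        · subst e2
          exact her_subst_nn_left h hσ hF hσ' hF' e1 hτ hτF hs
        · obtain ⟨t, ht⟩ := hHL τ hτ τ' hτ' e2
          exact her_subst_nn h hσ hF hσ' hF' e1 hτ hτF hτ' hτ'F e2 hs ht

end Pool.Agent.Lock
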