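import Pool.Agent.Lock.Conv
import Pool.Agent.Lock.Simple
import Pool.Agent.Lock.Subst

set_option autoImplicit false

/-!
# Lifting from a face that is a simple polytope of a labelled type
-/

namespace Pool.Agent.Lock

open Module Relation Set

variable {E : Type*} [NormedAddCommGroup E] [NormedSpace ℝ E] [FiniteDimensional ℝ E]

/-- Lifting to a polytope from a face, for one pair. -/
theorem lp_vec_lift_pair {P G : Set E} (hP : Pt P) (hG : IsExposed ℝ P G)
    {a b : {p // p ∈ G.extremePoints ℝ}} (hab : a ≠ b) {k : ℕ}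
    (hH : ∀ c : Fin k → ℕ, ∑ i, c i + 1 = rk (vec G) univ → LP (vec G) univ a b c)
    (c : Fin k → ℕ) (hc : ∑ i, c i + 1 = rk (vec P) univ) :
    LP (vec P) univ (inc hG a) (inc hG b) c := by
  haveI : Finite {p // p ∈ P.extremePoints ℝ} := hP.fin
  have hne : G.Nonempty := ⟨_, extremePoints_subset a.2⟩
  have hGf : Face (vec P) (range (inc hG)) := by
    rw [inc_range]; exact (face_vs hP hne hG).1
  have hu : inc hG '' univ = range (inc hG) := image_univ
  refine lp_lift (vec_pos P) (allExt hP.cvx hP.fin) hGf Face.univ (subset_univ _) ⟨a, rfl⟩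
    ⟨b, rfl⟩ (fun c₀ h => ?_) hc
  have h1 : ∑ i, c₀ i + 1 = rk (vec G) univ := by
    rw [vec_inc hG, rk_comp, hu]; exact h
  have h2 := hH c₀ h1
  rw [vec_inc hG] at h2
  have h3 := lp_comp (inc_inj hG) hGf h2
  rwa [hu] at h3

/-- A polytope with a labelled type. -/
theorem lp_vec_type {G : Set E} (hG : Pt G) {d : ℕ} {K : Set (Finset ℕ)} (hK : PM d K)
    (hH : Her K) (hd : finrank ℝ (vectorSpan ℝ G) = d) (B : ℕ → Set E)
    (hB : ∀ j, B j = ∅ ∨ (B j).Nonempty ∧ IsExposed ℝ G (B j))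
    (hKB : ∀ σ : Finset ℕ, σ ∈ K ↔ ∃ p ∈ G.extremePoints ℝ, ∀ j, j ∈ σ ↔ p ∈ B j)
    (hex : ∀ p ∈ G.extremePoints ℝ, ∃ σ : Finset ℕ, ∀ j, j ∈ σ ↔ p ∈ B j)
    {a b : {p // p ∈ G.extremePoints ℝ}} (hab : a ≠ b) {k : ℕ} (c : Fin k → ℕ)
    (hc : ∑ i, c i + 1 = rk (vec G) univ) : LP (vec G) univ a b c := by
  haveI : Finite {p // p ∈ G.extremePoints ℝ} := hG.fin
  have hne : G.Nonempty := ⟨_, extremePoints_subset a.2⟩
  have h1 := dim_vec hG hne
  have hT : Typ (vec G) univ K fun j => vs G (B j) := by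
    refine ⟨fun j hj => ?_, fun j => subset_univ _, fun p _ => ?_, fun σ hσ => ?_⟩
    · rcases hB j with h | ⟨h2, h3⟩
      · obtain ⟨p, hp⟩ := hj
        have : p.1 ∈ B j := hp
        rw [h] at this
        exact absurd this (notMem_empty _)
      · exact (face_vs hG h2 h3).1
    · obtain ⟨σ, hσ⟩ := hex p.1 p.2
      exact ⟨σ, (hKB σ).2 ⟨p.1, p.2, hσ⟩, hσ⟩
    · obtain ⟨p, hp, hpj⟩ := (hKB σ).1 hσ
      exact ⟨⟨p, hp⟩, mem_univ _, hpj⟩
  exact lp_simple (allExt hG.cvx hG.fin) hK hH Face.univ hT (by omega) (mem_univ a) (mem_univ b)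
    hab c (by omega)

end Pool.Agent.Lock
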