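import Mathlib

set_option autoImplicit false

/-!
# Faces of acyclic vector configurations

A configuration is a finite family of vectors `x i`; a face is a set `A` of indices on which some
linear functional vanishes and outside which it is positive.
-/

namespace Pool.Agent.Lock

open Module

variable {ι : Type*} {V : Type*} [AddCommGroup V] [Module ℝ V]

/-- Faces of a vector configuration. -/
def Face (x : ι → V) (A : Set ι) : Prop :=
  ∃ l : V →ₗ[ℝ] ℝ, (∀ i ∈ A, l (x i) = 0) ∧ ∀ i ∉ A, 0 < l (x i)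

/-- Rank of a set of indices. -/
noncomputable def rk (x : ι → V) (A : Set ι) : ℕ := finrank ℝ (Submodule.span ℝ (x '' A))

/-- Faces of rank one. -/
def Atom (x : ι → V) (R : Set ι) : Prop := Face x R ∧ rk x R = 1

variable {x : ι → V}

theorem nonneg_of {l : V →ₗ[ℝ] ℝ} {A : Set ι} (h0 : ∀ i ∈ A, l (x i) = 0)
    (h1 : ∀ i ∉ A, 0 < l (x i)) (i : ι) : 0 ≤ l (x i) := by
  by_cases h : i ∈ A
  · rw [h0 i h]
  · exact (h1 i h).le

theorem Face.univ : Face x Set.univ := ⟨0, by simp, by simp⟩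

theorem Face.inter {A B : Set ι} (hA : Face x A) (hB : Face x B) : Face x (A ∩ B) := by
  obtain ⟨l, h0, h1⟩ := hA
  obtain ⟨m, k0, k1⟩ := hB
  refine ⟨l + m, fun i hi => ?_, fun i hi => ?_⟩
  · simp [h0 i hi.1, k0 i hi.2]
  · have e1 := nonneg_of h0 h1 i
    have e2 := nonneg_of k0 k1 i
    rw [LinearMap.add_apply]
    by_cases h : i ∈ A
    · have : i ∉ B := fun h' => hi ⟨h, h'⟩
      linarith [k1 i this]
    · linarith [h1 i h]

theorem face_of_face [Finite ι] {A B : Set ι} (hA : Face x A) (hBA : B ⊆ A) (ψ : V →ₗ[ℝ] ℝ)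
    (h0 : ∀ i ∈ B, ψ (x i) = 0) (h1 : ∀ i ∈ A, i ∉ B → 0 < ψ (x i)) : Face x B := by
  obtain ⟨l, k0, k1⟩ := hA
  obtain ⟨N, hN⟩ : ∃ N : ℝ, ∀ i, i ∉ A → -ψ (x i) < N * l (x i) := by
    obtain ⟨N, hN⟩ := (Set.finite_range fun i => -ψ (x i) / l (x i)).bddAbove
    refine ⟨N + 1, fun i hi => ?_⟩
    have e1 : -ψ (x i) / l (x i) ≤ N := hN ⟨i, rfl⟩
    have e2 := k1 i hi
    rw [div_le_iff₀ e2] at e1
    linarith
  refine ⟨N • l + ψ, fun i hi => ?_, fun i hi => ?_⟩
  · simp [k0 i (hBA hi), h0 i hi]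
  · rw [LinearMap.add_apply, LinearMap.smul_apply, smul_eq_mul]
    by_cases h : i ∈ A
    · rw [k0 i h]
      linarith [h1 i h hi]
    · linarith [hN i h]

theorem zero_on_span {l : V →ₗ[ℝ] ℝ} {A : Set ι} (h0 : ∀ i ∈ A, l (x i) = 0) :
    Submodule.span ℝ (x '' A) ≤ LinearMap.ker l := by
  rw [Submodule.span_le]
  rintro _ ⟨i, hi, rfl⟩
  exact h0 i hi

theorem mem_of_span {A : Set ι} (hA : Face x A) {i : ι}
    (hi : x i ∈ Submodule.span ℝ (x '' A)) : i ∈ A := by
  obtain ⟨l, h0, h1⟩ := hA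
  by_contra hn
  have := zero_on_span h0 hi
  rw [LinearMap.mem_ker] at this
  linarith [h1 i hn]

theorem rk_empty : rk x (∅ : Set ι) = 0 := by
  rw [rk, Set.image_empty, Submodule.span_empty, finrank_bot]

theorem rk_mono [FiniteDimensional ℝ V] {A B : Set ι} (h : A ⊆ B) : rk x A ≤ rk x B :=
  Submodule.finrank_mono (Submodule.span_mono (Set.image_mono h))

theorem eq_of_rk [FiniteDimensional ℝ V] {A B : Set ι} (hA : Face x A) (h : A ⊆ B)
    (hr : rk x B ≤ rk x A) : A = B := by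
  refine Set.Subset.antisymm h fun i hi => ?_
  apply mem_of_span hA
  have e : Submodule.span ℝ (x '' A) = Submodule.span ℝ (x '' B) :=
    Submodule.eq_of_le_of_finrank_le (Submodule.span_mono (Set.image_mono h)) hr
  rw [e]
  exact Submodule.subset_span ⟨i, hi, rfl⟩

theorem rk_lt [FiniteDimensional ℝ V] {A B : Set ι} (hA : Face x A) (h : A ⊂ B) :
    rk x A < rk x B := by
  by_contra hn
  exact h.ne (eq_of_rk hA h.subset (not_lt.1 hn))

theorem Atom.nonempty {R : Set ι} (h : Atom x R) : R.Nonempty := by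
  rw [Set.nonempty_iff_ne_empty]
  rintro rfl
  have := h.2
  rw [rk_empty] at this
  omega

section acyclic

variable [Finite ι] {φ : V →ₗ[ℝ] ℝ} (hφ : ∀ i, 0 < φ (x i))

include hφ

theorem face_empty : Face x ∅ := ⟨φ, by simp, fun i _ => hφ i⟩

theorem max_face {A : Set ι} (hA : Face x A) (hne : A.Nonempty) (ψ : V →ₗ[ℝ] ℝ) :
    ∃ (t : ℝ) (M : Set ι), M.Nonempty ∧ M ⊆ A ∧ Face x M ∧ (∀ i ∈ A, ψ (x i) ≤ t * φ (x i)) ∧
      (∀ i ∈ M, ψ (x i) = t * φ (x i)) ∧ ∀ i ∈ A, ψ (x i) = t * φ (x i) → i ∈ M := by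
  obtain ⟨a, ha, hmax⟩ := Set.exists_max_image A (fun i => ψ (x i) / φ (x i)) A.toFinite hne
  set t : ℝ := ψ (x a) / φ (x a) with ht
  have h1 : ∀ i ∈ A, ψ (x i) ≤ t * φ (x i) := fun i hi => by
    have := hmax i hi
    rwa [div_le_iff₀ (hφ i)] at this
  refine ⟨t, {i | i ∈ A ∧ ψ (x i) = t * φ (x i)}, ⟨a, ha, ?_⟩, fun i hi => hi.1, ?_, h1,
    fun i hi => hi.2, fun i hi h => ⟨hi, h⟩⟩
  · rw [ht, div_mul_cancel₀ _ (hφ a).ne']
  · refine face_of_face hA (fun i hi => hi.1) (t • φ - ψ) (fun i hi => ?_) fun i hi hn => ?_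
    · simp [hi.2]
    · rw [LinearMap.sub_apply, LinearMap.smul_apply, smul_eq_mul, sub_pos]
      exact lt_of_le_of_ne (h1 i hi) fun h => hn ⟨hi, h⟩

theorem exists_atom [FiniteDimensional ℝ V] {A : Set ι} (hA : Face x A) (hne : A.Nonempty) :
    ∃ R ⊆ A, Atom x R := by
  induction' hn : A.ncard using Nat.strong_induction_on with n ih generalizing A
  by_cases h1 : rk x A = 1
  · exact ⟨A, le_rfl, hA, h1⟩
  obtain ⟨i, hi⟩ := hne
  have hxi : x i ≠ 0 := fun h => by
    have := hφ i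
    rw [h, map_zero] at this
    exact lt_irrefl _ this
  obtain ⟨j, hj, hji⟩ : ∃ j ∈ A, x j ∉ Submodule.span ℝ {x i} := by
    by_contra hcon
    push Not at hcon
    apply h1
    have e : Submodule.span ℝ (x '' A) = Submodule.span ℝ {x i} := by
      apply le_antisymm
      · rw [Submodule.span_le]
        rintro _ ⟨j, hj, rfl⟩
        exact hcon j hj
      · exact Submodule.span_mono (by rintro _ rfl; exact ⟨i, hi, rfl⟩)
    rw [rk, e, finrank_span_singleton hxi]
  obtain ⟨f, hfj, hfi⟩ := Submodule.exists_le_ker_of_notMem hji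
  have hfi0 : f (x i) = 0 := hfi (Submodule.mem_span_singleton_self _)
  obtain ⟨ψ, hψj, hψi⟩ : ∃ ψ : V →ₗ[ℝ] ℝ, 0 < ψ (x j) ∧ ψ (x i) = 0 := by
    rcases lt_or_gt_of_ne hfj with h | h
    · exact ⟨-f, by simpa using h, by simp [hfi0]⟩
    · exact ⟨f, h, hfi0⟩
  obtain ⟨t, M, hMne, hMA, hMf, hle, heq, -⟩ := max_face hφ hA ⟨i, hi⟩ ψ
  have ht : 0 < t := by
    have h2 := hle j hj
    have h3 := hφ j
    by_contra hneg
    push Not at hneg
    nlinarith
  have hiM : i ∉ M := by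
    intro h
    have := heq i h
    rw [hψi] at this
    have h3 := hφ i
    have : 0 < t * φ (x i) := by positivity
    linarith
  have hlt : M.ncard < n := by
    rw [← hn]
    exact Set.ncard_lt_ncard ⟨hMA, fun h => hiM (h hi)⟩
  obtain ⟨R, hRM, hR⟩ := ih M.ncard hlt hMf hMne rfl
  exact ⟨R, hRM.trans hMA, hR⟩

theorem pos_atom [FiniteDimensional ℝ V] {A : Set ι} (hA : Face x A) {ψ : V →ₗ[ℝ] ℝ} {j : ι}
    (hj : j ∈ A) (hψ : 0 < ψ (x j)) : ∃ R ⊆ A, Atom x R ∧ ∀ i ∈ R, 0 < ψ (x i) := by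
  obtain ⟨t, M, hMne, hMA, hMf, hle, heq, -⟩ := max_face hφ hA ⟨j, hj⟩ ψ
  have ht : 0 < t := by
    have h2 := hle j hj
    have h3 := hφ j
    by_contra hneg
    push Not at hneg
    nlinarith
  obtain ⟨R, hRM, hR⟩ := exists_atom hφ hMf hMne
  refine ⟨R, hRM.trans hMA, hR, fun i hi => ?_⟩
  rw [heq i (hRM hi)]
  have := hφ i
  positivity

theorem atom_parallel [FiniteDimensional ℝ V] {R : Set ι} (hR : Atom x R) {i j : ι} (hi : i ∈ R)
    (hj : j ∈ R) : ∃ c : ℝ, 0 < c ∧ x j = c • x i := by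
  have hxi : x i ≠ 0 := fun h => by
    have := hφ i
    rw [h, map_zero] at this
    exact lt_irrefl _ this
  have e : Submodule.span ℝ {x i} = Submodule.span ℝ (x '' R) := by
    refine Submodule.eq_of_le_of_finrank_le (Submodule.span_mono ?_) ?_
    · rintro _ rfl
      exact ⟨i, hi, rfl⟩
    · have := hR.2
      rw [rk] at this
      rw [this, finrank_span_singleton hxi]
  have h2 : x j ∈ Submodule.span ℝ {x i} := by
    rw [e]; exact Submodule.subset_span ⟨j, hj, rfl⟩
  obtain ⟨c, hc⟩ := Submodule.mem_span_singleton.1 h2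
  refine ⟨c, ?_, hc.symm⟩
  have h3 := hφ j
  rw [← hc, map_smul, smul_eq_mul] at h3
  exact pos_of_mul_pos_left h3 (hφ i).le

end acyclic

/-! ### Contraction -/

/-- Contraction of a configuration by a set of indices. -/
def con (x : ι → V) (T : Set ι) : {i // i ∉ T} → V ⧸ Submodule.span ℝ (x '' T) :=
  fun i => (Submodule.span ℝ (x '' T)).mkQ (x i)

/-- The set of indices of the original configuration. -/
def ext (T : Set ι) (A : Set {i // i ∉ T}) : Set ι := T ∪ Subtype.val '' A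

/-- The trace of a set of indices. -/
def tr (T : Set ι) (A : Set ι) : Set {i // i ∉ T} := Subtype.val ⁻¹' A

theorem ext_tr {T A : Set ι} (h : T ⊆ A) : ext T (tr T A) = A := by
  ext i
  simp only [ext, tr, Set.mem_union, Set.mem_image, Set.mem_preimage, Subtype.exists,
    exists_and_right, exists_eq_right]
  constructor
  · rintro (h1 | ⟨_, h1⟩)
    · exact h h1
    · exact h1
  · intro h1
    by_cases h2 : i ∈ T
    · exact Or.inl h2
    · exact Or.inr ⟨h2, h1⟩

theorem ext_mono {T : Set ι} {A B : Set {i // i ∉ T}} (h : A ⊆ B) : ext T A ⊆ ext T B :=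
  Set.union_subset_union_right _ (Set.image_mono h)

theorem ext_inter {T : Set ι} (A B : Set {i // i ∉ T}) : ext T A ∩ ext T B = ext T (A ∩ B) := by
  rw [ext, ext, ext, ← Set.union_inter_distrib_left, Set.image_inter Subtype.val_injective]

theorem ext_empty {T : Set ι} : ext T (∅ : Set {i // i ∉ T}) = T := by simp [ext]

theorem con_zero (T : Set ι) {i : ι} (hi : i ∈ T) :
    (Submodule.span ℝ (x '' T)).mkQ (x i) = 0 := by
  rw [Submodule.mkQ_apply, Submodule.Quotient.mk_eq_zero]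
  exact Submodule.subset_span ⟨i, hi, rfl⟩

theorem face_con {T : Set ι} {A : Set {i // i ∉ T}} :
    Face (con x T) A ↔ Face x (ext T A) := by
  constructor
  · rintro ⟨l, h0, h1⟩
    refine ⟨l ∘ₗ (Submodule.span ℝ (x '' T)).mkQ, fun i hi => ?_, fun i hi => ?_⟩
    · rcases hi with hi | ⟨j, hj, rfl⟩
      · rw [LinearMap.comp_apply, con_zero T hi, map_zero]
      · exact h0 j hj
    · have hT : i ∉ T := fun h => hi (Or.inl h)
      exact h1 ⟨i, hT⟩ fun h => hi (Or.inr ⟨_, h, rfl⟩)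
  · rintro ⟨l, h0, h1⟩
    have hk : Submodule.span ℝ (x '' T) ≤ LinearMap.ker l :=
      zero_on_span fun i hi => h0 i (Or.inl hi)
    refine ⟨(Submodule.span ℝ (x '' T)).liftQ l hk, fun i hi => ?_, fun i hi => ?_⟩
    · show (Submodule.span ℝ (x '' T)).liftQ l hk ((Submodule.span ℝ (x '' T)).mkQ (x i)) = 0
      rw [Submodule.mkQ_apply, Submodule.liftQ_apply]
      exact h0 i (Or.inr ⟨i, hi, rfl⟩)
    · show 0 < (Submodule.span ℝ (x '' T)).liftQ l hk ((Submodule.span ℝ (x '' T)).mkQ (x i))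
      rw [Submodule.mkQ_apply, Submodule.liftQ_apply]
      apply h1
      rintro (h | ⟨j, hj, hji⟩)
      · exact i.2 h
      · exact hi (by rwa [← Subtype.ext hji])

theorem rk_con [FiniteDimensional ℝ V] {T : Set ι} {A : Set {i // i ∉ T}} :
    rk (con x T) A + rk x T = rk x (ext T A) := by
  set W := Submodule.span ℝ (x '' T) with hW
  set U := Submodule.span ℝ (x '' ext T A) with hU
  have hWU : W ≤ U := Submodule.span_mono (Set.image_mono Set.subset_union_left)
  have e1 : Submodule.span ℝ (con x T '' A) = U.map W.mkQ := by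
    rw [hU, Submodule.map_span]
    apply le_antisymm
    · refine Submodule.span_mono ?_
      rintro _ ⟨i, hi, rfl⟩
      exact ⟨x i, ⟨i, Or.inr ⟨i, hi, rfl⟩, rfl⟩, rfl⟩
    · rw [Submodule.span_le]
      rintro _ ⟨_, ⟨i, hi, rfl⟩, rfl⟩
      rcases hi with hi | ⟨j, hj, rfl⟩
      · have : W.mkQ (x i) = 0 := con_zero T hi
        rw [SetLike.mem_coe, this]
        exact zero_mem _
      · exact Submodule.subset_span ⟨j, hj, rfl⟩
  have e2 := (W.mkQ.domRestrict U).finrank_range_add_finrank_ker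
  have e3 : LinearMap.range (W.mkQ.domRestrict U) = U.map W.mkQ := by
    rw [LinearMap.domRestrict, LinearMap.range_comp, Submodule.range_subtype]
  have e4 : finrank ℝ (LinearMap.ker (W.mkQ.domRestrict U)) = finrank ℝ W := by
    have : LinearMap.ker (W.mkQ.domRestrict U) = W.comap U.subtype := by
      rw [LinearMap.domRestrict, LinearMap.ker_comp, Submodule.ker_mkQ]
    rw [this]
    exact (Submodule.comapSubtypeEquivOfLe hWU).finrank_eq
  rw [e3, e4, ← e1] at e2
  exact e2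

end Pool.Agent.Lock
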