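import Pool.Agent.Lock.Prod

set_option autoImplicit false

/-!
# The product theorem
-/

namespace Pool.Agent.Lock

open Module Relation Set

variable {ι κ : Type*} {V W E : Type*} [AddCommGroup V] [Module ℝ V] [AddCommGroup W]
  [Module ℝ W] [AddCommGroup E] [Module ℝ E] {x : ι → V} {y : κ → W} {z : ι × κ → E}
  [FiniteDimensional ℝ V] [FiniteDimensional ℝ W] [FiniteDimensional ℝ E] [Finite ι]
  [Finite κ] {φ : V →ₗ[ℝ] ℝ} {φ' : W →ₗ[ℝ] ℝ} {φ'' : E →ₗ[ℝ] ℝ}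

theorem sum_two_le {κ : Type*} [Fintype κ] (a : κ → ℕ) {i j : κ} (h : i ≠ j) :
    a i + a j ≤ ∑ k, a k := by
  classical
  have h1 := Finset.add_sum_erase Finset.univ a (Finset.mem_univ i)
  have h2 := Finset.single_le_sum (f := a) (fun k _ => Nat.zero_le _)
    (Finset.mem_erase.2 ⟨h.symm, Finset.mem_univ j⟩ : j ∈ Finset.univ.erase i)
  omega

theorem pathIn_of_balinski (hφ : ∀ i, 0 < φ (x i)) (hE : AllExt x) {A S : Set ι}
    (hA : Face x A) {p p' : ι} (hp : p ∈ A) (hp' : p' ∈ A) (hne : p ≠ p')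
    (hS : rk x S + 2 ≤ rk x A) (h1 : p ∉ S) (h2 : p' ∉ S) : PathIn x (Sᶜ ∩ A) 1 p p' :=
  path_of_cn hE hne (cn_inter hp (balinski_rk hφ hE hA hS hp hp' h1 h2))

/-- the main construction, once the mixed paths are given -/
theorem PD.assemble (h : PD x y z φ φ' φ'') {A : Set ι} {B : Set κ} (hA : Face x A)
    (hB : Face y B) {p p' : ι} {q q' : κ} (hp : p ∈ A) (hp' : p' ∈ A) (hq : q ∈ B) (hq' : q' ∈ B)
    (hpp : p ≠ p') (hqq : q ≠ q') {k : ℕ} {c a : Fin k → ℕ} (hac : ∀ i, a i ≤ c i)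
    (ha : ∑ i, a i + 1 = Lock.rk x A) (hb : ∑ i, (c i - a i) + 1 = Lock.rk y B)
    {U : Fin k → Set ι} {T : Fin k → Set κ} (hU : ∀ i, U i ⊆ A) (hT : ∀ i, T i ⊆ B)
    (hUp : ∀ i, 1 ≤ a i → PathIn x (U i) (a i) p p')
    (hTp : ∀ i, 1 ≤ c i - a i → PathIn y (T i) (c i - a i) q q')
    (hUd : ∀ i j, i ≠ j → 1 ≤ a i → 1 ≤ a j → U i ∩ U j ⊆ {p, p'})
    (hTd : ∀ i j, i ≠ j → 1 ≤ c i - a i → 1 ≤ c j - a j → T i ∩ T j ⊆ {q, q'})
    (hnoU : ∀ i, a i + 1 < Lock.rk x A → ∀ X, Good x (U i) (a i) X → ¬ (p ∈ X ∧ p' ∈ X))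
    (hnoT : ∀ i, c i - a i + 1 < Lock.rk y B → ∀ X, Good y (T i) (c i - a i) X →
      ¬ (q ∈ X ∧ q' ∈ X))
    {M : Fin k} (hM1 : 1 ≤ a M) (hM2 : a M < c M)
    (cor : Fin k → Set (ι × κ))
    (hmix : ∀ i, 1 ≤ a i → a i < c i → PathIn z ((U i ×ˢ T i) \ cor i) (c i) (p, q) (p', q'))
    (hcor : ∀ i j, i ≠ j → 1 ≤ a i → a i < c i → 1 ≤ a j → a j < c j → ∀ t : ι × κ,
      (t.1 = p ∨ t.1 = p') → (t.2 = q ∨ t.2 = q') → t ∉ cor i → t ∉ cor j →
      t = (p, q) ∨ t = (p', q')) :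
    LP z (A ×ˢ B) (p, q) (p', q') c := by
  classical
  -- the paths in the second factor only
  have hsplit : ∀ i, a i = 0 → 1 ≤ c i → ∃ X Z Y Y', Good y (T i) (c i) X ∧ q ∈ X ∧ q' ∉ X ∧
      Face y Z ∧ Lock.rk y Z = c i ∧ Z ⊆ X ∧ Z ⊆ Y ∧ q' ∈ Y' ∧
      Reach y (T i \ {q}) (c i) Y Y' := by
    intro i h0 h1
    have hiM : i ≠ M := fun e => by rw [e] at h0; omega
    have h2 := sum_two_le (fun j => c j - a j) hiM
    have h3 := hnoT i (by omega)
    have h4 := hTp i (by omega)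
    have e : c i - a i = c i := by omega
    rw [e] at h3 h4
    exact split_path h3 h4
  choose! bX bW bY bY' hb1 hb2 hb3 hb4 hb5 hb6 hb7 hb8 hb9 using hsplit
  set s : Finset (Fin k) := Finset.univ.filter fun i => a i = 0 ∧ 1 ≤ c i with hs
  set S : Set κ := ⋃ i ∈ s, bW i with hS
  have hWS : ∀ i, a i = 0 → 1 ≤ c i → bW i ⊆ S := fun i h0 h1 =>
    Set.subset_biUnion_of_mem (u := bW) (Finset.mem_filter.2 ⟨Finset.mem_univ i, h0, h1⟩)
  have hWq : ∀ i, a i = 0 → 1 ≤ c i → q ∉ bW i ∧ q' ∉ bW i := fun i h0 h1 =>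
    ⟨fun h' => ((hb9 i h0 h1).1.2.1 (hb7 i h0 h1 h')).2 rfl,
      fun h' => hb3 i h0 h1 (hb6 i h0 h1 h')⟩
  have hqS : q ∉ S ∧ q' ∉ S := by
    constructor <;>
    · intro h'
      obtain ⟨i, hi, h''⟩ := Set.mem_iUnion₂.1 h'
      obtain ⟨-, h0, h1⟩ := Finset.mem_filter.1 hi
      first
        | exact (hWq i h0 h1).1 h''
        | exact (hWq i h0 h1).2 h''
  have hSr : Lock.rk y S + 2 ≤ Lock.rk y B := by
    have h1 := rk_biUnion_le (x := y) s bW
    have h2 : ∑ i ∈ s, Lock.rk y (bW i) = ∑ i ∈ s, (c i - a i) := by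
      refine Finset.sum_congr rfl fun i hi => ?_
      obtain ⟨-, h0, h1⟩ := Finset.mem_filter.1 hi
      rw [hb5 i h0 h1, h0]
      rfl
    have hMs : M ∉ s := fun h' => by
      obtain ⟨-, h0, -⟩ := Finset.mem_filter.1 h'
      omega
    have h3 : ∑ i ∈ s, (c i - a i) + (c M - a M) ≤ ∑ i, (c i - a i) := by
      have h5 := Finset.sum_insert (f := fun i => c i - a i) hMs
      have h6 : ∑ i ∈ insert M s, (c i - a i) ≤ ∑ i, (c i - a i) :=
        Finset.sum_le_sum_of_subset (Finset.subset_univ _)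
      omega
    have h4 : Lock.rk y S ≤ ∑ i ∈ s, (c i - a i) := by rw [← h2]; exact h1
    omega
  have pathE := pathIn_of_balinski h.py h.ey hB hq hq' hqq hSr hqS.1 hqS.2
  have pathE' : PathIn x (∅ᶜ ∩ A) 1 p p' := by
    refine pathIn_of_balinski h.px h.ex hA hp hp' hpp ?_ (by simp) (by simp)
    rw [rk_empty]
    have := Finset.single_le_sum (f := a) (fun j _ => Nat.zero_le _) (Finset.mem_univ M)
    omega
  -- the regions
  have key : ∀ i, 1 ≤ c i → ∃ R : Set (ι × κ), R ⊆ A ×ˢ B ∧ PathIn z R (c i) (p, q) (p', q') ∧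
      ∀ t ∈ R, (1 ≤ a i ∧ t.1 ∈ U i ∧ t.2 ∉ S ∧ (t.1 = p → t.2 = q) ∧ (t.1 = p' → t.2 = q')) ∨
        (1 ≤ c i - a i ∧ t.2 ∈ T i ∧ (t.2 = q → t.1 = p) ∧ (t.2 = q' → t.1 = p') ∧
          (t.1 = p ∨ t.1 = p' ∨ t.2 ∈ S)) ∨
        (1 ≤ a i ∧ a i < c i ∧ t.1 ∈ U i ∧ t.2 ∈ T i ∧ t ∉ cor i) := by
    intro i hi
    by_cases h0 : a i = 0
    · -- second factor
      have e : c i - a i = c i := by omega
      have hpath := h.cross_snd (p := p) (p' := p') hi (hb1 i h0 hi) (hb2 i h0 hi) (hb3 i h0 hi)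
        (hb4 i h0 hi) (hb5 i h0 hi) (hb6 i h0 hi) (hb7 i h0 hi) (hb8 i h0 hi) (hb9 i h0 hi)
        (T := bW i) subset_rfl pathE'
      have hWT : bW i ⊆ T i := (hb6 i h0 hi).trans (hb1 i h0 hi).2.1
      refine ⟨_, ?_, hpath, ?_⟩
      · rintro ⟨t1, t2⟩ ((⟨k1, k2⟩ | ⟨k1, k2⟩) | ⟨k1, k2⟩)
        · exact ⟨by rw [show t1 = p from k1]; exact hp, hT i k2.1⟩
        · exact ⟨k1.2, hT i (hWT k2)⟩
        · exact ⟨by rw [show t1 = p' from k1]; exact hp', hT i k2.1⟩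
      · rintro ⟨t1, t2⟩ ht
        right; left
        rcases ht with (⟨k1, k2⟩ | ⟨k1, k2⟩) | ⟨k1, k2⟩
        · refine ⟨by omega, k2.1, fun _ => k1, fun h' => absurd h' k2.2, Or.inl k1⟩
        · refine ⟨by omega, hWT k2, fun h' => ?_, fun h' => ?_, Or.inr (Or.inr (hWS i h0 hi k2))⟩
          · exact absurd (h' ▸ k2) (hWq i h0 hi).1
          · exact absurd (h' ▸ k2) (hWq i h0 hi).2
        · exact ⟨by omega, k2.1, fun h' => absurd h' k2.2, fun _ => k1, Or.inr (Or.inl k1)⟩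
    · have h1 : 1 ≤ a i := by omega
      by_cases h2 : a i < c i
      · refine ⟨_, ?_, hmix i h1 h2, ?_⟩
        · rintro ⟨t1, t2⟩ ⟨⟨k1, k2⟩, -⟩
          exact ⟨hU i k1, hT i k2⟩
        · rintro ⟨t1, t2⟩ ⟨⟨k1, k2⟩, k3⟩
          exact Or.inr (Or.inr ⟨h1, h2, k1, k2, k3⟩)
      · -- first factor
        have e : a i = c i := le_antisymm (hac i) (not_lt.1 h2)
        have hiM : i ≠ M := fun e' => by rw [e'] at e; omega
        have h3 := sum_two_le a hiM
        obtain ⟨X, Z, Y, Y', g1, g2, g3, g4, g5, g6, g7, g8, g9⟩ :=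
          split_path (hnoU i (by omega)) (hUp i h1)
        have hZT : Z ⊆ U i \ {p, p'} := by
          intro j hj
          refine ⟨g1.2.1 (g6 hj), ?_⟩
          rintro (e' | e')
          · exact (g9.1.2.1 (g7 hj)).2 e'
          · rw [Set.mem_singleton_iff] at e'
            exact g3 (e' ▸ g6 hj)
        have hpath := h.cross_fst (q := q) (q' := q') h1 g1 g2 g3 g4 g5 g6 g7 g8 g9 hZT pathE
        rw [e] at hpath
        refine ⟨_, ?_, hpath, ?_⟩
        · rintro ⟨t1, t2⟩ ((⟨k1, k2⟩ | ⟨k1, k2⟩) | ⟨k1, k2⟩)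
          · exact ⟨hU i k1.1, by rw [show t2 = q from k2]; exact hq⟩
          · exact ⟨hU i k1.1, k2.2⟩
          · exact ⟨hU i k1.1, by rw [show t2 = q' from k2]; exact hq'⟩
        · rintro ⟨t1, t2⟩ ht
          left
          rcases ht with (⟨k1, k2⟩ | ⟨k1, k2⟩) | ⟨k1, k2⟩
          · exact ⟨h1, k1.1, by rw [show t2 = q from k2]; exact hqS.1, fun _ => k2,
              fun h' => absurd h' k1.2⟩
          · refine ⟨h1, k1.1, k2.1, fun h' => absurd ?_ k1.2, fun h' => absurd ?_ k1.2⟩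
            · exact Or.inl h'
            · exact Or.inr h'
          · exact ⟨h1, k1.1, by rw [show t2 = q' from k2]; exact hqS.2,
              fun h' => absurd h' k1.2, fun _ => k2⟩
  choose! R hR1 hR2 hR3 using key
  refine ⟨fun i => if 1 ≤ c i then R i else ∅, fun i => ?_, fun i hi => ?_,
    fun i j hij hi hj => ?_⟩
  · by_cases hi : 1 ≤ c i
    · simp only [if_pos hi]; exact hR1 i hi
    · simp only [if_neg hi]; exact Set.empty_subset _
  · simp only [if_pos hi]; exact hR2 i hi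
  · simp only [if_pos hi, if_pos hj]
    rintro ⟨t1, t2⟩ ⟨ht, ht'⟩
    have goal : (t1 = p ∧ t2 = q) ∨ (t1 = p' ∧ t2 = q') → ((t1, t2) : ι × κ) ∈
        ({(p, q), (p', q')} : Set (ι × κ)) := by
      rintro (⟨e1, e2⟩ | ⟨e1, e2⟩)
      · left; rw [e1, e2]
      · right; rw [e1, e2]; rfl
    rcases hR3 i hi _ ht with ⟨i1, i2, i3, i4, i5⟩ | ⟨i1, i2, i3, i4, i5⟩ | ⟨i1, i2, i3, i4, i5⟩
    · -- `i` uses the first factor
      rcases hR3 j hj _ ht' with ⟨j1, j2, j3, j4, j5⟩ | ⟨j1, j2, j3, j4, j5⟩ |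
        ⟨j1, j2, j3, j4, j5⟩
      · rcases hUd i j hij i1 j1 ⟨i2, j2⟩ with e | e
        · exact goal (Or.inl ⟨e, i4 e⟩)
        · exact goal (Or.inr ⟨e, i5 e⟩)
      · rcases j5 with e | e | e
        · exact goal (Or.inl ⟨e, i4 e⟩)
        · exact goal (Or.inr ⟨e, i5 e⟩)
        · exact absurd e i3
      · rcases hUd i j hij i1 j1 ⟨i2, j3⟩ with e | e
        · exact goal (Or.inl ⟨e, i4 e⟩)
        · exact goal (Or.inr ⟨e, i5 e⟩)
    · rcases hR3 j hj _ ht' with ⟨j1, j2, j3, j4, j5⟩ | ⟨j1, j2, j3, j4, j5⟩ |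
        ⟨j1, j2, j3, j4, j5⟩
      · rcases i5 with e | e | e
        · exact goal (Or.inl ⟨e, j4 e⟩)
        · exact goal (Or.inr ⟨e, j5 e⟩)
        · exact absurd e j3
      · rcases hTd i j hij i1 j1 ⟨i2, j2⟩ with e | e
        · exact goal (Or.inl ⟨i3 e, e⟩)
        · exact goal (Or.inr ⟨i4 e, e⟩)
      · rcases hTd i j hij i1 (by omega) ⟨i2, j4⟩ with e | e
        · exact goal (Or.inl ⟨i3 e, e⟩)
        · exact goal (Or.inr ⟨i4 e, e⟩)
    · rcases hR3 j hj _ ht' with ⟨j1, j2, j3, j4, j5⟩ | ⟨j1, j2, j3, j4, j5⟩ |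
        ⟨j1, j2, j3, j4, j5⟩
      · rcases hUd i j hij i1 j1 ⟨i3, j2⟩ with e | e
        · exact goal (Or.inl ⟨e, j4 e⟩)
        · exact goal (Or.inr ⟨e, j5 e⟩)
      · rcases hTd i j hij (by omega) j1 ⟨i4, j2⟩ with e | e
        · exact goal (Or.inl ⟨j3 e, e⟩)
        · exact goal (Or.inr ⟨j4 e, e⟩)
      · have e1 := hUd i j hij i1 j1 ⟨i3, j3⟩
        have e2 := hTd i j hij (by omega) (by omega) ⟨i4, j4⟩
        rcases hcor i j hij i1 i2 j1 j2 (t1, t2) e1 e2 i5 j5 with e | e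
        · exact Or.inl e
        · exact Or.inr e

/-- **The product theorem.** -/
theorem hl_prod (h : PD x y z φ φ' φ'') (hx : HL x) (hy : HL y) : HL z := by
  classical
  refine hl_of_cover h.pz h.ez ?_
  rintro ⟨p, q⟩ ⟨p', q'⟩ hne C hC hpC hp'C hmin k c hc
  obtain ⟨A, B, hA, hB, rfl⟩ := (h.pr C ⟨_, hpC⟩).1 hC
  have hp : p ∈ A := hpC.1
  have hq : q ∈ B := hpC.2
  have hp' : p' ∈ A := hp'C.1
  have hq' : q' ∈ B := hp'C.2
  have hAn : A.Nonempty := ⟨p, hp⟩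
  have hBn : B.Nonempty := ⟨q, hq⟩
  have minA : ∀ G, Face x G → p ∈ G → p' ∈ G → A ⊆ G := by
    intro G hG h1 h2 i hi
    have := hmin (G ×ˢ B) (h.face hG hB ⟨p, h1⟩ hBn) ⟨h1, hq⟩ ⟨h2, hq'⟩
    exact (this (⟨hi, hq⟩ : (i, q) ∈ A ×ˢ B)).1
  have minB : ∀ G, Face y G → q ∈ G → q' ∈ G → B ⊆ G := by
    intro G hG h1 h2 i hi
    have := hmin (A ×ˢ G) (h.face hA hG hAn ⟨q, h1⟩) ⟨hp, h1⟩ ⟨hp', h2⟩
    exact (this (⟨hp, hi⟩ : (p, i) ∈ A ×ˢ B)).2
  have hr := h.rk hA hB hAn hBn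
  by_cases hpp : p = p'
  · -- everything happens in the second factor
    subst hpp
    have hqq : q ≠ q' := fun e => hne (by rw [e])
    have eA : A = {p} := Set.Subset.antisymm (minA {p} (h.ex p).1 rfl rfl)
      (Set.singleton_subset_iff.2 hp)
    subst eA
    rw [(h.ex p).2] at hr
    obtain ⟨U, u1, u2, u3⟩ := hy B hB q hq q' hq' hqq k c (by omega)
    refine ⟨fun i => {p} ×ˢ U i, fun i => Set.prod_mono subset_rfl (u1 i), fun i hi => ?_,
      fun i j hij hi hj => ?_⟩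
    · obtain ⟨Y, Y', hY, hY', hYY⟩ := u2 i hi
      have := h.reach_snd (T := {p} ×ˢ U i) hi (X := {p}) (U := {p}) (m := 0)
        ⟨hA, subset_rfl, (h.ex p).2⟩ hYY subset_rfl
      rw [zero_add] at this
      exact ⟨{p} ×ˢ Y, {p} ×ˢ Y', ⟨rfl, hY⟩, ⟨rfl, hY'⟩, this⟩
    · rintro ⟨t1, t2⟩ ⟨⟨k1, k2⟩, ⟨-, k3⟩⟩
      rcases u3 i j hij hi hj ⟨k2, k3⟩ with e | e
      · left; rw [show t1 = p from k1, show t2 = q from e]
      · right; rw [show t1 = p from k1, show t2 = q' from e]; rfl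
  by_cases hqq : q = q'
  · subst hqq
    have eB : B = {q} := Set.Subset.antisymm (minB {q} (h.ey q).1 rfl rfl)
      (Set.singleton_subset_iff.2 hq)
    subst eB
    rw [(h.ey q).2] at hr
    obtain ⟨U, u1, u2, u3⟩ := hx A hA p hp p' hp' hpp k c (by omega)
    refine ⟨fun i => U i ×ˢ {q}, fun i => Set.prod_mono (u1 i) subset_rfl, fun i hi => ?_,
      fun i j hij hi hj => ?_⟩
    · obtain ⟨Y, Y', hY, hY', hYY⟩ := u2 i hi
      have := h.reach_fst (T := U i ×ˢ {q}) hi hYY (Y := {q}) (U' := {q}) (n := 0)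
        ⟨hB, subset_rfl, (h.ey q).2⟩ subset_rfl
      rw [add_zero] at this
      exact ⟨Y ×ˢ {q}, Y' ×ˢ {q}, ⟨hY, rfl⟩, ⟨hY', rfl⟩, this⟩
    · rintro ⟨t1, t2⟩ ⟨⟨k1, k2⟩, ⟨k3, -⟩⟩
      rcases u3 i j hij hi hj ⟨k1, k3⟩ with e | e
      · left; rw [show t1 = p from e, show t2 = q from k2]
      · right; rw [show t1 = p' from e, show t2 = q from k2]; rfl
  -- the main case
  have rA : 2 ≤ Lock.rk x A := by
    have h1 := rk_pair h.ex hpp
    rw [← h1]
    exact rk_mono (Set.insert_subset hp (Set.singleton_subset_iff.2 hp'))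
  have rB : 2 ≤ Lock.rk y B := by
    have h1 := rk_pair h.ey hqq
    rw [← h1]
    exact rk_mono (Set.insert_subset hq (Set.singleton_subset_iff.2 hq'))
  by_cases hones : ∀ i, c i ≤ 1
  · exact lp_ones h.pz h.ez hC hpC hp'C hne hc hones
  push Not at hones
  obtain ⟨j₀, hj₀⟩ := hones
  obtain ⟨a, hac, hsa, hcase⟩ := exists_split c (g := Lock.rk x A - 1) (h := Lock.rk y B - 1)
    (by omega) (by omega) (by omega) ⟨j₀, hj₀⟩
  have ha : ∑ i, a i + 1 = Lock.rk x A := by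
    rw [hsa]
    exact Nat.sub_add_cancel (by clear hcase; omega)
  have hb : ∑ i, (c i - a i) + 1 = Lock.rk y B := by
    have : ∑ i, (c i - a i) + ∑ i, a i = ∑ i, c i := by
      rw [← Finset.sum_add_distrib]
      exact Finset.sum_congr rfl fun i _ => Nat.sub_add_cancel (hac i)
    clear hcase
    omega
  obtain ⟨U, u1, u2, u3⟩ := hx A hA p hp p' hp' hpp k a ha
  obtain ⟨T, t1, t2, t3⟩ := hy B hB q hq q' hq' hqq k (fun i => c i - a i) hb
  have hnoU : ∀ i, a i + 1 < Lock.rk x A → ∀ X, Good x (U i) (a i) X → ¬ (p ∈ X ∧ p' ∈ X) := by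
    rintro i hi X hX ⟨h1, h2⟩
    have h3 := rk_mono (x := x) (minA X hX.1 h1 h2)
    rw [hX.2.2] at h3
    exact absurd hi (not_lt.2 h3)
  have hnoT : ∀ i, c i - a i + 1 < Lock.rk y B → ∀ X, Good y (T i) (c i - a i) X →
      ¬ (q ∈ X ∧ q' ∈ X) := by
    rintro i hi X hX ⟨h1, h2⟩
    have h3 := rk_mono (x := y) (minB X hX.1 h1 h2)
    rw [hX.2.2] at h3
    exact absurd hi (not_lt.2 h3)
  rcases hcase with ⟨M, hM1, hM2, hM3⟩ | ⟨M, N, hMN, hM1, hM2, hN1, hN2, hMN3⟩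
  · refine h.assemble hA hB hp hp' hq hq' hpp hqq hac ha hb u1 t1 u2 t2 u3 t3 hnoU hnoT hM1 hM2
      (fun _ => ∅) (fun i h1 h2 => ?_) (fun i j hij h1 h2 h3 h4 => ?_)
    · have := h.both h1 (Nat.sub_pos_of_lt h2) (u2 i h1) (t2 i (Nat.sub_pos_of_lt h2))
      rw [Set.sdiff_empty]
      have e : a i + (c i - a i) = c i := by omega
      rwa [e] at this
    · exfalso
      have e1 : i = M := by
        by_contra hn
        rcases hM3 i hn with e | e <;> omega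
      have e2 : j = M := by
        by_contra hn
        rcases hM3 j hn with e | e <;> omega
      exact hij (e1.trans e2.symm)
  · have hmx : ∀ i, 1 ≤ a i → a i < c i → i = M ∨ i = N := by
      intro i h1 h2
      by_contra hn
      push Not at hn
      rcases hMN3 i hn.1 hn.2 with e | e <;> omega
    have sM := sum_two_le a hMN
    have sM' := sum_two_le (fun i => c i - a i) hMN
    refine h.assemble hA hB hp hp' hq hq' hpp hqq hac ha hb u1 t1 u2 t2 u3 t3 hnoU hnoT hM1 hM2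
      (fun i => if i = M then {(p, q')} else {(p', q)}) (fun i h1 h2 => ?_)
      (fun i j hij h1 h2 h3 h4 t e1 e2 h5 h6 => ?_)
    · by_cases hiM : i = M
      · subst hiM
        simp only [if_true]
        obtain ⟨X, Z, Y, Y', g1, g2, g3, g4, g5, g6, g7, g8, g9⟩ :=
          split_path (hnoU i (by omega)) (u2 i h1)
        have := h.both_fst (n := c i - a i) h1 (by omega) g1 g2 g4 g5 g6 g7 g8 g9
          (t2 i (by simp only; omega)) (hnoT i (by omega))
        have e : a i + (c i - a i) = c i := by omega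
        rwa [e] at this
      · have hiN := (hmx i h1 h2).resolve_left hiM
        subst hiN
        simp only [if_neg hiM]
        obtain ⟨X, Z, Y, Y', g1, g2, g3, g4, g5, g6, g7, g8, g9⟩ :=
          split_path (hnoT i (by omega)) (t2 i (by simp only; omega))
        have := h.both_snd (n := a i) (by omega) h1 g1 g2 g4 g5 g6 g7 g8 g9
          (u2 i h1) (hnoU i (by omega))
        have e : a i + (c i - a i) = c i := by omega
        rwa [e] at this
    · -- the corners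
      have key : t ≠ (p, q') ∧ t ≠ (p', q) := by
        rcases hmx i h1 h2 with ei | ei
        · have hjM : j ≠ M := fun e => hij (ei.trans e.symm)
          simp only [ei, if_true] at h5
          simp only [if_neg hjM] at h6
          exact ⟨h5, h6⟩
        · have hiM : i ≠ M := fun e => hMN (e.symm.trans ei)
          have hjM : j = M := (hmx j h3 h4).resolve_right fun e => hij (ei.trans e.symm)
          simp only [if_neg hiM] at h5
          simp only [hjM, if_true] at h6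
          exact ⟨h6, h5⟩
      obtain ⟨t1', t2'⟩ := t
      simp only at e1 e2
      rcases e1 with e1 | e1 <;> rcases e2 with e2 | e2
      · left; rw [e1, e2]
      · exact absurd (by rw [e1, e2]) key.1
      · exact absurd (by rw [e1, e2]) key.2
      · right; rw [e1, e2]

end Pool.Agent.Lock
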