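import Pool.Agent.Lock.Split

set_option autoImplicit false

/-!
# Free sums
-/

namespace Pool.Agent.Lock

open Module Relation Set

variable {ι κ : Type*} {V W E : Type*} [AddCommGroup V] [Module ℝ V] [AddCommGroup W]
  [Module ℝ W] [AddCommGroup E] [Module ℝ E] {x : ι → V} {y : κ → W} {z : ι ⊕ κ → E}

/-- The proper faces of `z` are the unions of proper faces. -/
def IsSum (x : ι → V) (y : κ → W) (z : ι ⊕ κ → E) : Prop :=
  ∀ C : Set (ι ⊕ κ), C.Nonempty → (Face z C ↔ C = univ ∨ ∃ A B, Face x A ∧ Face y B ∧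
    A ≠ univ ∧ B ≠ univ ∧ C = Sum.inl '' A ∪ Sum.inr '' B)

/-- all data of a free sum -/
structure SD (x : ι → V) (y : κ → W) (z : ι ⊕ κ → E) (φ : V →ₗ[ℝ] ℝ) (φ' : W →ₗ[ℝ] ℝ)
    (φ'' : E →ₗ[ℝ] ℝ) : Prop where
  px : ∀ i, 0 < φ (x i)
  py : ∀ i, 0 < φ' (y i)
  pz : ∀ i, 0 < φ'' (z i)
  ex : AllExt x
  ey : AllExt y
  ez : AllExt z
  rx : 2 ≤ rk x univ
  ry : 2 ≤ rk y univ
  pr : IsSum x y z

/-- the conclusion for a pair in the smallest face -/
def PP (z : ι → V) (a b : ι) : Prop := ∀ G, Face z G → a ∈ G → b ∈ G →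
  (∀ G', Face z G' → a ∈ G' → b ∈ G' → G ⊆ G') →
  ∀ (k : ℕ) (c : Fin k → ℕ), ∑ i, c i + 1 = rk z G → LP z G a b c

theorem Same.pp {y : κ → W} {e : ι ≃ κ} (h : Same x y e) {a b : ι} (hx : PP x a b) :
    PP y (e a) (e b) := by
  have key : ∀ A : Set κ, e '' (e.symm '' A) = A := fun A => by
    rw [← Set.image_comp]; simp
  have key' : ∀ A : Set ι, e.symm '' (e '' A) = A := fun A => by
    rw [← Set.image_comp]; simp
  intro G hG ha hb hmin k c hc
  have hG' : Face x (e.symm '' G) := by rw [h.face, key]; exact hG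
  have h1 := hx (e.symm '' G) hG' ⟨e a, ha, by simp⟩ ⟨e b, hb, by simp⟩
    (fun G' h1 h2 h3 => by
      have := hmin (e '' G') ((h.face G').1 h1) (mem_image_of_mem _ h2) (mem_image_of_mem _ h3)
      have h4 := image_mono (f := e.symm) this
      rwa [key'] at h4) k c (by rw [h.rk _ hG', key]; exact hc)
  have h2 := h.lp h1
  rwa [key] at h2

section

variable [FiniteDimensional ℝ V] [FiniteDimensional ℝ W] [FiniteDimensional ℝ E] [Finite ι]
  [Finite κ] {φ : V →ₗ[ℝ] ℝ} {φ' : W →ₗ[ℝ] ℝ} {φ'' : E →ₗ[ℝ] ℝ}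

theorem SD.swap (h : SD x y z φ φ' φ'') : SD y x (z ∘ Sum.swap) φ' φ φ'' ∧
    Same (z ∘ Sum.swap) z (Equiv.sumComm κ ι) := by
  have hsame : Same (z ∘ Sum.swap) z (Equiv.sumComm κ ι) := by
    refine same_of_face (φ := φ'') (φ' := φ'') (fun i => h.pz _) h.pz _ fun A _ => ?_
    constructor
    · rintro ⟨l, h0, h1⟩
      refine ⟨l, ?_, fun i hi => ?_⟩
      · rintro _ ⟨i, hi, rfl⟩
        exact h0 i hi
      · have := h1 (Sum.swap i) fun h' => hi ⟨_, h', by simp⟩
        simpa using this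
    · rintro ⟨l, h0, h1⟩
      refine ⟨l, fun i hi => h0 _ ⟨i, hi, rfl⟩, fun i hi => h1 _ ?_⟩
      rintro ⟨j, hj, hji⟩
      exact hi ((Equiv.sumComm κ ι).injective hji ▸ hj)
  refine ⟨⟨h.py, h.px, fun i => h.pz _, h.ey, h.ex, ?_, h.ry, h.rx, ?_⟩, hsame⟩
  · intro i
    have h1 := h.ez (Sum.swap i)
    have h2 : (Equiv.sumComm κ ι) '' {i} = {Sum.swap i} := by
      rw [Set.image_singleton]; rfl
    have h3 : Face (z ∘ Sum.swap) {i} := by rw [hsame.face, h2]; exact h1.1
    exact ⟨h3, by rw [hsame.rk _ h3, h2]; exact h1.2⟩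
  · intro C hC
    rw [hsame.face, h.pr _ (hC.image _)]
    have e1 : ∀ (A : Set ι) (B : Set κ), (Equiv.sumComm κ ι) '' (Sum.inl '' B ∪ Sum.inr '' A) =
        Sum.inl '' A ∪ Sum.inr '' B := by
      intro A B
      rw [Set.image_union, ← Set.image_comp, ← Set.image_comp, Set.union_comm]
      rfl
    constructor
    · rintro (h1 | ⟨A, B, h1, h2, h3, h4, h5⟩)
      · left
        have e2 : (Equiv.sumComm κ ι) '' univ = univ := by
          rw [Set.image_univ]; exact (Equiv.sumComm κ ι).range_eq_univ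
        exact (Equiv.sumComm κ ι).injective.image_injective (h1.trans e2.symm)
      · right
        refine ⟨B, A, h2, h1, h4, h3, ?_⟩
        exact (Equiv.sumComm κ ι).injective.image_injective (h5.trans (e1 A B).symm)
    · rintro (h1 | ⟨B, A, h1, h2, h3, h4, h5⟩)
      · left
        rw [h1, Set.image_univ]
        exact (Equiv.sumComm κ ι).range_eq_univ
      · right
        exact ⟨A, B, h2, h1, h4, h3, by rw [h5, e1]⟩

variable (h : SD x y z φ φ' φ'')

include h

theorem SD.face {A : Set ι} {B : Set κ} (hA : Face x A) (hB : Face y B) (hA' : A ≠ univ)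
    (hB' : B ≠ univ) : Face z (Sum.inl '' A ∪ Sum.inr '' B) := by
  rcases Set.eq_empty_or_nonempty (Sum.inl '' A ∪ Sum.inr '' B : Set (ι ⊕ κ)) with h1 | h1
  · rw [h1]; exact face_empty h.pz
  · exact (h.pr _ h1).2 (Or.inr ⟨A, B, hA, hB, hA', hB', rfl⟩)

omit [FiniteDimensional ℝ V] [FiniteDimensional ℝ W] [FiniteDimensional ℝ E] [Finite ι]
  [Finite κ] h in
theorem img_sub {A A' : Set ι} {B B' : Set κ} :
    (Sum.inl '' A ∪ Sum.inr '' B : Set (ι ⊕ κ)) ⊆ Sum.inl '' A' ∪ Sum.inr '' B' ↔
      A ⊆ A' ∧ B ⊆ B' := by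
  constructor
  · intro h
    refine ⟨fun i hi => ?_, fun i hi => ?_⟩
    · rcases h (Or.inl ⟨i, hi, rfl⟩) with ⟨j, hj, e⟩ | ⟨j, hj, e⟩
      · exact Sum.inl_injective e ▸ hj
      · cases e
    · rcases h (Or.inr ⟨i, hi, rfl⟩) with ⟨j, hj, e⟩ | ⟨j, hj, e⟩
      · cases e
      · exact Sum.inr_injective e ▸ hj
  · rintro ⟨h1, h2⟩
    exact Set.union_subset_union (Set.image_mono h1) (Set.image_mono h2)

omit [FiniteDimensional ℝ V] [FiniteDimensional ℝ W] [FiniteDimensional ℝ E] [Finite ι]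
  [Finite κ] h in
theorem img_inter (A A' : Set ι) (B B' : Set κ) :
    (Sum.inl '' A ∪ Sum.inr '' B : Set (ι ⊕ κ)) ∩ (Sum.inl '' A' ∪ Sum.inr '' B') =
      Sum.inl '' (A ∩ A') ∪ Sum.inr '' (B ∩ B') := by
  ext t
  rcases t with t | t <;> simp

omit [FiniteDimensional ℝ V] [FiniteDimensional ℝ W] [FiniteDimensional ℝ E] [Finite ι]
  [Finite κ] h in
theorem img_pre (C : Set (ι ⊕ κ)) :
    Sum.inl '' (Sum.inl ⁻¹' C) ∪ Sum.inr '' (Sum.inr ⁻¹' C) = C := by
  ext t
  rcases t with t | t <;> simp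

/-- the rank function of a free sum -/
theorem SD.rks : (∀ {A : Set ι} {B : Set κ}, Face x A → Face y B → A ≠ univ → B ≠ univ →
    rk z (Sum.inl '' A ∪ Sum.inr '' B) = rk x A + rk y B) ∧
    rk z univ + 1 = rk x univ + rk y univ := by
  classical
  have hx := h.rx
  have hy := h.ry
  set ρ : Set (ι ⊕ κ) → ℕ := fun C => if C = univ then rk x univ + rk y univ - 1 else
    rk x (Sum.inl ⁻¹' C) + rk y (Sum.inr ⁻¹' C) with hρ
  have hne : ∀ {A : Set ι} {B : Set κ}, A ≠ univ →
      (Sum.inl '' A ∪ Sum.inr '' B : Set (ι ⊕ κ)) ≠ univ := by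
    intro A B hA e
    apply hA
    rw [Set.eq_univ_iff_forall] at e ⊢
    intro i
    rcases e (Sum.inl i) with ⟨j, hj, e'⟩ | ⟨j, hj, e'⟩
    · exact Sum.inl_injective e' ▸ hj
    · cases e'
  have hρ1 : ∀ {A : Set ι} {B : Set κ}, A ≠ univ →
      ρ (Sum.inl '' A ∪ Sum.inr '' B) = rk x A + rk y B := by
    intro A B hA
    simp only [hρ, if_neg (hne hA)]
    congr 2 <;> (ext t; simp)
  have hρ2 : ρ univ = rk x univ + rk y univ - 1 := by simp only [hρ, if_true]
  have hlt : ∀ {A : Set ι}, Face x A → A ≠ univ → rk x A < rk x univ := fun hA hA' =>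
    rk_lt hA ((Set.subset_univ _).ssubset_of_ne hA')
  have hlt' : ∀ {B : Set κ}, Face y B → B ≠ univ → rk y B < rk y univ := fun hB hB' =>
    rk_lt hB ((Set.subset_univ _).ssubset_of_ne hB')
  have hiu : (∅ : Set ι) ≠ univ := fun e => by rw [← e, rk_empty] at hx; omega
  have hku : (∅ : Set κ) ≠ univ := fun e => by rw [← e, rk_empty] at hy; omega
  have huniv : (univ : Set (ι ⊕ κ)).Nonempty := by
    obtain ⟨i, -⟩ := nonempty_of_rk (x := x) (A := univ) (by omega)
    exact ⟨Sum.inl i, trivial⟩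
  have e0 : (∅ : Set (ι ⊕ κ)) = Sum.inl '' ∅ ∪ Sum.inr '' ∅ := by simp
  have key : ∀ C, Face z C → rk z C = ρ C := by
    intro C hC
    refine rk_unique h.pz ρ ?_ (fun C D hC hD hCD => ?_) (fun C hC hne' => ?_) hC
    · rw [e0, hρ1 hiu, rk_empty, rk_empty]
    · have hC' : ∃ A B, Face x A ∧ Face y B ∧ A ≠ univ ∧ B ≠ univ ∧
          C = Sum.inl '' A ∪ Sum.inr '' B := by
        rcases Set.eq_empty_or_nonempty C with rfl | hCn
        · exact ⟨∅, ∅, face_empty h.px, face_empty h.py, hiu, hku, e0⟩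
        · rcases (h.pr C hCn).1 hC with rfl | h1
          · exact absurd (Set.subset_univ _) hCD.2
          · exact h1
      obtain ⟨A, B, a1, a2, a3, a4, rfl⟩ := hC'
      have hDn : D.Nonempty := by
        obtain ⟨d, hd, -⟩ := Set.exists_of_ssubset hCD
        exact ⟨d, hd⟩
      rcases (h.pr D hDn).1 hD with rfl | ⟨A', B', b1, b2, b3, b4, rfl⟩
      · rw [hρ1 a3, hρ2]
        have := hlt a1 a3
        have := hlt' a2 a4
        omega
      · rw [hρ1 a3, hρ1 b3]
        obtain ⟨s1, s2⟩ := img_sub.1 hCD.subset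
        by_cases hAA : A = A'
        · have hBB : B ≠ B' := fun e => hCD.ne (by rw [hAA, e])
          have := rk_lt a2 (s2.ssubset_of_ne hBB)
          rw [hAA]
          omega
        · have := rk_lt a1 (s1.ssubset_of_ne hAA)
          have := rk_mono (x := y) s2
          omega
    · rcases (h.pr C hne').1 hC with rfl | ⟨A, B, a1, a2, a3, a4, rfl⟩
      · obtain ⟨F, f1, -, f2, f3⟩ := exists_facet (Face.univ (x := x)) (face_empty h.px)
          ((Set.empty_subset _).ssubset_of_ne hiu)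
        obtain ⟨G, g1, -, g2, g3⟩ := exists_facet (Face.univ (x := y)) (face_empty h.py)
          ((Set.empty_subset _).ssubset_of_ne hku)
        have fne : F ≠ univ := fun e => by rw [e] at f3; omega
        have gne : G ≠ univ := fun e => by rw [e] at g3; omega
        refine ⟨Sum.inl '' F ∪ Sum.inr '' G, h.face f1 g1 fne gne,
          (Set.subset_univ _).ssubset_of_ne (hne fne), ?_⟩
        rw [hρ1 fne, hρ2]
        omega
      · by_cases hAn : A.Nonempty
        · obtain ⟨F, f1, -, f2, f3⟩ := exists_facet a1 (face_empty h.px)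
            (Set.empty_ssubset.2 hAn)
          have fne : F ≠ univ := fun e => a3 (Set.eq_univ_of_univ_subset (e ▸ f2))
          refine ⟨Sum.inl '' F ∪ Sum.inr '' B, h.face f1 a2 fne a4, ?_, ?_⟩
          · refine ⟨img_sub.2 ⟨f2, subset_rfl⟩, fun s => ?_⟩
            have := rk_mono (x := x) (img_sub.1 s).1
            omega
          · rw [hρ1 fne, hρ1 a3]
            omega
        · rw [Set.not_nonempty_iff_eq_empty] at hAn
          subst hAn
          have hBn : B.Nonempty := by
            rw [Set.image_empty, Set.empty_union, Set.image_nonempty] at hne'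
            exact hne'
          obtain ⟨F, f1, -, f2, f3⟩ := exists_facet a2 (face_empty h.py)
            (Set.empty_ssubset.2 hBn)
          have fne : F ≠ univ := fun e => a4 (Set.eq_univ_of_univ_subset (e ▸ f2))
          refine ⟨Sum.inl '' ∅ ∪ Sum.inr '' F, h.face a1 f1 a3 fne, ?_, ?_⟩
          · refine ⟨img_sub.2 ⟨subset_rfl, f2⟩, fun s => ?_⟩
            have := rk_mono (x := y) (img_sub.1 s).2
            omega
          · rw [hρ1 a3, hρ1 a3]
            omega
  refine ⟨fun {A B} hA hB hA' hB' => ?_, ?_⟩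
  · rw [key _ (h.face hA hB hA' hB'), hρ1 hA']
  · rw [key _ Face.univ, hρ2]
    omega

/-- the construction for two indices on the left without common proper face -/
theorem SD.assemble {i i' : ι} {k : ℕ} {c c' : Fin k → ℕ} (hc : ∀ j, c' j ≤ c j)
    {B : Fin k → Set κ} (hB : ∀ j, Face y (B j)) (hBr : ∀ j, rk y (B j) = c j - c' j)
    (hBu : ∀ j, B j ≠ univ) (hBd : ∀ j l, j ≠ l → Disjoint (B j) (B l))
    {U : Fin k → Set ι} (hU : ∀ j, 1 ≤ c' j → PathIn x (U j) (c' j) i i')
    (hUr : ∀ j, 1 ≤ c' j → c' j + 1 < rk x univ)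
    (hUd : ∀ j l, j ≠ l → 1 ≤ c' j → 1 ≤ c' l → U j ∩ U l ⊆ {i, i'}) :
    LP z univ (Sum.inl i) (Sum.inl i') c := by
  classical
  obtain ⟨hrk, -⟩ := h.rks
  have hx := h.rx
  have ne_of_rk : ∀ {X : Set ι}, rk x X < rk x univ → X ≠ univ := fun hX e => by
    rw [e] at hX; exact lt_irrefl _ hX
  have hsing : ∀ i, ({i} : Set ι) ≠ univ := fun i => ne_of_rk (by rw [(h.ex i).2]; omega)
  have hiu : (∅ : Set ι) ≠ univ := ne_of_rk (by rw [rk_empty]; omega)
  refine ⟨fun j => if 1 ≤ c' j then Sum.inl '' U j ∪ Sum.inr '' B j else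
    Sum.inl '' {i, i'} ∪ Sum.inr '' B j, fun _ => Set.subset_univ _, fun j hj => ?_,
    fun j l hjl hj hl => ?_⟩
  · by_cases h1 : 1 ≤ c' j
    · simp only [if_pos h1]
      obtain ⟨X, Y, hX, hY, hXY⟩ := hU j h1
      have good : ∀ X, Good x (U j) (c' j) X →
          Good z (Sum.inl '' U j ∪ Sum.inr '' B j) (c j) (Sum.inl '' X ∪ Sum.inr '' B j) := by
        intro X hX
        have hXu : X ≠ univ := ne_of_rk (by rw [hX.2.2]; exact hUr j h1)
        refine ⟨h.face hX.1 (hB j) hXu (hBu j), img_sub.2 ⟨hX.2.1, subset_rfl⟩, ?_⟩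
        rw [hrk hX.1 (hB j) hXu (hBu j), hX.2.2, hBr]
        have := hc j
        omega
      refine ⟨_, _, Or.inl ⟨i, hX, rfl⟩, Or.inl ⟨i', hY, rfl⟩, good X hXY.1, good Y hXY.2.1,
        hXY.2.2.lift (fun X => Sum.inl '' X ∪ Sum.inr '' B j) fun P Q hPQ => ?_⟩
      refine ⟨good P hPQ.1, good Q hPQ.2.1, ?_⟩
      have hPu : P ≠ univ := ne_of_rk (by rw [hPQ.1.2.2]; exact hUr j h1)
      have hPQu : P ∩ Q ≠ univ := fun e => hPu (Set.eq_univ_of_univ_subset
        (by rw [← e]; exact Set.inter_subset_left))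
      rw [img_inter, Set.inter_self, hrk (hPQ.1.1.inter hPQ.2.1.1) (hB j) hPQu (hBu j),
        hPQ.2.2, hBr]
      have := hc j
      omega
    · simp only [if_neg h1]
      have h0 : c' j = 0 := by omega
      have hr : rk y (B j) = c j := by rw [hBr, h0]; rfl
      have good : ∀ t ∈ ({i, i'} : Set ι), Good z (Sum.inl '' {i, i'} ∪ Sum.inr '' B j) (c j)
          (Sum.inl '' {t} ∪ Sum.inr '' B j) := by
        intro t ht
        refine ⟨h.face (h.ex t).1 (hB j) (hsing t) (hBu j),
          img_sub.2 ⟨Set.singleton_subset_iff.2 ht, subset_rfl⟩, ?_⟩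
        rw [hrk (h.ex t).1 (hB j) (hsing t) (hBu j), (h.ex t).2, hr]
        omega
      refine ⟨Sum.inl '' {i} ∪ Sum.inr '' B j, Sum.inl '' {i'} ∪ Sum.inr '' B j,
        Or.inl ⟨i, rfl, rfl⟩, Or.inl ⟨i', rfl, rfl⟩, ?_⟩
      refine reach_of_common (R := Sum.inl '' ∅ ∪ Sum.inr '' B j) (good i (by simp))
        (good i' (by simp)) (img_sub.2 ⟨Set.empty_subset _, subset_rfl⟩)
        (img_sub.2 ⟨Set.empty_subset _, subset_rfl⟩) ?_
      rw [hrk (face_empty h.px) (hB j) hiu (hBu j), rk_empty, hr]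
      omega
  · have hBB : B j ∩ B l = ∅ := Set.disjoint_iff_inter_eq_empty.1 (hBd j l hjl)
    have fin : ∀ P : Set ι, P ⊆ {i, i'} → (Sum.inl '' P ∪ Sum.inr '' (B j ∩ B l) : Set (ι ⊕ κ)) ⊆
        {Sum.inl i, Sum.inl i'} := by
      intro P hP
      rw [hBB, Set.image_empty, Set.union_empty]
      rintro _ ⟨t, ht, rfl⟩
      rcases hP ht with e | e
      · left; rw [e]
      · right
        rw [Set.mem_singleton_iff] at e
        rw [e]; rfl
    by_cases h1 : 1 ≤ c' j
    · by_cases h2 : 1 ≤ c' l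
      · simp only [if_pos h1, if_pos h2]
        rw [img_inter]
        exact fin _ (hUd j l hjl h1 h2)
      · simp only [if_pos h1, if_neg h2]
        rw [img_inter]
        exact fin _ Set.inter_subset_right
    · by_cases h2 : 1 ≤ c' l
      · simp only [if_neg h1, if_pos h2]
        rw [img_inter]
        exact fin _ Set.inter_subset_left
      · simp only [if_neg h1, if_neg h2]
        rw [img_inter]
        exact fin _ Set.inter_subset_left

/-- two indices on the left -/
theorem SD.pp_left (hx : HL x) {i i' : ι} (hne : i ≠ i') : PP z (Sum.inl i) (Sum.inl i') := by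
  classical
  obtain ⟨hrk, hru⟩ := h.rks
  have rx := h.rx
  have ry := h.ry
  have ne_of_rk : ∀ {X : Set ι}, rk x X < rk x univ → X ≠ univ := fun hX e => by
    rw [e] at hX; exact lt_irrefl _ hX
  have ne_of_rk' : ∀ {X : Set κ}, rk y X < rk y univ → X ≠ univ := fun hX e => by
    rw [e] at hX; exact lt_irrefl _ hX
  have hku : (∅ : Set κ) ≠ univ := ne_of_rk' (by rw [rk_empty]; omega)
  intro G hG hiG hi'G hmin k c hc
  obtain ⟨A, hA, -, hiA, hi'A, hminA⟩ := exists_min_face (Face.univ (x := x)) (a := i) (b := i')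
    trivial trivial
  by_cases hAu : A = univ
  · -- no common proper face
    have hGu : G = univ := by
      rcases (h.pr G ⟨_, hiG⟩).1 hG with h1 | ⟨A', B', a1, a2, a3, a4, rfl⟩
      · exact h1
      · exfalso
        apply a3
        apply Set.eq_univ_of_univ_subset
        rw [← hAu]
        apply hminA A' a1
        · rcases hiG with ⟨j, hj, e⟩ | ⟨j, hj, e⟩
          · exact Sum.inl_injective e ▸ hj
          · cases e
        · rcases hi'G with ⟨j, hj, e⟩ | ⟨j, hj, e⟩
          · exact Sum.inl_injective e ▸ hj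
          · cases e
    subst hGu
    by_cases hs : ∃ j, c j + 1 = rk z univ
    · obtain ⟨j, hj⟩ := hs
      exact lp_single hG hiG hi'G hc hj
    push Not at hs
    have hle : ∀ j, c j ≤ ∑ l, c l := fun j =>
      Finset.single_le_sum (f := c) (fun l _ => Nat.zero_le _) (Finset.mem_univ j)
    by_cases h2 : rk x univ = 2
    · -- a segment
      obtain ⟨B, b1, -, b3, b4⟩ := disjoint_faces h.py (Face.univ (x := y)) c (by omega)
      refine h.assemble (c' := fun _ => 0) (fun _ => Nat.zero_le _) b1 b3 (fun j => ?_) b4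
        (U := fun _ => ∅) (fun j hj => by omega) (fun j hj => by omega)
        (fun j l _ hj => by omega)
      apply ne_of_rk'
      rw [b3]
      have h3 := hle j
      have h4 := hs j
      omega
    · -- two nonzero parts
      obtain ⟨j₀, hj₀⟩ : ∃ j, 1 ≤ c j := by
        by_contra hcon
        push Not at hcon
        have : ∑ j, c j = 0 := Finset.sum_eq_zero fun j _ => by
          have := hcon j
          omega
        omega
      obtain ⟨j₁, hj₁, hne₁⟩ : ∃ j, 1 ≤ c j ∧ j ≠ j₀ := by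
        by_contra hcon
        push Not at hcon
        have h3 : ∑ j, c j = c j₀ := by
          apply Finset.sum_eq_single j₀
          · intro j _ hj
            by_contra h4
            exact hj (hcon j (by omega))
          · intro h4
            exact absurd (Finset.mem_univ _) h4
        exact hs j₀ (by rw [← h3]; exact hc)
      set e : Fin k → ℕ := fun j => if j = j₀ ∨ j = j₁ then 1 else 0 with he
      have e0 : e j₀ = 1 := if_pos (Or.inl rfl)
      have e1 : e j₁ = 1 := if_pos (Or.inr rfl)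
      have ele : ∀ j, e j ≤ c j := by
        intro j
        by_cases h3 : j = j₀ ∨ j = j₁
        · simp only [he, if_pos h3]
          rcases h3 with rfl | rfl
          · exact hj₀
          · exact hj₁
        · simp only [he, if_neg h3]; exact Nat.zero_le _
      have esum : ∑ j, e j = 2 := by
        have : ∀ j, e j = (if j = j₀ then 1 else 0) + if j = j₁ then 1 else 0 := by
          intro j
          by_cases h3 : j = j₀
          · subst h3
            simp [he, hne₁.symm]
          · by_cases h4 : j = j₁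
            · subst h4
              simp [he, hne₁]
            · simp [he, h3, h4]
        simp only [this]
        rw [Finset.sum_add_distrib, Finset.sum_ite_eq', Finset.sum_ite_eq']
        simp
      have hsub : ∑ j, (c j - e j) + 2 = ∑ j, c j := by
        rw [← esum, ← Finset.sum_add_distrib]
        exact Finset.sum_congr rfl fun j _ => Nat.sub_add_cancel (ele j)
      obtain ⟨d, d1, d2⟩ := exists_below Finset.univ (fun j => c j - e j) (n := rk x univ - 3)
        (by omega)
      set c' : Fin k → ℕ := fun j => d j + e j with hc'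
      have c1 : ∀ j, c' j ≤ c j := by
        intro j
        have := d1 j
        have := ele j
        simp only [hc']
        omega
      have c2 : ∑ j, c' j + 1 = rk x univ := by
        simp only [hc']
        rw [Finset.sum_add_distrib, d2, esum]
        omega
      have c3 : ∀ j, c' j + 1 < rk x univ := by
        intro j
        by_cases h3 : j = j₀
        · subst h3
          have := sum_two_le' c' hne₁.symm
          have : 1 ≤ c' j₁ := by simp only [hc', e1]; omega
          omega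
        · have := sum_two_le' c' h3
          have : 1 ≤ c' j₀ := by simp only [hc', e0]; omega
          omega
      obtain ⟨U, u1, u2, u3⟩ := hx univ Face.univ i trivial i' trivial hne k c' c2
      have hδ : ∑ j, (c j - c' j) + ∑ j, c' j = ∑ j, c j := by
        rw [← Finset.sum_add_distrib]
        exact Finset.sum_congr rfl fun j _ => Nat.sub_add_cancel (c1 j)
      obtain ⟨B, b1, -, b3, b4⟩ := disjoint_faces h.py (Face.univ (x := y))
        (fun j => c j - c' j) (by omega)
      refine h.assemble c1 b1 b3 (fun j => ?_) b4 u2 (fun j _ => c3 j) u3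
      apply ne_of_rk'
      rw [b3]
      have := Finset.single_le_sum (f := fun j => c j - c' j) (fun l _ => Nat.zero_le _)
        (Finset.mem_univ j)
      omega
  · -- a common proper face
    have hAf : Face z (Sum.inl '' A ∪ Sum.inr '' ∅) := h.face hA (face_empty h.py) hAu hku
    have hsub := hmin _ hAf (Or.inl ⟨i, hiA, rfl⟩) (Or.inl ⟨i', hi'A, rfl⟩)
    have hGA : G = Sum.inl '' A ∪ Sum.inr '' ∅ := by
      refine Set.Subset.antisymm hsub ?_
      rcases (h.pr G ⟨_, hiG⟩).1 hG with h1 | ⟨A', B', a1, a2, a3, a4, rfl⟩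
      · rw [h1]; exact Set.subset_univ _
      · refine img_sub.2 ⟨?_, Set.empty_subset _⟩
        apply hminA A' a1
        · rcases hiG with ⟨j, hj, e⟩ | ⟨j, hj, e⟩
          · exact Sum.inl_injective e ▸ hj
          · cases e
        · rcases hi'G with ⟨j, hj, e⟩ | ⟨j, hj, e⟩
          · exact Sum.inl_injective e ▸ hj
          · cases e
    have hru' := hrk hA (face_empty h.py) hAu hku
    rw [rk_empty, add_zero] at hru'
    subst hGA
    obtain ⟨U, u1, u2, u3⟩ := hx A hA i hiA i' hi'A hne k c (by rw [← hru']; exact hc)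
    have pu : ∀ {X : Set ι}, X ⊆ A → X ≠ univ := fun hX e =>
      hAu (Set.eq_univ_of_univ_subset (e ▸ hX))
    refine ⟨fun j => Sum.inl '' U j ∪ Sum.inr '' ∅, fun j => img_sub.2 ⟨u1 j, subset_rfl⟩,
      fun j hj => ?_, fun j l hjl hj hl => ?_⟩
    · obtain ⟨X, Y, hX, hY, hXY⟩ := u2 j hj
      have good : ∀ X, Good x (U j) (c j) X →
          Good z (Sum.inl '' U j ∪ Sum.inr '' ∅) (c j) (Sum.inl '' X ∪ Sum.inr '' ∅) := by
        intro X hX
        have hXu := pu (hX.2.1.trans (u1 j))
        refine ⟨h.face hX.1 (face_empty h.py) hXu hku, img_sub.2 ⟨hX.2.1, subset_rfl⟩, ?_⟩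
        rw [hrk hX.1 (face_empty h.py) hXu hku, hX.2.2, rk_empty, add_zero]
      refine ⟨_, _, Or.inl ⟨i, hX, rfl⟩, Or.inl ⟨i', hY, rfl⟩, good X hXY.1, good Y hXY.2.1,
        hXY.2.2.lift (fun X => Sum.inl '' X ∪ Sum.inr '' ∅) fun P Q hPQ => ?_⟩
      refine ⟨good P hPQ.1, good Q hPQ.2.1, ?_⟩
      rw [img_inter, Set.inter_self, hrk (hPQ.1.1.inter hPQ.2.1.1) (face_empty h.py)
        (pu (Set.inter_subset_left.trans (hPQ.1.2.1.trans (u1 j)))) hku, hPQ.2.2, rk_empty,
        add_zero]
    · rw [img_inter]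
      rintro _ (⟨t, ht, rfl⟩ | ⟨t, ht, rfl⟩)
      · rcases u3 j l hjl hj hl ht with e | e
        · left; rw [e]
        · right
          rw [Set.mem_singleton_iff] at e
          rw [e]; rfl
      · exact absurd ht (by simp)

/-- one index on each side -/
theorem SD.pp_mixed (i : ι) (j : κ) : PP z (Sum.inl i) (Sum.inr j) ∧
    PP z (Sum.inr j) (Sum.inl i) := by
  have rx := h.rx
  have ry := h.ry
  obtain ⟨hrk, -⟩ := h.rks
  have hi : ({i} : Set ι) ≠ univ := fun e => by rw [← e, (h.ex i).2] at rx; omega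
  have hj : ({j} : Set κ) ≠ univ := fun e => by rw [← e, (h.ey j).2] at ry; omega
  have hF := h.face (h.ex i).1 (h.ey j).1 hi hj
  have hr := hrk (h.ex i).1 (h.ey j).1 hi hj
  rw [(h.ex i).2, (h.ey j).2] at hr
  have gen : ∀ a b : ι ⊕ κ, a ≠ b → a ∈ (Sum.inl '' {i} ∪ Sum.inr '' {j} : Set (ι ⊕ κ)) →
      b ∈ (Sum.inl '' {i} ∪ Sum.inr '' {j} : Set (ι ⊕ κ)) → PP z a b := by
    intro a b hab ha hb G hG haG hbG hmin k c hc
    have h1 := rk_mono (x := z) (hmin _ hF ha hb)
    refine lp_ones h.pz h.ez hG haG hbG hab hc fun l => ?_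
    have := Finset.single_le_sum (f := c) (fun l _ => Nat.zero_le _) (Finset.mem_univ l)
    omega
  refine ⟨gen _ _ (by simp) ?_ ?_, gen _ _ (by simp) ?_ ?_⟩
  · exact Or.inl ⟨i, rfl, rfl⟩
  · exact Or.inr ⟨j, rfl, rfl⟩
  · exact Or.inr ⟨j, rfl, rfl⟩
  · exact Or.inl ⟨i, rfl, rfl⟩

/-- **The free sum theorem.** -/
theorem hl_sum (hx : HL x) (hy : HL y) : HL z := by
  refine hl_of_cover h.pz h.ez ?_
  obtain ⟨hs, hsame⟩ := h.swap
  rintro (i | i) (j | j) hne
  · exact h.pp_left hx fun e => hne (by rw [e])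
  · exact (h.pp_mixed i j).1
  · exact (h.pp_mixed j i).2
  · have := hsame.pp (hs.pp_left hy (fun e => hne (by rw [e]) : i ≠ j))
    exact this

end

end Pool.Agent.Lock
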