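import Pool.Agent.Lock.Poly
import Pool.Agent.Lock.Base3
import Pool.Agent.Lock.ProdMain
import Pool.Agent.Lock.SumOp

set_option autoImplicit false

/-!
# Conversions between polytopes and configurations
-/

namespace Pool.Agent.Lock

open Module Relation Set

section sub

variable {ι κ : Type*} {V : Type*} [AddCommGroup V] [Module ℝ V] {x : ι → V} {j : κ → ι}

theorem rk_comp (B : Set κ) : rk (x ∘ j) B = rk x (j '' B) := by
  rw [rk, rk, image_comp]

theorem face_comp [Finite ι] (hj : Function.Injective j) (hA : Face x (range j)) {B : Set κ} :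
    Face (x ∘ j) B ↔ Face x (j '' B) := by
  constructor
  · rintro ⟨l, h0, h1⟩
    refine face_of_face hA (image_subset_range j B) l ?_ ?_
    · rintro _ ⟨k, hk, rfl⟩
      exact h0 k hk
    · rintro _ ⟨k, rfl⟩ hk
      exact h1 k fun h => hk ⟨k, h, rfl⟩
  · rintro ⟨l, h0, h1⟩
    refine ⟨l, fun k hk => h0 _ ⟨k, hk, rfl⟩, fun k hk => h1 _ ?_⟩
    rintro ⟨k', hk', e⟩
    exact hk (hj e ▸ hk')

theorem good_comp [Finite ι] (hj : Function.Injective j) (hA : Face x (range j)) {U : Set κ}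
    {m : ℕ} {X : Set κ} (h : Good (x ∘ j) U m X) : Good x (j '' U) m (j '' X) :=
  ⟨(face_comp hj hA).1 h.1, image_mono h.2.1, by rw [← rk_comp]; exact h.2.2⟩

theorem reach_comp [Finite ι] (hj : Function.Injective j) (hA : Face x (range j)) {U : Set κ}
    {m : ℕ} {X Y : Set κ} (h : Reach (x ∘ j) U m X Y) : Reach x (j '' U) m (j '' X) (j '' Y) := by
  refine ⟨good_comp hj hA h.1, good_comp hj hA h.2.1,
    h.2.2.lift (fun X => j '' X) fun A B hAB => ?_⟩
  refine ⟨good_comp hj hA hAB.1, good_comp hj hA hAB.2.1, ?_⟩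
  rw [← image_inter hj, ← rk_comp]
  exact hAB.2.2

theorem lp_comp [Finite ι] (hj : Function.Injective j) (hA : Face x (range j)) {A : Set κ}
    {a b : κ} {κ' : Type*} {c : κ' → ℕ} (h : LP (x ∘ j) A a b c) :
    LP x (j '' A) (j a) (j b) c := by
  obtain ⟨U, h1, h2, h3⟩ := h
  refine ⟨fun i => j '' U i, fun i => image_mono (h1 i), fun i hi => ?_,
    fun i k hik hi hk => ?_⟩
  · obtain ⟨X, Y, hX, hY, hXY⟩ := h2 i hi
    exact ⟨j '' X, j '' Y, mem_image_of_mem _ hX, mem_image_of_mem _ hY, reach_comp hj hA hXY⟩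
  · rw [← image_inter hj]
    rintro _ ⟨z, hz, rfl⟩
    rcases h3 i k hik hi hk hz with h4 | h4
    · left; rw [h4]
    · right
      rw [mem_singleton_iff] at h4 ⊢
      rw [h4]

theorem same_comp (x : ι → V) (e : κ ≃ ι) : Same (x ∘ e) x e := by
  refine ⟨fun A => ?_, fun A _ => rk_comp A⟩
  constructor
  · rintro ⟨l, h0, h1⟩
    refine ⟨l, ?_, ?_⟩
    · rintro _ ⟨k, hk, rfl⟩
      exact h0 k hk
    · intro i hi
      have := h1 (e.symm i) fun h => hi ⟨_, h, by simp⟩
      simpa using this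
  · rintro ⟨l, h0, h1⟩
    refine ⟨l, fun k hk => h0 _ ⟨k, hk, rfl⟩, fun k hk => h1 _ ?_⟩
    rintro ⟨k', hk', h⟩
    exact hk (e.injective h ▸ hk')

theorem allExt_comp (e : κ ≃ ι) (h : AllExt x) : AllExt (x ∘ e) := by
  intro k
  refine ⟨?_, ?_⟩
  · rw [(same_comp x e).face, image_singleton]; exact (h _).1
  · rw [rk_comp, image_singleton]; exact (h _).2

end sub

variable {E : Type*} [NormedAddCommGroup E] [NormedSpace ℝ E] [FiniteDimensional ℝ E]

/-- the properties of a polytope that are used -/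
structure Pt (P : Set E) : Prop where
  cpt : IsCompact P
  cvx : Convex ℝ P
  fin : (P.extremePoints ℝ).Finite

theorem pt_of_hull (S : Finset E) : Pt (convexHull ℝ (S : Set E)) :=
  ⟨S.finite_toSet.isCompact_convexHull ℝ, convex_convexHull ℝ _,
    S.finite_toSet.subset extremePoints_convexHull_subset⟩

omit [FiniteDimensional ℝ E] in
theorem vec_pos (P : Set E) (p : {p // p ∈ P.extremePoints ℝ}) :
    0 < LinearMap.snd ℝ E ℝ (vec P p) := by
  simp [vec]

/-- the vertices in a set -/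
def vs (P F : Set E) : Set {p // p ∈ P.extremePoints ℝ} := {p | p.1 ∈ F}

omit [FiniteDimensional ℝ E] in
theorem vs_self (P : Set E) : vs P P = univ := by
  ext p
  exact ⟨fun _ => trivial, fun _ => (extremePoints_subset p.2 : p.1 ∈ P)⟩

/-- faces of the configuration are the vertex sets of the faces -/
theorem face_vec_iff {P : Set E} (hP : Pt P) {A : Set {p // p ∈ P.extremePoints ℝ}}
    (hne : A.Nonempty) :
    Face (vec P) A ↔ ∃ F, (F.Nonempty ∧ IsExposed ℝ P F) ∧ A = vs P F := by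
  constructor
  · intro h
    obtain ⟨h1, h2, h3⟩ := exposed_of_face hP.cpt hP.cvx hP.fin h hne
    exact ⟨pts P A, ⟨h2, h1⟩, h3.symm⟩
  · rintro ⟨F, ⟨h1, h2⟩, rfl⟩
    exact (face_of_exposed hP.cpt hP.cvx hP.fin h2 h1).1

theorem face_vs {P F : Set E} (hP : Pt P) (h1 : F.Nonempty) (h2 : IsExposed ℝ P F) :
    Face (vec P) (vs P F) ∧ finrank ℝ (vectorSpan ℝ F) + 1 = rk (vec P) (vs P F) := by
  obtain ⟨h3, h4, h5⟩ := face_of_exposed hP.cpt hP.cvx hP.fin h2 h1
  refine ⟨h3, ?_⟩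
  have := dim_pts P h5
  rw [← h4] at this
  exact this

theorem dim_vec {P : Set E} (hP : Pt P) (hne : P.Nonempty) :
    finrank ℝ (vectorSpan ℝ P) + 1 = rk (vec P) univ := by
  have := (face_vs hP hne (IsExposed.refl P)).2
  rwa [vs_self] at this

omit [FiniteDimensional ℝ E] in
theorem pt_face {P F : Set E} (hP : Pt P) (h2 : IsExposed ℝ P F) : Pt F :=
  ⟨h2.isCompact hP.cpt, h2.convex hP.cvx, by
    rw [h2.isExtreme.extremePoints_eq]; exact hP.fin.subset inter_subset_right⟩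

/-- the vertices of a face -/
def inc {P F : Set E} (h : IsExposed ℝ P F) :
    {p // p ∈ F.extremePoints ℝ} → {p // p ∈ P.extremePoints ℝ} :=
  fun p => ⟨p.1, (h.isExtreme.extremePoints_eq.subset p.2).2⟩

omit [FiniteDimensional ℝ E] in
theorem inc_inj {P F : Set E} (h : IsExposed ℝ P F) : Function.Injective (inc h) :=
  fun p q e => Subtype.ext (congrArg (fun z : {p // p ∈ P.extremePoints ℝ} => z.1) e)

omit [FiniteDimensional ℝ E] in
theorem inc_range {P F : Set E} (h : IsExposed ℝ P F) : range (inc h) = vs P F := by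
  ext p
  constructor
  · rintro ⟨q, rfl⟩
    exact (extremePoints_subset q.2 : q.1 ∈ F)
  · intro hp
    refine ⟨⟨p.1, ?_⟩, rfl⟩
    rw [h.isExtreme.extremePoints_eq]
    exact ⟨hp, p.2⟩

omit [FiniteDimensional ℝ E] in
theorem vec_inc {P F : Set E} (h : IsExposed ℝ P F) : vec F = vec P ∘ inc h := rfl

/-- Low dimension. -/
theorem hl_vec_low {P : Set E} (hP : Pt P) (hd : finrank ℝ (vectorSpan ℝ P) ≤ 3) :
    HL (vec P) := by
  haveI : Finite {p // p ∈ P.extremePoints ℝ} := hP.fin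
  intro A hA a ha
  have hne : P.Nonempty := ⟨a.1, extremePoints_subset a.2⟩
  refine hl_low (vec_pos P) (allExt hP.cvx hP.fin) ?_ A hA a ha
  rw [← dim_vec hP hne]
  omega

/-- A pair in a face that has the property. -/
theorem lp_vec_face {P G : Set E} (hP : Pt P) (hG : IsExposed ℝ P G) (hH : HL (vec G))
    {A : Set {p // p ∈ P.extremePoints ℝ}} (hA : Face (vec P) A) (hAG : A ⊆ vs P G)
    {a b : {p // p ∈ P.extremePoints ℝ}} (ha : a ∈ A) (hb : b ∈ A) (hab : a ≠ b) {k : ℕ}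
    (c : Fin k → ℕ) (hc : ∑ i, c i + 1 = rk (vec P) A) : LP (vec P) A a b c := by
  haveI : Finite {p // p ∈ P.extremePoints ℝ} := hP.fin
  have hne : G.Nonempty := ⟨a.1, hAG ha⟩
  have hGf : Face (vec P) (range (inc hG)) := by
    rw [inc_range]; exact (face_vs hP hne hG).1
  have hAr : A ⊆ range (inc hG) := by rw [inc_range]; exact hAG
  have hA' : inc hG '' (inc hG ⁻¹' A) = A := image_preimage_eq_of_subset hAr
  obtain ⟨a', rfl⟩ := hAr ha
  obtain ⟨b', rfl⟩ := hAr hb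
  have h1 : Face (vec G) (inc hG ⁻¹' A) := by
    rw [vec_inc hG, face_comp (inc_inj hG) hGf, hA']
    exact hA
  have h2 : ∑ i, c i + 1 = rk (vec G) (inc hG ⁻¹' A) := by
    rw [vec_inc hG, rk_comp, hA']
    exact hc
  have h3 := hH _ h1 a' ha b' hb (fun h => hab (by rw [h])) k c h2
  rw [vec_inc hG] at h3
  have h4 := lp_comp (inc_inj hG) hGf h3
  rwa [hA'] at h4

/-- The covering principle. -/
theorem hl_vec_cover {P : Set E} (hP : Pt P)
    (h : ∀ v w : {p // p ∈ P.extremePoints ℝ}, v ≠ w → ∃ G, IsExposed ℝ P G ∧ v.1 ∈ G ∧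
      w.1 ∈ G ∧ HL (vec G)) : HL (vec P) := by
  haveI : Finite {p // p ∈ P.extremePoints ℝ} := hP.fin
  refine hl_of_cover (vec_pos P) (allExt hP.cvx hP.fin) ?_
  intro a b hab A hA haA hbA hmin k c hc
  obtain ⟨G, hG, haG, hbG, hH⟩ := h a b hab
  exact lp_vec_face hP hG hH hA (hmin _ (face_vs hP ⟨_, haG⟩ hG).1 haG hbG) haA hbA hab c hc

/-- Lifting to a polytope from a face. -/
theorem lp_vec_lift {P G : Set E} (hP : Pt P) (hG : IsExposed ℝ P G) (hH : HL (vec G))
    {a b : {p // p ∈ P.extremePoints ℝ}} (ha : a.1 ∈ G) (hb : b.1 ∈ G) (hab : a ≠ b) {k : ℕ}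
    (c : Fin k → ℕ) (hc : ∑ i, c i + 1 = rk (vec P) univ) : LP (vec P) univ a b c := by
  haveI : Finite {p // p ∈ P.extremePoints ℝ} := hP.fin
  have hGf := face_vs hP ⟨_, ha⟩ hG
  exact lp_lift (vec_pos P) (allExt hP.cvx hP.fin) hGf.1 Face.univ (subset_univ _) ha hb
    (fun c₀ h => lp_vec_face hP hG hH hGf.1 subset_rfl ha hb hab c₀ h) hc

/-- From thick paths in the configuration to lists of faces. -/
theorem lists_of_lp {P : Set E} (hP : Pt P) {a b : {p // p ∈ P.extremePoints ℝ}} {k : ℕ}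
    {c : Fin k → ℕ} (hc : ∀ i, 1 ≤ c i) (h : LP (vec P) univ a b c) :
    ∃ L : Fin k → List (Set E), (∀ i,
      (∀ F ∈ L i, (F.Nonempty ∧ IsExposed ℝ P F) ∧ finrank ℝ (vectorSpan ℝ F) = c i) ∧
      (∃ F, (L i).head? = some F ∧ a.1 ∈ F) ∧ (∃ F, (L i).getLast? = some F ∧ b.1 ∈ F) ∧
      (L i).IsChain fun F F' => (F ∩ F').Nonempty ∧
        finrank ℝ (vectorSpan ℝ (F ∩ F' : Set E)) + 1 = c i) ∧
      ∀ i j, i ≠ j → ∀ F ∈ L i, ∀ F' ∈ L j, ∀ u, u ∈ P.extremePoints ℝ → u ∈ F → u ∈ F' →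
        u = a.1 ∨ u = b.1 := by
  obtain ⟨hK, hcv, hfin⟩ := hP
  obtain ⟨U, hU, hpath, hdisj⟩ := h
  have key : ∀ i, ∃ L : List (Set E), ((∀ F ∈ L, (F.Nonempty ∧ IsExposed ℝ P F) ∧
      finrank ℝ (vectorSpan ℝ F) = c i) ∧
      (∃ F, L.head? = some F ∧ a.1 ∈ F) ∧ (∃ F, L.getLast? = some F ∧ b.1 ∈ F) ∧
      L.IsChain fun F F' => (F ∩ F').Nonempty ∧
        finrank ℝ (vectorSpan ℝ (F ∩ F' : Set E)) + 1 = c i) ∧
      ∀ F ∈ L, ∃ A, Face (vec P) A ∧ A.Nonempty ∧ A ⊆ U i ∧ F = pts P A := by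
    intro i
    obtain ⟨X, Y, haX, hbY, hX, hY, hXY⟩ := hpath i (hc i)
    obtain ⟨l, hl, hlast⟩ := List.exists_isChain_cons_of_relationReflTransGen hXY
    have hgood : ∀ A ∈ X :: l, Good (vec P) (U i) (c i) A := by
      have hall := hl
      intro A hA
      rcases List.mem_cons.1 hA with rfl | hA'
      · exact hX
      · obtain ⟨j, hj, hjA⟩ := List.getElem_of_mem hA'
        have := List.isChain_iff_getElem.1 hl j (by simpa using hj)
        have h2 := this.2.1
        rw [List.getElem_cons_succ] at h2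
        rw [hjA] at h2
        exact h2
    have hne : ∀ A ∈ X :: l, A.Nonempty := by
      intro A hA
      rw [Set.nonempty_iff_ne_empty]
      rintro rfl
      have := (hgood _ hA).2.2
      rw [rk_empty] at this
      omega
    refine ⟨(X :: l).map (pts P), ⟨?_, ?_, ?_, ?_⟩, ?_⟩
    · intro F hF
      obtain ⟨A, hA, rfl⟩ := List.mem_map.1 hF
      obtain ⟨e1, e2, e3⟩ := exposed_of_face hK hcv hfin (hgood A hA).1 (hne A hA)
      refine ⟨⟨e2, e1⟩, ?_⟩
      have := dim_pts P (hne A hA)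
      rw [(hgood A hA).2.2] at this
      exact Nat.succ_injective this
    · exact ⟨pts P X, by simp, subset_convexHull ℝ _ ⟨a, haX, rfl⟩⟩
    · refine ⟨pts P Y, ?_, subset_convexHull ℝ _ ⟨b, hbY, rfl⟩⟩
      rw [List.getLast?_map, List.getLast?_eq_getLast_of_ne_nil (List.cons_ne_nil X l), hlast]
      rfl
    · rw [List.isChain_map]
      refine hl.imp fun A B hAB => ?_
      obtain ⟨h1, h2, h3⟩ := hAB
      have hne' : (A ∩ B).Nonempty := by
        rw [Set.nonempty_iff_ne_empty]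
        intro h4
        rw [h4, rk_empty] at h3
        have := hc i
        omega
      rw [pts_inter hK hcv hfin h1.1 h2.1 hne']
      refine ⟨?_, ?_⟩
      · obtain ⟨p, hp⟩ := hne'
        exact ⟨p.1, subset_convexHull ℝ _ ⟨p, hp, rfl⟩⟩
      · have := dim_pts P hne'
        rw [h3] at this
        exact this
    · intro F hF
      obtain ⟨A, hA, rfl⟩ := List.mem_map.1 hF
      exact ⟨A, (hgood A hA).1, hne A hA, (hgood A hA).2.1, rfl⟩
  choose L hL1 hL2 using key
  refine ⟨L, hL1, fun i j hij F hF F' hF' u hu huF huF' => ?_⟩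
  obtain ⟨A, hA1, hA2, hA3, rfl⟩ := hL2 i F hF
  obtain ⟨B, hB1, hB2, hB3, rfl⟩ := hL2 j F' hF'
  have e1 := (exposed_of_face hK hcv hfin hA1 hA2).2.2
  have e2 := (exposed_of_face hK hcv hfin hB1 hB2).2.2
  have f1 : (⟨u, hu⟩ : {p // p ∈ P.extremePoints ℝ}) ∈ A := by
    rw [← e1]; exact huF
  have f2 : (⟨u, hu⟩ : {p // p ∈ P.extremePoints ℝ}) ∈ B := by
    rw [← e2]; exact huF'
  have h4 := hdisj i j hij (hc i) (hc j) ⟨hA3 f1, hB3 f2⟩
  rcases h4 with h4 | h4
  · exact Or.inl (congrArg Subtype.val h4)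
  · exact Or.inr (congrArg Subtype.val h4)

end Pool.Agent.Lock
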