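import Pool.Agent.Lock.Split

set_option autoImplicit false

/-!
# Intervals of length two, boundaries of sets of 2-faces of a 3-polytope
-/

namespace Pool.Agent.Lock

open Module Relation

variable {ι : Type*} {V : Type*} [AddCommGroup V] [Module ℝ V] [FiniteDimensional ℝ V]
  {x : ι → V} {φ : V →ₗ[ℝ] ℝ}

/-- a face of rank two has at most two vertices -/
theorem no_three_exposed {G : Set ι} (hrk : rk x G = 2) {i j k : ι} (hi : i ∈ G)
    (hj : j ∈ G) (hk : k ∈ G) {li lj lk : V →ₗ[ℝ] ℝ} (i0 : li (x i) = 0) (a1 : 0 < li (x j))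
    (a2 : 0 < li (x k)) (j0 : lj (x j) = 0) (b1 : 0 < lj (x i)) (b2 : 0 < lj (x k))
    (k0 : lk (x k) = 0) (c1 : 0 < lk (x i)) (c2 : 0 < lk (x j)) : False := by
  have hnli : ¬ LinearIndependent ℝ ![x i, x j, x k] := by
    intro hli
    have h1 := finrank_span_eq_card hli
    have h2 : Submodule.span ℝ (Set.range ![x i, x j, x k]) ≤ Submodule.span ℝ (x '' G) := by
      refine Submodule.span_mono ?_
      rintro _ ⟨m, rfl⟩
      fin_cases m
      · exact ⟨i, hi, rfl⟩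
      · exact ⟨j, hj, rfl⟩
      · exact ⟨k, hk, rfl⟩
    have h3 := Submodule.finrank_mono h2
    rw [h1] at h3
    unfold rk at hrk
    rw [hrk] at h3
    simp at h3
  obtain ⟨g, hg, m, hm⟩ := Fintype.not_linearIndependent_iff.1 hnli
  have hsum : g 0 • x i + g 1 • x j + g 2 • x k = 0 := by
    simpa [Fin.sum_univ_three] using hg
  have ei := congrArg li hsum
  have ej := congrArg lj hsum
  have ek := congrArg lk hsum
  simp only [map_add, map_smul, smul_eq_mul, map_zero] at ei ej ek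
  rw [i0] at ei
  rw [j0] at ej
  rw [k0] at ek
  have h2 : g 2 = 0 := by
    rcases lt_trichotomy (g 2) 0 with h | h | h
    · exfalso
      have e1 : 0 < g 1 := by
        by_contra hn
        push Not at hn
        nlinarith
      have e0 : 0 < g 0 := by
        by_contra hn
        push Not at hn
        nlinarith
      nlinarith [mul_pos e0 c1, mul_pos e1 c2]
    · exact h
    · exfalso
      have e1 : g 1 < 0 := by
        by_contra hn
        push Not at hn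
        nlinarith
      have e0 : g 0 < 0 := by
        by_contra hn
        push Not at hn
        nlinarith
      nlinarith [mul_pos (neg_pos.2 e0) c1, mul_pos (neg_pos.2 e1) c2]
  rw [h2] at ei ej
  have h1 : g 1 = 0 := by
    have : g 1 * li (x j) = 0 := by linarith
    rcases mul_eq_zero.1 this with h | h
    · exact h
    · exact absurd h a1.ne'
  have h0 : g 0 = 0 := by
    have : g 0 * lj (x i) = 0 := by linarith
    rcases mul_eq_zero.1 this with h | h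
    · exact h
    · exact absurd h b1.ne'
  apply hm
  fin_cases m
  · exact h0
  · exact h1
  · exact h2

variable [Finite ι]

theorem atom_eq (hφ : ∀ i, 0 < φ (x i)) {R R' : Set ι} (hR : Atom x R) (hR' : Atom x R') {i : ι}
    (hi : i ∈ R) (hi' : i ∈ R') : R = R' := by
  have s1 : R ⊆ R' := by
    intro k hk
    obtain ⟨c, hc, hck⟩ := atom_parallel hφ hR hi hk
    apply mem_of_span hR'.1
    rw [hck]
    exact Submodule.smul_mem _ _ (Submodule.subset_span ⟨i, hi', rfl⟩)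
  exact eq_of_rk hR.1 s1 (by rw [hR.2, hR'.2])

theorem no_three_atoms (hφ : ∀ i, 0 < φ (x i)) {G R₁ R₂ R₃ : Set ι} (hrk : rk x G = 2)
    (h1 : Atom x R₁) (h2 : Atom x R₂) (h3 : Atom x R₃) (s1 : R₁ ⊆ G) (s2 : R₂ ⊆ G)
    (s3 : R₃ ⊆ G) (h12 : R₁ ≠ R₂) (h13 : R₁ ≠ R₃) (h23 : R₂ ≠ R₃) : False := by
  obtain ⟨i, hi⟩ := h1.nonempty
  obtain ⟨j, hj⟩ := h2.nonempty
  obtain ⟨k, hk⟩ := h3.nonempty
  have key : ∀ {R R' : Set ι}, Atom x R → Atom x R' → R ≠ R' → ∀ {i : ι}, i ∈ R → i ∉ R' :=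
    fun hR hR' hne i hi hi' => hne (atom_eq hφ hR hR' hi hi')
  obtain ⟨li, i0, i1⟩ := h1.1
  obtain ⟨lj, j0, j1⟩ := h2.1
  obtain ⟨lk, k0, k1⟩ := h3.1
  exact no_three_exposed hrk (s1 hi) (s2 hj) (s3 hk) (i0 i hi) (i1 j (key h2 h1 h12.symm hj))
    (i1 k (key h3 h1 h13.symm hk)) (j0 j hj) (j1 i (key h1 h2 h12 hi))
    (j1 k (key h3 h2 h23.symm hk)) (k0 k hk) (k1 i (key h1 h3 h13 hi))
    (k1 j (key h2 h3 h23 hj))

/-- a face of rank two has exactly two vertices -/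
theorem two_atoms (hφ : ∀ i, 0 < φ (x i)) {G : Set ι} (hG : Face x G) (hrk : rk x G = 2) :
    ∃ R R', Atom x R ∧ Atom x R' ∧ R ⊆ G ∧ R' ⊆ G ∧ R ≠ R' ∧
      ∀ Q, Atom x Q → Q ⊆ G → Q = R ∨ Q = R' := by
  obtain ⟨R, hRG, hR⟩ := exists_atom hφ hG (nonempty_of_rk (x := x) (by omega))
  obtain ⟨l, h0, h1⟩ := hR.1
  obtain ⟨j, hj, hjR⟩ : ∃ j ∈ G, j ∉ R := by
    by_contra hcon
    push Not at hcon
    have := rk_mono (x := x) hcon
    rw [hR.2] at this
    omega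
  obtain ⟨R', hR'G, hR', hpos⟩ := pos_atom hφ hG hj (h1 j hjR)
  have hne : R ≠ R' := by
    rintro rfl
    obtain ⟨i, hi⟩ := hR.nonempty
    have := hpos i hi
    rw [h0 i hi] at this
    exact lt_irrefl _ this
  refine ⟨R, R', hR, hR', hRG, hR'G, hne, fun Q hQ hQG => ?_⟩
  by_contra hcon
  push Not at hcon
  exact no_three_atoms hφ hrk hR hR' hQ hRG hR'G hQG hne hcon.1.symm hcon.2.symm

/-- **The diamond property.** -/
theorem diamond {B C : Set ι} (hB : Face x B) (hC : Face x C) (hBC : B ⊆ C)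
    (hr : rk x C = rk x B + 2) :
    ∃ D D', D ≠ D' ∧ (Face x D ∧ B ⊆ D ∧ D ⊆ C ∧ rk x D = rk x B + 1) ∧
      (Face x D' ∧ B ⊆ D' ∧ D' ⊆ C ∧ rk x D' = rk x B + 1) ∧
      ∀ Q, Face x Q → B ⊆ Q → Q ⊆ C → rk x Q = rk x B + 1 → Q = D ∨ Q = D' := by
  obtain ⟨φ', hφ'⟩ := con_acyclic hB
  have hC' : Face (con x B) (tr B C) := by rw [face_con, ext_tr hBC]; exact hC
  have hrC : rk (con x B) (tr B C) = 2 := by
    have := rk_con (x := x) (T := B) (A := tr B C)
    rw [ext_tr hBC] at this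
    omega
  obtain ⟨R, R', hR, hR', hRG, hR'G, hne, huniq⟩ := two_atoms hφ' hC' hrC
  have key : ∀ {R : Set {i // i ∉ B}}, Atom (con x B) R → R ⊆ tr B C →
      Face x (ext B R) ∧ B ⊆ ext B R ∧ ext B R ⊆ C ∧ rk x (ext B R) = rk x B + 1 := by
    intro R hR hRG
    refine ⟨face_con.1 hR.1, Set.subset_union_left, ?_, ?_⟩
    · rw [← ext_tr hBC]; exact ext_mono hRG
    · have := rk_con (x := x) (T := B) (A := R)
      rw [hR.2] at this
      omega
  have hinj : ∀ {R : Set {i // i ∉ B}}, tr B (ext B R) = R := by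
    intro R
    ext i
    constructor
    · rintro (h | ⟨j, hj, hji⟩)
      · exact absurd h i.2
      · rwa [← Subtype.ext hji]
    · exact fun h => Or.inr ⟨i, h, rfl⟩
  refine ⟨ext B R, ext B R', fun h => hne ?_, key hR hRG, key hR' hR'G, ?_⟩
  · rw [← hinj (R := R), h, hinj]
  · intro Q hQ hBQ hQC hrQ
    have hQ' : Atom (con x B) (tr B Q) := by
      refine ⟨by rw [face_con, ext_tr hBQ]; exact hQ, ?_⟩
      have := rk_con (x := x) (T := B) (A := tr B Q)
      rw [ext_tr hBQ] at this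
      omega
    rcases huniq (tr B Q) hQ' (fun i hi => hQC hi) with h | h
    · left; rw [← h, ext_tr hBQ]
    · right; rw [← h, ext_tr hBQ]

/-- The 2-faces of `A`. -/
noncomputable def TF (x : ι → V) (A : Set ι) : Finset (Set ι) :=
  (Set.toFinite {F : Set ι | Face x F ∧ rk x F = 3 ∧ F ⊆ A}).toFinset

omit [FiniteDimensional ℝ V] in
theorem mem_TF {A F : Set ι} : F ∈ TF x A ↔ Face x F ∧ rk x F = 3 ∧ F ⊆ A := by
  simp [TF]

/-- an edge is in exactly two 2-faces -/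
theorem two_faces (hE : AllExt x) {A : Set ι} (hA : Face x A) (hr : rk x A = 4) {i j : ι}
    (h : Ed x A i j) : ∃ F F', F ≠ F' ∧ F ∈ TF x A ∧ F' ∈ TF x A ∧ (i ∈ F ∧ j ∈ F) ∧
      (i ∈ F' ∧ j ∈ F') ∧ ∀ Q ∈ TF x A, i ∈ Q → j ∈ Q → Q = F ∨ Q = F' := by
  have hsub : ({i, j} : Set ι) ⊆ A := by
    rintro _ (rfl | rfl)
    · exact h.2.2.1
    · exact h.2.2.2
  obtain ⟨D, D', h1, h2, h3, h4⟩ := diamond h.2.1 hA hsub (by rw [rk_pair hE h.1, hr])
  rw [rk_pair hE h.1] at h2 h3 h4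
  refine ⟨D, D', h1, mem_TF.2 ⟨h2.1, h2.2.2.2, h2.2.2.1⟩, mem_TF.2 ⟨h3.1, h3.2.2.2, h3.2.2.1⟩,
    ⟨h2.2.1 (by simp), h2.2.1 (by simp)⟩, ⟨h3.2.1 (by simp), h3.2.1 (by simp)⟩, ?_⟩
  intro Q hQ hi hj
  obtain ⟨q1, q2, q3⟩ := mem_TF.1 hQ
  refine h4 Q q1 ?_ q3 q2
  rintro _ (rfl | rfl)
  · exact hi
  · exact hj

omit [Finite ι] in
/-- a face of rank two through a vertex -/
theorem rank_two (hE : AllExt x) {A G : Set ι} (hG : Face x G) (hr : rk x G = 2) (hGA : G ⊆ A)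
    {v : ι} (hv : v ∈ G) : ∃ w, Ed x A v w ∧ G = {v, w} := by
  obtain ⟨w, hw, hwv⟩ : ∃ w ∈ G, w ≠ v := by
    by_contra hcon
    push Not at hcon
    have : rk x G ≤ rk x {v} := rk_mono fun i hi => hcon i hi
    rw [(hE v).2] at this
    omega
  have e := eq_pair hE hr hv hw hwv.symm
  exact ⟨w, ⟨hwv.symm, by rw [← e]; exact hG, hGA hv, hGA hw⟩, e⟩

/-- a vertex of a 2-face is in exactly two edges of it -/
theorem two_edges (hE : AllExt x) {A F : Set ι} (hF : F ∈ TF x A) {v : ι} (hv : v ∈ F) :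
    ∃ w w', w ≠ w' ∧ Ed x A v w ∧ Ed x A v w' ∧ w ∈ F ∧ w' ∈ F ∧
      ∀ u, Ed x A v u → u ∈ F → u = w ∨ u = w' := by
  obtain ⟨h1, h2, h3⟩ := mem_TF.1 hF
  obtain ⟨D, D', d1, d2, d3, d4⟩ := diamond (hE v).1 h1 (Set.singleton_subset_iff.2 hv)
    (by rw [(hE v).2, h2])
  rw [(hE v).2] at d2 d3 d4
  obtain ⟨w, w1, w2⟩ := rank_two hE d2.1 d2.2.2.2 (d2.2.2.1.trans h3) (d2.2.1 rfl)
  obtain ⟨w', w1', w2'⟩ := rank_two hE d3.1 d3.2.2.2 (d3.2.2.1.trans h3) (d3.2.1 rfl)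
  refine ⟨w, w', ?_, w1, w1', d2.2.2.1 (by rw [w2]; simp), d3.2.2.1 (by rw [w2']; simp), ?_⟩
  · rintro rfl
    exact d1 (w2.trans w2'.symm)
  · intro u hu huF
    have h4 : ({v, u} : Set ι) ⊆ F := by
      rintro _ (rfl | rfl)
      · exact hv
      · exact huF
    have key : ∀ {u w : ι}, v ≠ u → ({v, u} : Set ι) = {v, w} → u = w := by
      intro u w hne e
      have : u ∈ ({v, w} : Set ι) := by rw [← e]; simp
      rcases this with h | h
      · exact absurd h.symm hne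
      · exact h
    rcases d4 {v, u} hu.2.1 (by simp) h4 (rk_pair hE hu.1) with h | h
    · left; exact key hu.1 (h.trans w2)
    · right; exact key hu.1 (h.trans w2')

end Pool.Agent.Lock
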