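import Pool.Agent.Lock.Conv

set_option autoImplicit false

/-!
# Polytopes with few facets
-/

namespace Pool.Agent.Lock

open Module Relation Set

section config

variable {ι : Type*} {V : Type*} [AddCommGroup V] [Module ℝ V] [FiniteDimensional ℝ V]
  {x : ι → V} [Finite ι]

/-- a facet that contains `B` and avoids `j` -/
theorem exists_facet_avoid {B : Set ι} (hB : Face x B) {j : ι} (hj : j ∉ B) :
    ∃ F, Face x F ∧ rk x F + 1 = rk x univ ∧ B ⊆ F ∧ j ∉ F := by
  induction' hn : rk x (univ : Set ι) - rk x B using Nat.strong_induction_on with n ih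
    generalizing B
  have hss : B ⊂ univ := ssubset_univ_iff.2 fun h => hj (h ▸ mem_univ j)
  have hlt := rk_lt hB hss
  by_cases h1 : rk x B + 1 = rk x univ
  · exact ⟨B, hB, h1, subset_rfl, hj⟩
  · have step : ∃ B', Face x B' ∧ B ⊆ B' ∧ rk x B' = rk x B + 1 ∧ j ∉ B' := by
      obtain ⟨l, h0, hl⟩ := hB
      obtain ⟨G, g1, g2, -, g4, g5⟩ := up Face.univ ⟨l, h0, hl⟩ (subset_univ B) h0 (mem_univ j)
        (hl j hj)
      by_cases hjG : j ∈ G
      · have hGss : G ⊂ univ := by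
          refine ssubset_univ_iff.2 ?_
          rintro rfl
          omega
        obtain ⟨k, -, hk⟩ := exists_of_ssubset hGss
        obtain ⟨m, m0, m1⟩ := g1
        obtain ⟨G', k1, k2, -, k4, k5⟩ := up Face.univ ⟨l, h0, hl⟩ (subset_univ B)
          (fun i hi => m0 i (g2 hi)) (mem_univ k) (m1 k hk)
        refine ⟨G', k1, k2, k4, fun h => ?_⟩
        have := k5 j h hj
        rw [m0 j hjG] at this
        exact lt_irrefl _ this
      · exact ⟨G, g1, g2, g4, hjG⟩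
    obtain ⟨B', b1, b2, b3, b4⟩ := step
    obtain ⟨F, f1, f2, f3, f4⟩ := ih (rk x (univ : Set ι) - rk x B') (by omega) b1 b4 rfl
    exact ⟨F, f1, f2, b2.trans f3, f4⟩

/-- many facets contain `B` but not `G` -/
theorem many_facets {B G : Set ι} (hB : Face x B) (hG : Face x G) (hBG : B ⊆ G) :
    rk x G ≤ rk x B +
      {F | (Face x F ∧ rk x F + 1 = rk x univ) ∧ B ⊆ F ∧ ¬ G ⊆ F}.ncard := by
  induction' hn : rk x G - rk x B using Nat.strong_induction_on with n ih generalizing B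
  by_cases h : B = G
  · rw [h]; exact Nat.le_add_right _ _
  · obtain ⟨j, hjG, hjB⟩ := exists_of_ssubset (hBG.ssubset_of_ne h)
    obtain ⟨l, h0, hl⟩ := hB
    obtain ⟨B', g1, g2, g3, g4, g5⟩ := up hG ⟨l, h0, hl⟩ hBG h0 hjG (hl j hjB)
    have hle := rk_mono (x := x) g3
    have h1 := ih (rk x G - rk x B') (by omega) g1 g3 rfl
    obtain ⟨k, hkB', hkB⟩ : ∃ k ∈ B', k ∉ B := by
      by_contra hcon
      push Not at hcon
      have := rk_mono (x := x) hcon
      omega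
    obtain ⟨F, f1, f2, f3, f4⟩ := exists_facet_avoid ⟨l, h0, hl⟩ hkB
    have hlt : {F | (Face x F ∧ rk x F + 1 = rk x univ) ∧ B' ⊆ F ∧ ¬ G ⊆ F}.ncard <
        {F | (Face x F ∧ rk x F + 1 = rk x univ) ∧ B ⊆ F ∧ ¬ G ⊆ F}.ncard := by
      refine ncard_lt_ncard ⟨fun D hD => ⟨hD.1, g2.trans hD.2.1, hD.2.2⟩, fun hsub => ?_⟩
      have h2 : F ∈ {F | (Face x F ∧ rk x F + 1 = rk x univ) ∧ B' ⊆ F ∧ ¬ G ⊆ F} :=
        hsub ⟨⟨f1, f2⟩, f3, fun h => f4 (h (g3 hkB'))⟩
      exact f4 (h2.2.1 hkB')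
    omega

/-- With few facets, any two indices are in a common face of rank at most four. -/
theorem few_facets (hE : AllExt x)
    (h : {F | Face x F ∧ rk x F + 1 = rk x univ}.ncard ≤ rk x univ + 2) {a b : ι}
    {G : Set ι} (hG : Face x G) (ha : a ∈ G) (hb : b ∈ G)
    (hmin : ∀ G', Face x G' → a ∈ G' → b ∈ G' → G ⊆ G') : rk x G ≤ 4 := by
  have h1 := many_facets hG Face.univ (subset_univ G)
  have h2 := many_facets (hE a).1 hG (singleton_subset_iff.2 ha)
  have h3 := many_facets (hE b).1 hG (singleton_subset_iff.2 hb)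
  rw [(hE a).2] at h2
  rw [(hE b).2] at h3
  set S : Set (Set ι) := {F | Face x F ∧ rk x F + 1 = rk x univ} with hS
  set S₁ := {F | (Face x F ∧ rk x F + 1 = rk x univ) ∧ G ⊆ F ∧ ¬ univ ⊆ F} with hS₁
  set S₂ := {F | (Face x F ∧ rk x F + 1 = rk x univ) ∧ {a} ⊆ F ∧ ¬ G ⊆ F} with hS₂
  set S₃ := {F | (Face x F ∧ rk x F + 1 = rk x univ) ∧ {b} ⊆ F ∧ ¬ G ⊆ F} with hS₃
  have d23 : Disjoint S₂ S₃ := by
    rw [disjoint_left]
    rintro F ⟨h4, h5, h6⟩ ⟨-, h7, -⟩
    exact h6 (hmin F h4.1 (h5 rfl) (h7 rfl))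
  have d1 : Disjoint S₁ (S₂ ∪ S₃) := by
    rw [disjoint_left]
    rintro F ⟨-, h5, -⟩ (⟨-, -, h6⟩ | ⟨-, -, h6⟩)
    · exact h6 h5
    · exact h6 h5
  have h8 : (S₁ ∪ (S₂ ∪ S₃)).ncard ≤ S.ncard := by
    refine ncard_le_ncard ?_ (toFinite _)
    rintro F (h4 | h4 | h4)
    · exact h4.1
    · exact h4.1
    · exact h4.1
  rw [ncard_union_eq d1 (toFinite _) (toFinite _), ncard_union_eq d23 (toFinite _) (toFinite _)]
    at h8
  omega

end config

variable {E : Type*} [NormedAddCommGroup E] [NormedSpace ℝ E] [FiniteDimensional ℝ E]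

/-- In a `d`-polytope with at most `d + 3` facets any two vertices are in a common face of
dimension at most three. -/
theorem low_face_of_few {P : Set E} (hP : Pt P)
    (h : {F : Set E | (F.Nonempty ∧ IsExposed ℝ P F) ∧
      finrank ℝ (vectorSpan ℝ F) + 1 = finrank ℝ (vectorSpan ℝ P)}.ncard ≤
        finrank ℝ (vectorSpan ℝ P) + 3)
    (hfin : {F : Set E | (F.Nonempty ∧ IsExposed ℝ P F) ∧
      finrank ℝ (vectorSpan ℝ F) + 1 = finrank ℝ (vectorSpan ℝ P)}.Finite)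
    {v w : E} (hv : v ∈ P.extremePoints ℝ) (hw : w ∈ P.extremePoints ℝ) (hvw : v ≠ w) :
    ∃ G, (G.Nonempty ∧ IsExposed ℝ P G) ∧ v ∈ G ∧ w ∈ G ∧
      finrank ℝ (vectorSpan ℝ G) ≤ 3 := by
  haveI : Finite {p // p ∈ P.extremePoints ℝ} := hP.fin
  have hE := allExt hP.cvx hP.fin
  have hne : P.Nonempty := ⟨v, extremePoints_subset hv⟩
  have hd := dim_vec hP hne
  set a : {p // p ∈ P.extremePoints ℝ} := ⟨v, hv⟩
  set b : {p // p ∈ P.extremePoints ℝ} := ⟨w, hw⟩
  have hab : a ≠ b := fun e => hvw (congrArg Subtype.val e)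
  have hr2 : 2 ≤ rk (vec P) univ := by
    have := rk_mono (x := vec P) (subset_univ {a, b})
    rwa [rk_pair hE hab] at this
  obtain ⟨G, g1, -, g3, g4, g5⟩ := exists_min_face (x := vec P) Face.univ (mem_univ a)
    (mem_univ b)
  have hcount : {A | Face (vec P) A ∧ rk (vec P) A + 1 = rk (vec P) univ}.ncard ≤
      rk (vec P) univ + 2 := by
    have hinj : InjOn (pts P) {A | Face (vec P) A ∧ rk (vec P) A + 1 = rk (vec P) univ} := by
      intro A hA B hB hAB
      have hAne : A.Nonempty := nonempty_of_rk (x := vec P) (by have := hA.2; omega)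
      have hBne : B.Nonempty := nonempty_of_rk (x := vec P) (by have := hB.2; omega)
      rw [← (exposed_of_face hP.cpt hP.cvx hP.fin hA.1 hAne).2.2,
        ← (exposed_of_face hP.cpt hP.cvx hP.fin hB.1 hBne).2.2, hAB]
    have hmap : ∀ A ∈ {A | Face (vec P) A ∧ rk (vec P) A + 1 = rk (vec P) univ},
        pts P A ∈ {F : Set E | (F.Nonempty ∧ IsExposed ℝ P F) ∧
          finrank ℝ (vectorSpan ℝ F) + 1 = finrank ℝ (vectorSpan ℝ P)} := by
      intro A hA
      have hAne : A.Nonempty := nonempty_of_rk (x := vec P) (by have := hA.2; omega)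
      obtain ⟨h1, h2, -⟩ := exposed_of_face hP.cpt hP.cvx hP.fin hA.1 hAne
      refine ⟨⟨h2, h1⟩, ?_⟩
      have h3 := dim_pts P hAne
      have h4 := hA.2
      omega
    have := ncard_le_ncard_of_injOn (pts P) hmap hinj hfin
    omega
  have h4 := few_facets hE hcount g1 g3 g4 g5
  obtain ⟨h5, h6, h7⟩ := exposed_of_face hP.cpt hP.cvx hP.fin g1 ⟨a, g3⟩
  refine ⟨pts P G, ⟨h6, h5⟩, ?_, ?_, ?_⟩
  · have : a ∈ {p | p.1 ∈ pts P G} := by rw [h7]; exact g3
    exact this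
  · have : b ∈ {p | p.1 ∈ pts P G} := by rw [h7]; exact g4
    exact this
  · have := dim_pts P (⟨a, g3⟩ : G.Nonempty)
    omega

/-- finitely many faces -/
theorem finite_faces {P : Set E} (hP : Pt P) :
    {F : Set E | F.Nonempty ∧ IsExposed ℝ P F}.Finite := by
  haveI : Finite {p // p ∈ P.extremePoints ℝ} := hP.fin
  refine (finite_range (pts P)).subset ?_
  rintro F ⟨h1, h2⟩
  exact ⟨_, (face_of_exposed hP.cpt hP.cvx hP.fin h2 h1).2.1.symm⟩

end Pool.Agent.Lock
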