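import Pool.Agent.Lock.Anti

set_option autoImplicit false

/-!
# The vertex figure and the common neighbour rule
-/

namespace Pool.Agent.Lock

open Module Relation Set

variable {ι : Type*} {V : Type*} [AddCommGroup V] [Module ℝ V]

/-- the neighbours of `u` -/
def Nbr (x : ι → V) (u : ι) : Type _ := {i // i ≠ u ∧ Face x {u, i}}

/-- the vertex figure at `u` -/
def fig (x : ι → V) (u : ι) : Nbr x u → V ⧸ Submodule.span ℝ (x '' ({u} : Set ι)) :=
  fun i => (Submodule.span ℝ (x '' ({u} : Set ι))).mkQ (x i.1)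

/-- the neighbours in a set -/
def nb (x : ι → V) (u : ι) (F : Set ι) : Set (Nbr x u) := {i | i.1 ∈ F}

variable {x : ι → V} {u : ι}

theorem nb_inter (F F' : Set ι) : nb x u (F ∩ F') = nb x u F ∩ nb x u F' := rfl

theorem nb_mono {F F' : Set ι} (h : F ⊆ F') : nb x u F ⊆ nb x u F' := fun _ hi => h hi

theorem fig_finite [Finite ι] : Finite (Nbr x u) := Subtype.finite

section

variable [FiniteDimensional ℝ V] [Finite ι] {φ : V →ₗ[ℝ] ℝ}

/-- an atom of the contraction is a neighbour -/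
theorem atom_con (hE : AllExt x) {R : Set {i // i ∉ ({u} : Set ι)}} (hR : Atom (con x {u}) R)
    {i : {i // i ∉ ({u} : Set ι)}} (hi : i ∈ R) : i.1 ≠ u ∧ Face x {u, i.1} := by
  have hiu : i.1 ≠ u := fun h => i.2 h
  have h1 : Face x (ext {u} R) := face_con.1 hR.1
  have h2 := rk_con (x := x) (T := {u}) (A := R)
  rw [hR.2, (hE u).2] at h2
  have h3 := eq_pair hE h2.symm (i := u) (j := i.1) (Or.inl rfl) (Or.inr ⟨i, hi, rfl⟩) hiu.symm
  rw [h3] at h1
  exact ⟨hiu, h1⟩

/-- the face of the vertex figure of a face through `u` -/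
theorem fig_face (hE : AllExt x) {F : Set ι} (hF : Face x F) (hu : u ∈ F) :
    Face (fig x u) (nb x u F) ∧ rk (fig x u) (nb x u F) + 1 = rk x F := by
  have huF : ({u} : Set ι) ⊆ F := singleton_subset_iff.2 hu
  constructor
  · obtain ⟨l, h0, h1⟩ := hF
    exact ⟨down {u} l fun i hi => h0 i (huF hi), fun i hi => h0 _ hi, fun i hi => h1 _ hi⟩
  · obtain ⟨φ', hφ'⟩ := con_acyclic (hE u).1
    have h1 := rk_con (x := x) (T := {u}) (A := tr {u} F)
    rw [ext_tr huF, (hE u).2] at h1
    rw [← h1]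
    congr 1
    have hF' : Face (con x {u}) (tr {u} F) := by rw [face_con, ext_tr huF]; exact hF
    have h2 : Submodule.span ℝ (fig x u '' nb x u F) =
        Submodule.span ℝ (con x {u} '' tr {u} F) := by
      apply le_antisymm
      · refine Submodule.span_mono ?_
        rintro _ ⟨i, hi, rfl⟩
        exact ⟨⟨i.1, i.2.1⟩, hi, rfl⟩
      · rw [Submodule.span_le]
        rintro _ ⟨j, hj, rfl⟩
        by_contra hn
        obtain ⟨f, hfj, hf⟩ := Submodule.exists_le_ker_of_notMem hn
        obtain ⟨ψ, hψj, hψ⟩ : ∃ ψ : V ⧸ Submodule.span ℝ (x '' ({u} : Set ι)) →ₗ[ℝ] ℝ,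
            0 < ψ (con x {u} j) ∧ ∀ i ∈ nb x u F, ψ (fig x u i) = 0 := by
          have hf0 : ∀ i ∈ nb x u F, f (fig x u i) = 0 := fun i hi =>
            hf (Submodule.subset_span ⟨i, hi, rfl⟩)
          rcases lt_or_gt_of_ne hfj with h | h
          · exact ⟨-f, by simpa using h, fun i hi => by simp [hf0 i hi]⟩
          · exact ⟨f, h, hf0⟩
        obtain ⟨R, hRF, hR, hpos⟩ := pos_atom hφ' hF' hj hψj
        obtain ⟨i, hi⟩ := hR.nonempty
        have h3 := hψ ⟨i.1, atom_con hE hR hi⟩ (hRF hi)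
        have h4 := hpos i hi
        have h5 : con x {u} i = fig x u ⟨i.1, atom_con hE hR hi⟩ := rfl
        rw [h5, h3] at h4
        exact lt_irrefl _ h4
    rw [rk, rk, h2]

/-- a face of the vertex figure comes from a face through `u` -/
theorem face_fig (hE : AllExt x) {B : Set (Nbr x u)} (hB : Face (fig x u) B) :
    ∃ F, Face x F ∧ u ∈ F ∧ B = nb x u F := by
  obtain ⟨φ', hφ'⟩ := con_acyclic (hE u).1
  obtain ⟨l, h0, h1⟩ := hB
  set l' : V →ₗ[ℝ] ℝ := l ∘ₗ (Submodule.span ℝ (x '' ({u} : Set ι))).mkQ with hl'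
  have hlu : l' (x u) = 0 := by
    rw [hl', LinearMap.comp_apply, con_zero {u} rfl, map_zero]
  have hnn : ∀ j, 0 ≤ l' (x j) := by
    intro j
    by_contra hn
    push Not at hn
    have hju : j ∉ ({u} : Set ι) := by
      intro h
      have : j = u := h
      rw [this, hlu] at hn
      exact lt_irrefl _ hn
    obtain ⟨R, -, hR, hpos⟩ := pos_atom hφ' Face.univ (ψ := -l) (j := ⟨j, hju⟩) (mem_univ _)
      (by
        rw [LinearMap.neg_apply, lt_neg, neg_zero]
        exact hn)
    obtain ⟨i, hi⟩ := hR.nonempty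
    have h2 := hpos i hi
    have h3 := nonneg_of h0 h1 ⟨i.1, atom_con hE hR hi⟩
    have h4 : con x {u} i = fig x u ⟨i.1, atom_con hE hR hi⟩ := rfl
    rw [LinearMap.neg_apply, h4] at h2
    linarith
  refine ⟨{j | l' (x j) = 0}, ⟨l', fun i hi => hi, fun i hi =>
    lt_of_le_of_ne (hnn i) fun h => hi h.symm⟩, hlu, ?_⟩
  ext i
  constructor
  · intro hi
    exact h0 i hi
  · intro hi
    by_contra hn
    have h2 := h1 i hn
    have h3 : l (fig x u i) = 0 := hi
    rw [h3] at h2
    exact lt_irrefl _ h2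

theorem nb_pair {i : Nbr x u} : nb x u {u, i.1} = {i} := by
  ext j
  constructor
  · rintro (h | h)
    · exact absurd h j.2.1
    · exact Subtype.ext h
  · intro h
    have : j = i := h
    rw [this]
    exact Or.inr rfl

theorem fig_allExt (hE : AllExt x) : AllExt (fig x u) := by
  intro i
  obtain ⟨h1, h2⟩ := fig_face hE i.2.2 (u := u) (Or.inl rfl)
  rw [nb_pair] at h1 h2
  rw [rk_pair hE i.2.1.symm] at h2
  exact ⟨h1, by omega⟩

theorem fig_acyclic (hE : AllExt x) :
    ∃ φ' : V ⧸ Submodule.span ℝ (x '' ({u} : Set ι)) →ₗ[ℝ] ℝ, ∀ i, 0 < φ' (fig x u i) := by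
  obtain ⟨φ', hφ'⟩ := con_acyclic (hE u).1
  exact ⟨φ', fun i => hφ' ⟨i.1, i.2.1⟩⟩

/-- a face through `u` is determined by its face of the vertex figure -/
theorem sub_of_nb (hE : AllExt x) {F F' : Set ι} (hF : Face x F) (hu : u ∈ F)
    (hF' : Face x F') (hu' : u ∈ F') (h : nb x u F ⊆ nb x u F') : F ⊆ F' := by
  have h1 := (fig_face hE hF hu).2
  have h2 := (fig_face hE (hF.inter hF') (u := u) ⟨hu, hu'⟩).2
  rw [nb_inter, inter_eq_left.2 h, h1] at h2
  have h3 := eq_of_rk (hF.inter hF') inter_subset_left h2.le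
  exact inter_eq_left.1 h3

open Classical in
/-- the face of `x` that gives a face of the vertex figure -/
noncomputable def cl (x : ι → V) (u : ι) (B : Set (Nbr x u)) : Set ι :=
  if h : ∃ F, Face x F ∧ u ∈ F ∧ B = nb x u F then h.choose else ∅

theorem cl_spec (hE : AllExt x) {B : Set (Nbr x u)} (hB : Face (fig x u) B) :
    Face x (cl x u B) ∧ u ∈ cl x u B ∧ nb x u (cl x u B) = B ∧
      rk (fig x u) B + 1 = rk x (cl x u B) := by
  have h := face_fig hE hB
  have e : cl x u B = h.choose := by rw [cl, dif_pos h]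
  obtain ⟨h1, h2, h3⟩ := h.choose_spec
  rw [← e] at h1 h2 h3
  refine ⟨h1, h2, h3.symm, ?_⟩
  have h4 := (fig_face hE h1 h2).2
  rwa [← h3] at h4

/-- the star of a set of neighbours -/
def star (x : ι → V) (u : ι) (U : Set (Nbr x u)) : Set ι :=
  {j | ∃ F, Face x F ∧ u ∈ F ∧ nb x u F ⊆ U ∧ j ∈ F}

theorem cl_good (hE : AllExt x) {U : Set (Nbr x u)} {m : ℕ} {X : Set (Nbr x u)}
    (hX : Good (fig x u) U m X) : Good x (star x u U) (m + 1) (cl x u X) := by
  obtain ⟨h1, h2, h3, h4⟩ := cl_spec hE hX.1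
  refine ⟨h1, fun j hj => ⟨_, h1, h2, by rw [h3]; exact hX.2.1, hj⟩, ?_⟩
  rw [← h4, hX.2.2]

theorem cl_inter (hE : AllExt x) {X Y : Set (Nbr x u)} (hX : Face (fig x u) X)
    (hY : Face (fig x u) Y) : rk x (cl x u X ∩ cl x u Y) = rk (fig x u) (X ∩ Y) + 1 := by
  obtain ⟨h1, h2, h3, h4⟩ := cl_spec hE hX
  obtain ⟨k1, k2, k3, k4⟩ := cl_spec hE hY
  have := (fig_face hE (h1.inter k1) (u := u) ⟨h2, k2⟩).2
  rw [nb_inter, h3, k3] at this
  exact this.symm

/-- the block that uses `u` -/
theorem star_reach (hE : AllExt x) {U : Set (Nbr x u)} {m : ℕ} {X Y : Set (Nbr x u)}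
    (h : Reach (fig x u) U m X Y) : Reach x (star x u U) (m + 1) (cl x u X) (cl x u Y) := by
  refine ⟨cl_good hE h.1, cl_good hE h.2.1, h.2.2.lift (cl x u) fun A B hAB => ?_⟩
  refine ⟨cl_good hE hAB.1, cl_good hE hAB.2.1, ?_⟩
  rw [cl_inter hE hAB.1.1 hAB.2.1.1, hAB.2.2]

/-- a facet of `cl X` that contains `B` and avoids `u` -/
theorem cl_facet (hE : AllExt x) {U : Set (Nbr x u)} {m : ℕ} {X : Set (Nbr x u)}
    (hX : Good (fig x u) U m X) {B : Set ι} (hB : Face x B) (hBX : B ⊆ cl x u X) (hu : u ∉ B) :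
    ∃ D, Good x (cl x u X \ {u}) m D ∧ B ⊆ D := by
  obtain ⟨h1, h2, h3, h4⟩ := cl_spec hE hX.1
  obtain ⟨F, f1, f2, f3, f4, f5⟩ := exists_facet_in h1 hB hBX h2 hu
  refine ⟨F, ⟨f1, fun i hi => ⟨f4 hi, fun h => f5 ?_⟩, ?_⟩, f3⟩
  · have : i = u := h
    rw [← this]; exact hi
  · rw [← h4, hX.2.2] at f2
    omega

/-- the blocks that avoid `u` -/
theorem avoid_reach (hφ : ∀ i, 0 < φ (x i)) (hE : AllExt x) {U : Set (Nbr x u)} {m : ℕ}
    (hm : 1 ≤ m) {a b : Nbr x u} (h : PathIn (fig x u) U m a b) :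
    PathIn x (star x u U \ {u}) m a.1 b.1 := by
  obtain ⟨X, Y, ha, hb, hX, hY, hXY⟩ := h
  have hsub : ∀ {Z : Set (Nbr x u)}, Good (fig x u) U m Z →
      cl x u Z \ {u} ⊆ star x u U \ {u} := fun hZ =>
    sdiff_subset_sdiff_left (cl_good hE hZ).2.1
  have hmem : ∀ {Z : Set (Nbr x u)} {i : Nbr x u}, Good (fig x u) U m Z → i ∈ Z →
      i.1 ∈ cl x u Z := by
    intro Z i hZ hi
    have h3 := (cl_spec hE hZ.1).2.2.1
    have : i ∈ nb x u (cl x u Z) := by rw [h3]; exact hi
    exact this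
  have hrk : ∀ {Z : Set (Nbr x u)}, Good (fig x u) U m Z → rk x (cl x u Z) = m + 2 := by
    intro Z hZ
    have h4 := (cl_spec hE hZ.1).2.2.2
    rw [hZ.2.2] at h4
    omega
  have hmemu : ∀ {Z : Set (Nbr x u)}, Good (fig x u) U m Z → u ∈ cl x u Z :=
    fun hZ => (cl_spec hE hZ.1).2.1
  have hf : ∀ {Z : Set (Nbr x u)}, Good (fig x u) U m Z → Face x (cl x u Z) :=
    fun hZ => (cl_spec hE hZ.1).1
  obtain ⟨D₀, hD₀, haD₀⟩ := cl_facet hE hX (hE a.1).1 (singleton_subset_iff.2 (hmem hX ha))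
    (fun h => a.2.1 (mem_singleton_iff.1 h).symm)
  have key : ∀ Z, ReflTransGen (Nb (fig x u) U m) X Z → Good (fig x u) U m Z ∧
      ∀ D, Good x (cl x u Z \ {u}) m D → Reach x (star x u U \ {u}) m D₀ D := by
    intro Z h
    induction h with
    | refl => exact ⟨hX, fun D hD => (antistar (hf hX) (hmemu hX) (hrk hX) hD₀ hD).mono
        (hsub hX)⟩
    | @tail Z Z' _ h ih =>
      obtain ⟨hZ, ih⟩ := ih
      obtain ⟨-, hZ', hZZ'⟩ := h
      refine ⟨hZ', fun D hD => ?_⟩
      have hE1 : Face x (cl x u Z ∩ cl x u Z') := (hf hZ).inter (hf hZ')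
      have hE2 : rk x (cl x u Z ∩ cl x u Z') = m + 1 := by rw [cl_inter hE hZ.1 hZ'.1, hZZ']
      obtain ⟨R, r1, r2, -, r4, r5⟩ := exists_facet_in hE1 (face_empty hφ) (empty_subset _)
        (j := u) ⟨hmemu hZ, hmemu hZ'⟩ (notMem_empty u)
      obtain ⟨D₁, hD₁, hRD₁⟩ := cl_facet hE hZ r1 (r4.trans inter_subset_left) r5
      obtain ⟨D₂, hD₂, hRD₂⟩ := cl_facet hE hZ' r1 (r4.trans inter_subset_right) r5
      have s1 := ih D₁ hD₁
      have s2 : Reach x (star x u U \ {u}) m D₁ D₂ :=
        reach_of_common (hD₁.mono (hsub hZ)) (hD₂.mono (hsub hZ')) hRD₁ hRD₂ (by omega)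
      have s3 := (antistar (hf hZ') (hmemu hZ') (hrk hZ') hD₂ hD).mono (hsub hZ')
      exact (s1.trans s2).trans s3
  obtain ⟨-, hfin⟩ := key Y hXY
  obtain ⟨D, hD, hbD⟩ := cl_facet hE hY (hE b.1).1 (singleton_subset_iff.2 (hmem hY hb))
    (fun h => b.2.1 (mem_singleton_iff.1 h).symm)
  exact ⟨D₀, D, haD₀ rfl, hbD rfl, hfin D hD⟩

/-- The common neighbour rule. -/
theorem lp_star (hφ : ∀ i, 0 < φ (x i)) (hE : AllExt x) {a b : Nbr x u} (hab : a ≠ b)
    {κ : Type*} [DecidableEq κ] {c : κ → ℕ} (h : LP (fig x u) univ a b c) (k : κ)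
    (hno : ¬ ∃ F, Face x F ∧ rk x F = 3 ∧ u ∈ F ∧ a.1 ∈ F ∧ b.1 ∈ F) :
    LP x univ a.1 b.1 (Function.update c k (c k + 1)) := by
  classical
  haveI : Finite (Nbr x u) := fig_finite
  obtain ⟨U, -, hU, hd⟩ := h
  have hab1 : a.1 ≠ b.1 := fun h => hab (Subtype.ext h)
  set W : κ → Set ι := fun i => if i = k then (if c k = 0 then {a.1, u, b.1} else star x u (U k))
    else star x u (U i) \ {u} with hW
  have hWk : W k = if c k = 0 then {a.1, u, b.1} else star x u (U k) := if_pos rfl
  have hWi : ∀ i, i ≠ k → W i = star x u (U i) \ {u} := fun i hi => if_neg hi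
  -- the main disjointness
  have main : ∀ i j, i ≠ j → 1 ≤ c i → 1 ≤ c j → ∀ z, z ≠ u → z ∈ star x u (U i) →
      z ∈ star x u (U j) → z = a.1 ∨ z = b.1 := by
    rintro i j hij hi hj z hzu ⟨F, f1, f2, f3, f4⟩ ⟨F', g1, g2, g3, g4⟩
    have hH : Face x (F ∩ F') := f1.inter g1
    have huH : u ∈ F ∩ F' := ⟨f2, g2⟩
    have hzH : z ∈ F ∩ F' := ⟨f4, g4⟩
    obtain ⟨k1, k2⟩ := fig_face hE hH huH
    have hsub : nb x u (F ∩ F') ⊆ {a, b} := fun p hp => hd _ _ hij hi hj ⟨f3 hp.1, g3 hp.2⟩
    have hrk2 : 2 ≤ rk x (F ∩ F') := by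
      rw [← rk_pair hE hzu.symm]
      refine rk_mono ?_
      rintro _ (rfl | rfl)
      · exact huH
      · exact hzH
    by_cases haH : a ∈ nb x u (F ∩ F')
    · by_cases hbH : b ∈ nb x u (F ∩ F')
      · exfalso
        apply hno
        refine ⟨F ∩ F', hH, ?_, huH, haH, hbH⟩
        have e : nb x u (F ∩ F') = {a, b} := by
          refine Subset.antisymm hsub ?_
          rintro _ (rfl | rfl)
          · exact haH
          · exact hbH
        rw [e, rk_pair (fig_allExt hE) hab] at k2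
        exact k2.symm
      · left
        have e : nb x u (F ∩ F') = {a} := by
          refine Subset.antisymm (fun i hi => ?_) (singleton_subset_iff.2 haH)
          rcases hsub hi with h | h
          · exact h
          · have : i = b := h
            rw [this] at hi
            exact absurd hi hbH
        rw [e, (fig_allExt hE a).2] at k2
        have h3 := eq_pair hE k2.symm huH hzH hzu.symm
        have h4 : a.1 ∈ ({u, z} : Set ι) := by rw [← h3]; exact haH
        rcases h4 with h4 | h4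
        · exact absurd h4 a.2.1
        · exact (mem_singleton_iff.1 h4).symm
    · by_cases hbH : b ∈ nb x u (F ∩ F')
      · right
        have e : nb x u (F ∩ F') = {b} := by
          refine Subset.antisymm (fun i hi => ?_) (singleton_subset_iff.2 hbH)
          rcases hsub hi with h | h
          · have : i = a := h
            rw [this] at hi
            exact absurd hi haH
          · exact h
        rw [e, (fig_allExt hE b).2] at k2
        have h3 := eq_pair hE k2.symm huH hzH hzu.symm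
        have h4 : b.1 ∈ ({u, z} : Set ι) := by rw [← h3]; exact hbH
        rcases h4 with h4 | h4
        · exact absurd h4 b.2.1
        · exact (mem_singleton_iff.1 h4).symm
      · exfalso
        have e : nb x u (F ∩ F') = ∅ := by
          refine eq_empty_iff_forall_notMem.2 fun i hi => ?_
          rcases hsub hi with h | h
          · exact haH (by rw [← h]; exact hi)
          · have : i = b := h
            exact hbH (by rw [← this]; exact hi)
        rw [e, rk_empty] at k2
        omega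
  -- the block `k` against another one
  have mainK : ∀ j, j ≠ k → 1 ≤ c j → W k ∩ W j ⊆ {a.1, b.1} := by
    intro j hj hcj z hz
    rw [hWk, hWi j hj] at hz
    obtain ⟨hz1, hz2, hz3⟩ := hz
    have hzu : z ≠ u := hz3
    split_ifs at hz1 with h0
    · rcases hz1 with h | h | h
      · exact Or.inl h
      · exact absurd h hzu
      · exact Or.inr h
    · exact main k j hj.symm (Nat.one_le_iff_ne_zero.2 h0) hcj z hzu hz1 hz2
  refine ⟨W, fun i => subset_univ _, fun i hi => ?_, fun i j hij hi hj => ?_⟩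
  · by_cases hik : i = k
    · subst hik
      rw [Function.update_self, hWk]
      by_cases h0 : c i = 0
      · rw [if_pos h0, h0, zero_add]
        refine path_of_cn hE (A := univ) hab1 ?_
        have e1 : Ed x univ a.1 u := ⟨a.2.1, by rw [pair_comm]; exact a.2.2, mem_univ _,
          mem_univ _⟩
        have e2 : Ed x univ u b.1 := ⟨b.2.1.symm, b.2.2, mem_univ _, mem_univ _⟩
        exact ((Cn.refl' (by simp)).tail e1 (by simp)).tail e2 (by simp)
      · rw [if_neg h0]
        obtain ⟨X, Y, hX, hY, hXY⟩ := hU i (Nat.one_le_iff_ne_zero.2 h0)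
        refine ⟨cl x u X, cl x u Y, ?_, ?_, star_reach hE hXY⟩
        · have h3 := (cl_spec hE hXY.1.1).2.2.1
          have : a ∈ nb x u (cl x u X) := by rw [h3]; exact hX
          exact this
        · have h3 := (cl_spec hE hXY.2.1.1).2.2.1
          have : b ∈ nb x u (cl x u Y) := by rw [h3]; exact hY
          exact this
    · rw [Function.update_of_ne hik] at hi ⊢
      rw [hWi i hik]
      exact avoid_reach hφ hE hi (hU i hi)
  · by_cases hik : i = k
    · subst hik
      rw [Function.update_of_ne hij.symm] at hj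
      exact mainK j hij.symm hj
    · rw [Function.update_of_ne hik] at hi
      by_cases hjk : j = k
      · subst hjk
        rw [inter_comm]
        exact mainK i hij hi
      · rw [Function.update_of_ne hjk] at hj
        rw [hWi i hik, hWi j hjk]
        rintro z ⟨⟨h1, h2⟩, h3, -⟩
        exact main i j hij hi hj z h2 h1 h3

/-- the conclusion for one pair and all partitions -/
def PairOK {κ : Type*} {W : Type*} [AddCommGroup W] [Module ℝ W] (y : κ → W) (a b : κ) : Prop :=
  ∀ (k : ℕ) (c : Fin k → ℕ), ∑ i, c i + 1 = rk y univ → LP y univ a b c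

/-- two indices in a common face of rank at most four -/
theorem pair_low (hφ : ∀ i, 0 < φ (x i)) (hE : AllExt x) {G : Set ι} (hG : Face x G)
    (hr : rk x G ≤ 4) {a b : ι} (ha : a ∈ G) (hb : b ∈ G) (hab : a ≠ b) : PairOK x a b := by
  intro k c hc
  refine lp_lift hφ hE hG Face.univ (subset_univ _) ha hb (fun c₀ h0 => ?_) hc
  have hj : Function.Injective (Subtype.val : G → ι) := Subtype.val_injective
  have hR : Face x (range (Subtype.val : G → ι)) := by rw [Subtype.range_coe]; exact hG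
  have hu : (Subtype.val : G → ι) '' univ = G := by rw [image_univ, Subtype.range_coe]
  have hru : rk (x ∘ (Subtype.val : G → ι)) univ = rk x G := by rw [rk_comp, hu]
  have hE' : AllExt (x ∘ (Subtype.val : G → ι)) := by
    intro i
    refine ⟨?_, ?_⟩
    · rw [face_comp hj hR, image_singleton]
      exact (hE i.1).1
    · rw [rk_comp, image_singleton]
      exact (hE i.1).2
  have h1 : HL (x ∘ (Subtype.val : G → ι)) := hl_low (fun i => hφ i.1) hE' (by rw [hru]; exact hr)
  have h2 := h1 univ Face.univ ⟨a, ha⟩ (mem_univ _) ⟨b, hb⟩ (mem_univ _)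
    (fun h => hab (congrArg Subtype.val h)) k c₀ (by rw [hru]; exact h0)
  have h3 := lp_comp hj hR h2
  rw [hu] at h3
  exact h3

/-- **The common neighbour rule.** -/
theorem pair_star (hφ : ∀ i, 0 < φ (x i)) (hE : AllExt x) {a b : Nbr x u} (hab : a ≠ b)
    (h : PairOK (fig x u) a b) : PairOK x a.1 b.1 := by
  classical
  have hab1 : a.1 ≠ b.1 := fun h => hab (Subtype.ext h)
  by_cases hno : ∃ F, Face x F ∧ rk x F = 3 ∧ u ∈ F ∧ a.1 ∈ F ∧ b.1 ∈ F
  · obtain ⟨F, h1, h2, -, h4, h5⟩ := hno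
    exact pair_low hφ hE h1 (by omega) h4 h5 hab1
  · intro k c hc
    have hr2 : 2 ≤ rk x univ := by
      rw [← rk_pair hE hab1]
      exact rk_mono (subset_univ _)
    have hr := (fig_face hE Face.univ (mem_univ u)).2
    have hnu : nb x u univ = univ := eq_univ_of_forall fun i => mem_univ _
    rw [hnu] at hr
    obtain ⟨j, hj⟩ : ∃ j, 1 ≤ c j := by
      by_contra hcon
      push Not at hcon
      have : ∑ i, c i = 0 := Finset.sum_eq_zero fun i _ => Nat.lt_one_iff.1 (hcon i)
      omega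
    have h1 := h k (Function.update c j (c j - 1)) (by
      have h2 := Finset.sum_update_of_mem (Finset.mem_univ j) c (c j - 1)
      have h3 := Finset.sum_update_of_mem (Finset.mem_univ j) c (c j)
      rw [Function.update_eq_self] at h3
      omega)
    have h2 := lp_star hφ hE hab h1 j hno
    rw [Function.update_self, Function.update_idem] at h2
    have e : c j - 1 + 1 = c j := by omega
    rw [e, Function.update_eq_self] at h2
    exact h2

end

/-- `y` is the figure of `x` at the face `T`: the indices of `y` are the faces of the next rank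
above `T`. -/
structure FigAt {ι κ : Type*} {V W : Type*} [AddCommGroup V] [Module ℝ V] [AddCommGroup W]
    [Module ℝ W] (x : ι → V) (T : Set ι) (y : κ → W) (f : κ → Set ι) : Prop where
  face : ∀ q, Face x (f q) ∧ T ⊆ f q ∧ rk x (f q) = rk x T + 1
  inj : Function.Injective f
  surj : ∀ R, Face x R → T ⊆ R → rk x R = rk x T + 1 → ∃ q, f q = R
  faces : ∀ B : Set κ, B.Nonempty → (Face y B ↔ ∃ F, Face x F ∧ T ⊆ F ∧ B = {q | f q ⊆ F})

theorem FigAt.pair_base {ι κ : Type*} {V W : Type*} [AddCommGroup V] [Module ℝ V]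
    [FiniteDimensional ℝ V] [Finite ι] [AddCommGroup W] [Module ℝ W] [FiniteDimensional ℝ W]
    [Finite κ] {x : ι → V} {φ : V →ₗ[ℝ] ℝ} (hφ : ∀ i, 0 < φ (x i)) (hE : AllExt x) {y : κ → W}
    {φ' : W →ₗ[ℝ] ℝ} (hφ' : ∀ i, 0 < φ' (y i)) {f : κ → Set ι} (h : FigAt x ∅ y f) {a b : ι}
    {p q : κ} (hp : f p = {a}) (hq : f q = {b}) (hok : PairOK y p q) : PairOK x a b := by
  classical
  have hat : ∀ q, Atom x (f q) := fun q => ⟨(h.face q).1, by
    have := (h.face q).2.2
    rwa [rk_empty, zero_add] at this⟩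
  have hsing : ∀ q, ∃ i, f q = {i} := fun q => by
    obtain ⟨i, hi⟩ := (hat q).nonempty
    exact ⟨i, atom_single hE (hat q) hi⟩
  choose g hg using hsing
  have hbij : Function.Bijective g := by
    constructor
    · intro q q' hqq
      apply h.inj
      rw [hg, hg, hqq]
    · intro i
      obtain ⟨q, hq⟩ := h.surj {i} (hE i).1 (empty_subset _) (by rw [rk_empty, (hE i).2])
      refine ⟨q, ?_⟩
      have h1 : ({g q} : Set ι) = {i} := by rw [← hg, hq]
      exact singleton_injective h1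
  set e := Equiv.ofBijective g hbij
  have hsame : Same y x e := by
    refine same_of_face hφ' hφ e fun B hB => ?_
    rw [h.faces B hB]
    constructor
    · rintro ⟨F, f1, -, f3⟩
      have : e '' B = F := by
        ext i
        constructor
        · rintro ⟨q, hq, rfl⟩
          rw [f3] at hq
          have h1 : f q ⊆ F := hq
          rw [hg] at h1
          exact h1 rfl
        · intro hi
          obtain ⟨q, rfl⟩ := hbij.2 i
          refine ⟨q, ?_, rfl⟩
          rw [f3]
          show f q ⊆ F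
          rw [hg]
          exact singleton_subset_iff.2 hi
      rw [this]
      exact f1
    · intro h1
      refine ⟨e '' B, h1, empty_subset _, ?_⟩
      ext q
      constructor
      · intro hq
        show f q ⊆ e '' B
        rw [hg]
        exact singleton_subset_iff.2 ⟨q, hq, rfl⟩
      · intro hq
        have h2 : f q ⊆ e '' B := hq
        rw [hg] at h2
        obtain ⟨q', h3, h4⟩ := h2 rfl
        rwa [← hbij.1 h4]
  have ea : g p = a := by
    have h1 : ({g p} : Set ι) = {a} := by rw [← hg, hp]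
    exact singleton_injective h1
  have eb : g q = b := by
    have h1 : ({g q} : Set ι) = {b} := by rw [← hg, hq]
    exact singleton_injective h1
  intro k c hc
  have hu : e '' univ = univ := by rw [image_univ]; exact e.surjective.range_eq
  have h1 := hok k c (by rw [hsame.rk _ Face.univ, hu]; exact hc)
  have h2 := hsame.lp h1
  rw [hu] at h2
  have e1 : e p = a := ea
  have e2 : e q = b := eb
  rwa [e1, e2] at h2

theorem FigAt.step {ι κ : Type*} {V W : Type*} [AddCommGroup V] [Module ℝ V]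
    [FiniteDimensional ℝ V] [Finite ι] [AddCommGroup W] [Module ℝ W] {x : ι → V}
    (hE : AllExt x) {y : κ → W} {f : κ → Set ι} {T : Set ι} (hT : Face x T) {u : ι} (hu : u ∈ T)
    (h : FigAt x T y f) : FigAt (fig x u) (nb x u T) y fun q => nb x u (f q) := by
  have huf : ∀ q, u ∈ f q := fun q => (h.face q).2.1 hu
  have hrT := (fig_face hE hT hu).2
  refine ⟨fun q => ?_, fun q q' hqq => ?_, fun R hR hTR hr => ?_, fun B hB => ?_⟩
  · obtain ⟨h1, h2, h3⟩ := h.face q
    obtain ⟨h4, h5⟩ := fig_face hE h1 (huf q)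
    exact ⟨h4, nb_mono h2, by omega⟩
  · apply h.inj
    have h1 : nb x u (f q) = nb x u (f q') := hqq
    exact Subset.antisymm
      (sub_of_nb hE (h.face q).1 (huf q) (h.face q').1 (huf q') h1.subset)
      (sub_of_nb hE (h.face q').1 (huf q') (h.face q).1 (huf q) h1.symm.subset)
  · obtain ⟨c1, c2, c3, c4⟩ := cl_spec hE hR
    obtain ⟨q, hq⟩ := h.surj (cl x u R) c1 (sub_of_nb hE hT hu c1 c2 (by rw [c3]; exact hTR))
      (by omega)
    exact ⟨q, by rw [hq, c3]⟩
  · rw [h.faces B hB]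
    constructor
    · rintro ⟨F, f1, f2, f3⟩
      refine ⟨nb x u F, (fig_face hE f1 (f2 hu)).1, nb_mono f2, ?_⟩
      rw [f3]
      ext q
      exact ⟨fun hq => nb_mono hq, fun hq => sub_of_nb hE (h.face q).1 (huf q) f1 (f2 hu) hq⟩
    · rintro ⟨F, f1, f2, f3⟩
      obtain ⟨c1, c2, c3, c4⟩ := cl_spec hE f1
      refine ⟨cl x u F, c1, sub_of_nb hE hT hu c1 c2 (by rw [c3]; exact f2), ?_⟩
      rw [f3]
      ext q
      constructor
      · intro hq
        refine sub_of_nb hE (h.face q).1 (huf q) c1 c2 ?_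
        rw [c3]
        exact hq
      · intro hq
        have h1 : f q ⊆ cl x u F := hq
        have h2 := nb_mono (x := x) (u := u) h1
        rw [c3] at h2
        exact h2

/-- **Flags.** -/
theorem flag_ok {κ : Type*} {W : Type*} [AddCommGroup W] [Module ℝ W] [FiniteDimensional ℝ W]
    [Finite κ] {y : κ → W} {φ'' : W →ₗ[ℝ] ℝ} (hφ'' : ∀ i, 0 < φ'' (y i)) (p q : κ) (r : ℕ) :
    ∀ {ι : Type*} {V : Type*} [AddCommGroup V] [Module ℝ V]
    [FiniteDimensional ℝ V] [Finite ι] {x : ι → V} {φ : V →ₗ[ℝ] ℝ} (_ : ∀ i, 0 < φ (x i))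
    (_ : AllExt x) (A B : ℕ → Set ι) (a b : ι) (_ : A 0 = {a}) (_ : B 0 = {b})
    (_ : ∀ j ≤ r, Face x (A j) ∧ rk x (A j) = j + 1)
    (_ : ∀ j ≤ r, Face x (B j) ∧ rk x (B j) = j + 1)
    (_ : ∀ j < r, A j ⊆ A (j + 1)) (_ : ∀ j < r, B j ⊆ B (j + 1))
    (_ : ∀ j ≤ r, rk x (A j ∩ B j) = j) (_ : a ∉ B r) (_ : b ∉ A r)
    (_ : rk x univ ≤ r + 4 ∨ {F | (Face x F ∧ rk x F + 1 = rk x univ) ∧ A r ∩ B r ⊆ F}.ncard + r ≤
      rk x univ + 2 ∨ ∃ f : κ → Set ι, FigAt x (A r ∩ B r) y f ∧ f p = A r ∧ f q = B r ∧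
        PairOK y p q), PairOK x a b := by
  induction r with
  | zero =>
    intro ι V _ _ _ _ x φ hφ hE A B a b hA0 hB0 hA hB _ _ _ haB hbA hr
    have hab : a ≠ b := by
      rintro rfl
      exact haB (by rw [hB0]; rfl)
    have he : A 0 ∩ B 0 = ∅ := by
      rw [hA0, hB0]
      refine eq_empty_iff_forall_notMem.2 ?_
      rintro i ⟨h1, h2⟩
      exact hab (h1.symm.trans h2)
    rcases hr with hr | hr | ⟨f, h1, h2, h3, h4⟩
    · exact pair_low hφ hE Face.univ (by omega) (mem_univ _) (mem_univ _) hab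
    · obtain ⟨G, g1, -, g3, g4, g5⟩ := exists_min_face (x := x) Face.univ (mem_univ a)
        (mem_univ b)
      have hset : {F | (Face x F ∧ rk x F + 1 = rk x univ) ∧ A 0 ∩ B 0 ⊆ F} =
          {F | Face x F ∧ rk x F + 1 = rk x univ} := by
        ext F
        rw [he]
        exact ⟨fun h => h.1, fun h => ⟨h, empty_subset F⟩⟩
      rw [hset, add_zero] at hr
      exact pair_low hφ hE g1 (few_facets hE hr g1 g3 g4 g5) g3 g4 hab
    · rw [he] at h1
      rw [hA0] at h2
      rw [hB0] at h3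
      exact h1.pair_base hφ hE hφ'' h2 h3 h4
  | succ r ih =>
    intro ι V _ _ _ _ x φ hφ hE A B a b hA0 hB0 hA hB hAm hBm hAB haB hbA hr
    have hAm' : ∀ j ≤ r, A 1 ⊆ A (j + 1) := by
      intro j hj
      induction j with
      | zero => exact subset_rfl
      | succ j ihj => exact (ihj (by omega)).trans (hAm (j + 1) (by omega))
    have hBm' : ∀ j ≤ r, B 1 ⊆ B (j + 1) := by
      intro j hj
      induction j with
      | zero => exact subset_rfl
      | succ j ihj => exact (ihj (by omega)).trans (hBm (j + 1) (by omega))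
    have h1 := hA 1 (by omega)
    have h1' := hB 1 (by omega)
    have hat : Atom x (A 1 ∩ B 1) := ⟨h1.1.inter h1'.1, hAB 1 (by omega)⟩
    obtain ⟨u, hu⟩ := hat.nonempty
    have haA : a ∈ A 1 := hAm 0 (by omega) (by rw [hA0]; rfl)
    have hbB : b ∈ B 1 := hBm 0 (by omega) (by rw [hB0]; rfl)
    have hau : a ≠ u := by
      rintro rfl
      exact haB (hBm' r le_rfl hu.2)
    have hbu : b ≠ u := by
      rintro rfl
      exact hbA (hAm' r le_rfl hu.1)
    have eA : A 1 = {u, a} := eq_pair hE h1.2 hu.1 haA hau.symm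
    have eB : B 1 = {u, b} := eq_pair hE h1'.2 hu.2 hbB hbu.symm
    have faceA : Face x {u, a} := by rw [← eA]; exact h1.1
    have faceB : Face x {u, b} := by rw [← eB]; exact h1'.1
    set a' : Nbr x u := ⟨a, hau, faceA⟩ with ha'
    set b' : Nbr x u := ⟨b, hbu, faceB⟩ with hb'
    haveI : Finite (Nbr x u) := fig_finite
    have hab : a ≠ b := by
      rintro rfl
      exact haB (hBm' r le_rfl hbB)
    have hab' : a' ≠ b' := fun h => hab (congrArg (fun z : Nbr x u => z.1) h)
    obtain ⟨φ', hφ'⟩ := fig_acyclic (u := u) hE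
    have huA : ∀ j ≤ r, u ∈ A (j + 1) := fun j hj => hAm' j hj hu.1
    have huB : ∀ j ≤ r, u ∈ B (j + 1) := fun j hj => hBm' j hj hu.2
    have hunr := (fig_face hE Face.univ (mem_univ u)).2
    have hnu : nb x u univ = univ := eq_univ_of_forall fun i => mem_univ _
    rw [hnu] at hunr
    obtain ⟨t2, -⟩ := hA (r + 1) le_rfl
    obtain ⟨t3, -⟩ := hB (r + 1) le_rfl
    have t4 : u ∈ A (r + 1) ∩ B (r + 1) := ⟨huA r le_rfl, huB r le_rfl⟩
    refine pair_star hφ hE hab' (ih hφ' (fig_allExt hE) (fun j => nb x u (A (j + 1)))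
      (fun j => nb x u (B (j + 1))) a' b' ?_ ?_ (fun j hj => ?_) (fun j hj => ?_)
      (fun j hj => nb_mono (hAm _ (by omega))) (fun j hj => nb_mono (hBm _ (by omega)))
      (fun j hj => ?_) haB hbA ?_)
    · show nb x u (A 1) = {a'}
      rw [eA]
      exact nb_pair (i := a')
    · show nb x u (B 1) = {b'}
      rw [eB]
      exact nb_pair (i := b')
    · obtain ⟨h2, h3⟩ := hA (j + 1) (by omega)
      obtain ⟨h4, h5⟩ := fig_face hE h2 (huA j hj)
      exact ⟨h4, by omega⟩
    · obtain ⟨h2, h3⟩ := hB (j + 1) (by omega)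
      obtain ⟨h4, h5⟩ := fig_face hE h2 (huB j hj)
      exact ⟨h4, by omega⟩
    · obtain ⟨h2, -⟩ := hA (j + 1) (by omega)
      obtain ⟨h3, -⟩ := hB (j + 1) (by omega)
      have h4 := (fig_face hE (h2.inter h3) (u := u) ⟨huA j hj, huB j hj⟩).2
      rw [hAB (j + 1) (by omega), nb_inter] at h4
      omega
    · rcases hr with hr | hr | ⟨f, s1, s2, s3, s4⟩
      · left; omega
      · right; left
        have hle : {F | (Face (fig x u) F ∧ rk (fig x u) F + 1 = rk (fig x u) univ) ∧
            nb x u (A (r + 1)) ∩ nb x u (B (r + 1)) ⊆ F}.ncard ≤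
            {F | (Face x F ∧ rk x F + 1 = rk x univ) ∧ A (r + 1) ∩ B (r + 1) ⊆ F}.ncard := by
          refine ncard_le_ncard_of_injOn (cl x u) ?_ ?_ (toFinite _)
          · rintro F ⟨⟨f1, f2⟩, f3⟩
            obtain ⟨c1, c2, c3, c4⟩ := cl_spec hE f1
            refine ⟨⟨c1, by omega⟩, ?_⟩
            refine sub_of_nb hE (t2.inter t3) t4 c1 c2 ?_
            rw [c3, nb_inter]
            exact f3
          · rintro F ⟨⟨f1, -⟩, -⟩ F' ⟨⟨f1', -⟩, -⟩ hFF'
            rw [← (cl_spec hE f1).2.2.1, hFF', (cl_spec hE f1').2.2.1]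
        omega
      · right; right
        refine ⟨fun q => nb x u (f q), ?_, congrArg (nb x u) s2, congrArg (nb x u) s3, s4⟩
        have := s1.step hE (t2.inter t3) t4
        rw [nb_inter] at this
        exact this

end Pool.Agent.Lock
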