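import Pool.Agent.Lock.Fig
import Pool.Agent.Lock.ClsHer

set_option autoImplicit false

/-!
# The common neighbour rule for polytopes
-/

namespace Pool.Agent.Lock

open Module Relation Set

variable {E : Type*} [NormedAddCommGroup E] [NormedSpace ℝ E] [FiniteDimensional ℝ E]

/-- the rank of a face of a polytope -/
theorem rk_vs {P F : Set E} (hP : Pt P) (h1 : F.Nonempty) (h2 : IsExposed ℝ P F) {m : ℕ}
    (hm : finrank ℝ (vectorSpan ℝ F) = m) :
    Face (vec P) (vs P F) ∧ rk (vec P) (vs P F) = m + 1 := by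
  obtain ⟨h3, h4⟩ := face_vs hP h1 h2
  exact ⟨h3, by omega⟩

/-- the ranks of the intersections of two flags -/
theorem rk_flags {G : Set E} (hG : Pt G) (r : ℕ) (A B : ℕ → Set E) {v w : E} (hA0 : A 0 = {v})
    (hB0 : B 0 = {w})
    (hA : ∀ j ≤ r, ((A j).Nonempty ∧ IsExposed ℝ G (A j)) ∧ finrank ℝ (vectorSpan ℝ (A j)) = j)
    (hB : ∀ j ≤ r, ((B j).Nonempty ∧ IsExposed ℝ G (B j)) ∧ finrank ℝ (vectorSpan ℝ (B j)) = j)
    (hAB : ∀ j, 1 ≤ j → j ≤ r → (A j ∩ B j).Nonempty ∧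
      finrank ℝ (vectorSpan ℝ (A j ∩ B j : Set E)) + 1 = j) (hvw : v ≠ w) :
    ∀ j ≤ r, rk (vec G) (vs G (A j ∩ B j)) = j := by
  intro j hj
  rcases Nat.eq_zero_or_pos j with rfl | hj1
  · have : vs G (A 0 ∩ B 0) = ∅ := by
      refine eq_empty_iff_forall_notMem.2 fun q hq => ?_
      obtain ⟨h1, h2⟩ : q.1 ∈ A 0 ∩ B 0 := hq
      rw [hA0] at h1
      rw [hB0] at h2
      have e1 : q.1 = v := h1
      have e2 : q.1 = w := h2
      exact hvw (e1.symm.trans e2)
    rw [this, rk_empty]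
  · obtain ⟨h1, h2⟩ := hAB j hj1 hj
    obtain ⟨⟨-, h3⟩, -⟩ := hA j hj
    obtain ⟨⟨-, h4⟩, -⟩ := hB j hj
    have h5 := (face_vs hG h1 (h3.inter h4)).2
    omega

theorem rk_flag {G : Set E} (hG : Pt G) (r : ℕ) (A B : ℕ → Set E) {v w : E} (hA0 : A 0 = {v})
    (hB0 : B 0 = {w})
    (hA : ∀ j ≤ r, ((A j).Nonempty ∧ IsExposed ℝ G (A j)) ∧ finrank ℝ (vectorSpan ℝ (A j)) = j)
    (hB : ∀ j ≤ r, ((B j).Nonempty ∧ IsExposed ℝ G (B j)) ∧ finrank ℝ (vectorSpan ℝ (B j)) = j)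
    (hAB : ∀ j, 1 ≤ j → j ≤ r → (A j ∩ B j).Nonempty ∧
      finrank ℝ (vectorSpan ℝ (A j ∩ B j : Set E)) + 1 = j) (hvw : v ≠ w) :
    rk (vec G) (vs G (A r ∩ B r)) = r := rk_flags hG r A B hA0 hB0 hA hB hAB hvw r le_rfl

/-- Flags of faces, for polytopes. -/
theorem flag_poly {E' : Type*} [NormedAddCommGroup E'] [NormedSpace ℝ E']
    [FiniteDimensional ℝ E'] {Q : Set E'} (hQ : Pt Q) (p q : {p // p ∈ Q.extremePoints ℝ})
    {G : Set E} (hG : Pt G) (r : ℕ) (A B : ℕ → Set E) {v w : E} (hA0 : A 0 = {v})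
    (hB0 : B 0 = {w})
    (hA : ∀ j ≤ r, ((A j).Nonempty ∧ IsExposed ℝ G (A j)) ∧ finrank ℝ (vectorSpan ℝ (A j)) = j)
    (hB : ∀ j ≤ r, ((B j).Nonempty ∧ IsExposed ℝ G (B j)) ∧ finrank ℝ (vectorSpan ℝ (B j)) = j)
    (hAm : ∀ j < r, A j ⊆ A (j + 1)) (hBm : ∀ j < r, B j ⊆ B (j + 1))
    (hAB : ∀ j, 1 ≤ j → j ≤ r → (A j ∩ B j).Nonempty ∧
      finrank ℝ (vectorSpan ℝ (A j ∩ B j : Set E)) + 1 = j) (hv : v ∉ B r) (hw : w ∉ A r)
    (hr : finrank ℝ (vectorSpan ℝ G) ≤ r + 3 ∨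
      {F : Set E | ((F.Nonempty ∧ IsExposed ℝ G F) ∧
        finrank ℝ (vectorSpan ℝ F) + 1 = finrank ℝ (vectorSpan ℝ G)) ∧ A r ∩ B r ⊆ F}.ncard + r ≤
        finrank ℝ (vectorSpan ℝ G) + 3 ∨
      ∃ f : {p // p ∈ Q.extremePoints ℝ} → Set {p // p ∈ G.extremePoints ℝ},
        FigAt (vec G) (vs G (A r ∩ B r)) (vec Q) f ∧ f p = vs G (A r) ∧ f q = vs G (B r) ∧
          PairOK (vec Q) p q)
    {a b : {p // p ∈ G.extremePoints ℝ}} (ha : a.1 = v) (hb : b.1 = w) :
    rk (vec G) (vs G (A r ∩ B r)) = r ∧ PairOK (vec G) a b := by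
  haveI : Finite {p // p ∈ G.extremePoints ℝ} := hG.fin
  haveI : Finite {p // p ∈ Q.extremePoints ℝ} := hQ.fin
  have hEx := allExt hG.cvx hG.fin
  have hBm' : ∀ j ≤ r, B 0 ⊆ B j := by
    intro j hj
    induction j with
    | zero => exact subset_rfl
    | succ j ih => exact (ih (by omega)).trans (hBm j (by omega))
  have hvw : v ≠ w := by
    rintro rfl
    exact hv (hBm' r le_rfl (by rw [hB0]; rfl))
  have hab : a ≠ b := fun h => hvw (by rw [← ha, ← hb, h])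
  have hne : G.Nonempty := ⟨a.1, extremePoints_subset a.2⟩
  have hd := dim_vec hG hne
  have hr2 : 2 ≤ rk (vec G) univ := by
    rw [← rk_pair hEx hab]
    exact rk_mono (subset_univ _)
  have single : ∀ {p : {p // p ∈ G.extremePoints ℝ}} {z : E}, p.1 = z → vs G {z} = {p} := by
    intro p z hz
    ext q
    constructor
    · intro hq
      have h1 : q.1 = z := hq
      exact Subtype.ext (h1.trans hz.symm)
    · intro hq
      have : q = p := hq
      rw [this]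
      exact hz
  have hrkAB := rk_flags hG r A B hA0 hB0 hA hB hAB hvw
  refine ⟨hrkAB r le_rfl, flag_ok (vec_pos Q) p q r (vec_pos G) hEx (fun j => vs G (A j))
    (fun j => vs G (B j)) a b ?_ ?_ (fun j hj => ?_) (fun j hj => ?_)
    (fun j hj i hi => hAm j hj hi) (fun j hj i hi => hBm j hj hi) (fun j hj => hrkAB j hj)
    ?_ ?_ ?_⟩
  · show vs G (A 0) = {a}
    rw [hA0]; exact single ha
  · show vs G (B 0) = {b}
    rw [hB0]; exact single hb
  · obtain ⟨⟨h1, h2⟩, h3⟩ := hA j hj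
    exact rk_vs hG h1 h2 h3
  · obtain ⟨⟨h1, h2⟩, h3⟩ := hB j hj
    exact rk_vs hG h1 h2 h3
  · intro h
    have : a.1 ∈ B r := h
    rw [ha] at this
    exact hv this
  · intro h
    have : b.1 ∈ A r := h
    rw [hb] at this
    exact hw this
  · rcases hr with hr | hr | hr
    · left; omega
    · right; left
      have hfin : {F : Set E | ((F.Nonempty ∧ IsExposed ℝ G F) ∧
          finrank ℝ (vectorSpan ℝ F) + 1 = finrank ℝ (vectorSpan ℝ G)) ∧
          A r ∩ B r ⊆ F}.Finite := (finite_faces hG).subset fun F hF => hF.1.1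
      have hle : {F | (Face (vec G) F ∧ rk (vec G) F + 1 = rk (vec G) univ) ∧
          vs G (A r) ∩ vs G (B r) ⊆ F}.ncard ≤
          {F : Set E | ((F.Nonempty ∧ IsExposed ℝ G F) ∧
            finrank ℝ (vectorSpan ℝ F) + 1 = finrank ℝ (vectorSpan ℝ G)) ∧
            A r ∩ B r ⊆ F}.ncard := by
        refine ncard_le_ncard_of_injOn (pts G) ?_ ?_ hfin
        · rintro F ⟨⟨f1, f2⟩, f3⟩
          have hFne : F.Nonempty := nonempty_of_rk (x := vec G) (by omega)
          obtain ⟨h1, h2, -⟩ := exposed_of_face hG.cpt hG.cvx hG.fin f1 hFne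
          have h3 := dim_pts G hFne
          refine ⟨⟨⟨h2, h1⟩, by omega⟩, ?_⟩
          have hexp : IsExposed ℝ G (A r ∩ B r) := by
            obtain ⟨⟨-, h4⟩, -⟩ := hA r le_rfl
            obtain ⟨⟨-, h5⟩, -⟩ := hB r le_rfl
            exact h4.inter h5
          rw [hull_eq hG.cpt hG.cvx hG.fin _ hexp]
          refine convexHull_mono ?_
          rintro p ⟨hp1, hp2⟩
          exact ⟨⟨p, hp2⟩, f3 hp1, rfl⟩
        · rintro F ⟨⟨f1, f2⟩, -⟩ F' ⟨⟨f1', f2'⟩, -⟩ hFF'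
          have hFne : F.Nonempty := nonempty_of_rk (x := vec G) (by omega)
          have hFne' : F'.Nonempty := nonempty_of_rk (x := vec G) (by omega)
          rw [← (exposed_of_face hG.cpt hG.cvx hG.fin f1 hFne).2.2,
            ← (exposed_of_face hG.cpt hG.cvx hG.fin f1' hFne').2.2, hFF']
      omega
    · right; right
      exact hr

/-- inclusion of faces and of their vertex sets -/
theorem vs_subset {P F F' : Set E} (hP : Pt P) (hF : IsExposed ℝ P F)
    (hF' : IsExposed ℝ P F') : vs P F ⊆ vs P F' ↔ F ⊆ F' := by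
  constructor
  · intro h
    rw [hull_eq hP.cpt hP.cvx hP.fin F hF]
    refine convexHull_min ?_ (hF'.convex hP.cvx)
    rintro p ⟨h1, h2⟩
    exact h (show (⟨p, h2⟩ : {p // p ∈ P.extremePoints ℝ}) ∈ vs P F from h1)
  · exact fun h p hp => h hp

/-- A combinatorial figure at a face. -/
theorem figAt_poly {E' : Type*} [NormedAddCommGroup E'] [NormedSpace ℝ E']
    [FiniteDimensional ℝ E'] {P : Set E} {Q : Set E'} (hP : Pt P) (hQ : Pt Q) {T : Set E} {r : ℕ}
    (hT : IsExposed ℝ P T) (hTr : rk (vec P) (vs P T) = r) (e : E' → Set E)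
    (he : ∀ q ∈ Q.extremePoints ℝ, ((e q).Nonempty ∧ IsExposed ℝ P (e q)) ∧
      finrank ℝ (vectorSpan ℝ (e q)) = r ∧ T ⊆ e q)
    (hinj : ∀ q ∈ Q.extremePoints ℝ, ∀ q' ∈ Q.extremePoints ℝ, e q = e q' → q = q')
    (hsurj : ∀ R : Set E, (R.Nonempty ∧ IsExposed ℝ P R) → finrank ℝ (vectorSpan ℝ R) = r →
      T ⊆ R → ∃ q ∈ Q.extremePoints ℝ, e q = R)
    (hfaces : ∀ A : Set E', A.Nonempty → A ⊆ Q.extremePoints ℝ →
      ((∃ H, (H.Nonempty ∧ IsExposed ℝ Q H) ∧ A = {q | q ∈ Q.extremePoints ℝ ∧ q ∈ H}) ↔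
        ∃ F, (F.Nonempty ∧ IsExposed ℝ P F) ∧ T ⊆ F ∧
          A = {q | q ∈ Q.extremePoints ℝ ∧ e q ⊆ F})) :
    FigAt (vec P) (vs P T) (vec Q) fun q => vs P (e q.1) := by
  haveI : Finite {p // p ∈ P.extremePoints ℝ} := hP.fin
  haveI : Finite {q // q ∈ Q.extremePoints ℝ} := hQ.fin
  refine ⟨fun q => ?_, fun q q' h => ?_, fun R h1 h2 h3 => ?_, fun A hA => ?_⟩
  · obtain ⟨⟨h1, h2⟩, h3, h4⟩ := he q.1 q.2
    obtain ⟨h5, h6⟩ := rk_vs hP h1 h2 h3
    exact ⟨h5, fun p hp => h4 hp, by rw [h6, hTr]⟩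
  · have h1 := (he q.1 q.2).1.2
    have h2 := (he q'.1 q'.2).1.2
    have h3 : vs P (e q.1) = vs P (e q'.1) := h
    exact Subtype.ext (hinj q.1 q.2 q'.1 q'.2 (Subset.antisymm
      ((vs_subset hP h1 h2).1 h3.subset) ((vs_subset hP h2 h1).1 h3.symm.subset)))
  · rw [hTr] at h3
    have hRne : R.Nonempty := nonempty_of_rk (x := vec P) (by omega)
    obtain ⟨g1, g2, g3⟩ := exposed_of_face hP.cpt hP.cvx hP.fin h1 hRne
    have g4 := dim_pts P hRne
    have g5 : vs P (pts P R) = R := g3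
    obtain ⟨q, hq, hqR⟩ := hsurj (pts P R) ⟨g2, g1⟩ (by omega)
      ((vs_subset hP hT g1).1 (by rw [g5]; exact h2))
    exact ⟨⟨q, hq⟩, by rw [hqR, g5]⟩
  · have himg : (Subtype.val '' A : Set E').Nonempty := hA.image _
    have hsub : (Subtype.val '' A : Set E') ⊆ Q.extremePoints ℝ := by
      rintro _ ⟨q, -, rfl⟩
      exact q.2
    have tr : ∀ S : E' → Prop, A = {q : {q // q ∈ Q.extremePoints ℝ} | S q.1} ↔
        (Subtype.val '' A : Set E') = {q | q ∈ Q.extremePoints ℝ ∧ S q} := by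
      intro S
      constructor
      · rintro rfl
        ext q
        constructor
        · rintro ⟨p, hp, rfl⟩
          exact ⟨p.2, hp⟩
        · rintro ⟨h1, h2⟩
          exact ⟨⟨q, h1⟩, h2, rfl⟩
      · intro h1
        ext q
        constructor
        · intro hq
          have : q.1 ∈ (Subtype.val '' A : Set E') := ⟨q, hq, rfl⟩
          rw [h1] at this
          exact this.2
        · intro hq
          have : q.1 ∈ {q | q ∈ Q.extremePoints ℝ ∧ S q} := ⟨q.2, hq⟩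
          rw [← h1] at this
          obtain ⟨q', h2, h3⟩ := this
          rwa [← Subtype.ext h3]
    rw [face_vec_iff hQ hA]
    have key : (∃ H, (H.Nonempty ∧ IsExposed ℝ Q H) ∧ A = vs Q H) ↔
        ∃ H, (H.Nonempty ∧ IsExposed ℝ Q H) ∧
          (Subtype.val '' A : Set E') = {q | q ∈ Q.extremePoints ℝ ∧ q ∈ H} :=
      exists_congr fun H => and_congr_right fun _ => tr fun q => q ∈ H
    rw [key, hfaces _ himg hsub]
    constructor
    · rintro ⟨F, ⟨f1, f2⟩, f3, f4⟩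
      refine ⟨vs P F, (face_vs hP f1 f2).1, fun p hp => f3 hp, ?_⟩
      rw [(tr fun q => e q ⊆ F).2 f4]
      ext q
      exact (vs_subset hP (he q.1 q.2).1.2 f2).symm
    · rintro ⟨F, f1, f2, f3⟩
      have hFne : F.Nonempty := by
        obtain ⟨q, hq⟩ := hA
        rw [f3] at hq
        have h1 : vs P (e q.1) ⊆ F := hq
        obtain ⟨⟨h2, h3⟩, -⟩ := he q.1 q.2
        obtain ⟨p, hp⟩ := (face_of_exposed hP.cpt hP.cvx hP.fin h3 h2).2.2
        exact ⟨p, h1 hp⟩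
      obtain ⟨g1, g2, g3⟩ := exposed_of_face hP.cpt hP.cvx hP.fin f1 hFne
      have g5 : vs P (pts P F) = F := g3
      refine ⟨pts P F, ⟨g2, g1⟩, (vs_subset hP hT g1).1 (by rw [g5]; exact f2), ?_⟩
      refine (tr fun q => e q ⊆ pts P F).1 ?_
      rw [f3]
      ext q
      show vs P (e q.1) ⊆ F ↔ e q.1 ⊆ pts P F
      rw [← vs_subset hP (he q.1 q.2).1.2 g1, g5]

/-- From lists of faces to thick paths in the configuration. -/
theorem lp_of_lists {P : Set E} (hP : Pt P) {a b : {p // p ∈ P.extremePoints ℝ}} {k : ℕ}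
    {c : Fin k → ℕ} (hc : ∀ i, 1 ≤ c i)
    (h : ∃ L : Fin k → List (Set E), (∀ i,
      (∀ F ∈ L i, (F.Nonempty ∧ IsExposed ℝ P F) ∧ finrank ℝ (vectorSpan ℝ F) = c i) ∧
      (∃ F, (L i).head? = some F ∧ a.1 ∈ F) ∧ (∃ F, (L i).getLast? = some F ∧ b.1 ∈ F) ∧
      (L i).IsChain fun F F' => (F ∩ F').Nonempty ∧
        finrank ℝ (vectorSpan ℝ (F ∩ F' : Set E)) + 1 = c i) ∧
      ∀ i j, i ≠ j → ∀ F ∈ L i, ∀ F' ∈ L j, ∀ u, u ∈ P.extremePoints ℝ → u ∈ F → u ∈ F' →
        u = a.1 ∨ u = b.1) : LP (vec P) univ a b c := by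
  obtain ⟨L, h1, h2⟩ := h
  refine ⟨fun i => {p | ∃ F ∈ L i, p.1 ∈ F}, fun i => subset_univ _, fun i _ => ?_, ?_⟩
  · obtain ⟨h3, ⟨F₀, h4, h5⟩, ⟨F₁, h6, h7⟩, h8⟩ := h1 i
    have hgood : ∀ F ∈ L i, Good (vec P) {p | ∃ F ∈ L i, p.1 ∈ F} (c i) (vs P F) := by
      intro F hF
      obtain ⟨⟨k1, k2⟩, k3⟩ := h3 F hF
      obtain ⟨k4, k5⟩ := rk_vs hP k1 k2 k3
      exact ⟨k4, fun p hp => ⟨F, hF, hp⟩, k5⟩
    have key : ∀ (l : List (Set E)) (F : Set E), (∀ D ∈ F :: l, D ∈ L i) →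
        (F :: l).IsChain (fun F F' => (F ∩ F').Nonempty ∧
          finrank ℝ (vectorSpan ℝ (F ∩ F' : Set E)) + 1 = c i) →
        ∀ D, (F :: l).getLast? = some D →
        Reach (vec P) {p | ∃ F ∈ L i, p.1 ∈ F} (c i) (vs P F) (vs P D) := by
      intro l
      induction l with
      | nil =>
        intro F hF _ D hD
        have hDF : F = D := by simpa using hD
        rw [← hDF]
        exact Reach.refl' (hgood F (hF F (by simp)))
      | cons F' l ih =>
        intro F hF hch D hD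
        rw [List.isChain_cons_cons] at hch
        have hD' : (F' :: l).getLast? = some D := by
          rw [List.getLast?_cons_cons] at hD
          exact hD
        have h9 := ih F' (fun D hD => hF D (List.mem_cons_of_mem _ hD)) hch.2 D hD'
        have g1 := hgood F (hF F (by simp))
        have g2 := hgood F' (hF F' (by simp))
        have hnb : Nb (vec P) {p | ∃ F ∈ L i, p.1 ∈ F} (c i) (vs P F) (vs P F') := by
          refine ⟨g1, g2, ?_⟩
          have e1 := (h3 F (hF F (by simp))).1.2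
          have e2 := (h3 F' (hF F' (by simp))).1.2
          have e3 := (face_vs hP hch.1.1 (e1.inter e2)).2
          have e4 : vs P F ∩ vs P F' = vs P (F ∩ F') := rfl
          rw [e4]
          have := hch.1.2
          omega
        exact ⟨g1, h9.2.1, ReflTransGen.head hnb h9.2.2⟩
    rcases hL : L i with _ | ⟨F, l⟩
    · rw [hL] at h4
      simp at h4
    · rw [hL] at h4 h6 h8
      have e : F = F₀ := by simpa using h4
      subst e
      have h9 := key l F (fun D hD => by rw [hL]; exact hD) h8 F₁ h6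
      exact ⟨vs P F, vs P F₁, h5, h7, h9⟩
  · rintro i j hij - - p ⟨⟨F, hF, hpF⟩, ⟨F', hF', hpF'⟩⟩
    rcases h2 i j hij F hF F' hF' p.1 p.2 hpF hpF' with h3 | h3
    · exact Or.inl (Subtype.ext h3)
    · exact Or.inr (Subtype.ext h3)

/-- zero parts can be dropped -/
theorem pairOK_of_pos {ι : Type*} {V : Type*} [AddCommGroup V] [Module ℝ V] {x : ι → V}
    {a b : ι} (h : ∀ (k : ℕ) (c : Fin k → ℕ), (∀ i, 1 ≤ c i) → ∑ i, c i + 1 = rk x univ →
      LP x univ a b c) : PairOK x a b := by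
  classical
  intro k c hc
  set s : Finset (Fin k) := Finset.univ.filter fun i => 1 ≤ c i with hs
  set e := s.equivFin
  have hsum : ∑ i, c i = ∑ i : Fin s.card, c (e.symm i).1 := by
    have h1 : ∑ i, c i = ∑ i ∈ s, c i := by
      rw [hs, Finset.sum_filter]
      refine Finset.sum_congr rfl fun i _ => ?_
      split_ifs with h1
      · rfl
      · omega
    rw [h1, ← Finset.sum_coe_sort s]
    exact (Equiv.sum_comp e.symm fun i : s => c i.1).symm
  have h1 := h s.card (fun i => c (e.symm i).1)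
    (fun i => (Finset.mem_filter.1 (e.symm i).2).2) (by rw [← hsum]; exact hc)
  obtain ⟨U, -, u2, u3⟩ := h1
  refine ⟨fun i => if h : i ∈ s then U (e ⟨i, h⟩) else ∅, fun i => subset_univ _,
    fun i hi => ?_, fun i j hij hi hj => ?_⟩
  · have h2 : i ∈ s := Finset.mem_filter.2 ⟨Finset.mem_univ i, hi⟩
    simp only [dif_pos h2]
    have e1 : c (e.symm (e ⟨i, h2⟩)).1 = c i := by rw [Equiv.symm_apply_apply]
    have h3 : PathIn x (U (e ⟨i, h2⟩)) (c (e.symm (e ⟨i, h2⟩)).1) a b :=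
      u2 (e ⟨i, h2⟩) (hi.trans e1.ge)
    rwa [e1] at h3
  · have h2 : i ∈ s := Finset.mem_filter.2 ⟨Finset.mem_univ i, hi⟩
    have h3 : j ∈ s := Finset.mem_filter.2 ⟨Finset.mem_univ j, hj⟩
    simp only [dif_pos h2, dif_pos h3]
    have e1 : c (e.symm (e ⟨i, h2⟩)).1 = c i := by rw [Equiv.symm_apply_apply]
    have e2 : c (e.symm (e ⟨j, h3⟩)).1 = c j := by rw [Equiv.symm_apply_apply]
    refine u3 _ _ (fun h4 => hij ?_) (hi.trans e1.ge) (hj.trans e2.ge)
    exact congrArg Subtype.val (e.injective h4)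

end Pool.Agent.Lock
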