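import Pool.Agent.Lock.Step

set_option autoImplicit false

/-!
# The property that all faces satisfy the conclusion for all pairs
-/

namespace Pool.Agent.Lock

open Module Relation

variable {ι : Type*} {V : Type*} [AddCommGroup V] [Module ℝ V] {x : ι → V}

/-- All faces satisfy the conclusion for all pairs and all partitions. -/
def HL (x : ι → V) : Prop := ∀ A, Face x A → ∀ a ∈ A, ∀ b ∈ A, a ≠ b →
  ∀ (k : ℕ) (c : Fin k → ℕ), ∑ i, c i + 1 = rk x A → LP x A a b c

theorem LP.reindex {κ κ' : Type*} {A : Set ι} {a b : ι} {c : κ → ℕ} (e : κ' → κ)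
    (he : Function.Injective e) (h : LP x A a b c) : LP x A a b (c ∘ e) := by
  obtain ⟨U, h1, h2, h3⟩ := h
  exact ⟨U ∘ e, fun i => h1 _, fun i hi => h2 _ hi, fun i j hij hi hj =>
    h3 _ _ (fun h => hij (he h)) hi hj⟩

theorem HL.lp (h : HL x) {A : Set ι} (hA : Face x A) {a b : ι} (ha : a ∈ A) (hb : b ∈ A)
    (hab : a ≠ b) {κ : Type*} [Fintype κ] (c : κ → ℕ) (hc : ∑ i, c i + 1 = rk x A) :
    LP x A a b c := by
  set e := Fintype.equivFin κ
  have h1 := h A hA a ha b hb hab (Fintype.card κ) (c ∘ e.symm) (by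
    rw [← hc]
    congr 1
    exact Equiv.sum_comp e.symm c)
  have h2 := h1.reindex e e.injective
  have e1 : (c ∘ e.symm) ∘ e = c := by
    funext i
    simp
  rw [e1] at h2
  exact h2

theorem LP.mono {κ : Type*} {A : Set ι} {a b : ι} {c c' : κ → ℕ} (h : LP x A a b c)
    (hc : ∀ i, 1 ≤ c' i → c' i = c i) : LP x A a b c' := by
  obtain ⟨U, h1, h2, h3⟩ := h
  refine ⟨U, h1, fun i hi => ?_, fun i j hij hi hj => ?_⟩
  · have := hc i hi
    rw [this]
    exact h2 i (by omega)
  · exact h3 i j hij (by have := hc i hi; omega) (by have := hc j hj; omega)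

/-- a function below `c` with a given sum -/
theorem exists_below {κ : Type*} (s : Finset κ) (c : κ → ℕ) {n : ℕ} (h : n ≤ ∑ i ∈ s, c i) :
    ∃ c₀ : κ → ℕ, (∀ i, c₀ i ≤ c i) ∧ ∑ i ∈ s, c₀ i = n := by
  classical
  induction s using Finset.induction_on generalizing n with
  | empty =>
    refine ⟨fun _ => 0, fun _ => Nat.zero_le _, ?_⟩
    simp only [Finset.sum_empty, Nat.le_zero] at h
    simp [h]
  | insert i s hi ih =>
    rw [Finset.sum_insert hi] at h
    by_cases h1 : n ≤ ∑ i ∈ s, c i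
    · obtain ⟨c₀, h2, h3⟩ := ih h1
      refine ⟨Function.update c₀ i 0, fun j => ?_, ?_⟩
      · by_cases hj : j = i
        · subst hj; simp
        · rw [Function.update_of_ne hj]; exact h2 j
      · rw [Finset.sum_insert hi, Function.update_self, zero_add, Finset.sum_update_of_notMem hi,
          h3]
    · push Not at h1
      obtain ⟨c₀, h2, h3⟩ := ih (le_refl (∑ i ∈ s, c i))
      refine ⟨Function.update c₀ i (n - ∑ i ∈ s, c i), fun j => ?_, ?_⟩
      · by_cases hj : j = i
        · subst hj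
          rw [Function.update_self]
          omega
        · rw [Function.update_of_ne hj]; exact h2 j
      · rw [Finset.sum_insert hi, Function.update_self, Finset.sum_update_of_notMem hi, h3]
        omega

theorem nonempty_of_rk {A : Set ι} (hr : 1 ≤ rk x A) : A.Nonempty := by
  rw [Set.nonempty_iff_ne_empty]
  rintro rfl
  rw [rk_empty] at hr
  omega

/-- one part takes everything -/
theorem lp_single {κ : Type*} [Fintype κ] {A : Set ι} (hA : Face x A) {a b : ι} (ha : a ∈ A)
    (hb : b ∈ A) {c : κ → ℕ} (hc : ∑ i, c i + 1 = rk x A) {i : κ} (hi : c i + 1 = rk x A) :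
    LP x A a b c := by
  classical
  have h0 : ∀ j, j ≠ i → c j = 0 := by
    intro j hj
    have h1 := Finset.add_sum_erase Finset.univ c (Finset.mem_univ i)
    have h2 : ∑ k ∈ Finset.univ.erase i, c k = 0 := by omega
    exact (Finset.sum_eq_zero_iff.1 h2) j (Finset.mem_erase.2 ⟨hj, Finset.mem_univ j⟩)
  refine ⟨fun _ => A, fun _ => subset_rfl, fun j hj => ?_, fun j k hjk hj hk => ?_⟩
  · have hji : j = i := by
      by_contra h
      have := h0 j h
      omega
    subst hji
    exact ⟨A, A, ha, hb, Reach.refl' ⟨hA, subset_rfl, hi.symm⟩⟩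
  · exfalso
    have h1 : j = i := by
      by_contra h
      have := h0 j h
      omega
    have h2 : k = i := by
      by_contra h
      have := h0 k h
      omega
    exact hjk (h1.trans h2.symm)

section fin

variable [FiniteDimensional ℝ V] [Finite ι] {φ : V →ₗ[ℝ] ℝ}

/-- all parts at most one -/
theorem lp_ones (hφ : ∀ i, 0 < φ (x i)) (hE : AllExt x) {κ : Type*} [Fintype κ] {A : Set ι}
    (hA : Face x A) {a b : ι} (ha : a ∈ A) (hb : b ∈ A) (hab : a ≠ b) {c : κ → ℕ}
    (hc : ∑ i, c i + 1 = rk x A) (h1 : ∀ i, c i ≤ 1) : LP x A a b c := by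
  classical
  set s : Finset κ := Finset.univ.filter fun i => c i = 1 with hs
  have hcs : s.card = ∑ i, c i := by
    rw [hs, Finset.card_filter]
    refine Finset.sum_congr rfl fun i _ => ?_
    have := h1 i
    split_ifs with h
    · exact h.symm
    · omega
  obtain ⟨U, hU, hd⟩ := disjoint_paths hφ hE hA ha hb hab (g := s.card) (by rw [hcs, hc])
  set e := s.equivFin
  refine ⟨fun i => if h : i ∈ s then U (e ⟨i, h⟩) ∩ A else ∅, fun i => ?_, fun i hi => ?_,
    fun i j hij hi hj => ?_⟩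
  · by_cases h : i ∈ s
    · simp only [dif_pos h]; exact Set.inter_subset_right
    · simp only [dif_neg h]; exact Set.empty_subset _
  · have hci : c i = 1 := le_antisymm (h1 i) hi
    have h : i ∈ s := Finset.mem_filter.2 ⟨Finset.mem_univ i, hci⟩
    simp only [dif_pos h]
    rw [hci]
    exact path_of_cn hE hab (cn_inter ha (hU _))
  · have hi' : i ∈ s := Finset.mem_filter.2 ⟨Finset.mem_univ i, le_antisymm (h1 i) hi⟩
    have hj' : j ∈ s := Finset.mem_filter.2 ⟨Finset.mem_univ j, le_antisymm (h1 j) hj⟩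
    simp only [dif_pos hi', dif_pos hj']
    refine subset_trans (Set.inter_subset_inter Set.inter_subset_left Set.inter_subset_left)
      (hd _ _ fun h => hij ?_)
    have := e.injective h
    exact congrArg Subtype.val this

/-- the smallest face that contains two given indices -/
theorem exists_min_face {A : Set ι} (hA : Face x A) {a b : ι} (ha : a ∈ A) (hb : b ∈ A) :
    ∃ G, Face x G ∧ G ⊆ A ∧ a ∈ G ∧ b ∈ G ∧ ∀ G', Face x G' → a ∈ G' → b ∈ G' → G ⊆ G' := by
  induction' hn : A.ncard using Nat.strong_induction_on with n ih generalizing A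
  by_cases h : ∀ G', Face x G' → a ∈ G' → b ∈ G' → A ⊆ G'
  · exact ⟨A, hA, subset_rfl, ha, hb, h⟩
  · push Not at h
    obtain ⟨G', h1, h2, h3, h4⟩ := h
    have hlt : (A ∩ G').ncard < n := by
      rw [← hn]
      refine Set.ncard_lt_ncard ⟨Set.inter_subset_left, fun h' => h4 fun i hi => (h' hi).2⟩
    obtain ⟨G, k1, k2, k3, k4, k5⟩ := ih _ hlt (hA.inter h1) ⟨ha, h2⟩ ⟨hb, h3⟩ rfl
    exact ⟨G, k1, k2.trans Set.inter_subset_left, k3, k4, k5⟩

/-- lifting from a face to a larger one -/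
theorem lp_lift (hφ : ∀ i, 0 < φ (x i)) (hE : AllExt x) {G A : Set ι} (hG : Face x G)
    (hA : Face x A) (hGA : G ⊆ A) {a b : ι} (ha : a ∈ G) (hb : b ∈ G) {κ : Type*} [Fintype κ]
    (h : ∀ c₀ : κ → ℕ, ∑ i, c₀ i + 1 = rk x G → LP x G a b c₀) {c : κ → ℕ}
    (hc : ∑ i, c i + 1 = rk x A) : LP x A a b c := by
  have hle := rk_mono (x := x) hGA
  have hG1 : 1 ≤ rk x G := by
    have := rk_mono (x := x) (Set.singleton_subset_iff.2 ha)
    rw [(hE a).2] at this
    exact this
  obtain ⟨c₀, h1, h2⟩ := exists_below Finset.univ c (n := rk x G - 1) (by omega)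
  have h3 : ∑ i, c₀ i + 1 = rk x G := by omega
  exact climb_up hφ hE hG ha hb (h c₀ h3) h3 (rk x A - rk x G) hA hGA (by omega) c h1 hc

/-- it suffices to look at some common face for every pair -/
theorem hl_of_cover (hφ : ∀ i, 0 < φ (x i)) (hE : AllExt x)
    (h : ∀ a b, a ≠ b → ∀ G, Face x G → a ∈ G → b ∈ G →
      (∀ G', Face x G' → a ∈ G' → b ∈ G' → G ⊆ G') →
      ∀ (k : ℕ) (c : Fin k → ℕ), ∑ i, c i + 1 = rk x G → LP x G a b c) : HL x := by
  intro A hA a ha b hb hab k c hc
  obtain ⟨G, h1, h2, h3, h4, h5⟩ := exists_min_face hA ha hb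
  exact lp_lift hφ hE h1 hA h2 h3 h4 (h a b hab G h1 h3 h4 h5 k) hc

/-- rank is determined by the faces -/
theorem rk_unique (hφ : ∀ i, 0 < φ (x i)) (ρ : Set ι → ℕ) (h0 : ρ ∅ = 0)
    (hmono : ∀ A B, Face x A → Face x B → A ⊂ B → ρ A < ρ B)
    (hstep : ∀ A, Face x A → A.Nonempty → ∃ B, Face x B ∧ B ⊂ A ∧ ρ B + 1 = ρ A) {A : Set ι}
    (hA : Face x A) : rk x A = ρ A := by
  induction' hn : A.ncard using Nat.strong_induction_on with n ih generalizing A
  rcases Set.eq_empty_or_nonempty A with rfl | hne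
  · rw [rk_empty, h0]
  obtain ⟨F, f1, -, f2, f3⟩ := exists_facet hA (face_empty hφ) (Set.empty_ssubset.2 hne)
  have hFA : F ⊂ A := f2.ssubset_of_ne fun h => by rw [h] at f3; omega
  obtain ⟨B, b1, b2, b3⟩ := hstep A hA hne
  have e1 := ih F.ncard (by rw [← hn]; exact Set.ncard_lt_ncard hFA) f1 rfl
  have e2 := ih B.ncard (by rw [← hn]; exact Set.ncard_lt_ncard b2) b1 rfl
  have e3 := rk_lt b1 b2
  have e4 := hmono F A f1 hA hFA
  omega

end fin

section transport

variable {κ : Type*} {W : Type*} [AddCommGroup W] [Module ℝ W] {y : κ → W}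

/-- two configurations with the same faces -/
structure Same (x : ι → V) (y : κ → W) (e : ι ≃ κ) : Prop where
  face : ∀ A, Face x A ↔ Face y (e '' A)
  rk : ∀ A, Face x A → rk x A = rk y (e '' A)

theorem Same.symm {e : ι ≃ κ} (h : Same x y e) : Same y x e.symm := by
  have key : ∀ A : Set κ, e '' (e.symm '' A) = A := fun A => by
    rw [← Set.image_comp]; simp
  refine ⟨fun A => ?_, fun A hA => ?_⟩
  · rw [h.face, key]
  · rw [h.rk _ (by rw [h.face, key]; exact hA), key]

theorem Same.good {e : ι ≃ κ} (h : Same x y e) {U : Set ι} {m : ℕ} {X : Set ι}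
    (hX : Good x U m X) : Good y (e '' U) m (e '' X) :=
  ⟨(h.face X).1 hX.1, Set.image_mono hX.2.1, by rw [← h.rk X hX.1]; exact hX.2.2⟩

theorem Same.reach {e : ι ≃ κ} (h : Same x y e) {U : Set ι} {m : ℕ} {X Y : Set ι}
    (hX : Reach x U m X Y) : Reach y (e '' U) m (e '' X) (e '' Y) := by
  refine ⟨h.good hX.1, h.good hX.2.1, hX.2.2.lift (fun X => e '' X) fun A B hAB => ?_⟩
  refine ⟨h.good hAB.1, h.good hAB.2.1, ?_⟩
  rw [← Set.image_inter e.injective, ← h.rk _ (hAB.1.1.inter hAB.2.1.1)]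
  exact hAB.2.2

theorem Same.lp {e : ι ≃ κ} (h : Same x y e) {A : Set ι} {a b : ι} {κ' : Type*} {c : κ' → ℕ}
    (hl : LP x A a b c) : LP y (e '' A) (e a) (e b) c := by
  obtain ⟨U, h1, h2, h3⟩ := hl
  refine ⟨fun i => e '' U i, fun i => Set.image_mono (h1 i), fun i hi => ?_,
    fun i j hij hi hj => ?_⟩
  · obtain ⟨X, Y, hX, hY, hXY⟩ := h2 i hi
    exact ⟨e '' X, e '' Y, Set.mem_image_of_mem _ hX, Set.mem_image_of_mem _ hY, h.reach hXY⟩
  · rw [← Set.image_inter e.injective]
    rintro _ ⟨z, hz, rfl⟩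
    rcases h3 i j hij hi hj hz with h4 | h4
    · left; rw [h4]
    · right
      rw [Set.mem_singleton_iff] at h4 ⊢
      rw [h4]

theorem Same.hl {e : ι ≃ κ} (h : Same x y e) (hx : HL x) : HL y := by
  have key : ∀ A : Set κ, e '' (e.symm '' A) = A := fun A => by
    rw [← Set.image_comp]; simp
  intro A hA a ha b hb hab k c hc
  have hA' : Face x (e.symm '' A) := by rw [h.face, key]; exact hA
  have h1 := hx (e.symm '' A) hA' (e.symm a) (Set.mem_image_of_mem _ ha) (e.symm b)
    (Set.mem_image_of_mem _ hb) (fun h' => hab (e.symm.injective h')) k c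
    (by rw [h.rk _ hA', key]; exact hc)
  have h2 := h.lp h1
  rw [key, Equiv.apply_symm_apply, Equiv.apply_symm_apply] at h2
  exact h2

theorem same_of_face [FiniteDimensional ℝ V] [Finite ι] [FiniteDimensional ℝ W] [Finite κ]
    {φ : V →ₗ[ℝ] ℝ} {φ' : W →ₗ[ℝ] ℝ} (hφ : ∀ i, 0 < φ (x i)) (hφ' : ∀ i, 0 < φ' (y i))
    (e : ι ≃ κ) (h : ∀ A : Set ι, A.Nonempty → (Face x A ↔ Face y (e '' A))) : Same x y e := by
  have key : ∀ A : Set κ, e '' (e.symm '' A) = A := fun A => by
    rw [← Set.image_comp]; simp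
  have h' : ∀ A : Set ι, Face x A ↔ Face y (e '' A) := by
    intro A
    rcases Set.eq_empty_or_nonempty A with rfl | hne
    · rw [Set.image_empty]
      exact ⟨fun _ => face_empty hφ', fun _ => face_empty hφ⟩
    · exact h A hne
  have ssub : ∀ {A B : Set ι}, e '' A ⊂ e '' B ↔ A ⊂ B := fun {A B} =>
    (e.injective.injOn (s := Set.univ)).image_ssubset_image_iff (Set.subset_univ A)
      (Set.subset_univ B)
  refine ⟨h', fun A hA => ?_⟩
  refine rk_unique hφ (fun A => rk y (e '' A)) (by simp [rk_empty]) (fun A B hA hB hAB => ?_)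
    (fun A hA hne => ?_) hA
  · apply rk_lt ((h' A).1 hA)
    exact ssub.2 hAB
  · obtain ⟨F, f1, -, f2, f3⟩ := exists_facet ((h' A).1 hA) (face_empty hφ')
      (Set.empty_ssubset.2 (hne.image _))
    refine ⟨e.symm '' F, (h' _).2 (by rw [key]; exact f1), ?_, by rw [key]; exact f3⟩
    have hne' : F ≠ e '' A := fun h => by rw [h] at f3; omega
    have hss := f2.ssubset_of_ne hne'
    have : e '' (e.symm '' F) ⊂ e '' A := by rw [key]; exact hss
    exact ssub.1 this

end transport

end Pool.Agent.Lock
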