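import Pool.Agent.Lock.Config

set_option autoImplicit false

/-!
# Connectivity of vertices and the linking lemma
-/

namespace Pool.Agent.Lock

open Module Relation

variable {ι : Type*} {V : Type*} [AddCommGroup V] [Module ℝ V] [FiniteDimensional ℝ V] [Finite ι]
  {x : ι → V} {φ : V →ₗ[ℝ] ℝ}

/-- A functional vanishing on `T`, on the contraction. -/
noncomputable def down (T : Set ι) (ψ : V →ₗ[ℝ] ℝ) (h : ∀ i ∈ T, ψ (x i) = 0) :
    V ⧸ Submodule.span ℝ (x '' T) →ₗ[ℝ] ℝ :=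
  (Submodule.span ℝ (x '' T)).liftQ ψ (zero_on_span h)

omit [FiniteDimensional ℝ V] [Finite ι] in
theorem down_con (T : Set ι) (ψ : V →ₗ[ℝ] ℝ) (h : ∀ i ∈ T, ψ (x i) = 0) (i : {i // i ∉ T}) :
    down T ψ h (con x T i) = ψ (x i) := rfl

omit [FiniteDimensional ℝ V] [Finite ι] in
/-- the contraction by a face is acyclic -/
theorem con_acyclic {T : Set ι} (hT : Face x T) :
    ∃ φ' : V ⧸ Submodule.span ℝ (x '' T) →ₗ[ℝ] ℝ, ∀ i, 0 < φ' (con x T i) := by
  obtain ⟨l, h0, h1⟩ := hT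
  exact ⟨down T l h0, fun i => h1 i i.2⟩

/-- The faces above a face `R`: there is a face of the next rank in any larger face, in the
direction of any functional. -/
theorem up {A R : Set ι} (hA : Face x A) (hR : Face x R) (hRA : R ⊆ A) {ψ : V →ₗ[ℝ] ℝ}
    (h0 : ∀ i ∈ R, ψ (x i) = 0) {j : ι} (hj : j ∈ A) (hψ : 0 < ψ (x j)) :
    ∃ G, Face x G ∧ R ⊆ G ∧ G ⊆ A ∧ rk x G = rk x R + 1 ∧ ∀ i ∈ G, i ∉ R → 0 < ψ (x i) := by
  obtain ⟨φ', hφ'⟩ := con_acyclic hR
  have hjR : j ∉ R := fun h => by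
    rw [h0 j h] at hψ
    exact lt_irrefl _ hψ
  have hA' : Face (con x R) (tr R A) := by
    rw [face_con, ext_tr hRA]; exact hA
  obtain ⟨Q, hQA, hQ, hpos⟩ := pos_atom hφ' hA' (ψ := down R ψ h0) (j := ⟨j, hjR⟩) hj
    (by rw [down_con]; exact hψ)
  refine ⟨ext R Q, face_con.1 hQ.1, Set.subset_union_left, ?_, ?_, ?_⟩
  · rw [← ext_tr hRA]; exact ext_mono hQA
  · have := rk_con (x := x) (T := R) (A := Q)
    rw [hQ.2] at this
    omega
  · rintro i (hi | ⟨k, hk, rfl⟩) hiR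
    · exact absurd hi hiR
    · exact hpos k hk

/-- improving edges -/
theorem improve (hφ : ∀ i, 0 < φ (x i)) {A R : Set ι} (hA : Face x A) (hR : Atom x R)
    (hRA : R ⊆ A) {ψ : V →ₗ[ℝ] ℝ} (h0 : ∀ i ∈ R, ψ (x i) = 0) {j : ι} (hj : j ∈ A)
    (hψ : 0 < ψ (x j)) :
    ∃ G R', Face x G ∧ R ⊆ G ∧ G ⊆ A ∧ rk x G = 2 ∧ (∀ i ∈ G, i ∉ R → 0 < ψ (x i)) ∧
      R' ⊆ G ∧ Atom x R' ∧ ∀ i ∈ R', 0 < ψ (x i) := by
  obtain ⟨G, hG, hRG, hGA, hrk, hpos⟩ := up hA hR.1 hRA h0 hj hψ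
  rw [hR.2] at hrk
  obtain ⟨k, hk, hkR⟩ : ∃ k ∈ G, k ∉ R := by
    by_contra hcon
    push Not at hcon
    have e : G = R := Set.Subset.antisymm hcon hRG
    rw [e, hR.2] at hrk
    omega
  obtain ⟨R', hR'G, hR', hR'pos⟩ := pos_atom hφ hG hk (hpos k hk hkR)
  exact ⟨G, R', hG, hRG, hGA, hrk, hpos, hR'G, hR', hR'pos⟩

/-- adjacency of atoms by a face of rank two inside `A` on which `ψ` is positive -/
def AdjPos (x : ι → V) (A : Set ι) (ψ : V →ₗ[ℝ] ℝ) (R R' : Set ι) : Prop :=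
  ∃ G, Face x G ∧ rk x G = 2 ∧ G ⊆ A ∧ (∀ i ∈ G, 0 < ψ (x i)) ∧ R ⊆ G ∧ R' ⊆ G ∧
    Atom x R ∧ Atom x R'

omit [FiniteDimensional ℝ V] [Finite ι] in
theorem AdjPos.symm {A : Set ι} {ψ : V →ₗ[ℝ] ℝ} {R R' : Set ι} (h : AdjPos x A ψ R R') :
    AdjPos x A ψ R' R := by
  obtain ⟨G, h1, h2, h3, h4, h5, h6, h7, h8⟩ := h
  exact ⟨G, h1, h2, h3, h4, h6, h5, h8, h7⟩

omit [FiniteDimensional ℝ V] [Finite ι] in
theorem reach_symm {A : Set ι} {ψ : V →ₗ[ℝ] ℝ} {R R' : Set ι}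
    (h : ReflTransGen (AdjPos x A ψ) R R') : ReflTransGen (AdjPos x A ψ) R' R := by
  induction h with
  | refl => exact ReflTransGen.refl
  | tail _ h ih => exact ReflTransGen.head h.symm ih

/-- climbing to the top: every positive atom reaches the face where `ψ / φ` is maximal -/
theorem climb (hφ : ∀ i, 0 < φ (x i)) {A M : Set ι} {ψ : V →ₗ[ℝ] ℝ} {t : ℝ} (hA : Face x A)
    (ht : 0 < t) (hMne : M.Nonempty) (hMA : M ⊆ A) (hle : ∀ i ∈ A, ψ (x i) ≤ t * φ (x i))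
    (heq : ∀ i ∈ M, ψ (x i) = t * φ (x i)) (hM : ∀ i ∈ A, ψ (x i) = t * φ (x i) → i ∈ M)
    {R : Set ι} (hR : Atom x R) (hRA : R ⊆ A) (hpos : ∀ i ∈ R, 0 < ψ (x i)) :
    ∃ R' ⊆ M, Atom x R' ∧ ReflTransGen (AdjPos x A ψ) R R' := by
  -- induction on the number of indices where the ratio is larger than on `R`
  obtain ⟨i, hi⟩ := hR.nonempty
  induction' hn : {j | j ∈ A ∧ ψ (x i) * φ (x j) < ψ (x j) * φ (x i)}.ncard using
    Nat.strong_induction_on with n ih generalizing R i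
  by_cases hiM : i ∈ M
  · refine ⟨R, fun j hj => ?_, hR, ReflTransGen.refl⟩
    obtain ⟨c, hc, hcj⟩ := atom_parallel hφ hR hi hj
    apply hM j (hRA hj)
    rw [hcj, map_smul, map_smul, smul_eq_mul, smul_eq_mul, heq i hiM]
    ring
  · set s : ℝ := ψ (x i) / φ (x i) with hs
    have hφi := hφ i
    have hsi : ψ (x i) = s * φ (x i) := by rw [hs, div_mul_cancel₀ _ hφi.ne']
    have hs0 : 0 < s := div_pos (hpos i hi) hφi
    have hst : s < t := by
      have h1 := hle i (hRA hi)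
      have h2 : ψ (x i) ≠ t * φ (x i) := fun h => hiM (hM i (hRA hi) h)
      have h3 := lt_of_le_of_ne h1 h2
      rw [hsi] at h3
      exact lt_of_mul_lt_mul_right h3 hφi.le
    obtain ⟨m, hm⟩ := hMne
    obtain ⟨G, R', hG, hRG, hGA, hrk, hGpos, hR'G, hR', hR'pos⟩ :=
      improve hφ hA hR hRA (ψ := ψ - s • φ) (fun j hj => by
        obtain ⟨c, hc, hcj⟩ := atom_parallel hφ hR hi hj
        rw [LinearMap.sub_apply, LinearMap.smul_apply, hcj, map_smul, map_smul, smul_eq_mul,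
          smul_eq_mul, smul_eq_mul, hsi]
        ring) (hMA hm) (by
        rw [LinearMap.sub_apply, LinearMap.smul_apply, smul_eq_mul, heq m hm]
        have := hφ m
        nlinarith)
    obtain ⟨k, hk⟩ := hR'.nonempty
    have hk1 : s * φ (x k) < ψ (x k) := by
      have := hR'pos k hk
      rw [LinearMap.sub_apply, LinearMap.smul_apply, smul_eq_mul, sub_pos] at this
      exact this
    have hφk := hφ k
    have hadj : AdjPos x A ψ R R' := by
      refine ⟨G, hG, hrk, hGA, fun j hj => ?_, hRG, hR'G, hR, hR'⟩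
      by_cases hjR : j ∈ R
      · exact hpos j hjR
      · have := hGpos j hj hjR
        rw [LinearMap.sub_apply, LinearMap.smul_apply, smul_eq_mul, sub_pos] at this
        have h4 := hφ j
        have : 0 < s * φ (x j) := by positivity
        linarith
    have hR'pos2 : ∀ j ∈ R', 0 < ψ (x j) := fun j hj => by
      have := hR'pos j hj
      rw [LinearMap.sub_apply, LinearMap.smul_apply, smul_eq_mul, sub_pos] at this
      have h4 := hφ j
      have : 0 < s * φ (x j) := by positivity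
      linarith
    have hlt : {j | j ∈ A ∧ ψ (x k) * φ (x j) < ψ (x j) * φ (x k)}.ncard < n := by
      rw [← hn]
      refine Set.ncard_lt_ncard ⟨fun j hj => ⟨hj.1, ?_⟩, fun h => ?_⟩
      · have h5 := hj.2
        have hφj := hφ j
        have h6 : s * φ (x k) * φ (x j) < ψ (x j) * φ (x k) :=
          lt_trans (mul_lt_mul_of_pos_right hk1 hφj) h5
        have h7 : s * φ (x j) < ψ (x j) := by
          by_contra hneg
          push Not at hneg
          nlinarith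
        rw [hsi]
        nlinarith
      · have h8 : k ∈ {j | j ∈ A ∧ ψ (x i) * φ (x j) < ψ (x j) * φ (x i)} := by
          refine ⟨hGA (hR'G hk), ?_⟩
          rw [hsi]
          nlinarith
        exact lt_irrefl _ (h h8).2
    obtain ⟨R'', hR''M, hR'', hreach⟩ := ih _ hlt hR' (hR'G.trans hGA) hR'pos2 k hk rfl
    exact ⟨R'', hR''M, hR'', ReflTransGen.head hadj hreach⟩

/-- The vertices on the positive side of a functional are connected. -/
theorem connected (hφ : ∀ i, 0 < φ (x i)) {A : Set ι} (hA : Face x A) (ψ : V →ₗ[ℝ] ℝ)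
    {R R' : Set ι} (hR : Atom x R) (hRA : R ⊆ A) (hpos : ∀ i ∈ R, 0 < ψ (x i))
    (hR' : Atom x R') (hR'A : R' ⊆ A) (hpos' : ∀ i ∈ R', 0 < ψ (x i)) :
    ReflTransGen (AdjPos x A ψ) R R' := by
  induction' hn : A.ncard using Nat.strong_induction_on with n ih generalizing A ψ R R'
  -- the case where the ratio is not constant
  have key : ∀ (ψ : V →ₗ[ℝ] ℝ) (R R' : Set ι), Atom x R → R ⊆ A → (∀ i ∈ R, 0 < ψ (x i)) →
      Atom x R' → R' ⊆ A → (∀ i ∈ R', 0 < ψ (x i)) →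
      (¬ ∃ t : ℝ, ∀ i ∈ A, ψ (x i) = t * φ (x i)) → ReflTransGen (AdjPos x A ψ) R R' := by
    intro ψ R R' hR hRA hpos hR' hR'A hpos' hnc
    obtain ⟨i, hi⟩ := hR.nonempty
    obtain ⟨t, M, hMne, hMA, hMf, hle, heq, hMm⟩ := max_face hφ hA ⟨i, hRA hi⟩ ψ
    have ht : 0 < t := by
      have h2 := hle i (hRA hi)
      have h3 := hφ i
      have h4 := hpos i hi
      by_contra hneg
      push Not at hneg
      nlinarith
    obtain ⟨Q, hQM, hQ, hRQ⟩ := climb hφ hA ht hMne hMA hle heq hMm hR hRA hpos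
    obtain ⟨Q', hQ'M, hQ', hRQ'⟩ := climb hφ hA ht hMne hMA hle heq hMm hR' hR'A hpos'
    have hlt : M.ncard < n := by
      rw [← hn]
      refine Set.ncard_lt_ncard ⟨hMA, fun h => hnc ⟨t, fun i hi => heq i (h hi)⟩⟩
    have h5 := ih _ hlt hMf φ hQ hQM (fun i _ => hφ i) hQ' hQ'M (fun i _ => hφ i) rfl
    have h6 : ReflTransGen (AdjPos x A ψ) Q Q' := by
      refine h5.lift id fun X Y hXY => ?_
      obtain ⟨G, h1, h2, h3, h4, h5, h6, h7, h8⟩ := hXY
      refine ⟨G, h1, h2, h3.trans hMA, fun j hj => ?_, h5, h6, h7, h8⟩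
      rw [heq j (h3 hj)]
      have := hφ j
      positivity
    exact (hRQ.trans h6).trans (reach_symm hRQ')
  by_cases hc : ∃ t : ℝ, ∀ i ∈ A, ψ (x i) = t * φ (x i)
  · -- constant ratio: everything is positive
    obtain ⟨t, ht⟩ := hc
    obtain ⟨i, hi⟩ := hR.nonempty
    have ht0 : 0 < t := by
      have h1 := hpos i hi
      rw [ht i (hRA hi)] at h1
      exact pos_of_mul_pos_left h1 (hφ i).le
    by_cases hRR : R = R'
    · rw [hRR]
    -- use the functional of `R`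
    obtain ⟨l, h0, h1⟩ := hR.1
    have hl' : ∀ j ∈ R', 0 < l (x j) := by
      intro j hj
      apply h1
      intro hjR
      apply hRR
      have s1 : R ⊆ R' := by
        intro k hk
        obtain ⟨c, hc, hck⟩ := atom_parallel hφ hR hjR hk
        apply mem_of_span hR'.1
        rw [hck]
        exact Submodule.smul_mem _ _ (Submodule.subset_span ⟨j, hj, rfl⟩)
      exact eq_of_rk hR.1 s1 (by rw [hR.2, hR'.2])
    obtain ⟨j, hj⟩ := hR'.nonempty
    obtain ⟨G, Q, hG, hRG, hGA, hrk, hGpos, hQG, hQ, hQpos⟩ :=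
      improve hφ hA hR hRA h0 (hR'A hj) (hl' j hj)
    have hnc : ¬ ∃ t : ℝ, ∀ i ∈ A, l (x i) = t * φ (x i) := by
      rintro ⟨s, hs⟩
      have e1 := hs i (hRA hi)
      rw [h0 i hi] at e1
      have hs0 : s = 0 := by
        rcases mul_eq_zero.1 e1.symm with h | h
        · exact h
        · exact absurd h (hφ i).ne'
      have e2 := hs j (hR'A hj)
      rw [hs0, zero_mul] at e2
      linarith [hl' j hj]
    have h6 := key l Q R' hQ (hQG.trans hGA) hQpos hR' hR'A hl' hnc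
    have h7 : ReflTransGen (AdjPos x A ψ) Q R' := by
      refine h6.lift id fun X Y hXY => ?_
      obtain ⟨G, h1, h2, h3, h4, h5, h6, h7, h8⟩ := hXY
      refine ⟨G, h1, h2, h3, fun j hj => ?_, h5, h6, h7, h8⟩
      rw [ht j (h3 hj)]
      have := hφ j
      positivity
    refine ReflTransGen.head ⟨G, hG, hrk, hGA, fun k hk => ?_, hRG, hQG, hR, hQ⟩ h7
    rw [ht k (hGA hk)]
    have := hφ k
    positivity
  · exact key ψ R R' hR hRA hpos hR' hR'A hpos' hc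

/-- Between a face and a larger one there is a face of corank one. -/
theorem exists_facet {A G : Set ι} (hA : Face x A) (hG : Face x G) (h : G ⊂ A) :
    ∃ F, Face x F ∧ G ⊆ F ∧ F ⊆ A ∧ rk x F + 1 = rk x A := by
  induction' hn : (A \ G).ncard using Nat.strong_induction_on with n ih generalizing G
  obtain ⟨j, hjA, hjG⟩ := Set.exists_of_ssubset h
  obtain ⟨l, h0, h1⟩ := hG
  obtain ⟨F, hF, hGF, hFA, hrk, -⟩ := up hA ⟨l, h0, h1⟩ h.subset h0 hjA (h1 j hjG)
  by_cases hFA' : F = A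
  · exact ⟨G, ⟨l, h0, h1⟩, le_rfl, h.subset, by rw [← hFA']; exact hrk.symm⟩
  · have hss : F ⊂ A := hFA.ssubset_of_ne hFA'
    have hGF' : G ≠ F := by
      rintro rfl
      omega
    have hlt : (A \ F).ncard < n := by
      rw [← hn]
      obtain ⟨k, hkF, hkG⟩ := Set.exists_of_ssubset (hGF.ssubset_of_ne hGF')
      refine Set.ncard_lt_ncard ⟨fun i hi => ⟨hi.1, fun h' => hi.2 (hGF h')⟩, fun h' => ?_⟩
      exact (h' ⟨hFA hkF, hkG⟩).2 hkF
    obtain ⟨F', h1, h2, h3, h4⟩ := ih _ hlt hF hss rfl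
    exact ⟨F', h1, hGF.trans h2, h3, h4⟩

/-! ### Thick paths -/

/-- A face of rank `m + 1` inside `U`. -/
def Good (x : ι → V) (U : Set ι) (m : ℕ) (X : Set ι) : Prop :=
  Face x X ∧ X ⊆ U ∧ rk x X = m + 1

/-- Consecutive faces of a thick path. -/
def Nb (x : ι → V) (U : Set ι) (m : ℕ) (X Y : Set ι) : Prop :=
  Good x U m X ∧ Good x U m Y ∧ rk x (X ∩ Y) = m

/-- reachable by a thick path of `m`-faces inside `U` -/
def Reach (x : ι → V) (U : Set ι) (m : ℕ) (X Y : Set ι) : Prop :=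
  Good x U m X ∧ Good x U m Y ∧ ReflTransGen (Nb x U m) X Y

omit [FiniteDimensional ℝ V] [Finite ι] in
theorem Good.mono {U U' : Set ι} {m : ℕ} {X : Set ι} (h : Good x U m X) (hU : U ⊆ U') :
    Good x U' m X := ⟨h.1, h.2.1.trans hU, h.2.2⟩

omit [FiniteDimensional ℝ V] [Finite ι] in
theorem Reach.mono {U U' : Set ι} {m : ℕ} {X Y : Set ι} (h : Reach x U m X Y) (hU : U ⊆ U') :
    Reach x U' m X Y :=
  ⟨h.1.mono hU, h.2.1.mono hU,
    h.2.2.lift id fun _ _ h => ⟨h.1.mono hU, h.2.1.mono hU, h.2.2⟩⟩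

omit [FiniteDimensional ℝ V] [Finite ι] in
theorem Reach.trans {U : Set ι} {m : ℕ} {X Y Z : Set ι} (h : Reach x U m X Y)
    (h' : Reach x U m Y Z) : Reach x U m X Z := ⟨h.1, h'.2.1, h.2.2.trans h'.2.2⟩

omit [FiniteDimensional ℝ V] [Finite ι] in
theorem Reach.refl' {U : Set ι} {m : ℕ} {X : Set ι} (h : Good x U m X) : Reach x U m X X :=
  ⟨h, h, ReflTransGen.refl⟩

omit [Finite ι] in
/-- two faces with a common face of the previous rank -/
theorem reach_of_common {U : Set ι} {m : ℕ} {X Y R : Set ι} (hX : Good x U m X)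
    (hY : Good x U m Y) (hRX : R ⊆ X) (hRY : R ⊆ Y) (hrk : rk x R = m) :
    Reach x U m X Y := by
  by_cases h : X = Y
  · subst h
    exact Reach.refl' hX
  · refine ⟨hX, hY, ReflTransGen.single ⟨hX, hY, ?_⟩⟩
    have h1 : m ≤ rk x (X ∩ Y) := by
      rw [← hrk]; exact rk_mono (Set.subset_inter hRX hRY)
    have h2 : X ∩ Y ⊂ X := by
      refine Set.inter_subset_left.ssubset_of_ne fun h' => h ?_
      have h3 : X ⊆ Y := Set.inter_eq_left.1 h'
      exact eq_of_rk hX.1 h3 (by rw [hX.2.2, hY.2.2])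
    have h3 := rk_lt (hX.1.inter hY.1) h2
    rw [hX.2.2] at h3
    omega

/-- The linking lemma. -/
theorem link {A F T R R' : Set ι} (hA : Face x A) (hF : Face x F) (hFA : F ⊂ A)
    (hT : Face x T) (hR : Face x R) (hR' : Face x R') (hTR : T ⊆ R) (hTR' : T ⊆ R')
    (hRF : R ⊆ F) (hR'F : R' ⊆ F) (hrR : rk x R = rk x T + 1) (hrR' : rk x R' = rk x T + 1) :
    ∃ G G', R ⊆ G ∧ R' ⊆ G' ∧ Reach x (R ∪ R' ∪ (A \ F)) (rk x T + 1) G G' := by
  obtain ⟨φ', hφ'⟩ := con_acyclic hT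
  obtain ⟨l, h0, h1⟩ := hF
  have hl0 : ∀ i ∈ T, l (x i) = 0 := fun i hi => h0 i (hRF (hTR hi))
  obtain ⟨j, hjA, hjF⟩ := Set.exists_of_ssubset hFA
  have hjT : j ∉ T := fun h => hjF (hRF (hTR h))
  have hRA : R ⊆ A := hRF.trans hFA.subset
  have hR'A : R' ⊆ A := hR'F.trans hFA.subset
  have hTA : T ⊆ A := hTR.trans hRA
  have hA' : Face (con x T) (tr T A) := by rw [face_con, ext_tr hTA]; exact hA
  set ψ := down T l hl0 with hψ
  have hψj : 0 < ψ (con x T ⟨j, hjT⟩) := h1 j hjF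
  -- atoms of the contraction
  have atm : ∀ {R : Set ι}, Face x R → T ⊆ R → rk x R = rk x T + 1 →
      Atom (con x T) (tr T R) := by
    intro R hR hTR hr
    refine ⟨by rw [face_con, ext_tr hTR]; exact hR, ?_⟩
    have := rk_con (x := x) (T := T) (A := tr T R)
    rw [ext_tr hTR] at this
    omega
  have half : ∀ {R : Set ι}, Face x R → T ⊆ R → R ⊆ F → rk x R = rk x T + 1 →
      ∃ (E Q : Set {i // i ∉ T}), Good (con x T) (tr T R ∪ {i | i ∈ tr T A ∧ 0 < ψ (con x T i)}) 1 E ∧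
        tr T R ⊆ E ∧ Q ⊆ E ∧ Atom (con x T) Q ∧ Q ⊆ tr T A ∧ ∀ i ∈ Q, 0 < ψ (con x T i) := by
    intro R hR hTR hRF hr
    obtain ⟨E, Q, hE, hRE, hEA, hrE, hEpos, hQE, hQ, hQpos⟩ :=
      improve hφ' hA' (atm hR hTR hr) (fun i hi => hFA.subset (hRF hi)) (ψ := ψ)
        (fun i hi => h0 i (hRF hi)) (j := ⟨j, hjT⟩) hjA hψj
    refine ⟨E, Q, ⟨hE, fun i hi => ?_, hrE⟩, hRE, hQE, hQ, hQE.trans hEA, hQpos⟩
    by_cases hiR : i ∈ tr T R
    · exact Or.inl hiR
    · exact Or.inr ⟨hEA hi, hEpos i hi hiR⟩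
  obtain ⟨E, Q, hE, hRE, hQE, hQ, hQA, hQpos⟩ := half hR hTR hRF hrR
  obtain ⟨E', Q', hE', hRE', hQE', hQ', hQA', hQpos'⟩ := half hR' hTR' hR'F hrR'
  set U : Set {i // i ∉ T} := tr T R ∪ tr T R' ∪ {i | i ∈ tr T A ∧ 0 < ψ (con x T i)} with hU
  have hEU : Good (con x T) U 1 E := hE.mono (by
    rw [hU]
    exact Set.union_subset_union_left _ Set.subset_union_left)
  have hEU' : Good (con x T) U 1 E' := hE'.mono (by
    rw [hU]
    exact Set.union_subset_union_left _ Set.subset_union_right)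
  have hconn := connected hφ' hA' ψ hQ hQA hQpos hQ' hQA' hQpos'
  have step : ∀ Q₁, ReflTransGen (AdjPos (con x T) (tr T A) ψ) Q Q₁ → Atom (con x T) Q₁ ∧
      ∃ E₁, Q₁ ⊆ E₁ ∧ Reach (con x T) U 1 E E₁ := by
    intro Q₁ h
    induction h with
    | refl => exact ⟨hQ, E, hQE, Reach.refl' hEU⟩
    | tail _ h ih =>
      obtain ⟨hb, E₁, hbE, hreach⟩ := ih
      obtain ⟨G, g1, g2, g3, g4, g5, g6, g7, g8⟩ := h
      have hG : Good (con x T) U 1 G := ⟨g1, fun i hi => Or.inr ⟨g3 hi, g4 i hi⟩, g2⟩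
      exact ⟨g8, G, g6, hreach.trans (reach_of_common hreach.2.1 hG hbE g5 hb.2)⟩
  obtain ⟨-, E₁, hQ'E₁, hreach⟩ := step Q' hconn
  have hfin : Reach (con x T) U 1 E E' :=
    hreach.trans (reach_of_common hreach.2.1 hEU' hQ'E₁ hQE' hQ'.2)
  -- transfer
  have hgood : ∀ X, Good (con x T) U 1 X → Good x (R ∪ R' ∪ (A \ F)) (rk x T + 1) (ext T X) := by
    intro X hX
    refine ⟨face_con.1 hX.1, ?_, ?_⟩
    · rintro i (hi | ⟨k, hk, rfl⟩)
      · exact Or.inl (Or.inl (hTR hi))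
      · rcases hX.2.1 hk with (h | h) | h
        · exact Or.inl (Or.inl h)
        · exact Or.inl (Or.inr h)
        · refine Or.inr ⟨h.1, fun hkF => ?_⟩
          have h2 : 0 < l (x k) := h.2
          rw [h0 _ hkF] at h2
          exact lt_irrefl _ h2
    · have := rk_con (x := x) (T := T) (A := X)
      rw [hX.2.2] at this
      omega
  refine ⟨ext T E, ext T E', ?_, ?_, hgood _ hEU, hgood _ hEU', ?_⟩
  · rw [← ext_tr hTR]; exact ext_mono hRE
  · rw [← ext_tr hTR']; exact ext_mono hRE'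
  · refine hfin.2.2.lift (ext T) fun X Y hXY => ⟨hgood _ hXY.1, hgood _ hXY.2.1, ?_⟩
    rw [ext_inter]
    have := rk_con (x := x) (T := T) (A := X ∩ Y)
    rw [hXY.2.2] at this
    omega

/-- Thickening of a path of a facet. -/
theorem thicken {A F U X Y : Set ι} {m : ℕ} (hA : Face x A) (hF : Face x F) (hFA : F ⊂ A)
    (hUF : U ⊆ F) (h : Reach x U m X Y) :
    ∃ G G', X ⊆ G ∧ Y ⊆ G' ∧ Reach x (U ∪ (A \ F)) (m + 1) G G' := by
  obtain ⟨hX, hY, hr⟩ := h
  have base : ∃ G, X ⊆ G ∧ Good x (U ∪ (A \ F)) (m + 1) G := by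
    obtain ⟨l, h0, h1⟩ := hF
    obtain ⟨j, hjA, hjF⟩ := Set.exists_of_ssubset hFA
    obtain ⟨G, hG, hXG, hGA, hrk, hpos⟩ := up hA hX.1 ((hX.2.1.trans hUF).trans hFA.subset)
      (fun i hi => h0 i (hUF (hX.2.1 hi))) hjA (h1 j hjF)
    refine ⟨G, hXG, hG, fun i hi => ?_, by rw [hrk, hX.2.2]⟩
    by_cases hiX : i ∈ X
    · exact Or.inl (hX.2.1 hiX)
    · refine Or.inr ⟨hGA hi, fun hiF => ?_⟩
      have := hpos i hi hiX
      rw [h0 i hiF] at this
      exact lt_irrefl _ this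
  obtain ⟨G, hXG, hG⟩ := base
  have step : ∀ Z, ReflTransGen (Nb x U m) X Z → Good x U m Z ∧ ∃ G', Z ⊆ G' ∧
      Reach x (U ∪ (A \ F)) (m + 1) G G' := by
    intro Z h
    induction h with
    | refl => exact ⟨hX, G, hXG, Reach.refl' hG⟩
    | tail _ h ih =>
      rename_i b c
      obtain ⟨hb, G₁, hbG₁, hreach⟩ := ih
      obtain ⟨-, hc, hbc⟩ := h
      obtain ⟨G₂, G₃, h2, h3, h4⟩ := link hA hF hFA (hb.1.inter hc.1) hb.1 hc.1
        Set.inter_subset_left Set.inter_subset_right (hb.2.1.trans hUF) (hc.2.1.trans hUF)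
        (by rw [hbc, hb.2.2]) (by rw [hbc, hc.2.2])
      rw [hbc] at h4
      have h5 : Reach x (U ∪ (A \ F)) (m + 1) G₂ G₃ :=
        h4.mono (Set.union_subset_union_left _ (Set.union_subset hb.2.1 hc.2.1))
      refine ⟨hc, G₃, h3, (hreach.trans ?_).trans h5⟩
      exact reach_of_common hreach.2.1 h5.1 hbG₁ h2 hb.2.2
  obtain ⟨-, G', hYG', hreach⟩ := step Y hr
  exact ⟨G, G', hXG, hYG', hreach⟩

end Pool.Agent.Lock
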