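import Mathlib

set_option autoImplicit false

/-!
# Menger's theorem (finite, undirected, vertex version)

Proof of Göring (induction on the number of edges).  A path system is represented by pairwise
disjoint vertex sets, each of which joins its two ends.
-/

namespace Pool.Agent.Lock

open Relation

variable {α : Type*}

/-- `a` and `b` are joined inside `U`. -/
def Cn (E : α → α → Prop) (U : Set α) (a b : α) : Prop :=
  a ∈ U ∧ ReflTransGen (fun x y => E x y ∧ y ∈ U) a b

namespace Cn

variable {E : α → α → Prop} {U : Set α} {a b c : α}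

theorem refl' (h : a ∈ U) : Cn E U a a := ⟨h, ReflTransGen.refl⟩

theorem mem_right (h : Cn E U a b) : b ∈ U := by
  rcases ReflTransGen.cases_tail h.2 with h1 | ⟨c, -, h1⟩
  · rw [h1]; exact h.1
  · exact h1.2

theorem trans (h : Cn E U a b) (h' : Cn E U b c) : Cn E U a c := ⟨h.1, h.2.trans h'.2⟩

theorem tail (h : Cn E U a b) (h1 : E b c) (h2 : c ∈ U) : Cn E U a c :=
  ⟨h.1, h.2.tail ⟨h1, h2⟩⟩

theorem symm (hE : ∀ x y, E x y → E y x) (h : Cn E U a b) : Cn E U b a := by
  obtain ⟨h1, h2⟩ := h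
  induction h2 with
  | refl => exact refl' h1
  | tail h3 h4 ih =>
    rename_i p q
    have hp : p ∈ U := mem_right ⟨h1, h3⟩
    exact ⟨h4.2, ReflTransGen.head ⟨hE _ _ h4.1, hp⟩ ih.2⟩

theorem mono {E' : α → α → Prop} {U' : Set α} (hE : ∀ x y, E x y → E' x y) (hU : U ⊆ U')
    (h : Cn E U a b) : Cn E' U' a b :=
  ⟨hU h.1, h.2.lift id fun _ _ h => ⟨hE _ _ h.1, hU h.2⟩⟩

/-- induction along a path, keeping membership -/
theorem ind {P : α → Prop} (h : Cn E U a b) (h0 : P a)
    (hs : ∀ u v, u ∈ U → P u → E u v → v ∈ U → P v) : P b := by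
  obtain ⟨h1, h2⟩ := h
  induction h2 with
  | refl => exact h0
  | tail h3 h4 ih => exact hs _ _ (mem_right ⟨h1, h3⟩) ih h4.1 h4.2

end Cn

/-- `S` separates `A` from `B`. -/
def Sep (E : α → α → Prop) (A B S : Set α) : Prop := ∀ a ∈ A, ∀ b ∈ B, ¬ Cn E Sᶜ a b

/-- `k` disjoint connectors from `A` to `B` -/
def Conns (E : α → α → Prop) (A B : Set α) (k : ℕ) : Prop :=
  ∃ (I : Set α) (U : α → Set α), I.ncard = k ∧ (∀ i ∈ I, ∃ a ∈ A, ∃ b ∈ B, Cn E (U i) a b) ∧
    ∀ i ∈ I, ∀ j ∈ I, i ≠ j → Disjoint (U i) (U j)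

variable [Finite α]

/-- connectors from `A` to a set of `k` vertices, indexed by the ends -/
theorem Conns.by_end {E : α → α → Prop} {A Q : Set α} {k : ℕ} (h : Conns E A Q k)
    (hQ : Q.ncard = k) :
    ∃ U : α → Set α, (∀ s ∈ Q, ∃ a ∈ A, Cn E (U s) a s) ∧ (∀ s ∈ Q, U s ∩ Q = {s}) ∧
      ∀ s ∈ Q, ∀ t ∈ Q, s ≠ t → Disjoint (U s) (U t) := by
  obtain ⟨I, U, hI, hU, hd⟩ := h
  choose! a ha b hb hab using hU
  have hinj : Set.InjOn b I := by
    intro i hi j hj hij
    by_contra hne
    have h1 := (hab i hi).mem_right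
    have h2 := (hab j hj).mem_right
    rw [← hij] at h2
    exact Set.disjoint_left.1 (hd i hi j hj hne) h1 h2
  have himg : b '' I = Q := by
    refine Set.eq_of_subset_of_ncard_le ?_ ?_ Q.toFinite
    · rintro _ ⟨i, hi, rfl⟩
      exact hb i hi
    · rw [hinj.ncard_image, hI, hQ]
  have hsurj : ∀ s ∈ Q, ∃ i ∈ I, b i = s := fun s hs => by
    rw [← himg] at hs
    exact hs
  choose! f hf hbf using hsurj
  refine ⟨fun s => U (f s), fun s hs => ⟨a (f s), ha _ (hf s hs), ?_⟩, fun s hs => ?_,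
    fun s hs t ht hst => ?_⟩
  · have := hab (f s) (hf s hs)
    rwa [hbf s hs] at this
  · ext t
    simp only [Set.mem_inter_iff, Set.mem_singleton_iff]
    constructor
    · rintro ⟨h1, h2⟩
      by_contra hne
      have h3 := (hab (f t) (hf t h2)).mem_right
      rw [hbf t h2] at h3
      refine Set.disjoint_left.1 (hd _ (hf s hs) _ (hf t h2) fun h => hne ?_) h1 h3
      rw [← hbf s hs, ← hbf t h2, h]
    · rintro rfl
      refine ⟨?_, hs⟩
      have := (hab (f t) (hf t hs)).mem_right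
      rwa [hbf t hs] at this
  · refine hd _ (hf s hs) _ (hf t ht) fun h => hst ?_
    rw [← hbf s hs, ← hbf t ht, h]

section core

variable {E E' : α → α → Prop} {A B S : Set α} {x y : α} {k : ℕ}

/-- the part reachable from `A` -/
def Side (E' : α → α → Prop) (A S : Set α) : Set α := {u | ∃ a ∈ A, Cn E' Sᶜ a u}

omit [Finite α] in
theorem side_not {u : α} (h : u ∈ Side E' A S) : u ∉ S := by
  obtain ⟨a, -, h⟩ := h
  exact h.mem_right

omit [Finite α] in
theorem side_tail {u v : α} (h : u ∈ Side E' A S) (h1 : E' u v) (h2 : v ∉ S) :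
    v ∈ Side E' A S := by
  obtain ⟨a, ha, h⟩ := h
  exact ⟨a, ha, h.tail h1 h2⟩

omit [Finite α] in
theorem side_base {a : α} (ha : a ∈ A) (h : a ∉ S) : a ∈ Side E' A S :=
  ⟨a, ha, Cn.refl' h⟩

omit [Finite α] in
theorem side_disj (hs' : ∀ x y, E' x y → E' y x) (hsep : Sep E' A B S) {u : α}
    (h1 : u ∈ Side E' A S) (h2 : u ∈ Side E' B S) : False := by
  obtain ⟨a, ha, h1⟩ := h1
  obtain ⟨b, hb, h2⟩ := h2
  exact hsep a ha b hb (h1.trans (h2.symm hs'))

omit [Finite α] in
/-- a separator of `A` and `S ∪ {x}` in `E'` separates `A` from `B` in `E` -/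
theorem sep_of_sep (hs' : ∀ x y, E' x y → E' y x)
    (hcov : ∀ p q, E p q → E' p q ∨ (p = x ∧ q = y) ∨ (p = y ∧ q = x))
    (hsep : Sep E' A B S) (hy : y ∈ Side E' B S) {T : Set α}
    (hT : Sep E' A (insert x S) T) : Sep E A B T := by
  intro a ha b hb hab
  have key : ∀ u, Cn E Tᶜ a u → u ∈ Side E' A S ∧ Cn E' Tᶜ a u := by
    intro u hu
    refine hu.ind (P := fun u => u ∈ Side E' A S ∧ Cn E' Tᶜ a u) ?_ ?_
    · by_cases haS : a ∈ S
      · exact absurd (Cn.refl' hab.1) (hT a ha a (Or.inr haS))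
      · exact ⟨side_base ha haS, Cn.refl' hab.1⟩
    · rintro p q - ⟨hp1, hp2⟩ hpq hq
      rcases hcov p q hpq with h | ⟨rfl, rfl⟩ | ⟨rfl, rfl⟩
      · by_cases hqS : q ∈ S
        · exact absurd (hp2.tail h hq) (hT a ha q (Or.inr hqS))
        · exact ⟨side_tail hp1 h hqS, hp2.tail h hq⟩
      · exact absurd hp2 (hT a ha _ (Or.inl rfl))
      · exact (side_disj hs' hsep hp1 hy).elim
  have hbS := (key b hab).1
  exact side_disj hs' hsep hbS (side_base hb (side_not hbS))

omit [Finite α] in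
/-- refinement of a connector -/
theorem refine_conn {Q U : Set α} {a s : α} (hSQ : S ⊆ Q) (ha : a ∈ A)
    (h : Cn E' U a s) (hU : U ∩ Q = {s}) :
    Cn E' (U ∩ (Side E' A S ∪ {s})) a s := by
  have hs : s ∈ U ∩ Q := by rw [hU]; rfl
  have huniq : ∀ v, v ∈ U → v ∈ Q → v = s := fun v h1 h2 => by
    have : v ∈ U ∩ Q := ⟨h1, h2⟩
    rwa [hU] at this
  have hsU : s ∈ U ∩ (Side E' A S ∪ {s}) := ⟨hs.1, Or.inr rfl⟩
  have key : Cn E' (U ∩ (Side E' A S ∪ {s})) a s ∨
      (s ∈ Side E' A S ∧ Cn E' (U ∩ (Side E' A S ∪ {s})) a s) := by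
    refine h.ind (P := fun u => Cn E' (U ∩ (Side E' A S ∪ {s})) a s ∨
      (u ∈ Side E' A S ∧ Cn E' (U ∩ (Side E' A S ∪ {s})) a u)) ?_ ?_
    · by_cases haQ : a ∈ Q
      · left
        have := huniq a h.1 haQ
        rw [this]
        exact Cn.refl' hsU
      · right
        have h1 : a ∈ Side E' A S := side_base ha fun h' => haQ (hSQ h')
        exact ⟨h1, Cn.refl' ⟨h.1, Or.inl h1⟩⟩
    · rintro p q - hp hpq hq
      rcases hp with hp | ⟨hp1, hp2⟩
      · exact Or.inl hp
      · by_cases hqQ : q ∈ Q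
        · left
          have := huniq q hq hqQ
          subst this
          exact hp2.tail hpq hsU
        · right
          have h1 : q ∈ Side E' A S := side_tail hp1 hpq fun h' => hqQ (hSQ h')
          exact ⟨h1, hp2.tail hpq ⟨hq, Or.inl h1⟩⟩
  rcases key with h1 | h1
  · exact h1
  · exact h1.2

theorem menger_core (hs : ∀ x y, E x y → E y x) (hs' : ∀ x y, E' x y → E' y x)
    (hle : ∀ p q, E' p q → E p q) (hxy : E x y)
    (hcov : ∀ p q, E p q → E' p q ∨ (p = x ∧ q = y) ∨ (p = y ∧ q = x))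
    (h : ∀ T : Set α, Sep E A B T → k ≤ T.ncard) (hsep : Sep E' A B S) (hSk : S.ncard < k)
    (hx : x ∈ Side E' A S) (hy : y ∈ Side E' B S)
    (ih : ∀ (A B : Set α), (∀ T : Set α, Sep E' A B T → k ≤ T.ncard) → Conns E' A B k) :
    Conns E A B k := by
  have hxS := side_not hx
  have hyS := side_not hy
  have hne : x ≠ y := by
    rintro rfl
    exact side_disj hs' hsep hx hy
  have hsepS : Sep E' B A S := fun b hb a ha hab => hsep a ha b hb (hab.symm hs')
  have hsepE : ∀ z, z = x ∨ z = y → Sep E A B (insert z S) := by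
    intro z hz a ha b hb hab
    apply hsep a ha b hb
    have haz : a ∈ (insert z S)ᶜ := hab.1
    refine hab.ind (P := fun u => Cn E' Sᶜ a u)
      (Cn.refl' fun h' => haz (Or.inr h')) ?_
    intro p q hp h1 hpq hq
    have hpz : p ≠ z := fun h' => hp (Or.inl h')
    have hqz : q ≠ z := fun h' => hq (Or.inl h')
    rcases hcov p q hpq with h2 | ⟨rfl, rfl⟩ | ⟨rfl, rfl⟩
    · exact h1.tail h2 fun h' => hq (Or.inr h')
    · rcases hz with rfl | rfl
      · exact absurd rfl hpz
      · exact absurd rfl hqz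
    · rcases hz with rfl | rfl
      · exact absurd rfl hqz
      · exact absurd rfl hpz
  have hSx : (insert x S).ncard = k := by
    have e1 := h _ (hsepE x (Or.inl rfl))
    have e2 := Set.ncard_insert_of_notMem hxS
    omega
  have hSy : (insert y S).ncard = k := by
    have e2 := Set.ncard_insert_of_notMem hyS
    have e3 := Set.ncard_insert_of_notMem hxS
    omega
  have c1 : Conns E' A (insert x S) k := ih _ _ fun T hT =>
    h T (sep_of_sep hs' hcov hsep hy hT)
  have c2 : Conns E' B (insert y S) k := ih _ _ fun T hT => by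
    refine h T ?_
    have e : Sep E B A T := sep_of_sep (x := y) (y := x) hs' (fun p q hpq => by
      rcases hcov p q hpq with h1 | h1 | h1
      · exact Or.inl h1
      · exact Or.inr (Or.inr h1)
      · exact Or.inr (Or.inl h1)) hsepS hx hT
    exact fun a ha b hb hab => e b hb a ha (hab.symm hs)
  obtain ⟨U, hU1, hU2, hU3⟩ := c1.by_end hSx
  obtain ⟨W, hW1, hW2, hW3⟩ := c2.by_end hSy
  classical
  set σ : α → α := fun s => if s = x then y else s with hσ
  have hσx : σ x = y := by simp [hσ]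
  have hσS : ∀ s ∈ S, σ s = s := fun s hs => by
    have : s ≠ x := fun h' => hxS (h' ▸ hs)
    simp [hσ, this]
  have hσQ : ∀ s ∈ insert x S, σ s ∈ insert y S := by
    rintro s (rfl | hs)
    · rw [hσx]; exact Or.inl rfl
    · rw [hσS s hs]; exact Or.inr hs
  have hσinj : ∀ s ∈ insert x S, ∀ t ∈ insert x S, σ s = σ t → s = t := by
    rintro s (rfl | hs) t (rfl | ht) hst
    · rfl
    · rw [hσx, hσS t ht] at hst
      exact absurd (hst ▸ ht) hyS
    · rw [hσx, hσS s hs] at hst
      exact absurd (hst ▸ hs) hyS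
    · rwa [hσS s hs, hσS t ht] at hst
  set U' : α → Set α := fun s => U s ∩ (Side E' A S ∪ {s}) with hU'
  set W' : α → Set α := fun s => W s ∩ (Side E' B S ∪ {s}) with hW'
  refine ⟨insert x S, fun s => U' s ∪ W' (σ s), hSx, fun s hs => ?_, fun s hs' t ht hst => ?_⟩
  · obtain ⟨a, ha, hUa⟩ := hU1 s hs
    obtain ⟨b, hb, hWb⟩ := hW1 (σ s) (hσQ s hs)
    have r1 : Cn E' (U' s) a s := refine_conn (Set.subset_insert _ _) ha hUa (hU2 s hs)
    have r2 : Cn E' (W' (σ s)) b (σ s) :=
      refine_conn (Set.subset_insert _ _) hb hWb (hW2 _ (hσQ s hs))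
    have r1' : Cn E (U' s ∪ W' (σ s)) a s := r1.mono hle Set.subset_union_left
    have r2' : Cn E (U' s ∪ W' (σ s)) (σ s) b :=
      (r2.symm hs').mono hle Set.subset_union_right
    have r3 : Cn E (U' s ∪ W' (σ s)) s (σ s) := by
      rcases hs with h' | h'
      · refine (Cn.refl' r1'.mem_right).tail ?_ r2'.1
        rw [h', hσx]
        exact hxy
      · have e := hσS s h'
        rw [e] at r1' ⊢
        exact Cn.refl' r1'.mem_right
    exact ⟨a, ha, b, hb, (r1'.trans r3).trans r2'⟩
  · have e1 : Disjoint (U' s) (U' t) :=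
      (hU3 s hs' t ht hst).mono Set.inter_subset_left Set.inter_subset_left
    have e2 : Disjoint (W' (σ s)) (W' (σ t)) :=
      (hW3 _ (hσQ s hs') _ (hσQ t ht) fun h' => hst (hσinj s hs' t ht h')).mono
        Set.inter_subset_left Set.inter_subset_left
    have e3 : ∀ s ∈ insert x S, ∀ t ∈ insert x S, s ≠ t → Disjoint (U' s) (W' (σ t)) := by
      intro s hs t ht hst
      rw [Set.disjoint_left]
      rintro u ⟨-, h1⟩ ⟨-, h2⟩
      rcases h1 with h1 | h1
      · rcases h2 with h2 | h2
        · exact side_disj ‹_› hsep h1 h2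
        · have h2' : u = σ t := h2
          rcases hσQ t ht with h3 | h3
          · rw [h2', h3] at h1
            exact side_disj ‹_› hsep h1 hy
          · rw [h2'] at h1
            exact side_not h1 h3
      · have h1' : u = s := h1
        rcases h2 with h2 | h2
        · rcases hs with h3 | h3
          · rw [h1', h3] at h2
            exact side_disj ‹_› hsep hx h2
          · rw [h1'] at h2
            exact side_not h2 h3
        · have h2' : u = σ t := h2
          have h4 : s = σ t := h1' ▸ h2'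
          rcases ht with h5 | h5
          · rw [h5, hσx] at h4
            rcases hs with h6 | h6
            · exact hne (h6 ▸ h4)
            · exact hyS (h4 ▸ h6)
          · rw [hσS t h5] at h4
            exact hst h4
    rw [Set.disjoint_union_left, Set.disjoint_union_right, Set.disjoint_union_right]
    exact ⟨⟨e1, e3 s hs' t ht hst⟩, (e3 t ht s hs' hst.symm).symm, e2⟩

end core

/-- **Menger's theorem**, for two sets. -/
theorem menger_sets (E : α → α → Prop) (hs : ∀ x y, E x y → E y x) (A B : Set α) (k : ℕ)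
    (h : ∀ T : Set α, Sep E A B T → k ≤ T.ncard) : Conns E A B k := by
  induction' hn : {p : α × α | E p.1 p.2}.ncard using Nat.strong_induction_on with n ih
    generalizing E A B
  by_cases hE : ∃ x y, E x y
  · obtain ⟨x, y, hxy⟩ := hE
    set E' : α → α → Prop := fun p q => E p q ∧ ¬ (p = x ∧ q = y) ∧ ¬ (p = y ∧ q = x) with hE'
    have hle : ∀ p q, E' p q → E p q := fun p q h => h.1
    have hs' : ∀ p q, E' p q → E' q p := fun p q h =>
      ⟨hs _ _ h.1, fun h' => h.2.2 ⟨h'.2, h'.1⟩, fun h' => h.2.1 ⟨h'.2, h'.1⟩⟩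
    have hcov : ∀ p q, E p q → E' p q ∨ (p = x ∧ q = y) ∨ (p = y ∧ q = x) := by
      intro p q hpq
      by_cases h1 : p = x ∧ q = y
      · exact Or.inr (Or.inl h1)
      · by_cases h2 : p = y ∧ q = x
        · exact Or.inr (Or.inr h2)
        · exact Or.inl ⟨hpq, h1, h2⟩
    have hlt : {p : α × α | E' p.1 p.2}.ncard < n := by
      rw [← hn]
      refine Set.ncard_lt_ncard ⟨fun p hp => hle _ _ hp, fun hcon => ?_⟩
      have : (x, y) ∈ {p : α × α | E' p.1 p.2} := hcon hxy
      exact this.2.1 ⟨rfl, rfl⟩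
    have ih' : ∀ (A B : Set α), (∀ T : Set α, Sep E' A B T → k ≤ T.ncard) → Conns E' A B k :=
      fun A B hAB => ih _ hlt E' hs' A B hAB rfl
    by_cases hk : ∀ T : Set α, Sep E' A B T → k ≤ T.ncard
    · obtain ⟨I, U, h1, h2, h3⟩ := ih' A B hk
      refine ⟨I, U, h1, fun i hi => ?_, h3⟩
      obtain ⟨a, ha, b, hb, hab⟩ := h2 i hi
      exact ⟨a, ha, b, hb, hab.mono hle le_rfl⟩
    · push Not at hk
      obtain ⟨S, hsep, hSk⟩ := hk
      have hnot : ¬ Sep E A B S := fun h' => by
        have := h S h'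
        omega
      unfold Sep at hnot
      push Not at hnot
      obtain ⟨a, ha, b, hb, hab⟩ := hnot
      have haS : a ∉ S := hab.1
      have hbS : b ∉ S := hab.mem_right
      have hbB : b ∈ Side E' B S := side_base hb hbS
      have hxS : x ∈ Side E' A S ∨ y ∈ Side E' A S := by
        by_contra hcon
        push Not at hcon
        have : b ∈ Side E' A S := by
          refine hab.ind (side_base ha haS) fun p q _ hp hpq hq => ?_
          rcases hcov p q hpq with h1 | ⟨rfl, rfl⟩ | ⟨rfl, rfl⟩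
          · exact side_tail hp h1 hq
          · exact absurd hp hcon.1
          · exact absurd hp hcon.2
        exact side_disj hs' hsep this hbB
      have hyS : x ∈ Side E' B S ∨ y ∈ Side E' B S := by
        by_contra hcon
        push Not at hcon
        have hba := hab.symm hs
        have : a ∈ Side E' B S := by
          refine hba.ind (side_base hb hbS) fun p q _ hp hpq hq => ?_
          rcases hcov p q hpq with h1 | ⟨rfl, rfl⟩ | ⟨rfl, rfl⟩
          · exact side_tail hp h1 hq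
          · exact absurd hp hcon.1
          · exact absurd hp hcon.2
        exact side_disj hs' hsep (side_base ha haS) this
      rcases hxS with hx | hy
      · have hy : y ∈ Side E' B S := by
          rcases hyS with h1 | h1
          · exact (side_disj hs' hsep hx h1).elim
          · exact h1
        exact menger_core hs hs' hle hxy hcov h hsep hSk hx hy ih'
      · have hx : x ∈ Side E' B S := by
          rcases hyS with h1 | h1
          · exact h1
          · exact (side_disj hs' hsep hy h1).elim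
        refine menger_core hs hs' hle (hs _ _ hxy) (fun p q hpq => ?_) h hsep hSk hy hx ih'
        rcases hcov p q hpq with h1 | h1 | h1
        · exact Or.inl h1
        · exact Or.inr (Or.inr h1)
        · exact Or.inr (Or.inl h1)
  · push Not at hE
    have hsep : Sep E A B (A ∩ B) := by
      intro a ha b hb hab
      have e : b = a := by
        refine hab.ind (P := fun u => u = a) rfl fun p q _ _ hpq _ => absurd hpq (hE p q)
      subst e
      exact hab.1 ⟨ha, hb⟩
    obtain ⟨I, hI, hIk⟩ := Set.exists_subset_card_eq (h _ hsep)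
    refine ⟨I, fun i => {i}, hIk, fun i hi => ⟨i, (hI hi).1, i, (hI hi).2, Cn.refl' rfl⟩,
      fun i _ j _ hij => ?_⟩
    rw [Set.disjoint_singleton]
    exact hij

/-- **Menger's theorem** for two nonadjacent vertices. -/
theorem menger (E : α → α → Prop) (hs : ∀ x y, E x y → E y x) {a b : α} (hab : a ≠ b)
    (hnad : ¬ E a b) (k : ℕ)
    (h : ∀ S : Set α, a ∉ S → b ∉ S → S.ncard < k → Cn E Sᶜ a b) :
    ∃ (I : Set α) (U : α → Set α), I.ncard = k ∧ (∀ i ∈ I, Cn E (U i) a b) ∧
      ∀ i ∈ I, ∀ j ∈ I, i ≠ j → U i ∩ U j ⊆ {a, b} := by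
  set E₀ : α → α → Prop := fun u v => E u v ∧ u ≠ a ∧ u ≠ b ∧ v ≠ a ∧ v ≠ b with hE₀
  have hs₀ : ∀ x y, E₀ x y → E₀ y x := fun x y h => ⟨hs _ _ h.1, h.2.2.2.1, h.2.2.2.2,
    h.2.1, h.2.2.1⟩
  set A : Set α := {u | E a u ∧ u ≠ a ∧ u ≠ b} with hA
  set B : Set α := {u | E u b ∧ u ≠ a ∧ u ≠ b} with hB
  have hsep : ∀ T : Set α, Sep E₀ A B T → k ≤ T.ncard := by
    intro T hT
    by_contra hlt
    push Not at hlt
    set T' : Set α := T \ {a, b} with hT'
    have hT'k : T'.ncard < k := lt_of_le_of_lt (Set.ncard_le_ncard Set.diff_subset) hlt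
    have hc := h T' (by simp [hT']) (by simp [hT']) hT'k
    have key : b = a ∨ (b ≠ a ∧ b ≠ b ∧ ∃ u ∈ A, Cn E₀ Tᶜ u b) := by
      refine hc.ind (P := fun w => w = a ∨ (w ≠ a ∧ w ≠ b ∧ ∃ u ∈ A, Cn E₀ Tᶜ u w))
        (Or.inl rfl) ?_
      intro p q hp hpP hpq hq
      by_cases hqa : q = a
      · exact Or.inl hqa
      by_cases hqb : q = b
      · exfalso
        subst hqb
        rcases hpP with rfl | ⟨h1, h2, u, hu, huc⟩
        · exact hnad hpq
        · exact hT u hu p ⟨hpq, h1, h2⟩ huc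
      · right
        have hqT : q ∈ Tᶜ := fun h' => hq ⟨h', by simp [hqa, hqb]⟩
        refine ⟨hqa, hqb, ?_⟩
        rcases hpP with rfl | ⟨h1, h2, u, hu, huc⟩
        · exact ⟨q, ⟨hpq, hqa, hqb⟩, Cn.refl' hqT⟩
        · exact ⟨u, hu, huc.tail ⟨hpq, h1, h2, hqa, hqb⟩ hqT⟩
    rcases key with h1 | ⟨-, h1, -⟩
    · exact hab h1.symm
    · exact h1 rfl
  obtain ⟨I, U, h1, h2, h3⟩ := menger_sets E₀ hs₀ A B k hsep
  refine ⟨I, fun i => U i ∪ {a, b}, h1, fun i hi => ?_, fun i hi j hj hij => ?_⟩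
  · obtain ⟨u, hu, v, hv, huv⟩ := h2 i hi
    have e : Cn E (U i ∪ {a, b}) u v := huv.mono (fun _ _ h => h.1) Set.subset_union_left
    have e1 : Cn E (U i ∪ {a, b}) a u := (Cn.refl' (by simp)).tail hu.1 e.1
    exact (e1.trans e).tail hv.1 (by simp)
  · rintro w ⟨hw1, hw2⟩
    rcases hw1 with hw1 | hw1
    · rcases hw2 with hw2 | hw2
      · exact (Set.disjoint_left.1 (h3 i hi j hj hij) hw1 hw2).elim
      · exact hw2
    · exact hw1

end Pool.Agent.Lock
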