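import Pool.Agent.Lock.Retr

set_option autoImplicit false

/-!
# Operations that keep the labelling property: simplices, joins, one-point suspensions
-/

namespace Pool.Agent.Lock

variable {d e : ℕ} {K L : Set (Finset ℕ)}

theorem exists_mem_notMem {s t : Finset ℕ} (h : s ≠ t) (hc : s.card = t.card) :
    ∃ u ∈ s, u ∉ t := by
  by_contra hcon
  push Not at hcon
  exact h (Finset.eq_of_subset_of_card_le hcon hc.ge)

/-- exchanging the two distinguished members -/
theorem Ret.symm {v w : Finset ℕ} {r : ℕ → ℕ} (hr : Ret K v w r) (hvc : v.card = w.card)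
    (hv : v ∈ K) (hw : w ∈ K) : ∃ r', Ret K w v r' := by
  classical
  obtain ⟨hinj, himg⟩ := inj_of_cover hr.top hvc.ge
  have hex : ∀ x ∈ v, ∃ y ∈ w, r y = x := fun x hx => by
    obtain ⟨y, hy, hyx⟩ := Finset.mem_image.1 (hr.top hx)
    exact ⟨y, hy, hyx⟩
  set s : ℕ → ℕ := fun x => if h : x ∈ v then (hex x h).choose else 0 with hs
  have s1 : ∀ x ∈ v, s x ∈ w ∧ r (s x) = x := by
    intro x hx
    simp only [hs, dif_pos hx]
    exact (hex x hx).choose_spec
  have s2 : ∀ y ∈ w, s (r y) = y := by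
    intro y hy
    have h1 := s1 (r y) (hr.mem w hw y hy)
    exact hinj (by exact_mod_cast h1.1) (by exact_mod_cast hy) h1.2
  refine ⟨fun y => s (r y), ⟨fun σ hσ y hy => (s1 _ (hr.mem σ hσ y hy)).1, s2, ?_, ?_, ?_⟩⟩
  · intro y hy
    have h1 := hr.mem w hw y hy
    exact Finset.mem_image.2 ⟨r y, h1, by rw [hr.fix _ h1, s2 y hy]⟩
  · intro σ hσ h
    have : v ⊆ σ.image r := by
      intro x hx
      obtain ⟨z, hz, hzx⟩ := Finset.mem_image.1 (h (s1 x hx).1)
      refine Finset.mem_image.2 ⟨z, hz, ?_⟩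
      have h1 := (s1 (r z) (hr.mem σ hσ z hz)).2
      rw [hzx, (s1 x hx).2] at h1
      exact h1.symm
    exact (hr.only σ hσ this).symm
  · intro x hxw hxv σ hσ y hy h
    have h1 := (s1 (r y) (hr.mem σ hσ y hy)).2
    rw [h, hr.fix x hxv] at h1
    exact hr.uniq x hxv hxw σ hσ y hy h1.symm

/-! ### Simplices -/

/-- The boundary complex of the simplex with vertex set `s`. -/
def bdry (s : Finset ℕ) : Set (Finset ℕ) := {σ | σ ⊆ s ∧ σ.card + 1 = s.card}

theorem mem_bdry {s σ : Finset ℕ} : σ ∈ bdry s ↔ ∃ p ∈ s, σ = s.erase p := by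
  constructor
  · rintro ⟨h1, h2⟩
    exact eq_erase h1 h2
  · rintro ⟨p, hp, rfl⟩
    exact ⟨Finset.erase_subset _ _, Finset.card_erase_add_one hp⟩

theorem pm_bdry {s : Finset ℕ} (hs : s.card = d + 1) : PM d (bdry s) := by
  refine ⟨(s.powerset.finite_toSet).subset fun σ h => ?_, fun σ h => ?_, fun σ h u hu => ?_⟩
  · rw [Finset.mem_coe, Finset.mem_powerset]; exact h.1
  · have := h.2
    omega
  · obtain ⟨p, hp, rfl⟩ := mem_bdry.1 h
    obtain ⟨hup, hus⟩ := Finset.mem_erase.1 hu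
    refine ⟨s.erase u, mem_bdry.2 ⟨u, hus, rfl⟩, ?_, ?_, ?_⟩
    · intro e
      rw [← e] at hu
      exact Finset.notMem_erase u s hu
    · intro y hy
      simp only [Finset.mem_erase] at hy ⊢
      exact ⟨hy.1, hy.2.2⟩
    · intro ρ hρ hsub
      obtain ⟨q, hq, rfl⟩ := mem_bdry.1 hρ
      by_cases h1 : q = p
      · left; rw [h1]
      · by_cases h2 : q = u
        · right; rw [h2]
        · exfalso
          have : q ∈ (s.erase p).erase u := by
            simp only [Finset.mem_erase]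
            exact ⟨h2, h1, hq⟩
          exact Finset.notMem_erase q s (hsub this)

theorem her_bdry (s : Finset ℕ) : Her (bdry s) := by
  intro v hv w hw hvw
  obtain ⟨p, hp, rfl⟩ := mem_bdry.1 hv
  obtain ⟨q, hq, rfl⟩ := mem_bdry.1 hw
  have hpq : p ≠ q := fun h => hvw (by rw [h])
  refine ⟨fun x => if x = p then q else x, ?_, ?_, ?_, ?_, ?_⟩
  · intro σ hσ x hx
    have hxs : x ∈ s := hσ.1 hx
    split_ifs with h
    · exact Finset.mem_erase.2 ⟨hpq.symm, hq⟩
    · exact Finset.mem_erase.2 ⟨h, hxs⟩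
  · intro x hx
    rw [if_neg (Finset.mem_erase.1 hx).1]
  · intro y hy
    obtain ⟨h1, h2⟩ := Finset.mem_erase.1 hy
    rw [Finset.mem_image]
    by_cases h : y = q
    · exact ⟨p, Finset.mem_erase.2 ⟨hpq, hp⟩, by rw [if_pos rfl, h]⟩
    · exact ⟨y, Finset.mem_erase.2 ⟨h, h2⟩, by rw [if_neg h1]⟩
  · intro σ hσ h
    obtain ⟨t, ht, rfl⟩ := mem_bdry.1 hσ
    by_cases h1 : t = p
    · left; rw [h1]
    · by_cases h2 : t = q
      · right; rw [h2]
      · exfalso
        obtain ⟨y, hy, hyt⟩ := Finset.mem_image.1 (h (Finset.mem_erase.2 ⟨h1, ht⟩))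
        split_ifs at hyt with h3
        · exact h2 hyt.symm
        · rw [hyt] at hy
          exact Finset.notMem_erase t s hy
  · intro x hx hxw σ _ y _ h
    split_ifs at h with h3
    · rw [← h] at hxw
      exact absurd hxw (Finset.notMem_erase q s)
    · exact h

/-! ### Joins -/

/-- The join of two complexes on disjoint vertex sets. -/
def join (K L : Set (Finset ℕ)) : Set (Finset ℕ) := {ρ | ∃ σ ∈ K, ∃ τ ∈ L, ρ = σ ∪ τ}

theorem join_comm (K L : Set (Finset ℕ)) : join K L = join L K := by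
  ext ρ
  constructor
  · rintro ⟨σ, h1, τ, h2, rfl⟩
    exact ⟨τ, h2, σ, h1, Finset.union_comm _ _⟩
  · rintro ⟨σ, h1, τ, h2, rfl⟩
    exact ⟨τ, h2, σ, h1, Finset.union_comm _ _⟩

theorem pm_join_aux (hK : PM d K) (hL : PM e L) (hd : ∀ σ ∈ K, ∀ τ ∈ L, Disjoint σ τ)
    {σ τ : Finset ℕ} (hσ : σ ∈ K) (hτ : τ ∈ L) {u : ℕ} (hu : u ∈ σ) :
    ∃ κ ∈ join K L, κ ≠ σ ∪ τ ∧ (σ ∪ τ).erase u ⊆ κ ∧
      ∀ ρ ∈ join K L, (σ ∪ τ).erase u ⊆ ρ → ρ = σ ∪ τ ∨ ρ = κ := by
  obtain ⟨σ', hσ', hne, hsub, huniq⟩ := hK.two σ hσ u hu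
  have hd' := Finset.disjoint_left.1 (hd σ' hσ' τ hτ)
  refine ⟨σ' ∪ τ, ⟨σ', hσ', τ, hτ, rfl⟩, ?_, ?_, ?_⟩
  · intro h
    apply hne
    apply Finset.eq_of_subset_of_card_le _ (by rw [hK.card σ hσ, hK.card σ' hσ'])
    intro y hy
    have : y ∈ σ ∪ τ := by rw [← h]; exact Finset.mem_union_left _ hy
    rcases Finset.mem_union.1 this with h1 | h1
    · exact h1
    · exact absurd h1 (hd' hy)
  · intro y hy
    obtain ⟨h1, h2⟩ := Finset.mem_erase.1 hy
    rcases Finset.mem_union.1 h2 with h3 | h3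
    · exact Finset.mem_union_left _ (hsub (Finset.mem_erase.2 ⟨h1, h3⟩))
    · exact Finset.mem_union_right _ h3
  · rintro ρ ⟨σ'', hσ'', τ'', hτ'', rfl⟩ h
    have hd'' := Finset.disjoint_left.1 (hd σ'' hσ'' τ hτ)
    have huτ : u ∉ τ := Finset.disjoint_left.1 (hd σ hσ τ hτ) hu
    have e1 : τ = τ'' := by
      apply Finset.eq_of_subset_of_card_le _ (by rw [hL.card τ hτ, hL.card τ'' hτ''])
      intro y hy
      have : y ∈ σ'' ∪ τ'' := h (Finset.mem_erase.2 ⟨fun h' => huτ (h' ▸ hy),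
        Finset.mem_union_right _ hy⟩)
      rcases Finset.mem_union.1 this with h1 | h1
      · exact absurd hy (hd'' h1)
      · exact h1
    have e2 : σ.erase u ⊆ σ'' := by
      intro y hy
      obtain ⟨h1, h2⟩ := Finset.mem_erase.1 hy
      have : y ∈ σ'' ∪ τ'' := h (Finset.mem_erase.2 ⟨h1, Finset.mem_union_left _ h2⟩)
      rcases Finset.mem_union.1 this with h3 | h3
      · exact h3
      · exact absurd h3 (Finset.disjoint_left.1 (hd σ hσ τ'' hτ'') h2)
    rcases huniq σ'' hσ'' e2 with h1 | h1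
    · left; rw [h1, e1]
    · right; rw [h1, e1]

theorem pm_join (hK : PM d K) (hL : PM e L) (hd : ∀ σ ∈ K, ∀ τ ∈ L, Disjoint σ τ) :
    PM (d + e) (join K L) := by
  refine ⟨?_, ?_, ?_⟩
  · have : join K L = Set.image2 (fun σ τ => σ ∪ τ) K L := by
      ext ρ
      constructor
      · rintro ⟨σ, h1, τ, h2, rfl⟩
        exact ⟨σ, h1, τ, h2, rfl⟩
      · rintro ⟨σ, h1, τ, h2, rfl⟩
        exact ⟨σ, h1, τ, h2, rfl⟩
    rw [this]
    exact hK.fin.image2 _ hL.fin
  · rintro ρ ⟨σ, h1, τ, h2, rfl⟩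
    rw [Finset.card_union_of_disjoint (hd σ h1 τ h2), hK.card σ h1, hL.card τ h2]
  · rintro ρ ⟨σ, h1, τ, h2, rfl⟩ u hu
    rcases Finset.mem_union.1 hu with h | h
    · exact pm_join_aux hK hL hd h1 h2 h
    · have := pm_join_aux hL hK (fun τ hτ σ hσ => (hd σ hσ τ hτ).symm) h2 h1 h
      rw [join_comm, Finset.union_comm]
      exact this

theorem her_join_one (hK : PM d K) (hL : PM e L) (hd : ∀ σ ∈ K, ∀ τ ∈ L, Disjoint σ τ)
    {v₁ v₂ w₂ : Finset ℕ} (h1 : v₁ ∈ K) (h2 : v₂ ∈ L) (h3 : w₂ ∈ L) (hne : v₂ ≠ w₂)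
    {s : ℕ → ℕ} (hs : Ret L v₂ w₂ s) : ∃ r, Ret (join K L) (v₁ ∪ v₂) (v₁ ∪ w₂) r := by
  classical
  obtain ⟨a, hav, haw⟩ := exists_mem_notMem hne (by rw [hL.card _ h2, hL.card _ h3])
  have hdj : ∀ σ ∈ K, ∀ τ ∈ L, ∀ x ∈ σ, x ∉ τ := fun σ hσ τ hτ x hx =>
    Finset.disjoint_left.1 (hd σ hσ τ hτ) hx
  set r : ℕ → ℕ := fun x => if ∃ τ ∈ L, x ∈ τ then s x else if x ∈ v₁ then x else a with hr
  have rL : ∀ τ ∈ L, ∀ x ∈ τ, r x = s x := fun τ hτ x hx => if_pos ⟨τ, hτ, hx⟩
  have rK : ∀ σ ∈ K, ∀ x ∈ σ, r x = if x ∈ v₁ then x else a := fun σ hσ x hx =>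
    if_neg fun ⟨τ, hτ, h⟩ => hdj σ hσ τ hτ x hx h
  have rv : ∀ x ∈ v₁, r x = x := fun x hx => by rw [rK v₁ h1 x hx, if_pos hx]
  refine ⟨r, ?_, ?_, ?_, ?_, ?_⟩
  · rintro ρ ⟨σ, hσ, τ, hτ, rfl⟩ x hx
    rcases Finset.mem_union.1 hx with h | h
    · rw [rK σ hσ x h]
      split_ifs with h'
      · exact Finset.mem_union_left _ h'
      · exact Finset.mem_union_right _ hav
    · rw [rL τ hτ x h]
      exact Finset.mem_union_right _ (hs.mem τ hτ x h)
  · intro x hx
    rcases Finset.mem_union.1 hx with h | h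
    · exact rv x h
    · rw [rL v₂ h2 x h, hs.fix x h]
  · intro y hy
    rw [Finset.mem_image]
    rcases Finset.mem_union.1 hy with h | h
    · exact ⟨y, Finset.mem_union_left _ h, rv y h⟩
    · obtain ⟨z, hz, hzy⟩ := Finset.mem_image.1 (hs.top h)
      exact ⟨z, Finset.mem_union_right _ hz, by rw [rL w₂ h3 z hz, hzy]⟩
  · rintro ρ ⟨σ, hσ, τ, hτ, rfl⟩ h
    have e1 : v₁ = σ := by
      apply Finset.eq_of_subset_of_card_le _ (by rw [hK.card _ h1, hK.card _ hσ])
      intro y hy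
      obtain ⟨z, hz, hzy⟩ := Finset.mem_image.1 (h (Finset.mem_union_left _ hy))
      rcases Finset.mem_union.1 hz with h' | h'
      · rw [rK σ hσ z h'] at hzy
        split_ifs at hzy with h''
        · rw [← hzy]; exact h'
        · rw [← hzy] at hy
          exact absurd hav (hdj v₁ h1 v₂ h2 a hy)
      · rw [rL τ hτ z h'] at hzy
        have := hs.mem τ hτ z h'
        rw [hzy] at this
        exact absurd this (hdj v₁ h1 v₂ h2 y hy)
    subst e1
    have e2 : v₂ ⊆ τ.image s := by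
      intro y hy
      obtain ⟨z, hz, hzy⟩ := Finset.mem_image.1 (h (Finset.mem_union_right _ hy))
      rcases Finset.mem_union.1 hz with h' | h'
      · rw [rv z h'] at hzy
        rw [← hzy] at hy
        exact absurd hy (hdj v₁ h1 v₂ h2 z h')
      · rw [rL τ hτ z h'] at hzy
        exact Finset.mem_image.2 ⟨z, h', hzy⟩
    rcases hs.only τ hτ e2 with h' | h'
    · left; rw [h']
    · right; rw [h']
  · rintro x hx hxw ρ ⟨σ, hσ, τ, hτ, rfl⟩ y hy hyx
    rcases Finset.mem_union.1 hx with h | h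
    · rcases Finset.mem_union.1 hy with h' | h'
      · rw [rK σ hσ y h'] at hyx
        split_ifs at hyx with h''
        · exact hyx
        · rw [← hyx] at h
          exact absurd hav (hdj v₁ h1 v₂ h2 a h)
      · rw [rL τ hτ y h'] at hyx
        have := hs.mem τ hτ y h'
        rw [hyx] at this
        exact absurd this (hdj v₁ h1 v₂ h2 x h)
    · have hxw₂ : x ∈ w₂ := by
        rcases Finset.mem_union.1 hxw with h' | h'
        · exact absurd h (hdj v₁ h1 v₂ h2 x h')
        · exact h'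
      rcases Finset.mem_union.1 hy with h' | h'
      · rw [rK σ hσ y h'] at hyx
        split_ifs at hyx with h''
        · exact hyx
        · rw [← hyx] at hxw₂
          exact absurd hxw₂ haw
      · rw [rL τ hτ y h'] at hyx
        exact hs.uniq x h hxw₂ τ hτ y h' hyx

theorem her_join_two (hK : PM d K) (hL : PM e L) (hd : ∀ σ ∈ K, ∀ τ ∈ L, Disjoint σ τ)
    {v₁ v₂ w₁ w₂ : Finset ℕ} (h1 : v₁ ∈ K) (h1' : w₁ ∈ K) (h2 : v₂ ∈ L) (h2' : w₂ ∈ L)
    (hne₁ : v₁ ≠ w₁) (hne₂ : v₂ ≠ w₂)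
    {s t : ℕ → ℕ} (hs : Ret K v₁ w₁ s) (ht : Ret L v₂ w₂ t) :
    ∃ r, Ret (join K L) (v₁ ∪ v₂) (w₁ ∪ w₂) r := by
  classical
  obtain ⟨g, hgw, hgv⟩ := exists_mem_notMem hne₁.symm (by rw [hK.card _ h1, hK.card _ h1'])
  obtain ⟨h, hhw, hhv⟩ := exists_mem_notMem hne₂.symm (by rw [hL.card _ h2, hL.card _ h2'])
  have hdj : ∀ σ ∈ K, ∀ τ ∈ L, ∀ x ∈ σ, x ∉ τ := fun σ hσ τ hτ x hx =>
    Finset.disjoint_left.1 (hd σ hσ τ hτ) hx
  have hgh : g ≠ h := fun e => hdj w₁ h1' w₂ h2' g hgw (e ▸ hhw)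
  set r : ℕ → ℕ := fun x => if x = g then t h else if x = h then s g else
    if ∃ τ ∈ L, x ∈ τ then t x else s x with hr
  have rg : r g = t h := if_pos rfl
  have rh : r h = s g := (if_neg hgh.symm).trans (if_pos rfl)
  have rL : ∀ τ ∈ L, ∀ x ∈ τ, x ≠ h → r x = t x := fun τ hτ x hx hxh => by
    have hxg : x ≠ g := fun e => hdj w₁ h1' τ hτ g hgw (e ▸ hx)
    simp only [hr]
    rw [if_neg hxg, if_neg hxh, if_pos ⟨τ, hτ, hx⟩]
  have rK : ∀ σ ∈ K, ∀ x ∈ σ, x ≠ g → r x = s x := fun σ hσ x hx hxg => by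
    have hxh : x ≠ h := fun e => hdj σ hσ w₂ h2' x hx (e ▸ hhw)
    simp only [hr]
    rw [if_neg hxg, if_neg hxh, if_neg fun ⟨τ, hτ, h⟩ => hdj σ hσ τ hτ x hx h]
  have sg : s g ∈ v₁ := hs.mem w₁ h1' g hgw
  have th : t h ∈ v₂ := ht.mem w₂ h2' h hhw
  have nv : ∀ x ∈ v₁, x ∉ v₂ := fun x hx => hdj v₁ h1 v₂ h2 x hx
  refine ⟨r, ?_, ?_, ?_, ?_, ?_⟩
  · rintro ρ ⟨σ, hσ, τ, hτ, rfl⟩ x hx
    by_cases hxg : x = g
    · rw [hxg, rg]; exact Finset.mem_union_right _ th
    by_cases hxh : x = h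
    · rw [hxh, rh]; exact Finset.mem_union_left _ sg
    rcases Finset.mem_union.1 hx with h' | h'
    · rw [rK σ hσ x h' hxg]
      exact Finset.mem_union_left _ (hs.mem σ hσ x h')
    · rw [rL τ hτ x h' hxh]
      exact Finset.mem_union_right _ (ht.mem τ hτ x h')
  · intro x hx
    rcases Finset.mem_union.1 hx with h' | h'
    · rw [rK v₁ h1 x h' (fun e => hgv (e ▸ h')), hs.fix x h']
    · rw [rL v₂ h2 x h' (fun e => hhv (e ▸ h')), ht.fix x h']
  · intro y hy
    rw [Finset.mem_image]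
    rcases Finset.mem_union.1 hy with h' | h'
    · obtain ⟨z, hz, hzy⟩ := Finset.mem_image.1 (hs.top h')
      by_cases hzg : z = g
      · exact ⟨h, Finset.mem_union_right _ hhw, by rw [rh, ← hzg, hzy]⟩
      · exact ⟨z, Finset.mem_union_left _ hz, by rw [rK w₁ h1' z hz hzg, hzy]⟩
    · obtain ⟨z, hz, hzy⟩ := Finset.mem_image.1 (ht.top h')
      by_cases hzh : z = h
      · exact ⟨g, Finset.mem_union_left _ hgw, by rw [rg, ← hzh, hzy]⟩
      · exact ⟨z, Finset.mem_union_right _ hz, by rw [rL w₂ h2' z hz hzh, hzy]⟩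
  · rintro ρ ⟨σ, hσ, τ, hτ, rfl⟩ hcov
    have A1 : ∀ y ∈ v₁, y ∈ (σ.erase g).image s ∨ (y = s g ∧ h ∈ τ) := by
      intro y hy
      obtain ⟨z, hz, hzy⟩ := Finset.mem_image.1 (hcov (Finset.mem_union_left _ hy))
      by_cases hzg : z = g
      · rw [hzg, rg] at hzy
        rw [← hzy] at hy
        exact absurd th (nv _ hy)
      by_cases hzh : z = h
      · rw [hzh, rh] at hzy
        right
        refine ⟨hzy.symm, ?_⟩
        rcases Finset.mem_union.1 hz with h' | h'
        · rw [hzh] at h'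
          exact absurd hhw (hdj σ hσ w₂ h2' h h')
        · rwa [hzh] at h'
      rcases Finset.mem_union.1 hz with h' | h'
      · rw [rK σ hσ z h' hzg] at hzy
        left
        exact Finset.mem_image.2 ⟨z, Finset.mem_erase.2 ⟨hzg, h'⟩, hzy⟩
      · rw [rL τ hτ z h' hzh] at hzy
        have := ht.mem τ hτ z h'
        rw [hzy] at this
        exact absurd this (nv y hy)
    have A2 : ∀ y ∈ v₂, y ∈ (τ.erase h).image t ∨ (y = t h ∧ g ∈ σ) := by
      intro y hy
      obtain ⟨z, hz, hzy⟩ := Finset.mem_image.1 (hcov (Finset.mem_union_right _ hy))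
      by_cases hzg : z = g
      · rw [hzg, rg] at hzy
        right
        refine ⟨hzy.symm, ?_⟩
        rcases Finset.mem_union.1 hz with h' | h'
        · rwa [hzg] at h'
        · rw [hzg] at h'
          exact absurd h' (hdj w₁ h1' τ hτ g hgw)
      by_cases hzh : z = h
      · rw [hzh, rh] at hzy
        rw [← hzy] at hy
        exact absurd hy (nv _ sg)
      rcases Finset.mem_union.1 hz with h' | h'
      · rw [rK σ hσ z h' hzg] at hzy
        have := hs.mem σ hσ z h'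
        rw [hzy] at this
        exact absurd hy (nv y this)
      · rw [rL τ hτ z h' hzh] at hzy
        left
        exact Finset.mem_image.2 ⟨z, Finset.mem_erase.2 ⟨hzh, h'⟩, hzy⟩
    have B1 : h ∉ τ → g ∉ σ := by
      intro hτh hg
      have : v₁ ⊆ (σ.erase g).image s := fun y hy => (A1 y hy).resolve_right fun h' => hτh h'.2
      have h3 := Finset.card_le_card this
      have h4 := (Finset.card_image_le (s := σ.erase g) (f := s))
      rw [Finset.card_erase_of_mem hg] at h4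
      rw [hK.card _ h1] at h3
      rw [hK.card _ hσ] at h4
      have h5 : 0 < d := by rw [← hK.card _ hσ]; exact Finset.card_pos.2 ⟨g, hg⟩
      omega
    have B2 : g ∉ σ → h ∉ τ := by
      intro hg hτh
      have : v₂ ⊆ (τ.erase h).image t := fun y hy => (A2 y hy).resolve_right fun h' => hg h'.2
      have h3 := Finset.card_le_card this
      have h4 := (Finset.card_image_le (s := τ.erase h) (f := t))
      rw [Finset.card_erase_of_mem hτh] at h4
      rw [hL.card _ h2] at h3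
      rw [hL.card _ hτ] at h4
      have h5 : 0 < e := by rw [← hL.card _ hτ]; exact Finset.card_pos.2 ⟨h, hτh⟩
      omega
    by_cases hg : g ∈ σ
    · have hh : h ∈ τ := by
        by_contra hn
        exact B1 hn hg
      have C1 : v₁ ⊆ σ.image s := fun y hy => by
        rcases A1 y hy with h' | h'
        · exact Finset.image_subset_image (Finset.erase_subset _ _) h'
        · rw [h'.1]; exact Finset.mem_image_of_mem _ hg
      have C2 : v₂ ⊆ τ.image t := fun y hy => by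
        rcases A2 y hy with h' | h'
        · exact Finset.image_subset_image (Finset.erase_subset _ _) h'
        · rw [h'.1]; exact Finset.mem_image_of_mem _ hh
      right
      rw [(hs.only σ hσ C1).resolve_left fun h' => hgv (h' ▸ hg),
        (ht.only τ hτ C2).resolve_left fun h' => hhv (h' ▸ hh)]
    · have hh := B2 hg
      have C1 : v₁ ⊆ σ.image s := fun y hy => by
        rcases A1 y hy with h' | h'
        · exact Finset.image_subset_image (Finset.erase_subset _ _) h'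
        · exact absurd h'.2 hh
      have C2 : v₂ ⊆ τ.image t := fun y hy => by
        rcases A2 y hy with h' | h'
        · exact Finset.image_subset_image (Finset.erase_subset _ _) h'
        · exact absurd h'.2 hg
      left
      rw [(hs.only σ hσ C1).resolve_right fun h' => hg (h' ▸ hgw),
        (ht.only τ hτ C2).resolve_right fun h' => hh (h' ▸ hhw)]
  · rintro x hx hxw ρ ⟨σ, hσ, τ, hτ, rfl⟩ y hy hyx
    rcases Finset.mem_union.1 hx with h' | h'
    · have hx' : x ∈ w₁ := by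
        rcases Finset.mem_union.1 hxw with h'' | h''
        · exact h''
        · exact absurd h'' (hdj v₁ h1 w₂ h2' x h')
      by_cases hyg : y = g
      · rw [hyg, rg] at hyx
        rw [← hyx] at h'
        exact absurd th (nv _ h')
      by_cases hyh : y = h
      · rw [hyh, rh] at hyx
        have := hs.uniq x h' hx' w₁ h1' g hgw hyx
        rw [this] at hgv
        exact absurd h' hgv
      rcases Finset.mem_union.1 hy with h'' | h''
      · rw [rK σ hσ y h'' hyg] at hyx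
        exact hs.uniq x h' hx' σ hσ y h'' hyx
      · rw [rL τ hτ y h'' hyh] at hyx
        have := ht.mem τ hτ y h''
        rw [hyx] at this
        exact absurd this (nv x h')
    · have hx' : x ∈ w₂ := by
        rcases Finset.mem_union.1 hxw with h'' | h''
        · exact absurd h' (hdj w₁ h1' v₂ h2 x h'')
        · exact h''
      by_cases hyg : y = g
      · rw [hyg, rg] at hyx
        have := ht.uniq x h' hx' w₂ h2' h hhw hyx
        rw [this] at hhv
        exact absurd h' hhv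
      by_cases hyh : y = h
      · rw [hyh, rh] at hyx
        rw [← hyx] at h'
        exact absurd h' (nv _ sg)
      rcases Finset.mem_union.1 hy with h'' | h''
      · rw [rK σ hσ y h'' hyg] at hyx
        have := hs.mem σ hσ y h''
        rw [hyx] at this
        exact absurd h' (nv x this)
      · rw [rL τ hτ y h'' hyh] at hyx
        exact ht.uniq x h' hx' τ hτ y h'' hyx

theorem her_join (hK : PM d K) (hL : PM e L) (hd : ∀ σ ∈ K, ∀ τ ∈ L, Disjoint σ τ)
    (hHK : Her K) (hHL : Her L) : Her (join K L) := by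
  rintro v ⟨v₁, h1, v₂, h2, rfl⟩ w ⟨w₁, h1', w₂, h2', rfl⟩ hvw
  by_cases e1 : v₁ = w₁
  · subst e1
    have hne : v₂ ≠ w₂ := fun h => hvw (by rw [h])
    obtain ⟨s, hs⟩ := hHL v₂ h2 w₂ h2' hne
    exact her_join_one hK hL hd h1 h2 h2' hne hs
  · obtain ⟨s, hs⟩ := hHK v₁ h1 w₁ h1' e1
    by_cases e2 : v₂ = w₂
    · subst e2
      obtain ⟨r, hr⟩ := her_join_one hL hK (fun τ hτ σ hσ => (hd σ hσ τ hτ).symm) h2 h1 h1' e1 hs
      refine ⟨r, ?_⟩
      rw [join_comm, Finset.union_comm v₁, Finset.union_comm w₁]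
      exact hr
    · obtain ⟨t, ht⟩ := hHL v₂ h2 w₂ h2' e2
      exact her_join_two hK hL hd h1 h1' h2 h2' e1 e2 hs ht

end Pool.Agent.Lock
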