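import Pool.Agent.Lock.Diamond

set_option autoImplicit false

/-!
# Even edge sets of a 3-polytope are boundaries
-/

namespace Pool.Agent.Lock

open Module Relation

variable {ι : Type*} {V : Type*} [AddCommGroup V] [Module ℝ V] [FiniteDimensional ℝ V]
  {x : ι → V} {φ : V →ₗ[ℝ] ℝ} [Fintype ι]

open Classical in
/-- the boundary of a set of 2-faces, mod 2 -/
noncomputable def bd (x : ι → V) (A : Set ι) (s : Set ι → ZMod 2) (i j : ι) : ZMod 2 :=
  if Ed x A i j then ∑ F ∈ TF x A, (if i ∈ F ∧ j ∈ F then s F else 0) else 0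

omit [FiniteDimensional ℝ V] in
theorem bd_of_not {A : Set ι} {s : Set ι → ZMod 2} {i j : ι} (h : ¬ Ed x A i j) :
    bd x A s i j = 0 := by
  rw [bd, if_neg h]

omit [FiniteDimensional ℝ V] in
theorem bd_symm {A : Set ι} {s : Set ι → ZMod 2} (i j : ι) : bd x A s i j = bd x A s j i := by
  classical
  by_cases h : Ed x A i j
  · rw [bd, bd, if_pos h, if_pos h.symm]
    exact Finset.sum_congr rfl fun F _ => by simp only [and_comm]
  · rw [bd_of_not h, bd_of_not fun h' => h h'.symm]

omit [FiniteDimensional ℝ V] in
theorem bd_add {A : Set ι} (s s' : Set ι → ZMod 2) (i j : ι) :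
    bd x A (s + s') i j = bd x A s i j + bd x A s' i j := by
  classical
  by_cases h : Ed x A i j
  · rw [bd, bd, bd, if_pos h, if_pos h, if_pos h, ← Finset.sum_add_distrib]
    exact Finset.sum_congr rfl fun F _ => by
      split_ifs with h'
      · rfl
      · simp
  · rw [bd_of_not h, bd_of_not h, bd_of_not h, add_zero]

omit [FiniteDimensional ℝ V] in
theorem bd_zero {A : Set ι} (i j : ι) : bd x A 0 i j = 0 := by
  classical
  by_cases h : Ed x A i j
  · rw [bd, if_pos h]
    exact Finset.sum_eq_zero fun F _ => by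
      split_ifs with h'
      · rfl
      · rfl
  · rw [bd_of_not h]

/-- the two faces of an edge -/
theorem bd_eq (hE : AllExt x) {A : Set ι} (hA : Face x A) (hr : rk x A = 4)
    {s : Set ι → ZMod 2} {i j : ι} (h : Ed x A i j) {F F' : Set ι} (hne : F ≠ F')
    (hF : F ∈ TF x A) (hF' : F' ∈ TF x A) (h1 : i ∈ F ∧ j ∈ F) (h2 : i ∈ F' ∧ j ∈ F') :
    bd x A s i j = s F + s F' := by
  classical
  obtain ⟨D, D', d1, d2, d3, d4, d5, d6⟩ := two_faces hE hA hr h
  have h3 : ({D, D'} : Finset (Set ι)) = {F, F'} := by
    have e1 := d6 F hF h1.1 h1.2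
    have e2 := d6 F' hF' h2.1 h2.2
    rcases e1 with e1 | e1 <;> rcases e2 with e2 | e2
    · exact absurd (e1.trans e2.symm) hne
    · rw [e1, e2]
    · rw [e1, e2, Finset.pair_comm]
    · exact absurd (e1.trans e2.symm) hne
  rw [bd, if_pos h, ← Finset.sum_filter]
  have e : (TF x A).filter (fun F => i ∈ F ∧ j ∈ F) = {F, F'} := by
    ext Q
    rw [Finset.mem_filter, Finset.mem_insert, Finset.mem_singleton]
    constructor
    · rintro ⟨q1, q2, q3⟩
      have := d6 Q q1 q2 q3
      have h4 : Q ∈ ({D, D'} : Finset (Set ι)) := by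
        rw [Finset.mem_insert, Finset.mem_singleton]; exact this
      rw [h3, Finset.mem_insert, Finset.mem_singleton] at h4
      exact h4
    · rintro (rfl | rfl)
      · exact ⟨hF, h1⟩
      · exact ⟨hF', h2⟩
  rw [e, Finset.sum_pair hne]

/-- boundaries are even -/
theorem bd_bd (hE : AllExt x) {A : Set ι} (s : Set ι → ZMod 2) (v : ι) :
    ∑ w, bd x A s v w = 0 := by
  classical
  have e1 : ∑ w, bd x A s v w = ∑ F ∈ TF x A, ∑ w, (if Ed x A v w then
      (if v ∈ F ∧ w ∈ F then s F else 0) else 0) := by
    rw [Finset.sum_comm]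
    refine Finset.sum_congr rfl fun w _ => ?_
    rw [bd]
    split_ifs with h
    · rfl
    · simp
  rw [e1]
  refine Finset.sum_eq_zero fun F hF => ?_
  by_cases hv : v ∈ F
  · obtain ⟨w, w', h1, h2, h3, h4, h5, h6⟩ := two_edges hE hF hv
    have e2 : ∀ u, (if Ed x A v u then (if v ∈ F ∧ u ∈ F then s F else 0) else 0) =
        if u = w ∨ u = w' then s F else 0 := by
      intro u
      by_cases hu : u = w ∨ u = w'
      · rw [if_pos hu]
        rcases hu with rfl | rfl
        · rw [if_pos h2, if_pos ⟨hv, h4⟩]
        · rw [if_pos h3, if_pos ⟨hv, h5⟩]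
      · rw [if_neg hu]
        by_cases h7 : Ed x A v u
        · rw [if_pos h7, if_neg]
          rintro ⟨-, h8⟩
          exact hu (h6 u h7 h8)
        · rw [if_neg h7]
    simp only [e2]
    rw [← Finset.sum_filter]
    have e3 : Finset.univ.filter (fun u => u = w ∨ u = w') = {w, w'} := by
      ext u; simp
    rw [e3, Finset.sum_pair h1]
    exact CharTwo.add_self_eq_zero _
  · refine Finset.sum_eq_zero fun w _ => ?_
    have : ¬ (v ∈ F ∧ w ∈ F) := fun h => hv h.1
    simp [this]

/-- Two edges at the top vertex `v` differ by the boundary of 2-faces with top vertex `v`. -/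
theorem fan (hE : AllExt x) {A : Set ι} (hA : Face x A)
    (hr : rk x A = 4) {ψ : V →ₗ[ℝ] ℝ} {v w₀ w₁ : ι} (h0 : ψ (x v) = 0) (hw₀ : Ed x A v w₀)
    (hw₁ : Ed x A v w₁) (p0 : 0 < ψ (x w₀)) (p1 : 0 < ψ (x w₁)) [DecidableEq ι] :
    ∃ s : Set ι → ZMod 2, (∀ F, s F ≠ 0 → ∀ i ∈ F, i ≠ v → 0 < ψ (x i)) ∧
      ∀ w, Ed x A v w → bd x A s v w = (if w = w₀ then 1 else 0) + if w = w₁ then 1 else 0 := by
  classical
  have hv : v ∈ A := hw₀.2.2.1
  obtain ⟨φ', hφ'⟩ := con_acyclic (hE v).1
  have hvA : ({v} : Set ι) ⊆ A := Set.singleton_subset_iff.2 hv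
  have hA' : Face (con x {v}) (tr {v} A) := by rw [face_con, ext_tr hvA]; exact hA
  have hz : ∀ i ∈ ({v} : Set ι), ψ (x i) = 0 := by rintro _ rfl; exact h0
  set ψ' := down {v} ψ hz with hψ'
  have atm : ∀ {w : ι}, Ed x A v w → Atom (con x {v}) (tr {v} {v, w}) := by
    intro w hw
    have hsub : ({v} : Set ι) ⊆ {v, w} := by simp
    refine ⟨by rw [face_con, ext_tr hsub]; exact hw.2.1, ?_⟩
    have := rk_con (x := x) (T := {v}) (A := tr {v} {v, w})
    rw [ext_tr hsub, rk_pair hE hw.1, (hE v).2] at this
    omega
  have sub : ∀ {w : ι}, Ed x A v w → tr {v} {v, w} ⊆ tr {v} A := by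
    intro w hw i hi
    rcases hi with h | h
    · exact absurd h i.2
    · show i.1 ∈ A
      rw [h]
      exact hw.2.2.2
  have pos : ∀ {w : ι}, 0 < ψ (x w) → ∀ i ∈ tr {v} {v, w}, 0 < ψ' (con x {v} i) := by
    intro w hw i hi
    rcases hi with h | h
    · exact absurd h i.2
    · rw [hψ', down_con, h]
      exact hw
  have hconn := connected hφ' hA' ψ' (atm hw₀) (sub hw₀) (pos p0) (atm hw₁) (sub hw₁) (pos p1)
  have key : ∀ R, ReflTransGen (AdjPos (con x {v}) (tr {v} A) ψ') (tr {v} {v, w₀}) R →
      ∃ w, Ed x A v w ∧ ext {v} R = {v, w} ∧ ∃ s : Set ι → ZMod 2,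
        (∀ F, s F ≠ 0 → ∀ i ∈ F, i ≠ v → 0 < ψ (x i)) ∧
        ∀ u, Ed x A v u → bd x A s v u =
          (if u = w₀ then 1 else 0) + if u = w then 1 else 0 := by
    intro R hR
    induction hR with
    | refl =>
      refine ⟨w₀, hw₀, ext_tr (by simp), 0, fun F hF => absurd rfl hF, fun u _ => ?_⟩
      rw [bd_zero]
      exact (CharTwo.add_self_eq_zero _).symm
    | tail h' h ih =>
      rename_i Q R
      clear h'
      obtain ⟨w, hw, hext, s, s1, s2⟩ := ih
      obtain ⟨G, g1, g2, g3, g4, g5, g6, g7, g8⟩ := h
      have hrR : rk x (ext {v} R) = 2 := by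
        have := rk_con (x := x) (T := {v}) (A := R)
        rw [g8.2, (hE v).2] at this
        omega
      have hRA : ext {v} R ⊆ A := by
        rw [← ext_tr hvA]; exact ext_mono (g6.trans g3)
      obtain ⟨w', hw', hext'⟩ := rank_two hE (face_con.1 g8.1) hrR hRA (Or.inl rfl)
      refine ⟨w', hw', hext', ?_⟩
      by_cases hww : w = w'
      · subst hww
        exact ⟨s, s1, s2⟩
      · set F := ext {v} G with hFdef
        have hF : F ∈ TF x A := by
          refine mem_TF.2 ⟨face_con.1 g1, ?_, ?_⟩
          · have := rk_con (x := x) (T := {v}) (A := G)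
            rw [g2, (hE v).2] at this
            exact this.symm
          · rw [hFdef, ← ext_tr hvA]; exact ext_mono g3
        have hvF : v ∈ F := Or.inl rfl
        have hwF : w ∈ F := ext_mono g5 (by rw [hext]; simp)
        have hw'F : w' ∈ F := ext_mono g6 (by rw [hext']; simp)
        refine ⟨s + Pi.single F 1, fun D hD i hi hiv => ?_, fun u hu => ?_⟩
        · by_cases hDF : D = F
          · subst hDF
            rcases hi with hi | ⟨k, hk, rfl⟩
            · exact absurd hi hiv
            · exact g4 k hk
          · rw [Pi.add_apply, Pi.single_eq_of_ne hDF, add_zero] at hD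
            exact s1 D hD i hi hiv
        · rw [bd_add, s2 u hu]
          obtain ⟨a, b, a1, a2, a3, a4, a5, a6⟩ := two_edges hE hF hvF
          have e1 : bd x A (Pi.single F 1) v u = if u ∈ F then 1 else 0 := by
            rw [bd, if_pos hu]
            have : ∀ D ∈ TF x A, (if v ∈ D ∧ u ∈ D then (Pi.single F 1 : Set ι → ZMod 2) D
                else 0) = if D = F then (if u ∈ F then 1 else 0) else 0 := by
              intro D _
              by_cases hDF : D = F
              · subst hDF
                simp [hvF]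
              · simp [hDF]
            rw [Finset.sum_congr rfl this, Finset.sum_ite_eq' (TF x A) F, if_pos hF]
          have e2 : (if u ∈ F then (1 : ZMod 2) else 0) =
              (if u = w then 1 else 0) + if u = w' then 1 else 0 := by
            by_cases huw : u = w
            · subst huw
              simp [hwF, hww]
            · by_cases huw' : u = w'
              · subst huw'
                simp [hw'F, huw]
              · have : u ∉ F := by
                  intro huF
                  have b1 := a6 u hu huF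
                  have b2 := a6 w hw hwF
                  have b3 := a6 w' hw' hw'F
                  rcases b1 with b1 | b1 <;> rcases b2 with b2 | b2 <;>
                    rcases b3 with b3 | b3
                  · exact huw (b1.trans b2.symm)
                  · exact huw (b1.trans b2.symm)
                  · exact huw' (b1.trans b3.symm)
                  · exact hww (b2.trans b3.symm)
                  · exact hww (b2.trans b3.symm)
                  · exact huw' (b1.trans b3.symm)
                  · exact huw (b1.trans b2.symm)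
                  · exact huw (b1.trans b2.symm)
                simp [this, huw, huw']
          rw [e1, e2]
          have e3 : ∀ p q r : ZMod 2, p + q + (q + r) = p + r := by decide
          exact e3 _ _ _
  obtain ⟨w, hw, hext, s, s1, s2⟩ := key _ hconn
  rw [ext_tr (by simp)] at hext
  have : w₁ = w := by
    have h : w₁ ∈ ({v, w} : Set ι) := by rw [← hext]; simp
    rcases h with h | h
    · exact absurd h.symm hw₁.1
    · exact h
  subst this
  exact ⟨s, s1, s2⟩

end Pool.Agent.Lock
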