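import Pool.Agent.Lock.Planar

set_option autoImplicit false

/-!
# Even edge sets are boundaries; sides of a closed curve
-/

namespace Pool.Agent.Lock

open Module Relation

variable {ι : Type*} {V : Type*} [AddCommGroup V] [Module ℝ V] [FiniteDimensional ℝ V]
  {x : ι → V} {φ : V →ₗ[ℝ] ℝ} [Fintype ι]

omit [Fintype ι] in
theorem exists_generic [Finite ι] (hφ : ∀ i, 0 < φ (x i)) (hE : AllExt x) :
    ∃ ψ : V →ₗ[ℝ] ℝ, ∀ i j, i ≠ j → ψ (x i) / φ (x i) ≠ ψ (x j) / φ (x j) := by
  have h1 : ∀ p : {p : ι × ι // p.1 ≠ p.2},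
      φ (x p.1.2) • x p.1.1 - φ (x p.1.1) • x p.1.2 ≠ 0 := by
    rintro ⟨⟨i, j⟩, hij⟩ h
    obtain ⟨l, h0, h1⟩ := (hE j).1
    have e := congrArg l h
    simp only [map_sub, map_smul, smul_eq_mul, map_zero] at e
    rw [h0 j rfl, mul_zero, sub_zero] at e
    have := mul_pos (hφ j) (h1 i hij)
    linarith
  obtain ⟨ψ, hψ⟩ := Module.exists_dual_forall_apply_ne_zero (K := ℝ) _ h1
  refine ⟨ψ, fun i j hij h => hψ ⟨(i, j), hij⟩ ?_⟩
  rw [div_eq_div_iff (hφ i).ne' (hφ j).ne'] at h
  simp only [map_sub, map_smul, smul_eq_mul]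
  linarith

theorem zm2 : ∀ a : ZMod 2, a ≠ 0 → a = 1 := by decide

/-- **Even edge sets are boundaries.** -/
theorem even_bd (hφ : ∀ i, 0 < φ (x i)) (hE : AllExt x) {A : Set ι} (hA : Face x A)
    (hr : rk x A = 4) {z : ι → ι → ZMod 2} (hs : ∀ i j, z i j = z j i)
    (hz : ∀ i j, z i j ≠ 0 → Ed x A i j) (hd : ∀ v, ∑ w, z v w = 0) :
    ∃ s, ∀ i j, z i j = bd x A s i j := by
  classical
  obtain ⟨ψ₀, hψ₀⟩ := exists_generic hφ hE
  set f : ι → ℝ := fun i => ψ₀ (x i) / φ (x i) with hf
  have hfx : ∀ i, ψ₀ (x i) = f i * φ (x i) := fun i => by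
    simp only [hf]
    rw [div_mul_cancel₀ _ (hφ i).ne']
  have main : ∀ n, ∀ v, {i | f i < f v}.ncard = n → ∀ z : ι → ι → ZMod 2,
      (∀ i j, z i j = z j i) → (∀ i j, z i j ≠ 0 → Ed x A i j) → (∀ v, ∑ w, z v w = 0) →
      (∀ i j, z i j ≠ 0 → f i ≤ f v) → ∃ s, ∀ i j, z i j = bd x A s i j := by
    intro n
    induction n using Nat.strong_induction_on with
    | _ n ihn =>
    intro v hv z hs hz hd hle
    have inner : ∀ k, ∀ z : ι → ι → ZMod 2,
        (∀ i j, z i j = z j i) → (∀ i j, z i j ≠ 0 → Ed x A i j) → (∀ v, ∑ w, z v w = 0) →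
        (∀ i j, z i j ≠ 0 → f i ≤ f v) → {w | z v w ≠ 0}.ncard = k →
        ∃ s, ∀ i j, z i j = bd x A s i j := by
      intro k
      induction k using Nat.strong_induction_on with
      | _ k ihk =>
      intro z hs hz hd hle hk
      by_cases h0 : ∀ w, z v w = 0
      · by_cases h1 : ∀ i j, z i j = 0
        · exact ⟨0, fun i j => by rw [h1, bd_zero]⟩
        · push Not at h1
          obtain ⟨i₀, hi₀⟩ := h1
          obtain ⟨v', hv', hmax⟩ := Set.exists_max_image {i | ∃ j, z i j ≠ 0} f (Set.toFinite _)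
            ⟨i₀, hi₀⟩
          obtain ⟨j', hj'⟩ := hv'
          have hne : v' ≠ v := fun e => hj' (by rw [e]; exact h0 j')
          have hlt : f v' < f v := lt_of_le_of_ne (hle v' j' hj') (hψ₀ v' v hne)
          refine ihn {i | f i < f v'}.ncard ?_ v' rfl z hs hz hd fun i j hij =>
            hmax i ⟨j, hij⟩
          rw [← hv]
          refine Set.ncard_lt_ncard ⟨fun i hi => lt_trans hi hlt, fun h => ?_⟩
          have h5 : f v' < f v' := h hlt
          exact lt_irrefl _ h5
      · push Not at h0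
        obtain ⟨w₀, hw₀⟩ := h0
        obtain ⟨w₁, hw₁, hne⟩ : ∃ w₁, z v w₁ ≠ 0 ∧ w₁ ≠ w₀ := by
          by_contra hcon
          push Not at hcon
          have h1 := Finset.sum_eq_single (s := Finset.univ) (f := fun w => z v w) w₀
            (fun w _ hw => by
              by_contra h2
              exact hw (hcon w h2)) (fun h => absurd (Finset.mem_univ _) h)
          rw [hd v] at h1
          exact hw₀ h1.symm
        have lt : ∀ w, z v w ≠ 0 → f w < f v := by
          intro w hw
          have hw' : z w v ≠ 0 := by rw [hs]; exact hw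
          exact lt_of_le_of_ne (hle w v hw') (hψ₀ w v (hz v w hw).1.symm)
        have pos : ∀ i, 0 < (f v • φ - ψ₀) (x i) ↔ f i < f v := by
          intro i
          rw [LinearMap.sub_apply, LinearMap.smul_apply, smul_eq_mul, hfx i, ← sub_mul]
          have h1 := hφ i
          constructor
          · intro h
            have := pos_of_mul_pos_left h h1.le
            linarith
          · intro h
            exact mul_pos (by linarith) h1
        obtain ⟨s₀, s1, s2⟩ := fan hE hA hr (ψ := f v • φ - ψ₀) (v := v) (w₀ := w₀) (w₁ := w₁)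
          (by rw [LinearMap.sub_apply, LinearMap.smul_apply, smul_eq_mul, hfx v, sub_self])
          (hz v w₀ hw₀) (hz v w₁ hw₁) ((pos _).2 (lt _ hw₀)) ((pos _).2 (lt _ hw₁))
        have hsupp : ∀ i j, z i j + bd x A s₀ i j ≠ 0 → z i j ≠ 0 ∨ bd x A s₀ i j ≠ 0 := by
          intro i j h
          by_contra hcon
          push Not at hcon
          rw [hcon.1, hcon.2] at h
          exact h (add_zero 0)
        have hbe : ∀ i j, bd x A s₀ i j ≠ 0 → Ed x A i j := fun i j h => by
          by_contra hn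
          exact h (bd_of_not hn)
        obtain ⟨s', hs'⟩ := ihk {w | z v w + bd x A s₀ v w ≠ 0}.ncard (by
            rw [← hk]
            refine Set.ncard_lt_ncard ⟨fun w hw => ?_, fun h => ?_⟩
            · rw [Set.mem_setOf_eq] at hw ⊢
              intro hzw
              have hE' : Ed x A v w := by
                rcases hsupp v w hw with h1 | h1
                · exact hz _ _ h1
                · exact hbe _ _ h1
              rw [s2 w hE', hzw, zero_add] at hw
              by_cases e0 : w = w₀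
              · rw [e0] at hzw; exact hw₀ hzw
              · by_cases e1 : w = w₁
                · rw [e1] at hzw; exact hw₁ hzw
                · rw [if_neg e0, if_neg e1, add_zero] at hw
                  exact hw rfl
            · have h1 : z v w₀ + bd x A s₀ v w₀ ≠ 0 := h hw₀
              rw [s2 w₀ (hz v w₀ hw₀), if_pos rfl, if_neg hne.symm, add_zero, zm2 _ hw₀] at h1
              exact h1 (by decide)) (fun i j => z i j + bd x A s₀ i j)
          (fun i j => by rw [hs i j, bd_symm i j]) (fun i j h => by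
            rcases hsupp i j h with h1 | h1
            · exact hz _ _ h1
            · exact hbe _ _ h1)
          (fun u => by rw [Finset.sum_add_distrib, hd u, bd_bd hE, add_zero])
          (fun i j h => by
            rcases hsupp i j h with h1 | h1
            · exact hle i j h1
            · rw [bd, if_pos (hbe i j h1)] at h1
              obtain ⟨F, hF, hF'⟩ := Finset.exists_ne_zero_of_sum_ne_zero h1
              have h2 : i ∈ F ∧ j ∈ F := by
                by_contra hn
                rw [if_neg hn] at hF'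
                exact hF' rfl
              rw [if_pos h2] at hF'
              by_cases hiv : i = v
              · rw [hiv]
              · exact ((pos i).1 (s1 F hF' i h2.1 hiv)).le) rfl
        refine ⟨s' + s₀, fun i j => ?_⟩
        rw [bd_add, ← hs' i j]
        have e3 : ∀ p q : ZMod 2, p = p + q + q := by decide
        exact e3 _ _
    exact inner _ z hs hz hd hle rfl
  obtain ⟨i₀, hi₀⟩ := nonempty_of_rk (x := x) (A := A) (by omega)
  haveI : Nonempty ι := ⟨i₀⟩
  obtain ⟨v, hv⟩ := Finite.exists_max f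
  exact main _ v rfl z hs hz hd fun i _ _ => hv i

/-- all 2-faces at a vertex off the curve are on one side -/
theorem side_const (hE : AllExt x) {A : Set ι} (hA : Face x A)
    (hr : rk x A = 4) {s : Set ι → ZMod 2} {v : ι} (hv : v ∈ A)
    (h0 : ∀ w, bd x A s v w = 0) {F F' : Set ι} (hF : F ∈ TF x A) (hF' : F' ∈ TF x A)
    (hvF : v ∈ F) (hvF' : v ∈ F') : s F = s F' := by
  classical
  obtain ⟨φ', hφ'⟩ := con_acyclic (hE v).1
  have hvA : ({v} : Set ι) ⊆ A := Set.singleton_subset_iff.2 hv
  have hA' : Face (con x {v}) (tr {v} A) := by rw [face_con, ext_tr hvA]; exact hA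
  have atm : ∀ {w : ι}, Ed x A v w → Atom (con x {v}) (tr {v} {v, w}) := by
    intro w hw
    have hsub : ({v} : Set ι) ⊆ {v, w} := by simp
    refine ⟨by rw [face_con, ext_tr hsub]; exact hw.2.1, ?_⟩
    have := rk_con (x := x) (T := {v}) (A := tr {v} {v, w})
    rw [ext_tr hsub, rk_pair hE hw.1, (hE v).2] at this
    omega
  have sub : ∀ {w : ι}, Ed x A v w → tr {v} {v, w} ⊆ tr {v} A := by
    intro w hw i hi
    rcases hi with h | h
    · exact absurd h i.2
    · show i.1 ∈ A
      rw [h]
      exact hw.2.2.2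
  have same : ∀ {w : ι}, Ed x A v w → ∀ {G G' : Set ι}, G ∈ TF x A → G' ∈ TF x A →
      v ∈ G ∧ w ∈ G → v ∈ G' ∧ w ∈ G' → s G = s G' := by
    intro w hw G G' hG hG' h1 h2
    by_cases hne : G = G'
    · rw [hne]
    · have := bd_eq hE hA hr (s := s) hw hne hG hG' h1 h2
      rw [h0 w] at this
      have e : ∀ p q : ZMod 2, 0 = p + q → p = q := by decide
      exact e _ _ this
  obtain ⟨w, -, -, hw, -, hwF, -, -⟩ := two_edges hE hF hvF
  obtain ⟨w', -, -, hw', -, hwF', -, -⟩ := two_edges hE hF' hvF'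
  have hconn := connected hφ' hA' φ' (atm hw) (sub hw) (fun i _ => hφ' i) (atm hw') (sub hw')
    (fun i _ => hφ' i)
  have key : ∀ R, ReflTransGen (AdjPos (con x {v}) (tr {v} A) φ') (tr {v} {v, w}) R →
      ∃ u, Ed x A v u ∧ ext {v} R = {v, u} ∧ ∀ G ∈ TF x A, v ∈ G → u ∈ G → s G = s F := by
    intro R hR
    induction hR with
    | refl =>
      exact ⟨w, hw, ext_tr (by simp), fun G hG h1 h2 => same hw hG hF ⟨h1, h2⟩ ⟨hvF, hwF⟩⟩
    | tail h' h ih =>
      rename_i Q R
      clear h'
      obtain ⟨u, hu, hext, s2⟩ := ih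
      obtain ⟨G, g1, g2, g3, g4, g5, g6, g7, g8⟩ := h
      have hrR : rk x (ext {v} R) = 2 := by
        have := rk_con (x := x) (T := {v}) (A := R)
        rw [g8.2, (hE v).2] at this
        omega
      have hRA : ext {v} R ⊆ A := by
        rw [← ext_tr hvA]; exact ext_mono (g6.trans g3)
      obtain ⟨u', hu', hext'⟩ := rank_two hE (face_con.1 g8.1) hrR hRA (Or.inl rfl)
      refine ⟨u', hu', hext', fun D hD h1 h2 => ?_⟩
      have hF : ext {v} G ∈ TF x A := by
        refine mem_TF.2 ⟨face_con.1 g1, ?_, ?_⟩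
        · have := rk_con (x := x) (T := {v}) (A := G)
          rw [g2, (hE v).2] at this
          exact this.symm
        · rw [← ext_tr hvA]; exact ext_mono g3
      have hvF : v ∈ ext {v} G := Or.inl rfl
      have huF : u ∈ ext {v} G := ext_mono g5 (by rw [hext]; simp)
      have hu'F : u' ∈ ext {v} G := ext_mono g6 (by rw [hext']; simp)
      rw [same hu' hD hF ⟨h1, h2⟩ ⟨hvF, hu'F⟩]
      exact s2 _ hF hvF huF
  obtain ⟨u, hu, hext, h1⟩ := key _ hconn
  rw [ext_tr (by simp)] at hext
  have : w' = u := by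
    have h : w' ∈ ({v, u} : Set ι) := by rw [← hext]; simp
    rcases h with h | h
    · exact absurd h.symm hw'.1
    · exact h
  subst this
  exact (h1 F' hF' hvF' hwF').symm

omit [FiniteDimensional ℝ V] in
/-- the chain of a path -/
theorem path_chain {A U : Set ι} {a b : ι} [DecidableEq ι] (h : Cn (Ed x A) U a b) :
    ∃ z : ι → ι → ZMod 2, (∀ i j, z i j = z j i) ∧
      (∀ i j, z i j ≠ 0 → Ed x A i j ∧ i ∈ U ∧ j ∈ U) ∧
      ∀ v, ∑ w, z v w = (if v = a then 1 else 0) + if v = b then 1 else 0 := by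
  refine h.ind (P := fun b => ∃ z : ι → ι → ZMod 2, (∀ i j, z i j = z j i) ∧
      (∀ i j, z i j ≠ 0 → Ed x A i j ∧ i ∈ U ∧ j ∈ U) ∧
      ∀ v, ∑ w, z v w = (if v = a then 1 else 0) + if v = b then 1 else 0) ?_ ?_
  · refine ⟨fun _ _ => 0, fun _ _ => rfl, fun i j h => absurd rfl h, fun v => ?_⟩
    rw [Finset.sum_const_zero]
    exact (CharTwo.add_self_eq_zero _).symm
  · rintro p q hp ⟨z, z1, z2, z3⟩ hpq hq
    refine ⟨fun i j => z i j + if (i = p ∧ j = q) ∨ (i = q ∧ j = p) then 1 else 0,
      fun i j => ?_, fun i j h => ?_, fun v => ?_⟩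
    · simp only
      rw [z1 i j]
      congr 1
      by_cases h1 : i = p ∧ j = q ∨ i = q ∧ j = p
      · rw [if_pos h1, if_pos]
        rcases h1 with h1 | h1
        · exact Or.inr h1.symm
        · exact Or.inl h1.symm
      · rw [if_neg h1, if_neg]
        rintro (h2 | h2)
        · exact h1 (Or.inr h2.symm)
        · exact h1 (Or.inl h2.symm)
    · by_cases h1 : (i = p ∧ j = q) ∨ (i = q ∧ j = p)
      · rcases h1 with ⟨rfl, rfl⟩ | ⟨rfl, rfl⟩
        · exact ⟨hpq, hp, hq⟩
        · exact ⟨hpq.symm, hq, hp⟩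
      · simp only [if_neg h1, add_zero] at h
        exact z2 i j h
    · rw [Finset.sum_add_distrib, z3 v]
      have e1 : ∑ w, (if (v = p ∧ w = q) ∨ (v = q ∧ w = p) then (1 : ZMod 2) else 0) =
          (if v = p then 1 else 0) + if v = q then 1 else 0 := by
        by_cases h1 : v = p
        · subst h1
          have : v ≠ q := hpq.1
          simp [this]
        · by_cases h2 : v = q
          · subst h2
            simp [h1]
          · simp [h1, h2]
      rw [e1]
      have e3 : ∀ p q r : ZMod 2, p + q + (q + r) = p + r := by decide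
      exact e3 _ _ _

omit [FiniteDimensional ℝ V] in
theorem handshake {z : ι → ι → ZMod 2} (hs : ∀ i j, z i j = z j i) (h0 : ∀ i, z i i = 0) :
    ∑ v, ∑ w, z v w = 0 := by
  classical
  rw [← Finset.sum_product']
  refine Finset.sum_involution (fun p _ => p.swap) (fun p _ => ?_) (fun p _ hp => ?_)
    (fun _ _ => Finset.mem_univ _) (fun _ _ => Prod.swap_swap _)
  · simp only [Prod.fst_swap, Prod.snd_swap]
    rw [hs p.2 p.1]
    exact CharTwo.add_self_eq_zero _
  · intro h
    apply hp
    have : p.1 = p.2 := (congrArg Prod.snd h : p.swap.2 = p.2)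
    rw [this]
    exact h0 _

/-- the interior of a path -/
theorem cn_interior {α : Type*} {E : α → α → Prop} {U : Set α} {a b : α} (hab : a ≠ b)
    (hn : ¬ E a b) (h : Cn E U a b) :
    ∃ a' b', E a a' ∧ E b' b ∧ Cn E (U \ {a, b}) a' b' := by
  have key : b = a ∨ (∃ a', E a a' ∧ Cn E (U \ {a, b}) a' b) ∨
      ∃ a' b', E a a' ∧ E b' b ∧ Cn E (U \ {a, b}) a' b' := by
    refine h.ind (P := fun w => w = a ∨ (∃ a', E a a' ∧ Cn E (U \ {a, b}) a' w) ∨
      ∃ a' b', E a a' ∧ E b' b ∧ Cn E (U \ {a, b}) a' b') (Or.inl rfl) ?_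
    intro u v hu hP huv hv
    by_cases hva : v = a
    · exact Or.inl hva
    rcases hP with rfl | ⟨a', h1, h2⟩ | h1
    · right
      left
      have hvb : v ≠ b := by
        rintro rfl
        exact hn huv
      exact ⟨v, huv, Cn.refl' ⟨hv, by simp [hva, hvb]⟩⟩
    · right
      by_cases hvb : v = b
      · subst hvb
        exact Or.inr ⟨a', u, h1, huv, h2⟩
      · exact Or.inl ⟨a', h1, h2.tail huv ⟨hv, by simp [hva, hvb]⟩⟩
    · exact Or.inr (Or.inr h1)
  rcases key with h1 | ⟨a', h1, h2⟩ | h1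
  · exact absurd h1.symm hab
  · exact absurd (by simp) h2.mem_right.2
  · exact h1

end Pool.Agent.Lock
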