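import Pool.Agent.Lock.Step

set_option autoImplicit false

/-!
# From polytopes to vector configurations

The vertices `p` of a polytope `P` give the vectors `(p, 1)`.
-/

namespace Pool.Agent.Lock

open Module Set

variable {E : Type*} [NormedAddCommGroup E] [NormedSpace ℝ E] [FiniteDimensional ℝ E]



/-- the vectors of the vertices of `P` -/
def vec (P : Set (E)) :
    {p // p ∈ P.extremePoints ℝ} → E × ℝ := fun p => (p.1, 1)

/-- the set of the vertices with indices in `A` -/
def pts (P : Set (E)) (A : Set {p // p ∈ P.extremePoints ℝ}) :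
    Set (E) := convexHull ℝ (Subtype.val '' A)

section basic

variable {P : Set E} (hK : IsCompact P) (hcv : Convex ℝ P) (hfin : (P.extremePoints ℝ).Finite)

include hK hcv hfin

theorem hull_eq (F : Set E) (hF : IsExposed ℝ P F) :
    F = convexHull ℝ (F ∩ P.extremePoints ℝ) := by
  have h1 := closure_convexHull_extremePoints (hF.isCompact hK) (hF.convex hcv)
  rw [hF.isExtreme.extremePoints_eq] at h1
  have h2 : (F ∩ P.extremePoints ℝ).Finite := hfin.subset inter_subset_right
  rw [(h2.isCompact_convexHull ℝ).isClosed.closure_eq] at h1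
  exact h1.symm

omit hK in
theorem allExt : AllExt (vec P) := by
  intro p
  set C : Set E := convexHull ℝ (P.extremePoints ℝ \ {p.1}) with hC
  have hfin' : (P.extremePoints ℝ \ {p.1}).Finite := hfin.subset sdiff_subset
  have hpC : p.1 ∉ C := by
    have h1 := (hcv.mem_extremePoints_iff_convex_sdiff.1 p.2).2
    have h2 : C ⊆ P \ {p.1} := convexHull_min (fun q hq => ⟨extremePoints_subset hq.1, hq.2⟩) h1
    exact fun h => (h2 h).2 rfl
  obtain ⟨f, u, h1, h2⟩ := geometric_hahn_banach_closed_point (convex_convexHull ℝ _)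
    (hfin'.isCompact_convexHull ℝ).isClosed hpC
  refine ⟨⟨(f p.1) • LinearMap.snd ℝ E ℝ - (f.toLinearMap.comp (LinearMap.fst ℝ E ℝ)),
    fun q hq => ?_, fun q hq => ?_⟩, ?_⟩
  · rw [mem_singleton_iff] at hq
    subst hq
    simp [vec]
  · have hq' : q.1 ≠ p.1 := fun h => hq (Subtype.ext h)
    have h3 := h1 q.1 (subset_convexHull ℝ _ ⟨q.2, hq'⟩)
    simp only [vec, LinearMap.sub_apply, LinearMap.smul_apply, LinearMap.snd_apply,
      LinearMap.comp_apply, LinearMap.fst_apply, smul_eq_mul, mul_one]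
    have : f.toLinearMap q.1 = f q.1 := rfl
    rw [this]
    linarith
  · rw [rk, image_singleton]
    apply finrank_span_singleton
    intro h
    have := congrArg Prod.snd h
    simp [vec] at this

/-- the vertices of an exposed set -/
theorem face_of_exposed {F : Set E} (hF : IsExposed ℝ P F) (hne : F.Nonempty) :
    Face (vec P) {p | p.1 ∈ F} ∧ F = pts P {p | p.1 ∈ F} ∧
      ({p : {p // p ∈ P.extremePoints ℝ} | p.1 ∈ F}).Nonempty := by
  have h1 := hull_eq hK hcv hfin F hF
  have h2 : F ∩ P.extremePoints ℝ =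
      Subtype.val '' {p : {p // p ∈ P.extremePoints ℝ} | p.1 ∈ F} := by
    ext z
    constructor
    · rintro ⟨h3, h4⟩
      exact ⟨⟨z, h4⟩, h3, rfl⟩
    · rintro ⟨p, h3, rfl⟩
      exact ⟨h3, p.2⟩
  rw [h2] at h1
  refine ⟨?_, h1, ?_⟩
  · obtain ⟨l, hl⟩ := hF hne
    obtain ⟨z₀, hz₀⟩ := hne
    have hz₁ := hz₀
    rw [hl] at hz₁
    refine ⟨(l z₀) • LinearMap.snd ℝ E ℝ - (l.toLinearMap.comp (LinearMap.fst ℝ E ℝ)),
      fun q hq => ?_, fun q hq => ?_⟩
    · have hq' : q.1 ∈ F := hq
      rw [hl] at hq'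
      have e1 := hq'.2 z₀ hz₁.1
      have e2 := hz₁.2 q.1 hq'.1
      have e3 : l.toLinearMap q.1 = l q.1 := rfl
      simp only [vec, LinearMap.sub_apply, LinearMap.smul_apply, LinearMap.snd_apply,
        LinearMap.comp_apply, LinearMap.fst_apply, smul_eq_mul, mul_one, e3]
      linarith
    · have hq' : q.1 ∉ F := hq
      have hqP : q.1 ∈ P := extremePoints_subset q.2
      have e2 := hz₁.2 q.1 hqP
      have e3 : l.toLinearMap q.1 = l q.1 := rfl
      simp only [vec, LinearMap.sub_apply, LinearMap.smul_apply, LinearMap.snd_apply,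
        LinearMap.comp_apply, LinearMap.fst_apply, smul_eq_mul, mul_one, e3]
      by_contra hneg
      push Not at hneg
      apply hq'
      rw [hl]
      exact ⟨hqP, fun y hy => by linarith [hz₁.2 y hy]⟩
  · rw [nonempty_iff_ne_empty]
    intro h3
    rw [h3, image_empty, convexHull_empty] at h1
    exact hne.ne_empty h1

/-- the exposed set of a face -/
theorem exposed_of_face {A : Set {p // p ∈ P.extremePoints ℝ}}
    (hA : Face (vec P) A) (hne : A.Nonempty) :
    IsExposed ℝ P (pts P A) ∧ (pts P A).Nonempty ∧ {p | p.1 ∈ pts P A} = A := by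
  obtain ⟨L, h0, h1⟩ := hA
  set l : E →ₗ[ℝ] ℝ := -(L.comp (LinearMap.inl ℝ E ℝ)) with hl
  set M : ℝ := L (0, 1) with hM
  have hLl : ∀ p : {p // p ∈ P.extremePoints ℝ}, L (vec P p) = M - l p.1 := by
    intro p
    have e : vec P p = LinearMap.inl ℝ E ℝ p.1 + (0, 1) := by simp [vec]
    rw [e, map_add]
    simp only [hl, LinearMap.neg_apply, LinearMap.comp_apply, hM]
    ring
  set lc : StrongDual ℝ E := LinearMap.toContinuousLinearMap l with hlc
  have hlc' : ∀ z, lc z = l z := fun z => rfl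
  have hPI : P = convexHull ℝ (P ∩ P.extremePoints ℝ) :=
    hull_eq hK hcv hfin P (IsExposed.refl P)
  have hle : ∀ z ∈ P, l z ≤ M := by
    intro z hz
    rw [hPI] at hz
    have hconv : Convex ℝ {z | l z ≤ M} := convex_halfSpace_le l.isLinear M
    refine convexHull_min (fun q hq => ?_) hconv hz
    have e1 := nonneg_of h0 h1 ⟨q, hq.2⟩
    rw [hLl] at e1
    show l q ≤ M
    linarith
  obtain ⟨a, ha⟩ := hne
  have haP : a.1 ∈ P := extremePoints_subset a.2
  have hla : l a.1 = M := by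
    have e1 := h0 a ha
    rw [hLl] at e1
    linarith
  set D : Set E := {z ∈ P | ∀ y ∈ P, lc y ≤ lc z} with hD
  have hDe : IsExposed ℝ P D := fun _ => ⟨lc, rfl⟩
  have hDm : ∀ z, z ∈ D ↔ z ∈ P ∧ l z = M := by
    intro z
    constructor
    · rintro ⟨h2, h3⟩
      refine ⟨h2, le_antisymm (hle z h2) ?_⟩
      have := h3 a.1 haP
      rw [hlc', hlc', hla] at this
      exact this
    · rintro ⟨h2, h3⟩
      refine ⟨h2, fun y hy => ?_⟩
      rw [hlc', hlc', h3]
      exact hle y hy
  have hDI : D ∩ P.extremePoints ℝ = Subtype.val '' A := by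
    ext z
    constructor
    · rintro ⟨h3, h4⟩
      refine ⟨⟨z, h4⟩, ?_, rfl⟩
      by_contra hn
      have e1 := h1 _ hn
      rw [hLl] at e1
      have e2 := ((hDm z).1 h3).2
      simp only at e1
      linarith
    · rintro ⟨p, h3, rfl⟩
      refine ⟨(hDm _).2 ⟨extremePoints_subset p.2, ?_⟩, p.2⟩
      have e1 := h0 p h3
      rw [hLl] at e1
      linarith
  have hDh : D = pts P A := by
    have := hull_eq hK hcv hfin D hDe
    rw [hDI] at this
    exact this
  rw [← hDh]
  refine ⟨hDe, ⟨a.1, (hDm _).2 ⟨haP, hla⟩⟩, ?_⟩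
  ext p
  have : p.1 ∈ D ↔ p.1 ∈ D ∩ P.extremePoints ℝ := ⟨fun h => ⟨h, p.2⟩, fun h => h.1⟩
  show p.1 ∈ D ↔ p ∈ A
  rw [this, hDI]
  constructor
  · rintro ⟨q, hq, hqp⟩
    rw [← Subtype.ext hqp]
    exact hq
  · intro h
    exact ⟨p, h, rfl⟩

/-- the intersection of two faces -/
theorem pts_inter {A B : Set {p // p ∈ P.extremePoints ℝ}} (hA : Face (vec P) A)
    (hB : Face (vec P) B) (hne : (A ∩ B).Nonempty) : pts P A ∩ pts P B = pts P (A ∩ B) := by
  obtain ⟨a1, a2, a3⟩ := exposed_of_face hK hcv hfin hA hne.left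
  obtain ⟨b1, b2, b3⟩ := exposed_of_face hK hcv hfin hB hne.right
  have h := a1.inter b1
  have hne' : (pts P A ∩ pts P B).Nonempty := by
    obtain ⟨p, hp⟩ := hne
    refine ⟨p.1, subset_convexHull ℝ _ (mem_image_of_mem _ hp.1),
      subset_convexHull ℝ _ (mem_image_of_mem _ hp.2)⟩
  have h2 := (face_of_exposed hK hcv hfin h hne').2.1
  rw [h2]
  congr 1
  have e : {p : {p // p ∈ P.extremePoints ℝ} | p.1 ∈ pts P A ∩ pts P B} =
      {p | p.1 ∈ pts P A} ∩ {p | p.1 ∈ pts P B} := rfl
  rw [e, a3, b3]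

end basic

/-- dimension and rank -/
theorem dim_pts (P : Set E) {A : Set {p // p ∈ P.extremePoints ℝ}} (hne : A.Nonempty) :
    finrank ℝ (vectorSpan ℝ (pts P A)) + 1 = rk (vec P) A := by
  obtain ⟨a, ha⟩ := hne
  have h1 : vectorSpan ℝ (pts P A) = vectorSpan ℝ (Subtype.val '' A) := by
    rw [← direction_affineSpan, ← direction_affineSpan, pts, affineSpan_convexHull]
  rw [h1, vectorSpan_eq_span_vsub_set_right ℝ (mem_image_of_mem _ ha), rk]
  set V₀ : Submodule ℝ E := Submodule.span ℝ ((fun q => q -ᵥ a.1) '' (Subtype.val '' A)) with hV₀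
  have h2 : Submodule.span ℝ (vec P '' A) =
      V₀.map (LinearMap.inl ℝ E ℝ) ⊔ Submodule.span ℝ {vec P a} := by
    apply le_antisymm
    · rw [Submodule.span_le]
      rintro _ ⟨q, hq, rfl⟩
      have e : vec P q = LinearMap.inl ℝ E ℝ (q.1 -ᵥ a.1) + vec P a := by
        simp [vec]
      rw [e]
      refine Submodule.add_mem_sup ?_ (Submodule.mem_span_singleton_self _)
      refine Submodule.mem_map_of_mem (Submodule.subset_span ?_)
      exact ⟨q.1, ⟨q, hq, rfl⟩, rfl⟩
    · refine sup_le ?_ ?_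
      · rw [Submodule.map_le_iff_le_comap, hV₀, Submodule.span_le]
        rintro _ ⟨_, ⟨q, hq, rfl⟩, rfl⟩
        have e : LinearMap.inl ℝ E ℝ (q.1 -ᵥ a.1) = vec P q - vec P a := by
          simp [vec]
        show LinearMap.inl ℝ E ℝ (q.1 -ᵥ a.1) ∈ Submodule.span ℝ (vec P '' A)
        rw [e]
        exact Submodule.sub_mem _ (Submodule.subset_span ⟨q, hq, rfl⟩)
          (Submodule.subset_span ⟨a, ha, rfl⟩)
      · rw [Submodule.span_singleton_le_iff_mem]
        exact Submodule.subset_span ⟨a, ha, rfl⟩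
  have h3 : V₀.map (LinearMap.inl ℝ E ℝ) ⊓ Submodule.span ℝ {vec P a} = ⊥ := by
    rw [Submodule.eq_bot_iff]
    intro z hz
    obtain ⟨hz1, hz2⟩ := Submodule.mem_inf.1 hz
    obtain ⟨y, -, hy⟩ := Submodule.mem_map.1 hz1
    obtain ⟨c, hc⟩ := Submodule.mem_span_singleton.1 hz2
    have e : c = 0 := by
      have h4 : (c • vec P a).2 = (LinearMap.inl ℝ E ℝ y).2 := by rw [hc, hy]
      simpa [vec] using h4
    rw [← hc, e, zero_smul]
  have h4 := Submodule.finrank_sup_add_finrank_inf_eq (V₀.map (LinearMap.inl ℝ E ℝ))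
    (Submodule.span ℝ {vec P a})
  rw [h3, finrank_bot, finrank_span_singleton, add_zero] at h4
  · rw [h2, h4]
    congr 1
    exact ((Submodule.equivMapOfInjective _ LinearMap.inl_injective V₀).finrank_eq)
  · intro h
    have := congrArg Prod.snd h
    simp [vec] at this

end Pool.Agent.Lock
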