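import Pool.Agent.Lock.Split

set_option autoImplicit false

/-!
# Products
-/

namespace Pool.Agent.Lock

open Module Relation Set

variable {ι κ : Type*} {V W E : Type*} [AddCommGroup V] [Module ℝ V] [AddCommGroup W]
  [Module ℝ W] [AddCommGroup E] [Module ℝ E] {x : ι → V} {y : κ → W} {z : ι × κ → E}

/-- The faces of `z` are the products of faces. -/
def IsProd (x : ι → V) (y : κ → W) (z : ι × κ → E) : Prop :=
  ∀ C : Set (ι × κ), C.Nonempty → (Face z C ↔ ∃ A B, Face x A ∧ Face y B ∧ C = A ×ˢ B)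

section

variable [FiniteDimensional ℝ V] [FiniteDimensional ℝ W] [FiniteDimensional ℝ E] [Finite ι]
  [Finite κ] {φ : V →ₗ[ℝ] ℝ} {φ' : W →ₗ[ℝ] ℝ} {φ'' : E →ₗ[ℝ] ℝ}

/-- all data of a product -/
structure PD (x : ι → V) (y : κ → W) (z : ι × κ → E) (φ : V →ₗ[ℝ] ℝ) (φ' : W →ₗ[ℝ] ℝ)
    (φ'' : E →ₗ[ℝ] ℝ) : Prop where
  px : ∀ i, 0 < φ (x i)
  py : ∀ i, 0 < φ' (y i)
  pz : ∀ i, 0 < φ'' (z i)
  ex : AllExt x
  ey : AllExt y
  ez : AllExt z
  pr : IsProd x y z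

variable (h : PD x y z φ φ' φ'')

include h

omit [FiniteDimensional ℝ V] [FiniteDimensional ℝ W] [FiniteDimensional ℝ E] [Finite ι]
  [Finite κ] in
theorem PD.face {A : Set ι} {B : Set κ} (hA : Face x A) (hB : Face y B) (hAn : A.Nonempty)
    (hBn : B.Nonempty) : Face z (A ×ˢ B) := (h.pr _ (hAn.prod hBn)).2 ⟨A, B, hA, hB, rfl⟩

omit [FiniteDimensional ℝ W] [FiniteDimensional ℝ E] [Finite κ] in
theorem PD.rk_pos {A : Set ι} (hA : A.Nonempty) : 1 ≤ rk x A := by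
  obtain ⟨a, ha⟩ := hA
  have := rk_mono (x := x) (Set.singleton_subset_iff.2 ha)
  rw [(h.ex a).2] at this
  exact this

omit [FiniteDimensional ℝ V] [FiniteDimensional ℝ E] [Finite ι] in
theorem PD.rk_pos' {B : Set κ} (hB : B.Nonempty) : 1 ≤ rk y B := by
  obtain ⟨b, hb⟩ := hB
  have := rk_mono (x := y) (Set.singleton_subset_iff.2 hb)
  rw [(h.ey b).2] at this
  exact this

/-- the dimension of a product -/
theorem PD.rk {A : Set ι} {B : Set κ} (hA : Face x A) (hB : Face y B) (hAn : A.Nonempty)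
    (hBn : B.Nonempty) : rk z (A ×ˢ B) + 1 = rk x A + rk y B := by
  have h1 : ∀ {A : Set ι} {B : Set κ}, A.Nonempty → B.Nonempty →
      Prod.fst '' (A ×ˢ B) = A ∧ Prod.snd '' (A ×ˢ B) = B := fun hAn hBn =>
    ⟨Set.fst_image_prod _ hBn, Set.snd_image_prod hAn _⟩
  set ρ : Set (ι × κ) → ℕ := fun C => Lock.rk x (Prod.fst '' C) + Lock.rk y (Prod.snd '' C) - 1
    with hρ
  have key : Lock.rk z (A ×ˢ B) = ρ (A ×ˢ B) := by
    refine rk_unique h.pz ρ (by simp [hρ, rk_empty]) (fun C D hC hD hCD => ?_)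
      (fun C hC hne => ?_) (h.face hA hB hAn hBn)
    · have hDne : D.Nonempty := by
        obtain ⟨d, hd, -⟩ := Set.exists_of_ssubset hCD
        exact ⟨d, hd⟩
      obtain ⟨A₂, B₂, a2, b2, rfl⟩ := (h.pr D hDne).1 hD
      have n2 := Set.prod_nonempty_iff.1 hDne
      obtain ⟨e1, e2⟩ := h1 n2.1 n2.2
      rcases Set.eq_empty_or_nonempty C with rfl | hCne
      · simp only [hρ, Set.image_empty, rk_empty, e1, e2]
        have := h.rk_pos n2.1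
        have := h.rk_pos' n2.2
        omega
      · obtain ⟨A₁, B₁, a1, b1, rfl⟩ := (h.pr C hCne).1 hC
        have n1 := Set.prod_nonempty_iff.1 hCne
        obtain ⟨e3, e4⟩ := h1 n1.1 n1.2
        simp only [hρ, e1, e2, e3, e4]
        have s := Set.prod_subset_prod_iff.1 hCD.subset
        have s' : A₁ ⊆ A₂ ∧ B₁ ⊆ B₂ := by
          rcases s with s | s | s
          · exact s
          · exact absurd s n1.1.ne_empty
          · exact absurd s n1.2.ne_empty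
        have r1 := h.rk_pos n1.1
        have r2 := h.rk_pos' n1.2
        by_cases hAA : A₁ = A₂
        · have hBB : B₁ ≠ B₂ := fun e => hCD.ne (by rw [hAA, e])
          have := rk_lt b1 (s'.2.ssubset_of_ne hBB)
          rw [hAA]
          have := h.rk_pos n2.1
          omega
        · have r3 := rk_lt a1 (s'.1.ssubset_of_ne hAA)
          have r4 := rk_mono (x := y) s'.2
          omega
    · obtain ⟨A₂, B₂, a2, b2, rfl⟩ := (h.pr C hne).1 hC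
      have n2 := Set.prod_nonempty_iff.1 hne
      obtain ⟨e1, e2⟩ := h1 n2.1 n2.2
      have r1 := h.rk_pos n2.1
      have r2 := h.rk_pos' n2.2
      obtain ⟨F, f1, -, f2, f3⟩ := exists_facet a2 (face_empty h.px) (Set.empty_ssubset.2 n2.1)
      have fss : F ⊂ A₂ := f2.ssubset_of_ne fun e => by rw [e] at f3; omega
      rcases Set.eq_empty_or_nonempty F with rfl | hFne
      · -- `A₂` is a point
        rw [rk_empty] at f3
        obtain ⟨G, g1, -, g2, g3⟩ := exists_facet b2 (face_empty h.py)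
          (Set.empty_ssubset.2 n2.2)
        have gss : G ⊂ B₂ := g2.ssubset_of_ne fun e => by rw [e] at g3; omega
        rcases Set.eq_empty_or_nonempty G with rfl | hGne
        · rw [rk_empty] at g3
          refine ⟨∅, face_empty h.pz, Set.empty_ssubset.2 hne, ?_⟩
          simp only [hρ, Set.image_empty, rk_empty, e1, e2]
          omega
        · refine ⟨A₂ ×ˢ G, h.face a2 g1 n2.1 hGne, ?_, ?_⟩
          · refine ⟨Set.prod_mono subset_rfl g2, fun s => gss.2 ?_⟩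
            rcases Set.prod_subset_prod_iff.1 s with s | s | s
            · exact s.2
            · exact absurd s n2.1.ne_empty
            · exact absurd s n2.2.ne_empty
          · obtain ⟨e3, e4⟩ := h1 n2.1 hGne
            simp only [hρ, e1, e2, e3, e4]
            have := h.rk_pos' hGne
            omega
      · refine ⟨F ×ˢ B₂, h.face f1 b2 hFne n2.2, ?_, ?_⟩
        · refine ⟨Set.prod_mono f2 subset_rfl, fun s => fss.2 ?_⟩
          rcases Set.prod_subset_prod_iff.1 s with s | s | s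
          · exact s.1
          · exact absurd s n2.1.ne_empty
          · exact absurd s n2.2.ne_empty
        · obtain ⟨e3, e4⟩ := h1 hFne n2.2
          simp only [hρ, e1, e2, e3, e4]
          have := h.rk_pos hFne
          omega
  obtain ⟨e1, e2⟩ := h1 hAn hBn
  have r1 := h.rk_pos hAn
  have r2 := h.rk_pos' hBn
  simp only [hρ, e1, e2] at key
  omega

theorem PD.good {U X : Set ι} {U' Y : Set κ} {m n : ℕ} (hX : Good x U m X) (hY : Good y U' n Y)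
    {T : Set (ι × κ)} (hT : X ×ˢ Y ⊆ T) : Good z T (m + n) (X ×ˢ Y) := by
  have hXn : X.Nonempty := nonempty_of_rk (x := x) (by rw [hX.2.2]; omega)
  have hYn : Y.Nonempty := nonempty_of_rk (x := y) (by rw [hY.2.2]; omega)
  refine ⟨h.face hX.1 hY.1 hXn hYn, hT, ?_⟩
  have := h.rk hX.1 hY.1 hXn hYn
  rw [hX.2.2, hY.2.2] at this
  omega

/-- moving in the first factor -/
theorem PD.reach_fst {U X X' : Set ι} {U' Y : Set κ} {m n : ℕ} (hm : 1 ≤ m)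
    (hX : Reach x U m X X') (hY : Good y U' n Y) {T : Set (ι × κ)} (hT : U ×ˢ Y ⊆ T) :
    Reach z T (m + n) (X ×ˢ Y) (X' ×ˢ Y) := by
  have hYn : Y.Nonempty := nonempty_of_rk (x := y) (by rw [hY.2.2]; omega)
  have good : ∀ X, Good x U m X → Good z T (m + n) (X ×ˢ Y) := fun X hX =>
    h.good hX hY ((Set.prod_mono hX.2.1 subset_rfl).trans hT)
  refine ⟨good X hX.1, good X' hX.2.1, hX.2.2.lift (fun X => X ×ˢ Y) fun A B hAB => ?_⟩
  refine ⟨good A hAB.1, good B hAB.2.1, ?_⟩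
  have hne : (A ∩ B).Nonempty := nonempty_of_rk (x := x) (by rw [hAB.2.2]; exact hm)
  have e : A ×ˢ Y ∩ B ×ˢ Y = (A ∩ B) ×ˢ Y := by
    rw [Set.prod_inter_prod, Set.inter_self]
  rw [e]
  have := h.rk (hAB.1.1.inter hAB.2.1.1) hY.1 hne hYn
  rw [hAB.2.2, hY.2.2] at this
  omega

/-- moving in the second factor -/
theorem PD.reach_snd {U X : Set ι} {U' Y Y' : Set κ} {m n : ℕ} (hn : 1 ≤ n)
    (hX : Good x U m X) (hY : Reach y U' n Y Y') {T : Set (ι × κ)} (hT : X ×ˢ U' ⊆ T) :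
    Reach z T (m + n) (X ×ˢ Y) (X ×ˢ Y') := by
  have hXn : X.Nonempty := nonempty_of_rk (x := x) (by rw [hX.2.2]; omega)
  have good : ∀ Y, Good y U' n Y → Good z T (m + n) (X ×ˢ Y) := fun Y hY =>
    h.good hX hY ((Set.prod_mono subset_rfl hY.2.1).trans hT)
  refine ⟨good Y hY.1, good Y' hY.2.1, hY.2.2.lift (fun Y => X ×ˢ Y) fun A B hAB => ?_⟩
  refine ⟨good A hAB.1, good B hAB.2.1, ?_⟩
  have hne : (A ∩ B).Nonempty := nonempty_of_rk (x := y) (by rw [hAB.2.2]; exact hn)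
  have e : X ×ˢ A ∩ X ×ˢ B = X ×ˢ (A ∩ B) := by
    rw [Set.prod_inter_prod, Set.inter_self]
  rw [e]
  have := h.rk hX.1 (hAB.1.1.inter hAB.2.1.1) hXn hne
  rw [hAB.2.2, hX.2.2] at this
  omega

theorem PD.common {X X' Z : Set ι} {Y Y' Z' : Set κ} {m : ℕ} {T : Set (ι × κ)}
    (hX : Good z T m (X ×ˢ Y)) (hX' : Good z T m (X' ×ˢ Y')) (hZ : Face x Z) (hZ' : Face y Z')
    (hZn : Z.Nonempty) (hZn' : Z'.Nonempty) (hr : Lock.rk x Z + Lock.rk y Z' = m + 1)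
    (h1 : Z ⊆ X) (h2 : Z ⊆ X') (h3 : Z' ⊆ Y) (h4 : Z' ⊆ Y') :
    Reach z T m (X ×ˢ Y) (X' ×ˢ Y') := by
  refine reach_of_common hX hX' (Set.prod_mono h1 h3) (Set.prod_mono h2 h4) ?_
  have := h.rk hZ hZ' hZn hZn'
  omega

/-- A path that uses only the first factor, except for crossing over. -/
theorem PD.cross_fst {U T : Set ι} {U' : Set κ} {m : ℕ} {p p' : ι} {q q' : κ} (hm : 1 ≤ m)
    {X Z Y Y' : Set ι} (hX : Good x U m X) (hpX : p ∈ X) (hp'X : p' ∉ X) (hZ : Face x Z)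
    (hZr : Lock.rk x Z = m) (hZX : Z ⊆ X) (hZY : Z ⊆ Y) (hp'Y' : p' ∈ Y')
    (hY : Reach x (U \ {p}) m Y Y') (hZT : Z ⊆ T) (hq : PathIn y U' 1 q q') :
    PathIn z ((U \ {p'}) ×ˢ {q} ∪ T ×ˢ U' ∪ (U \ {p}) ×ˢ {q'}) m (p, q) (p', q') := by
  obtain ⟨E₁, E₂, hqE, hq'E, hE⟩ := hq
  have hZn : Z.Nonempty := nonempty_of_rk (x := x) (by rw [hZr]; exact hm)
  have gq : ∀ q, Good y {q} 0 {q} := fun q => ⟨(h.ey q).1, subset_rfl, (h.ey q).2⟩
  have gZ : Good x T (m - 1) Z := ⟨hZ, hZT, by omega⟩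
  set R := (U \ {p'}) ×ˢ {q} ∪ T ×ˢ U' ∪ (U \ {p}) ×ˢ {q'} with hR
  have s1 : (U \ {p'}) ×ˢ {q} ⊆ R := Set.subset_union_left.trans Set.subset_union_left
  have s2 : T ×ˢ U' ⊆ R := Set.subset_union_right.trans Set.subset_union_left
  have s3 : (U \ {p}) ×ˢ {q'} ⊆ R := Set.subset_union_right
  have hX' : X ⊆ U \ {p'} := fun i hi => ⟨hX.2.1 hi, fun e => hp'X (e ▸ hi)⟩
  have g1 : Good z R m (X ×ˢ {q}) := by
    have := h.good (T := R) hX (gq q) ((Set.prod_mono hX' subset_rfl).trans s1)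
    rwa [add_zero] at this
  have r2 : Reach z R m (Z ×ˢ E₁) (Z ×ˢ E₂) := by
    have := h.reach_snd (T := R) le_rfl gZ hE ((Set.prod_mono hZT subset_rfl).trans s2)
    rwa [Nat.sub_add_cancel hm] at this
  have r3 : Reach z R m (Y ×ˢ {q'}) (Y' ×ˢ {q'}) := by
    have := h.reach_fst (T := R) hm hY (gq q') s3
    rwa [add_zero] at this
  have r12 : Reach z R m (X ×ˢ {q}) (Z ×ˢ E₁) :=
    h.common g1 r2.1 hZ (h.ey q).1 hZn (Set.singleton_nonempty q) (by rw [hZr, (h.ey q).2])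
      hZX subset_rfl subset_rfl (Set.singleton_subset_iff.2 hqE)
  have r23 : Reach z R m (Z ×ˢ E₂) (Y ×ˢ {q'}) :=
    h.common r2.2.1 r3.1 hZ (h.ey q').1 hZn (Set.singleton_nonempty q') (by rw [hZr, (h.ey q').2])
      subset_rfl hZY (Set.singleton_subset_iff.2 hq'E) subset_rfl
  exact ⟨X ×ˢ {q}, Y' ×ˢ {q'}, ⟨hpX, rfl⟩, ⟨hp'Y', rfl⟩, ((r12.trans r2).trans r23).trans r3⟩

/-- A path that uses only the second factor, except for crossing over. -/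
theorem PD.cross_snd {U T : Set κ} {U' : Set ι} {m : ℕ} {p p' : ι} {q q' : κ} (hm : 1 ≤ m)
    {X Z Y Y' : Set κ} (hX : Good y U m X) (hqX : q ∈ X) (hq'X : q' ∉ X) (hZ : Face y Z)
    (hZr : Lock.rk y Z = m) (hZX : Z ⊆ X) (hZY : Z ⊆ Y) (hq'Y' : q' ∈ Y')
    (hY : Reach y (U \ {q}) m Y Y') (hZT : Z ⊆ T) (hp : PathIn x U' 1 p p') :
    PathIn z ({p} ×ˢ (U \ {q'}) ∪ U' ×ˢ T ∪ {p'} ×ˢ (U \ {q})) m (p, q) (p', q') := by
  obtain ⟨E₁, E₂, hpE, hp'E, hE⟩ := hp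
  have hZn : Z.Nonempty := nonempty_of_rk (x := y) (by rw [hZr]; exact hm)
  have gp : ∀ p, Good x {p} 0 {p} := fun p => ⟨(h.ex p).1, subset_rfl, (h.ex p).2⟩
  have gZ : Good y T (m - 1) Z := ⟨hZ, hZT, by omega⟩
  set R := {p} ×ˢ (U \ {q'}) ∪ U' ×ˢ T ∪ {p'} ×ˢ (U \ {q}) with hR
  have s1 : {p} ×ˢ (U \ {q'}) ⊆ R := Set.subset_union_left.trans Set.subset_union_left
  have s2 : U' ×ˢ T ⊆ R := Set.subset_union_right.trans Set.subset_union_left
  have s3 : {p'} ×ˢ (U \ {q}) ⊆ R := Set.subset_union_right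
  have hX' : X ⊆ U \ {q'} := fun i hi => ⟨hX.2.1 hi, fun e => hq'X (e ▸ hi)⟩
  have g1 : Good z R m ({p} ×ˢ X) := by
    have := h.good (T := R) (gp p) hX ((Set.prod_mono subset_rfl hX').trans s1)
    rwa [zero_add] at this
  have r2 : Reach z R m (E₁ ×ˢ Z) (E₂ ×ˢ Z) := by
    have := h.reach_fst (T := R) le_rfl hE gZ ((Set.prod_mono subset_rfl hZT).trans s2)
    rwa [Nat.add_sub_cancel' hm] at this
  have r3 : Reach z R m ({p'} ×ˢ Y) ({p'} ×ˢ Y') := by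
    have := h.reach_snd (T := R) hm (gp p') hY s3
    rwa [zero_add] at this
  have r12 : Reach z R m ({p} ×ˢ X) (E₁ ×ˢ Z) :=
    h.common g1 r2.1 (h.ex p).1 hZ (Set.singleton_nonempty p) hZn
      (by rw [hZr, (h.ex p).2]; omega)
      subset_rfl (Set.singleton_subset_iff.2 hpE) hZX subset_rfl
  have r23 : Reach z R m (E₂ ×ˢ Z) ({p'} ×ˢ Y) :=
    h.common r2.2.1 r3.1 (h.ex p').1 hZ (Set.singleton_nonempty p') hZn
      (by rw [hZr, (h.ex p').2]; omega)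
      (Set.singleton_subset_iff.2 hp'E) subset_rfl subset_rfl hZY
  exact ⟨{p} ×ˢ X, {p'} ×ˢ Y', ⟨rfl, hqX⟩, ⟨rfl, hq'Y'⟩, ((r12.trans r2).trans r23).trans r3⟩

/-- A path that uses both factors. -/
theorem PD.both {U : Set ι} {U' : Set κ} {m n : ℕ} {p p' : ι} {q q' : κ} (hm : 1 ≤ m)
    (hn : 1 ≤ n) (hp : PathIn x U m p p') (hq : PathIn y U' n q q') :
    PathIn z (U ×ˢ U') (m + n) (p, q) (p', q') := by
  obtain ⟨X, X', hpX, hp'X', hX⟩ := hp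
  obtain ⟨Y, Y', hqY, hq'Y', hY⟩ := hq
  exact ⟨X ×ˢ Y, X' ×ˢ Y', ⟨hpX, hqY⟩, ⟨hp'X', hq'Y'⟩,
    (h.reach_fst (T := U ×ˢ U') hm hX hY.1 (Set.prod_mono subset_rfl hY.1.2.1)).trans
      (h.reach_snd hn hX.2.1 hY (Set.prod_mono hX.2.1.2.1 subset_rfl))⟩

/-- A path that uses both factors and avoids the corner `(p, q')`. -/
theorem PD.both_fst {U : Set ι} {U' : Set κ} {m n : ℕ} {p p' : ι} {q q' : κ} (hm : 1 ≤ m)
    (hn : 1 ≤ n) {X Z Y Y' : Set ι} (hX : Good x U m X) (hpX : p ∈ X) (hZ : Face x Z)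
    (hZr : Lock.rk x Z = m) (hZX : Z ⊆ X) (hZY : Z ⊆ Y) (hp'Y' : p' ∈ Y')
    (hY : Reach x (U \ {p}) m Y Y') (hq : PathIn y U' n q q')
    (hno : ∀ X, Good y U' n X → ¬ (q ∈ X ∧ q' ∈ X)) :
    PathIn z ((U ×ˢ U') \ {(p, q')}) (m + n) (p, q) (p', q') := by
  obtain ⟨D, D', hqD, hq'D', hD⟩ := hq
  have hq'D : q' ∉ D := fun h' => hno D hD.1 ⟨hqD, h'⟩
  have hZn : Z.Nonempty := nonempty_of_rk (x := x) (by rw [hZr]; exact hm)
  have hDn : D.Nonempty := ⟨q, hqD⟩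
  set R := (U ×ˢ U') \ {(p, q')} with hR
  have s1 : X ×ˢ D ⊆ R := by
    rintro ⟨i, j⟩ ⟨hi, hj⟩
    refine ⟨⟨hX.2.1 hi, hD.1.2.1 hj⟩, fun e => hq'D ?_⟩
    rw [Set.mem_singleton_iff, Prod.mk.injEq] at e
    rw [← e.2]; exact hj
  have s2 : (U \ {p}) ×ˢ U' ⊆ R := by
    rintro ⟨i, j⟩ ⟨hi, hj⟩
    refine ⟨⟨hi.1, hj⟩, fun e => hi.2 ?_⟩
    rw [Set.mem_singleton_iff, Prod.mk.injEq] at e
    exact e.1
  have g1 : Good z R (m + n) (X ×ˢ D) := h.good hX hD.1 s1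
  have r2 : Reach z R (m + n) (Y ×ˢ D) (Y' ×ˢ D) := h.reach_fst hm hY hD.1
    ((Set.prod_mono subset_rfl hD.1.2.1).trans s2)
  have r3 : Reach z R (m + n) (Y' ×ˢ D) (Y' ×ˢ D') := h.reach_snd hn hY.2.1 hD
    ((Set.prod_mono hY.2.1.2.1 subset_rfl).trans s2)
  have r12 : Reach z R (m + n) (X ×ˢ D) (Y ×ˢ D) :=
    h.common g1 r2.1 hZ hD.1.1 hZn hDn (by rw [hZr, hD.1.2.2]; omega) hZX hZY subset_rfl
      subset_rfl
  exact ⟨X ×ˢ D, Y' ×ˢ D', ⟨hpX, hqD⟩, ⟨hp'Y', hq'D'⟩, (r12.trans r2).trans r3⟩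

/-- A path that uses both factors and avoids the corner `(p', q)`. -/
theorem PD.both_snd {U : Set κ} {U' : Set ι} {m n : ℕ} {p p' : ι} {q q' : κ} (hm : 1 ≤ m)
    (hn : 1 ≤ n) {X Z Y Y' : Set κ} (hX : Good y U m X) (hqX : q ∈ X) (hZ : Face y Z)
    (hZr : Lock.rk y Z = m) (hZX : Z ⊆ X) (hZY : Z ⊆ Y) (hq'Y' : q' ∈ Y')
    (hY : Reach y (U \ {q}) m Y Y') (hp : PathIn x U' n p p')
    (hno : ∀ X, Good x U' n X → ¬ (p ∈ X ∧ p' ∈ X)) :
    PathIn z ((U' ×ˢ U) \ {(p', q)}) (n + m) (p, q) (p', q') := by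
  obtain ⟨D, D', hpD, hp'D', hD⟩ := hp
  have hp'D : p' ∉ D := fun h' => hno D hD.1 ⟨hpD, h'⟩
  have hZn : Z.Nonempty := nonempty_of_rk (x := y) (by rw [hZr]; exact hm)
  have hDn : D.Nonempty := ⟨p, hpD⟩
  set R := (U' ×ˢ U) \ {(p', q)} with hR
  have s1 : D ×ˢ X ⊆ R := by
    rintro ⟨i, j⟩ ⟨hi, hj⟩
    refine ⟨⟨hD.1.2.1 hi, hX.2.1 hj⟩, fun e => hp'D ?_⟩
    rw [Set.mem_singleton_iff, Prod.mk.injEq] at e
    rw [← e.1]; exact hi
  have s2 : U' ×ˢ (U \ {q}) ⊆ R := by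
    rintro ⟨i, j⟩ ⟨hi, hj⟩
    refine ⟨⟨hi, hj.1⟩, fun e => hj.2 ?_⟩
    rw [Set.mem_singleton_iff, Prod.mk.injEq] at e
    exact e.2
  have g1 : Good z R (n + m) (D ×ˢ X) := h.good hD.1 hX s1
  have r2 : Reach z R (n + m) (D ×ˢ Y) (D ×ˢ Y') := h.reach_snd hm hD.1 hY
    ((Set.prod_mono hD.1.2.1 subset_rfl).trans s2)
  have r3 : Reach z R (n + m) (D ×ˢ Y') (D' ×ˢ Y') := h.reach_fst hn hD hY.2.1
    ((Set.prod_mono subset_rfl hY.2.1.2.1).trans s2)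
  have r12 : Reach z R (n + m) (D ×ˢ X) (D ×ˢ Y) :=
    h.common g1 r2.1 hD.1.1 hZ hDn hZn (by rw [hZr, hD.1.2.2]; omega) subset_rfl
      subset_rfl hZX hZY
  exact ⟨D ×ˢ X, D' ×ˢ Y', ⟨hpD, hqX⟩, ⟨hp'D', hq'Y'⟩, (r12.trans r2).trans r3⟩

end

end Pool.Agent.Lock
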