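import Pool.Agent.Lock.Inv

set_option autoImplicit false

/-!
# Splitting thick paths and partitions; disjoint faces; connectivity outside a small flat
-/

namespace Pool.Agent.Lock

open Module Relation

variable {ι : Type*} {V : Type*} [AddCommGroup V] [Module ℝ V] {x : ι → V}

theorem sum_two_le' {κ : Type*} [Fintype κ] (a : κ → ℕ) {i j : κ} (h : i ≠ j) :
    a i + a j ≤ ∑ k, a k := by
  classical
  have h1 := Finset.add_sum_erase Finset.univ a (Finset.mem_univ i)
  have h2 := Finset.single_le_sum (f := a) (fun k _ => Nat.zero_le _)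
    (Finset.mem_erase.2 ⟨h.symm, Finset.mem_univ j⟩ : j ∈ Finset.univ.erase i)
  omega

/-- The last face that contains the first vertex. -/
theorem split_path {U : Set ι} {m : ℕ} {a b : ι}
    (hn : ∀ X, Good x U m X → ¬ (a ∈ X ∧ b ∈ X)) (h : PathIn x U m a b) :
    ∃ X Z Y Y', Good x U m X ∧ a ∈ X ∧ b ∉ X ∧ Face x Z ∧ rk x Z = m ∧ Z ⊆ X ∧ Z ⊆ Y ∧ b ∈ Y' ∧
      Reach x (U \ {a}) m Y Y' := by
  obtain ⟨X₀, Y', hX₀, hY', h1, h2, h3⟩ := h
  have key : (∃ X Z Y, Good x U m X ∧ a ∈ X ∧ b ∉ X ∧ Face x Z ∧ rk x Z = m ∧ Z ⊆ X ∧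
      Z ⊆ Y ∧ Reach x (U \ {a}) m Y Y') ∨ Reach x (U \ {a}) m X₀ Y' := by
    clear hX₀ h1
    induction h3 using ReflTransGen.head_induction_on with
    | refl =>
      right
      apply Reach.refl'
      exact ⟨h2.1, fun i hi => ⟨h2.2.1 hi, fun e => hn Y' h2 ⟨by
        rw [Set.mem_singleton_iff] at e
        rw [← e]; exact hi, hY'⟩⟩, h2.2.2⟩
    | head h' hrest ih =>
      rename_i X X₁
      clear hrest
      rcases ih with ih | ih
      · exact Or.inl ih
      · by_cases ha : a ∈ X
        · left
          refine ⟨X, X ∩ X₁, X₁, h'.1, ha, fun hb => hn X h'.1 ⟨ha, hb⟩,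
            h'.1.1.inter h'.2.1.1, h'.2.2, Set.inter_subset_left, Set.inter_subset_right, ih⟩
        · right
          have hX : Good x (U \ {a}) m X := ⟨h'.1.1, fun i hi => ⟨h'.1.2.1 hi, fun e => ha (by
            rw [Set.mem_singleton_iff] at e
            rw [← e]; exact hi)⟩, h'.1.2.2⟩
          exact ⟨hX, ih.2.1, ReflTransGen.head ⟨hX, ih.1, h'.2.2⟩ ih.2.2⟩
  rcases key with ⟨X, Z, Y, k1, k2, k3, k4, k5, k6, k7, k8⟩ | key
  · exact ⟨X, Z, Y, Y', k1, k2, k3, k4, k5, k6, k7, hY', k8⟩
  · exact absurd rfl (key.1.2.1 hX₀).2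

/-- Splitting a composition of `g + h`. -/
theorem exists_split {κ : Type*} [Fintype κ] (c : κ → ℕ) {g h : ℕ} (hg : 1 ≤ g) (hh : 1 ≤ h)
    (hs : ∑ i, c i = g + h) (h2 : ∃ j, 2 ≤ c j) :
    ∃ a : κ → ℕ, (∀ i, a i ≤ c i) ∧ ∑ i, a i = g ∧
      ((∃ M, 1 ≤ a M ∧ a M < c M ∧ ∀ i, i ≠ M → a i = 0 ∨ a i = c i) ∨
       (∃ M N, M ≠ N ∧ 1 ≤ a M ∧ a M < c M ∧ 1 ≤ a N ∧ a N < c N ∧
        ∀ i, i ≠ M → i ≠ N → a i = 0 ∨ a i = c i)) := by
  classical
  obtain ⟨j₀, hj₀⟩ := h2
  obtain ⟨j, -, hj⟩ := Finset.exists_max_image Finset.univ c ⟨j₀, Finset.mem_univ _⟩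
  have hj2 : 2 ≤ c j := hj₀.trans (hj j₀ (Finset.mem_univ _))
  set F : Finset (Finset κ) := ((Finset.univ.erase j).powerset).filter fun T =>
    ∑ i ∈ T, c i < g with hF
  have hFne : F.Nonempty := ⟨∅, by simp [hF]; omega⟩
  obtain ⟨T, hT, hTmax⟩ := Finset.exists_max_image F Finset.card hFne
  obtain ⟨hTs, hTg⟩ := Finset.mem_filter.1 hT
  rw [Finset.mem_powerset] at hTs
  have hjT : j ∉ T := fun h => Finset.notMem_erase j _ (hTs h)
  by_cases h1 : g < ∑ i ∈ T, c i + c j
  · refine ⟨fun i => if i ∈ T then c i else if i = j then g - ∑ i ∈ T, c i else 0, ?_, ?_,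
      Or.inl ⟨j, ?_, ?_, ?_⟩⟩
    · intro i
      dsimp only
      split_ifs with h3 h4
      · exact le_rfl
      · rw [h4]; omega
      · exact Nat.zero_le _
    · have e1 : ∀ i, (if i ∈ T then c i else if i = j then g - ∑ i ∈ T, c i else 0) =
          (if i ∈ T then c i else 0) + if i = j then g - ∑ i ∈ T, c i else 0 := by
        intro i
        by_cases h3 : i ∈ T
        · have : i ≠ j := fun e => hjT (e ▸ h3)
          simp [h3, this]
        · simp [h3]
      simp only [e1]
      rw [Finset.sum_add_distrib, Finset.sum_ite_mem, Finset.sum_ite_eq']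
      simp only [Finset.univ_inter, Finset.mem_univ, if_true]
      omega
    · simp only [if_neg hjT, if_true]; omega
    · simp only [if_neg hjT, if_true]; omega
    · intro i hi
      simp only [if_neg hi]
      by_cases h3 : i ∈ T
      · right; simp [h3]
      · left; simp [h3]
  · push Not at h1
    -- another part
    obtain ⟨i, hiT, hij, hi⟩ : ∃ i, i ∉ T ∧ i ≠ j ∧ 1 ≤ c i := by
      by_contra hcon
      push Not at hcon
      have h3 : ∑ i, c i = ∑ i ∈ insert j T, c i := by
        symm
        apply Finset.sum_subset (Finset.subset_univ _)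
        intro i _ hi
        rw [Finset.mem_insert, not_or] at hi
        have := hcon i hi.2 hi.1
        omega
      rw [Finset.sum_insert hjT] at h3
      omega
    have h4 : g ≤ ∑ k ∈ T, c k + c i := by
      by_contra hcon
      push Not at hcon
      have h5 : insert i T ∈ F := by
        rw [hF, Finset.mem_filter, Finset.mem_powerset]
        refine ⟨?_, ?_⟩
        · intro k hk
          rcases Finset.mem_insert.1 hk with rfl | hk
          · exact Finset.mem_erase.2 ⟨hij, Finset.mem_univ _⟩
          · exact hTs hk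
        · rw [Finset.sum_insert hiT]; omega
      have h6 := hTmax _ h5
      rw [Finset.card_insert_of_notMem hiT] at h6
      omega
    have h5 := hj i (Finset.mem_univ _)
    have h6 : c i = c j := by omega
    have h7 : ∑ k ∈ T, c k + c j = g := by omega
    refine ⟨fun k => if k ∈ T then c k else if k = j then c j - 1 else if k = i then 1 else 0,
      ?_, ?_, Or.inr ⟨j, i, hij.symm, ?_, ?_, ?_, ?_, ?_⟩⟩
    · intro k
      dsimp only
      split_ifs with h8 h9 h10
      · exact le_rfl
      · rw [h9]; omega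
      · rw [h10]; omega
      · exact Nat.zero_le _
    · have e1 : ∀ k, (if k ∈ T then c k else if k = j then c j - 1 else if k = i then 1 else 0) =
          (if k ∈ T then c k else 0) + ((if k = j then c j - 1 else 0) +
            if k = i then 1 else 0) := by
        intro k
        by_cases h8 : k ∈ T
        · have h9 : k ≠ j := fun e => hjT (e ▸ h8)
          have h10 : k ≠ i := fun e => hiT (e ▸ h8)
          simp [h8, h9, h10]
        · by_cases h9 : k = j
          · subst h9
            simp [h8, hij.symm]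
          · simp [h8, h9]
      simp only [e1]
      rw [Finset.sum_add_distrib, Finset.sum_add_distrib, Finset.sum_ite_mem,
        Finset.sum_ite_eq', Finset.sum_ite_eq']
      simp only [Finset.univ_inter, Finset.mem_univ, if_true]
      omega
    · simp only [if_neg hjT, if_true]; omega
    · simp only [if_neg hjT, if_true]; omega
    · simp only [if_neg hiT, if_neg hij, if_true]; omega
    · simp only [if_neg hiT, if_neg hij, if_true]; omega
    · intro k hk1 hk2
      simp only [if_neg hk1, if_neg hk2]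
      by_cases h3 : k ∈ T
      · right; simp [h3]
      · left; simp [h3]

section fin

variable [FiniteDimensional ℝ V] [Finite ι] {φ : V →ₗ[ℝ] ℝ}

omit [Finite ι] in
theorem rk_union_le (A B : Set ι) : rk x (A ∪ B) ≤ rk x A + rk x B := by
  rw [rk, rk, rk, Set.image_union, Submodule.span_union]
  exact Submodule.finrank_add_le_finrank_add_finrank _ _

omit [Finite ι] in
theorem rk_biUnion_le {κ : Type*} (s : Finset κ) (W : κ → Set ι) :
    rk x (⋃ i ∈ s, W i) ≤ ∑ i ∈ s, rk x (W i) := by
  classical
  induction s using Finset.induction_on with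
  | empty => simp [rk_empty]
  | insert i s hi ih =>
    rw [Finset.set_biUnion_insert, Finset.sum_insert hi]
    exact (rk_union_le _ _).trans (Nat.add_le_add_left ih _)

/-- Balinski's theorem, with a removed set of small rank. -/
theorem balinski_rk (hφ : ∀ i, 0 < φ (x i)) (hE : AllExt x) {A : Set ι} (hA : Face x A)
    {S : Set ι} (hS : rk x S + 2 ≤ rk x A) {a b : ι} (ha : a ∈ A) (hb : b ∈ A) (haS : a ∉ S)
    (hbS : b ∉ S) : Cn (Ed x A) Sᶜ a b := by
  -- a functional vanishing on `S` and `b`
  obtain ⟨k, hkA, hk⟩ : ∃ k ∈ A, x k ∉ Submodule.span ℝ (x '' insert b S) := by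
    by_contra hcon
    push Not at hcon
    have h1 : rk x A ≤ rk x (insert b S) := by
      refine Submodule.finrank_mono ?_
      rw [Submodule.span_le]
      rintro _ ⟨i, hi, rfl⟩
      exact hcon i hi
    have h2 : rk x (insert b S) ≤ 1 + rk x S := by
      have := rk_union_le (x := x) {b} S
      rw [Set.singleton_union, (hE b).2] at this
      exact this
    omega
  obtain ⟨f, hfk, hf⟩ := Submodule.exists_le_ker_of_notMem hk
  have hf0 : ∀ i ∈ insert b S, f (x i) = 0 := fun i hi =>
    hf (Submodule.subset_span ⟨i, hi, rfl⟩)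
  obtain ⟨ψ, hψk, hψ0⟩ : ∃ ψ : V →ₗ[ℝ] ℝ, 0 < ψ (x k) ∧ ∀ i ∈ insert b S, ψ (x i) = 0 := by
    rcases lt_or_gt_of_ne hfk with h | h
    · exact ⟨-f, by simpa using h, fun i hi => by simp [hf0 i hi]⟩
    · exact ⟨f, h, hf0⟩
  have hψb : ψ (x b) = 0 := hψ0 b (Or.inl rfl)
  have hnS : ∀ i, 0 < ψ (x i) → i ∉ S := fun i hi h => by
    rw [hψ0 i (Or.inr h)] at hi
    exact lt_irrefl _ hi
  have hnS' : ∀ i, 0 < (-ψ) (x i) → i ∉ S := fun i hi h => by
    rw [LinearMap.neg_apply, hψ0 i (Or.inr h)] at hi
    simp at hi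
  -- vertices on the positive side are connected
  have pos : ∀ (ψ : V →ₗ[ℝ] ℝ), (∀ i, 0 < ψ (x i) → i ∉ S) → ∀ i j, i ∈ A → j ∈ A →
      0 < ψ (x i) → 0 < ψ (x j) → Cn (Ed x A) Sᶜ i j := by
    intro ψ hn i j hi hj h1 h2
    have h3 := connected hφ hA ψ (hE i) (Set.singleton_subset_iff.2 hi)
      (by rintro _ rfl; exact h1) (hE j) (Set.singleton_subset_iff.2 hj)
      (by rintro _ rfl; exact h2)
    obtain ⟨j', hj', h4⟩ := ed_of_adj hE hi h1 h3
    have : j = j' := by
      have : j ∈ ({j'} : Set ι) := by rw [← hj']; rfl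
      exact this
    subst this
    exact h4.mono (fun _ _ h => h) fun i hi => hn i hi.2
  obtain ⟨b', hb'A, hb', hbb'⟩ := improve_ed hφ hE hA hb hψb hkA hψk
  have hb'S := hnS b' hb'
  rcases lt_trichotomy (ψ (x a)) 0 with h | h | h
  · have ha' : 0 < (-ψ) (x a) := by simpa using h
    obtain ⟨c, hcA, hc, hbc⟩ := improve_ed hφ hE hA hb (ψ := -ψ) (by simp [hψb]) ha ha'
    exact (pos (-ψ) hnS' a c ha hcA ha' hc).tail hbc.symm hbS
  · obtain ⟨c, hcA, hc, hac⟩ := improve_ed hφ hE hA ha h hkA hψk
    have h1 : Cn (Ed x A) Sᶜ a c := (Cn.refl' haS).tail hac (hnS c hc)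
    exact (h1.trans (pos ψ hnS c b' hcA hb'A hc hb')).tail hbb'.symm hbS
  · exact (pos ψ hnS a b' ha hb'A h hb').tail hbb'.symm hbS

/-- Pairwise disjoint faces of given dimensions. -/
theorem disjoint_faces (hφ : ∀ i, 0 < φ (x i)) {κ : Type*} [Fintype κ] {A : Set ι}
    (hA : Face x A) (c : κ → ℕ) (hc : ∑ i, c i ≤ rk x A) :
    ∃ B : κ → Set ι, (∀ i, Face x (B i)) ∧ (∀ i, B i ⊆ A) ∧ (∀ i, rk x (B i) = c i) ∧
      ∀ i j, i ≠ j → Disjoint (B i) (B j) := by
  classical
  induction' hn : rk x A with n ih generalizing A c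
  · have h0 : ∀ i, c i = 0 := fun i => by
      have := Finset.single_le_sum (f := c) (fun j _ => Nat.zero_le _) (Finset.mem_univ i)
      omega
    exact ⟨fun _ => ∅, fun _ => face_empty hφ, fun _ => Set.empty_subset _,
      fun i => by rw [rk_empty, h0], fun _ _ _ => Set.disjoint_empty _⟩
  · have hne : ∅ ⊂ A := by
      rw [Set.empty_ssubset, Set.nonempty_iff_ne_empty]
      rintro rfl
      rw [rk_empty] at hn
      omega
    obtain ⟨F, hF, -, hFA, hFr⟩ := exists_facet hA (face_empty hφ) hne
    have hFn : rk x F = n := by omega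
    by_cases h1 : ∑ i, c i ≤ n
    · obtain ⟨B, b1, b2, b3, b4⟩ := ih hF c (by omega) hFn
      exact ⟨B, b1, fun i => (b2 i).trans hFA, b3, b4⟩
    · obtain ⟨i, hi⟩ : ∃ i, 1 ≤ c i := by
        by_contra hcon
        push Not at hcon
        have : ∑ i, c i = 0 := Finset.sum_eq_zero fun i _ => by
          have := hcon i
          omega
        omega
      have hsum : ∑ j, Function.update c i (c i - 1) j + 1 = ∑ j, c j := by
        have e1 := Finset.sum_update_of_mem (Finset.mem_univ i) c (c i - 1)
        have e2 := Finset.sum_update_of_mem (Finset.mem_univ i) c (c i)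
        rw [Function.update_eq_self] at e2
        omega
      obtain ⟨B, b1, b2, b3, b4⟩ := ih hF (Function.update c i (c i - 1)) (by omega) hFn
      have hFA' : F ⊂ A := hFA.ssubset_of_ne fun h => by rw [h] at hFn; omega
      obtain ⟨j, hjA, hjF⟩ := Set.exists_of_ssubset hFA'
      obtain ⟨l, h0, hl⟩ := hF
      obtain ⟨G, g1, g2, g3, g4, g5⟩ := up hA (b1 i) ((b2 i).trans hFA)
        (fun k hk => h0 k (b2 i hk)) hjA (hl j hjF)
      have hGF : ∀ k ∈ G, k ∈ F → k ∈ B i := by
        intro k hk hkF
        by_contra hn'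
        have := g5 k hk hn'
        rw [h0 k hkF] at this
        exact lt_irrefl _ this
      have hGd : ∀ j, j ≠ i → Disjoint G (B j) := by
        intro j hj
        rw [Set.disjoint_left]
        intro k hk hkj
        exact Set.disjoint_left.1 (b4 i j hj.symm) (hGF k hk (b2 j hkj)) hkj
      refine ⟨Function.update B i G, fun j => ?_, fun j => ?_, fun j => ?_,
        fun j k hjk => ?_⟩
      · by_cases hj : j = i
        · subst hj; rw [Function.update_self]; exact g1
        · rw [Function.update_of_ne hj]; exact b1 j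
      · by_cases hj : j = i
        · subst hj; rw [Function.update_self]; exact g3
        · rw [Function.update_of_ne hj]; exact (b2 j).trans hFA
      · have := b3 j
        by_cases hj : j = i
        · subst hj
          rw [Function.update_self] at this ⊢
          omega
        · rw [Function.update_of_ne hj] at this ⊢
          exact this
      · by_cases hj : j = i
        · subst hj
          rw [Function.update_self, Function.update_of_ne hjk.symm]
          exact hGd k hjk.symm
        · rw [Function.update_of_ne hj]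
          by_cases hk : k = i
          · subst hk
            rw [Function.update_self]
            exact (hGd j hj).symm
          · rw [Function.update_of_ne hk]
            exact b4 j k hjk

end fin

end Pool.Agent.Lock
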