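import Pool.Agent.Lock.Link
import Pool.Agent.Lock.Menger

set_option autoImplicit false

/-!
# Balinski's theorem and the increment step, for configurations with all points extreme
-/

namespace Pool.Agent.Lock

open Module Relation

variable {ι : Type*} {V : Type*} [AddCommGroup V] [Module ℝ V] [FiniteDimensional ℝ V] [Finite ι]
  {x : ι → V} {φ : V →ₗ[ℝ] ℝ}

/-- every index is a vertex -/
def AllExt (x : ι → V) : Prop := ∀ i, Atom x {i}

omit [Finite ι] in
theorem atom_single (hE : AllExt x) {R : Set ι} (hR : Atom x R) {i : ι} (hi : i ∈ R) :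
    R = {i} :=
  (eq_of_rk (hE i).1 (Set.singleton_subset_iff.2 hi) (by rw [hR.2, (hE i).2])).symm

omit [FiniteDimensional ℝ V] in
theorem rk_le_ncard (A : Set ι) : rk x A ≤ A.ncard := by
  classical
  haveI := Fintype.ofFinite ι
  haveI : Fintype (x '' A) := Fintype.ofFinite _
  have h1 := finrank_span_le_card (R := ℝ) (x '' A)
  rw [← Set.ncard_eq_toFinset_card'] at h1
  exact h1.trans (Set.ncard_image_le A.toFinite)

theorem rk_pair (hE : AllExt x) {i j : ι} (hij : i ≠ j) : rk x {i, j} = 2 := by
  apply le_antisymm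
  · exact (rk_le_ncard _).trans (Set.ncard_pair hij).le
  · have h : ({i} : Set ι) ⊂ {i, j} := by
      refine ⟨by simp, fun h => hij ?_⟩
      have : j ∈ ({i} : Set ι) := h (by simp)
      exact this.symm
    have := rk_lt (hE i).1 h
    rw [(hE i).2] at this
    omega

omit [Finite ι] in
theorem no_three (hE : AllExt x) {G : Set ι} (hrk : rk x G = 2) {i j k : ι} (hi : i ∈ G)
    (hj : j ∈ G) (hk : k ∈ G) (hij : i ≠ j) (hik : i ≠ k) (hjk : j ≠ k) : False := by
  have hnli : ¬ LinearIndependent ℝ ![x i, x j, x k] := by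
    intro hli
    have h1 := finrank_span_eq_card hli
    have h2 : Submodule.span ℝ (Set.range ![x i, x j, x k]) ≤ Submodule.span ℝ (x '' G) := by
      refine Submodule.span_mono ?_
      rintro _ ⟨m, rfl⟩
      fin_cases m
      · exact ⟨i, hi, rfl⟩
      · exact ⟨j, hj, rfl⟩
      · exact ⟨k, hk, rfl⟩
    have h3 := Submodule.finrank_mono h2
    rw [h1] at h3
    unfold rk at hrk
    rw [hrk] at h3
    simp at h3
  obtain ⟨g, hg, m, hm⟩ := Fintype.not_linearIndependent_iff.1 hnli
  have hsum : g 0 • x i + g 1 • x j + g 2 • x k = 0 := by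
    simpa [Fin.sum_univ_three] using hg
  obtain ⟨li, i0, i1⟩ := (hE i).1
  obtain ⟨lj, j0, j1⟩ := (hE j).1
  obtain ⟨lk, k0, k1⟩ := (hE k).1
  have ei := congrArg li hsum
  have ej := congrArg lj hsum
  have ek := congrArg lk hsum
  simp only [map_add, map_smul, smul_eq_mul, map_zero] at ei ej ek
  rw [i0 i rfl] at ei
  rw [j0 j rfl] at ej
  rw [k0 k rfl] at ek
  have a1 := i1 j (by simpa using hij.symm)
  have a2 := i1 k (by simpa using hik.symm)
  have b1 := j1 i (by simpa using hij)
  have b2 := j1 k (by simpa using hjk.symm)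
  have c1 := k1 i (by simpa using hik)
  have c2 := k1 j (by simpa using hjk)
  -- ei : g1 a1 + g2 a2 = 0, ej : g0 b1 + g2 b2 = 0, ek : g0 c1 + g1 c2 = 0
  have h2 : g 2 = 0 := by
    rcases lt_trichotomy (g 2) 0 with h | h | h
    · exfalso
      have e1 : 0 < g 1 := by
        by_contra hn
        push Not at hn
        nlinarith
      have e0 : 0 < g 0 := by
        by_contra hn
        push Not at hn
        nlinarith
      nlinarith [mul_pos e0 c1, mul_pos e1 c2]
    · exact h
    · exfalso
      have e1 : g 1 < 0 := by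
        by_contra hn
        push Not at hn
        nlinarith
      have e0 : g 0 < 0 := by
        by_contra hn
        push Not at hn
        nlinarith
      nlinarith [mul_pos (neg_pos.2 e0) c1, mul_pos (neg_pos.2 e1) c2]
  rw [h2] at ei ej
  have h1 : g 1 = 0 := by
    have : g 1 * li (x j) = 0 := by linarith
    rcases mul_eq_zero.1 this with h | h
    · exact h
    · exact absurd h a1.ne'
  have h0 : g 0 = 0 := by
    have : g 0 * lj (x i) = 0 := by linarith
    rcases mul_eq_zero.1 this with h | h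
    · exact h
    · exact absurd h b1.ne'
  apply hm
  fin_cases m
  · exact h0
  · exact h1
  · exact h2

omit [Finite ι] in
theorem eq_pair (hE : AllExt x) {G : Set ι} (hrk : rk x G = 2) {i j : ι} (hi : i ∈ G)
    (hj : j ∈ G) (hij : i ≠ j) : G = {i, j} := by
  apply Set.Subset.antisymm
  · intro k hk
    by_contra hn
    simp only [Set.mem_insert_iff, Set.mem_singleton_iff, not_or] at hn
    exact no_three hE hrk hi hj hk hij (Ne.symm hn.1) (Ne.symm hn.2)
  · rintro k (rfl | rfl)
    · exact hi
    · exact hj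

/-- Edges of the face `A`. -/
def Ed (x : ι → V) (A : Set ι) (i j : ι) : Prop := i ≠ j ∧ Face x {i, j} ∧ i ∈ A ∧ j ∈ A

omit [FiniteDimensional ℝ V] [Finite ι] in
theorem Ed.symm {A : Set ι} {i j : ι} (h : Ed x A i j) : Ed x A j i :=
  ⟨h.1.symm, by rw [Set.pair_comm]; exact h.2.1, h.2.2.2, h.2.2.1⟩

omit [Finite ι] in
theorem ed_of_adj (hE : AllExt x) {A R : Set ι} {ψ : V →ₗ[ℝ] ℝ} {i : ι} (hiA : i ∈ A)
    (hi : 0 < ψ (x i)) (h : ReflTransGen (AdjPos x A ψ) {i} R) :
    ∃ j, R = {j} ∧ Cn (Ed x A) {k | k ∈ A ∧ 0 < ψ (x k)} i j := by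
  induction h with
  | refl => exact ⟨i, rfl, Cn.refl' ⟨hiA, hi⟩⟩
  | tail _ h ih =>
    obtain ⟨j, rfl, hj⟩ := ih
    obtain ⟨G, h1, h2, h3, h4, h5, h6, h7, h8⟩ := h
    obtain ⟨k, hk⟩ := h8.nonempty
    have hkG := h6 hk
    have hjG : j ∈ G := h5 rfl
    refine ⟨k, atom_single hE h8 hk, ?_⟩
    by_cases hjk : j = k
    · rw [← hjk]; exact hj
    · have e := eq_pair hE h2 hjG hkG hjk
      exact hj.tail ⟨hjk, by rw [← e]; exact h1, h3 hjG, h3 hkG⟩ ⟨h3 hkG, h4 k hkG⟩

theorem improve_ed (hφ : ∀ i, 0 < φ (x i)) (hE : AllExt x) {A : Set ι} (hA : Face x A)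
    {ψ : V →ₗ[ℝ] ℝ} {i j : ι} (hi : i ∈ A) (h0 : ψ (x i) = 0) (hj : j ∈ A)
    (hψ : 0 < ψ (x j)) : ∃ k, k ∈ A ∧ 0 < ψ (x k) ∧ Ed x A i k := by
  obtain ⟨G, R', hG, hRG, hGA, hrk, -, hR'G, hR', hpos⟩ :=
    improve hφ hA (hE i) (Set.singleton_subset_iff.2 hi) (ψ := ψ)
      (by rintro _ rfl; exact h0) hj hψ
  obtain ⟨k, hk⟩ := hR'.nonempty
  have hik : i ≠ k := by
    rintro rfl
    have := hpos i hk
    rw [h0] at this
    exact lt_irrefl _ this
  have hiG : i ∈ G := hRG rfl
  have e := eq_pair hE hrk hiG (hR'G hk) hik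
  exact ⟨k, hGA (hR'G hk), hpos k hk, hik, by rw [← e]; exact hG, hi, hGA (hR'G hk)⟩

/-- **Balinski's theorem**: the graph of a `(g)`-dimensional face stays connected after the
removal of fewer than `g` vertices. -/
theorem balinski (hφ : ∀ i, 0 < φ (x i)) (hE : AllExt x) {A : Set ι} (hA : Face x A)
    {S : Set ι} (hS : S.ncard + 2 ≤ rk x A) {a b : ι} (ha : a ∈ A) (hb : b ∈ A) (haS : a ∉ S)
    (hbS : b ∉ S) : Cn (Ed x A) Sᶜ a b := by
  -- a functional vanishing on `S` and `b`
  obtain ⟨k, hkA, hk⟩ : ∃ k ∈ A, x k ∉ Submodule.span ℝ (x '' insert b S) := by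
    by_contra hcon
    push Not at hcon
    have h1 : rk x A ≤ rk x (insert b S) := by
      refine Submodule.finrank_mono ?_
      rw [Submodule.span_le]
      rintro _ ⟨i, hi, rfl⟩
      exact hcon i hi
    have h2 := rk_le_ncard (x := x) (insert b S)
    have h3 := Set.ncard_insert_le b S
    omega
  obtain ⟨f, hfk, hf⟩ := Submodule.exists_le_ker_of_notMem hk
  have hf0 : ∀ i ∈ insert b S, f (x i) = 0 := fun i hi =>
    hf (Submodule.subset_span ⟨i, hi, rfl⟩)
  obtain ⟨ψ, hψk, hψ0⟩ : ∃ ψ : V →ₗ[ℝ] ℝ, 0 < ψ (x k) ∧ ∀ i ∈ insert b S, ψ (x i) = 0 := by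
    rcases lt_or_gt_of_ne hfk with h | h
    · exact ⟨-f, by simpa using h, fun i hi => by simp [hf0 i hi]⟩
    · exact ⟨f, h, hf0⟩
  have hψb : ψ (x b) = 0 := hψ0 b (Or.inl rfl)
  have hnS : ∀ i, 0 < ψ (x i) → i ∉ S := fun i hi h => by
    rw [hψ0 i (Or.inr h)] at hi
    exact lt_irrefl _ hi
  have hnS' : ∀ i, 0 < (-ψ) (x i) → i ∉ S := fun i hi h => by
    rw [LinearMap.neg_apply, hψ0 i (Or.inr h)] at hi
    simp at hi
  -- vertices on the positive side are connected
  have pos : ∀ (ψ : V →ₗ[ℝ] ℝ), (∀ i, 0 < ψ (x i) → i ∉ S) → ∀ i j, i ∈ A → j ∈ A →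
      0 < ψ (x i) → 0 < ψ (x j) → Cn (Ed x A) Sᶜ i j := by
    intro ψ hn i j hi hj h1 h2
    have h3 := connected hφ hA ψ (hE i) (Set.singleton_subset_iff.2 hi)
      (by rintro _ rfl; exact h1) (hE j) (Set.singleton_subset_iff.2 hj)
      (by rintro _ rfl; exact h2)
    obtain ⟨j', hj', h4⟩ := ed_of_adj hE hi h1 h3
    have : j = j' := by
      have : j ∈ ({j'} : Set ι) := by rw [← hj']; rfl
      exact this
    subst this
    exact h4.mono (fun _ _ h => h) fun i hi => hn i hi.2
  obtain ⟨b', hb'A, hb', hbb'⟩ := improve_ed hφ hE hA hb hψb hkA hψk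
  have hb'S := hnS b' hb'
  rcases lt_trichotomy (ψ (x a)) 0 with h | h | h
  · have ha' : 0 < (-ψ) (x a) := by simpa using h
    obtain ⟨c, hcA, hc, hbc⟩ := improve_ed hφ hE hA hb (ψ := -ψ) (by simp [hψb]) ha ha'
    exact (pos (-ψ) hnS' a c ha hcA ha' hc).tail hbc.symm hbS
  · obtain ⟨c, hcA, hc, hac⟩ := improve_ed hφ hE hA ha h hkA hψk
    have h1 : Cn (Ed x A) Sᶜ a c := (Cn.refl' haS).tail hac (hnS c hc)
    exact (h1.trans (pos ψ hnS c b' hcA hb'A hc hb')).tail hbb'.symm hbS
  · exact (pos ψ hnS a b' ha hb'A h hb').tail hbb'.symm hbS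

omit [FiniteDimensional ℝ V] [Finite ι] in
theorem cn_inter {A U : Set ι} {a b : ι} (ha : a ∈ A) (h : Cn (Ed x A) U a b) :
    Cn (Ed x A) (U ∩ A) a b :=
  ⟨⟨h.1, ha⟩, h.2.lift id fun _ _ h => ⟨h.1, h.2, h.1.2.2.2⟩⟩

omit [FiniteDimensional ℝ V] [Finite ι] in
theorem to_fin {E : ι → ι → Prop} {a b : ι} {k : ℕ}
    (h : ∃ (I : Set ι) (U : ι → Set ι), I.ncard = k ∧ I.Finite ∧ (∀ i ∈ I, Cn E (U i) a b) ∧
      ∀ i ∈ I, ∀ j ∈ I, i ≠ j → U i ∩ U j ⊆ {a, b}) :
    ∃ U : Fin k → Set ι, (∀ i, Cn E (U i) a b) ∧ ∀ i j, i ≠ j → U i ∩ U j ⊆ {a, b} := by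
  obtain ⟨I, U, hI, hfin, h1, h2⟩ := h
  haveI : Finite I := hfin
  have hc : Nat.card I = k := by rw [Nat.card_coe_set_eq, hI]
  set e := Finite.equivFinOfCardEq hc
  refine ⟨fun m => U (e.symm m), fun m => h1 _ (e.symm m).2, fun m n hmn => ?_⟩
  refine h2 _ (e.symm m).2 _ (e.symm n).2 fun h => hmn ?_
  exact e.symm.injective (Subtype.ext h)

/-- `g` disjoint edge paths in a face of dimension `g`. -/
theorem disjoint_paths (hφ : ∀ i, 0 < φ (x i)) (hE : AllExt x) {A : Set ι} (hA : Face x A)
    {a b : ι} (ha : a ∈ A) (hb : b ∈ A) (hab : a ≠ b) {g : ℕ} (hg : g + 1 = rk x A) :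
    ∃ U : Fin g → Set ι, (∀ i, Cn (Ed x A) (U i) a b) ∧
      ∀ i j, i ≠ j → U i ∩ U j ⊆ {a, b} := by
  by_cases hadj : Ed x A a b
  · -- adjacent
    set E' : ι → ι → Prop := fun p q => Ed x A p q ∧ ¬ (p = a ∧ q = b) ∧ ¬ (p = b ∧ q = a)
      with hE'
    have hs' : ∀ p q, E' p q → E' q p := fun p q h =>
      ⟨h.1.symm, fun h' => h.2.2 ⟨h'.2, h'.1⟩, fun h' => h.2.1 ⟨h'.2, h'.1⟩⟩
    have hcard : g + 1 ≤ A.ncard := by rw [hg]; exact rk_le_ncard A
    obtain ⟨g', rfl⟩ : ∃ g', g = g' + 1 := by
      have h1 : rk x {a, b} ≤ rk x A := rk_mono (by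
        rintro _ (rfl | rfl)
        · exact ha
        · exact hb)
      rw [rk_pair hE hab] at h1
      exact ⟨g - 1, by omega⟩
    have hm := menger E' hs' hab (fun h => h.2.1 ⟨rfl, rfl⟩) g' (fun S haS hbS hSk => by
      obtain ⟨c, hcA, hc⟩ : ∃ c ∈ A, c ∉ insert a (insert b S) := by
        by_contra hcon
        push Not at hcon
        have h1 : A.ncard ≤ (insert a (insert b S)).ncard := Set.ncard_le_ncard hcon
        have h2 := Set.ncard_insert_le a (insert b S)
        have h3 := Set.ncard_insert_le b S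
        omega
      simp only [Set.mem_insert_iff, not_or] at hc
      obtain ⟨hca, hcb, hcS⟩ := hc
      have key : ∀ d e : ι, (d = a ∧ e = b) ∨ (d = b ∧ e = a) → c ≠ d → e ∉ S → e ∈ A →
          Cn E' Sᶜ c e := by
        intro d e hde hcd heS heA
        have hed : e ≠ d := by
          rcases hde with ⟨rfl, rfl⟩ | ⟨rfl, rfl⟩
          · exact hab.symm
          · exact hab
        have h1 : (insert d S).ncard + 2 ≤ rk x A := by
          have := Set.ncard_insert_le d S
          omega
        have h2 := balinski hφ hE hA h1 hcA heA (by simp [hcd, hcS]) (by simp [hed, heS])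
        refine h2.ind (P := fun u => Cn E' Sᶜ c u) (Cn.refl' hcS) ?_
        intro p q hp hpP hpq hq
        have hpd : p ≠ d := fun h => hp (Or.inl h)
        have hqd : q ≠ d := fun h => hq (Or.inl h)
        refine hpP.tail ⟨hpq, ?_, ?_⟩ fun h => hq (Or.inr h)
        · rintro ⟨rfl, rfl⟩
          rcases hde with ⟨rfl, rfl⟩ | ⟨rfl, rfl⟩
          · exact hpd rfl
          · exact hqd rfl
        · rintro ⟨rfl, rfl⟩
          rcases hde with ⟨rfl, rfl⟩ | ⟨rfl, rfl⟩
          · exact hqd rfl
          · exact hpd rfl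
      have k1 := key a b (Or.inl ⟨rfl, rfl⟩) hca hbS hb
      have k2 := key b a (Or.inr ⟨rfl, rfl⟩) hcb haS ha
      exact (k2.symm hs').trans k1)
    obtain ⟨I, U, h1, h2, h3⟩ := hm
    obtain ⟨U', h4, h5⟩ := to_fin ⟨I, U, h1, I.toFinite, h2, h3⟩
    refine ⟨Fin.cons {a, b} U', fun i => ?_, fun i j hij => ?_⟩
    · refine Fin.cases ?_ (fun i => ?_) i
      · rw [Fin.cons_zero]
        exact (Cn.refl' (by simp)).tail hadj (by simp)
      · rw [Fin.cons_succ]
        exact (h4 i).mono (fun _ _ h => h.1) le_rfl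
    · revert hij
      refine Fin.cases ?_ (fun i => ?_) i
      · intro _
        rw [Fin.cons_zero]
        exact Set.inter_subset_left
      · refine Fin.cases ?_ (fun j => ?_) j
        · intro _
          rw [Fin.cons_zero]
          exact Set.inter_subset_right
        · intro hij
          rw [Fin.cons_succ, Fin.cons_succ]
          exact h5 i j fun h => hij (by rw [h])
  · obtain ⟨I, U, h1, h2, h3⟩ := menger (Ed x A) (fun _ _ h => h.symm) hab hadj g
      (fun S haS hbS hSk => balinski hφ hE hA (by omega) ha hb haS hbS)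
    exact to_fin ⟨I, U, h1, I.toFinite, h2, h3⟩

/-! ### Thick paths between vertices -/

/-- a path of `m`-faces inside `U` from the vertex `a` to the vertex `b` -/
def PathIn (x : ι → V) (U : Set ι) (m : ℕ) (a b : ι) : Prop :=
  ∃ X Y, a ∈ X ∧ b ∈ Y ∧ Reach x U m X Y

theorem path_of_cn (hE : AllExt x) {A U : Set ι} {a b : ι} (hab : a ≠ b)
    (h : Cn (Ed x A) U a b) : PathIn x U 1 a b := by
  have key : b = a ∨ ∃ X Y, a ∈ X ∧ b ∈ Y ∧ Reach x U 1 X Y := by
    refine h.ind (P := fun w => w = a ∨ ∃ X Y, a ∈ X ∧ w ∈ Y ∧ Reach x U 1 X Y)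
      (Or.inl rfl) ?_
    intro p q hp hpP hpq hq
    right
    have hgood : Good x U 1 {p, q} := by
      refine ⟨hpq.2.1, ?_, rk_pair hE hpq.1⟩
      rintro _ (rfl | rfl)
      · exact hp
      · exact hq
    rcases hpP with rfl | ⟨X, Y, hX, hY, hXY⟩
    · exact ⟨{p, q}, {p, q}, by simp, by simp, Reach.refl' hgood⟩
    · refine ⟨X, {p, q}, hX, by simp, hXY.trans ?_⟩
      exact reach_of_common (R := {p}) hXY.2.1 hgood (Set.singleton_subset_iff.2 hY) (by simp)
        (hE p).2
  rcases key with h1 | h1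
  · exact absurd h1.symm hab
  · exact h1

/-- Disjoint thick paths in the face `A`, one for every `i` with `1 ≤ c i`. -/
def LP (x : ι → V) (A : Set ι) (a b : ι) {κ : Type*} (c : κ → ℕ) : Prop :=
  ∃ U : κ → Set ι, (∀ i, U i ⊆ A) ∧ (∀ i, 1 ≤ c i → PathIn x (U i) (c i) a b) ∧
    ∀ i j, i ≠ j → 1 ≤ c i → 1 ≤ c j → U i ∩ U j ⊆ {a, b}

/-- The increment step. -/
theorem step (hφ : ∀ i, 0 < φ (x i)) (hE : AllExt x) {A F : Set ι} (hA : Face x A)
    (hF : Face x F) (hFA : F ⊂ A) {a b : ι} (ha : a ∈ F) (hb : b ∈ F) {κ : Type*}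
    [DecidableEq κ] {c : κ → ℕ} (h : LP x F a b c) (i : κ) :
    LP x A a b (Function.update c i (c i + 1)) := by
  obtain ⟨U, hUF, hU, hd⟩ := h
  have hT : rk x (∅ : Set ι) = 0 := rk_empty
  by_cases h0 : c i = 0
  · -- a new edge path
    obtain ⟨G, G', hG, hG', hr⟩ := link hA hF hFA (face_empty hφ) (hE a).1 (hE b).1
      (Set.empty_subset _) (Set.empty_subset _) (Set.singleton_subset_iff.2 ha)
      (Set.singleton_subset_iff.2 hb) (by rw [hT, (hE a).2]) (by rw [hT, (hE b).2])
    rw [hT, zero_add] at hr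
    refine ⟨Function.update U i ({a} ∪ {b} ∪ (A \ F)), fun j => ?_, fun j hj => ?_,
      fun j k hjk hj hk => ?_⟩
    · by_cases hji : j = i
      · subst hji
        rw [Function.update_self]
        rintro k ((hk | hk) | hk)
        · exact hFA.subset (by rw [hk]; exact ha)
        · exact hFA.subset (by rw [hk]; exact hb)
        · exact hk.1
      · rw [Function.update_of_ne hji]
        exact (hUF j).trans hFA.subset
    · by_cases hji : j = i
      · subst hji
        rw [Function.update_self, Function.update_self, h0, zero_add]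
        exact ⟨G, G', hG rfl, hG' rfl, hr⟩
      · rw [Function.update_of_ne hji] at hj
        rw [Function.update_of_ne hji, Function.update_of_ne hji]
        exact hU j hj
    · have main : ∀ k, ({a} ∪ {b} ∪ (A \ F)) ∩ U k ⊆ {a, b} := by
        rintro k y ⟨(hy | hy) | hy, hyk⟩
        · exact Or.inl hy
        · exact Or.inr hy
        · exact absurd (hUF k hyk) hy.2
      by_cases hji : j = i
      · subst hji
        have hkj : k ≠ j := hjk.symm
        rw [Function.update_self, Function.update_of_ne hkj]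
        exact main k
      · rw [Function.update_of_ne hji] at hj ⊢
        by_cases hki : k = i
        · subst hki
          rw [Function.update_self, Set.inter_comm]
          exact main j
        · rw [Function.update_of_ne hki] at hk ⊢
          exact hd j k hjk hj hk
  · -- thicken
    have h1 : 1 ≤ c i := Nat.one_le_iff_ne_zero.2 h0
    obtain ⟨X, Y, hX, hY, hXY⟩ := hU i h1
    obtain ⟨G, G', hG, hG', hr⟩ := thicken hA hF hFA (hUF i) hXY
    refine ⟨Function.update U i (U i ∪ (A \ F)), fun j => ?_, fun j hj => ?_,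
      fun j k hjk hj hk => ?_⟩
    · by_cases hji : j = i
      · subst hji
        rw [Function.update_self]
        rintro k (hk | hk)
        · exact hFA.subset (hUF j hk)
        · exact hk.1
      · rw [Function.update_of_ne hji]
        exact (hUF j).trans hFA.subset
    · by_cases hji : j = i
      · subst hji
        rw [Function.update_self, Function.update_self]
        exact ⟨G, G', hG hX, hG' hY, hr⟩
      · rw [Function.update_of_ne hji] at hj
        rw [Function.update_of_ne hji, Function.update_of_ne hji]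
        exact hU j hj
    · have main : ∀ k, k ≠ i → 1 ≤ c k → (U i ∪ (A \ F)) ∩ U k ⊆ {a, b} := by
        rintro k hki hk y ⟨hy | hy, hyk⟩
        · exact hd i k hki.symm h1 hk ⟨hy, hyk⟩
        · exact absurd (hUF k hyk) hy.2
      by_cases hji : j = i
      · subst hji
        have hkj : k ≠ j := hjk.symm
        rw [Function.update_of_ne hkj] at hk
        rw [Function.update_self, Function.update_of_ne hkj]
        exact main k hkj hk
      · rw [Function.update_of_ne hji] at hj ⊢
        by_cases hki : k = i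
        · subst hki
          rw [Function.update_self, Set.inter_comm]
          exact main j hji hj
        · rw [Function.update_of_ne hki] at hk ⊢
          exact hd j k hjk hj hk

/-- Going up from a face `G`. -/
theorem climb_up (hφ : ∀ i, 0 < φ (x i)) (hE : AllExt x) {G : Set ι} (hG : Face x G) {a b : ι}
    (ha : a ∈ G) (hb : b ∈ G) {κ : Type*} [Fintype κ] {c₀ : κ → ℕ} (h₀ : LP x G a b c₀)
    (hs₀ : ∑ i, c₀ i + 1 = rk x G) (n : ℕ) :
    ∀ {A : Set ι}, Face x A → G ⊆ A → rk x A = rk x G + n → ∀ c : κ → ℕ, (∀ i, c₀ i ≤ c i) →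
      ∑ i, c i + 1 = rk x A → LP x A a b c := by
  classical
  induction n with
  | zero =>
    intro A hA hGA hrk c hle hs
    have e : G = A := eq_of_rk hG hGA (by omega)
    subst e
    have : c = c₀ := by
      have h1 : ∑ i, c₀ i = ∑ i, c i := by omega
      have h2 := (Finset.sum_eq_sum_iff_of_le (fun i _ => hle i)).1 h1
      funext i
      exact (h2 i (Finset.mem_univ i)).symm
    rw [this]
    exact h₀
  | succ n ih =>
    intro A hA hGA hrk c hle hs
    obtain ⟨i, hi⟩ : ∃ i, c₀ i < c i := by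
      by_contra hcon
      push Not at hcon
      have : ∑ i, c i ≤ ∑ i, c₀ i := Finset.sum_le_sum fun i _ => hcon i
      omega
    have hss : G ⊂ A := by
      refine hGA.ssubset_of_ne ?_
      rintro rfl
      omega
    obtain ⟨F, hF, hGF, hFA, hrF⟩ := exists_facet hA hG hss
    have hFA' : F ⊂ A := by
      refine hFA.ssubset_of_ne ?_
      rintro rfl
      omega
    have hLP : LP x F a b (Function.update c i (c i - 1)) := by
      refine ih hF hGF (by omega) _ (fun j => ?_) ?_
      · by_cases hj : j = i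
        · subst hj
          rw [Function.update_self]
          omega
        · rw [Function.update_of_ne hj]
          exact hle j
      · have h1 := Finset.sum_update_of_mem (Finset.mem_univ i) c (c i - 1)
        have h2 := Finset.sum_update_of_mem (Finset.mem_univ i) c (c i)
        rw [Function.update_eq_self] at h2
        omega
    have := step hφ hE hA hF hFA' (hGF ha) (hGF hb) hLP i
    rw [Function.update_self, Function.update_idem] at this
    have e : c i - 1 + 1 = c i := by omega
    rw [e, Function.update_eq_self] at this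
    exact this

/-- **Main theorem for configurations.** -/
theorem lockeberg_config (hφ : ∀ i, 0 < φ (x i)) (hE : AllExt x) {A G : Set ι} (hA : Face x A)
    (hG : Face x G) (hGA : G ⊆ A) {a b : ι} (ha : a ∈ G) (hb : b ∈ G) (hab : a ≠ b) {g : ℕ}
    (hg : g + 1 = rk x G) {κ : Type*} [Fintype κ] (c : κ → ℕ) (hc : ∀ i, 1 ≤ c i)
    (hs : ∑ i, c i + 1 = rk x A) (h : (∃ i, g ≤ c i) ∨ g ≤ Fintype.card κ) :
    LP x A a b c := by
  classical
  have hn : ∃ n, rk x A = rk x G + n := ⟨rk x A - rk x G, by
    have := rk_mono (x := x) hGA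
    omega⟩
  obtain ⟨n, hn⟩ := hn
  rcases h with ⟨i, hi⟩ | hk
  · -- one part is at least `g`: start with `G` itself
    have h₀ : LP x G a b (Pi.single i g : κ → ℕ) := by
      refine ⟨fun j => if j = i then G else ∅, fun j => ?_, fun j hj => ?_,
        fun j k hjk hj hk => ?_⟩
      · by_cases hji : j = i
        · simp only [if_pos hji]; exact subset_rfl
        · simp only [if_neg hji]; exact Set.empty_subset _
      · by_cases hji : j = i
        · subst hji
          simp only [if_true, Pi.single_eq_same]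
          exact ⟨G, G, ha, hb, Reach.refl' ⟨hG, le_rfl, hg.symm⟩⟩
        · rw [Pi.single_eq_of_ne hji] at hj
          omega
      · have hji : j = i := by
          by_contra h'
          rw [Pi.single_eq_of_ne h'] at hj
          omega
        have hki : k = i := by
          by_contra h'
          rw [Pi.single_eq_of_ne h'] at hk
          omega
        exact absurd (hji.trans hki.symm) hjk
    refine climb_up hφ hE hG ha hb h₀ ?_ n hA hGA hn c (fun j => ?_) hs
    · rw [Finset.sum_pi_single']
      simpa using hg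
    · by_cases hji : j = i
      · subst hji; rw [Pi.single_eq_same]; exact hi
      · rw [Pi.single_eq_of_ne hji]; exact Nat.zero_le _
  · -- at least `g` parts: start with Balinski's theorem
    obtain ⟨U, hU, hd⟩ := disjoint_paths hφ hE hG ha hb hab hg
    obtain ⟨f⟩ : Nonempty (Fin g ↪ κ) := by
      rw [Function.Embedding.nonempty_iff_card_le]
      simpa using hk
    set c₀ : κ → ℕ := fun i => if i ∈ Set.range f then 1 else 0 with hc₀
    have h₀ : LP x G a b c₀ := by
      refine ⟨fun i => if h : i ∈ Set.range f then U h.choose ∩ G else ∅, fun j => ?_,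
        fun j hj => ?_, fun j k hjk hj hk => ?_⟩
      · by_cases hj : j ∈ Set.range f
        · simp only [dif_pos hj]; exact Set.inter_subset_right
        · simp only [dif_neg hj]; exact Set.empty_subset _
      · by_cases hj' : j ∈ Set.range f
        · simp only [dif_pos hj', hc₀, if_pos hj']
          exact path_of_cn hE hab (cn_inter ha (hU _))
        · simp only [hc₀, if_neg hj'] at hj
          omega
      · have hj' : j ∈ Set.range f := by
          by_contra h'
          simp only [hc₀, if_neg h'] at hj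
          omega
        have hk' : k ∈ Set.range f := by
          by_contra h'
          simp only [hc₀, if_neg h'] at hk
          omega
        simp only [dif_pos hj', dif_pos hk']
        refine subset_trans (Set.inter_subset_inter Set.inter_subset_left Set.inter_subset_left)
          (hd _ _ fun h' => hjk ?_)
        rw [← hj'.choose_spec, ← hk'.choose_spec, h']
    refine climb_up hφ hE hG ha hb h₀ ?_ n hA hGA hn c (fun j => ?_) hs
    · have : ∑ i, c₀ i = g := by
        rw [hc₀, Finset.sum_ite, Finset.sum_const_zero, add_zero, Finset.sum_const, smul_eq_mul,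
          mul_one]
        have e : (Finset.univ.filter fun i => i ∈ Set.range f) = Finset.univ.map f := by
          ext i
          simp
        rw [e, Finset.card_map, Finset.card_univ, Fintype.card_fin]
      rw [this, hg]
    · by_cases hj : j ∈ Set.range f
      · simp only [hc₀, if_pos hj]; exact hc j
      · simp only [hc₀, if_neg hj]; exact Nat.zero_le _

end Pool.Agent.Lock
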