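import Pool.Agent.Lock.Ops

set_option autoImplicit false

/-!
# One-point suspensions
-/

namespace Pool.Agent.Lock

variable {d : ℕ} {K : Set (Finset ℕ)}

/-- The one-point suspension of `K` at the vertex `c` with the new vertex `b`. -/
def wedge (K : Set (Finset ℕ)) (c b : ℕ) : Set (Finset ℕ) :=
  {ρ | ∃ σ ∈ K, ρ = insert b σ ∨ (c ∉ σ ∧ ρ = insert c σ)}

theorem eq_of_subset_pm (hK : PM d K) {σ τ : Finset ℕ} (hσ : σ ∈ K) (hτ : τ ∈ K) (h : σ ⊆ τ) :
    σ = τ := Finset.eq_of_subset_of_card_le h (by rw [hK.card _ hσ, hK.card _ hτ])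

theorem sub_of_insert {σ τ : Finset ℕ} {b : ℕ} (hb : b ∉ σ) (h : σ ⊆ insert b τ) : σ ⊆ τ :=
  fun y hy => (Finset.mem_insert.1 (h hy)).resolve_left fun e => hb (e ▸ hy)

theorem pm_wedge (hK : PM d K) {c b : ℕ} (hb : ∀ σ ∈ K, b ∉ σ) (hc : ∃ σ ∈ K, c ∈ σ) :
    PM (d + 1) (wedge K c b) := by
  classical
  have hcb : c ≠ b := by
    obtain ⟨σ, hσ, hcσ⟩ := hc
    exact fun e => hb σ hσ (e ▸ hcσ)
  refine ⟨?_, ?_, ?_⟩
  · refine ((hK.fin.image fun σ => insert b σ).union (hK.fin.image fun σ => insert c σ)).subset ?_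
    rintro ρ ⟨σ, hσ, rfl | ⟨-, rfl⟩⟩
    · exact Or.inl ⟨σ, hσ, rfl⟩
    · exact Or.inr ⟨σ, hσ, rfl⟩
  · rintro ρ ⟨σ, hσ, rfl | ⟨h, rfl⟩⟩
    · rw [Finset.card_insert_of_notMem (hb σ hσ), hK.card _ hσ]
    · rw [Finset.card_insert_of_notMem h, hK.card _ hσ]
  · rintro ρ ⟨σ, hσ, rfl | ⟨hcσ, rfl⟩⟩ u hu
    · by_cases hub : u = b
      · subst hub
        rw [Finset.erase_insert (hb σ hσ)]
        by_cases hcσ : c ∈ σ
        · obtain ⟨τ, hτ, hne, hsub, huniq⟩ := hK.two σ hσ c hcσ
          have hcτ : c ∉ τ := fun h => hne (eq_of_subset_pm hK hσ hτ (by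
            intro y hy
            by_cases hyc : y = c
            · rw [hyc]; exact h
            · exact hsub (Finset.mem_erase.2 ⟨hyc, hy⟩))).symm
          refine ⟨insert c τ, ⟨τ, hτ, Or.inr ⟨hcτ, rfl⟩⟩, ?_, ?_, ?_⟩
          · intro e
            have : u ∈ insert c τ := by rw [e]; exact Finset.mem_insert_self _ _
            rcases Finset.mem_insert.1 this with h | h
            · exact hcb h.symm
            · exact hb τ hτ h
          · intro y hy
            by_cases hyc : y = c
            · rw [hyc]; exact Finset.mem_insert_self _ _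
            · exact Finset.mem_insert_of_mem (hsub (Finset.mem_erase.2 ⟨hyc, hy⟩))
          · rintro ρ ⟨κ, hκ, rfl | ⟨hcκ, rfl⟩⟩ h
            · left
              rw [eq_of_subset_pm hK hσ hκ (sub_of_insert (hb σ hσ) h)]
            · right
              have : σ.erase c ⊆ κ := by
                intro y hy
                obtain ⟨h1, h2⟩ := Finset.mem_erase.1 hy
                exact (Finset.mem_insert.1 (h h2)).resolve_left h1
              rcases huniq κ hκ this with e | e
              · rw [e] at hcκ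
                exact absurd hcσ hcκ
              · rw [e]
        · refine ⟨insert c σ, ⟨σ, hσ, Or.inr ⟨hcσ, rfl⟩⟩, ?_, Finset.subset_insert _ _, ?_⟩
          · intro e
            have : u ∈ insert c σ := by rw [e]; exact Finset.mem_insert_self _ _
            rcases Finset.mem_insert.1 this with h | h
            · exact hcb h.symm
            · exact hb σ hσ h
          · rintro ρ ⟨κ, hκ, rfl | ⟨hcκ, rfl⟩⟩ h
            · left
              rw [eq_of_subset_pm hK hσ hκ (sub_of_insert (hb σ hσ) h)]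
            · right
              rw [eq_of_subset_pm hK hσ hκ (sub_of_insert hcσ h)]
      · have huσ : u ∈ σ := (Finset.mem_insert.1 hu).resolve_left hub
        obtain ⟨τ, hτ, hne, hsub, huniq⟩ := hK.two σ hσ u huσ
        have e1 : (insert b σ).erase u = insert b (σ.erase u) :=
          Finset.erase_insert_of_ne (Ne.symm hub)
        rw [e1]
        refine ⟨insert b τ, ⟨τ, hτ, Or.inl rfl⟩, ?_, Finset.insert_subset_insert _ hsub, ?_⟩
        · intro e
          apply hne
          apply eq_of_subset_pm hK hτ hσ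
          apply sub_of_insert (hb τ hτ)
          rw [← e]; exact Finset.subset_insert _ _
        · rintro ρ ⟨κ, hκ, rfl | ⟨hcκ, rfl⟩⟩ h
          · have : σ.erase u ⊆ κ := sub_of_insert
              (fun h' => hb σ hσ (Finset.mem_of_mem_erase h'))
              ((Finset.subset_insert _ _).trans h)
            rcases huniq κ hκ this with e | e
            · left; rw [e]
            · right; rw [e]
          · exfalso
            rcases Finset.mem_insert.1 (h (Finset.mem_insert_self _ _)) with h' | h'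
            · exact hcb h'.symm
            · exact hb κ hκ h'
    · by_cases huc : u = c
      · subst huc
        rw [Finset.erase_insert hcσ]
        refine ⟨insert b σ, ⟨σ, hσ, Or.inl rfl⟩, ?_, Finset.subset_insert _ _, ?_⟩
        · intro e
          have : b ∈ insert u σ := by rw [← e]; exact Finset.mem_insert_self _ _
          rcases Finset.mem_insert.1 this with h | h
          · exact hcb h.symm
          · exact hb σ hσ h
        · rintro ρ ⟨κ, hκ, rfl | ⟨hcκ, rfl⟩⟩ h
          · right
            rw [eq_of_subset_pm hK hσ hκ (sub_of_insert (hb σ hσ) h)]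
          · left
            rw [eq_of_subset_pm hK hσ hκ (sub_of_insert hcσ h)]
      · have huσ : u ∈ σ := (Finset.mem_insert.1 hu).resolve_left huc
        obtain ⟨τ, hτ, hne, hsub, huniq⟩ := hK.two σ hσ u huσ
        have e1 : (insert c σ).erase u = insert c (σ.erase u) :=
          Finset.erase_insert_of_ne (Ne.symm huc)
        rw [e1]
        have hcσu : c ∉ σ.erase u := fun h => hcσ (Finset.mem_of_mem_erase h)
        by_cases hcτ : c ∈ τ
        · have e2 : insert c (σ.erase u) = τ := by
            apply Finset.eq_of_subset_of_card_le (Finset.insert_subset hcτ hsub)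
            rw [Finset.card_insert_of_notMem hcσu, Finset.card_erase_of_mem huσ, hK.card _ hσ,
              hK.card _ hτ]
            omega
          refine ⟨insert b τ, ⟨τ, hτ, Or.inl rfl⟩, ?_, ?_, ?_⟩
          · intro e
            have : b ∈ insert c σ := by rw [← e]; exact Finset.mem_insert_self _ _
            rcases Finset.mem_insert.1 this with h | h
            · exact hcb h.symm
            · exact hb σ hσ h
          · rw [e2]; exact Finset.subset_insert _ _
          · rintro ρ ⟨κ, hκ, rfl | ⟨hcκ, rfl⟩⟩ h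
            · right
              rw [e2] at h
              rw [eq_of_subset_pm hK hτ hκ (sub_of_insert (hb τ hτ) h)]
            · have h3 : σ.erase u ⊆ κ := sub_of_insert hcσu ((Finset.subset_insert _ _).trans h)
              rcases huniq κ hκ h3 with e | e
              · left; rw [e]
              · rw [e] at hcκ
                exact absurd hcτ hcκ
        · refine ⟨insert c τ, ⟨τ, hτ, Or.inr ⟨hcτ, rfl⟩⟩, ?_,
            Finset.insert_subset_insert _ hsub, ?_⟩
          · intro e
            apply hne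
            apply eq_of_subset_pm hK hτ hσ
            apply sub_of_insert hcτ
            rw [← e]; exact Finset.subset_insert _ _
          · rintro ρ ⟨κ, hκ, rfl | ⟨hcκ, rfl⟩⟩ h
            · exfalso
              have hcκ : c ∈ κ :=
                (Finset.mem_insert.1 (h (Finset.mem_insert_self _ _))).resolve_left hcb
              have h3 : σ.erase u ⊆ κ := sub_of_insert
                (fun h' => hb σ hσ (Finset.mem_of_mem_erase h'))
                ((Finset.subset_insert _ _).trans h)
              rcases huniq κ hκ h3 with e | e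
              · rw [e] at hcκ
                exact hcσ hcκ
              · rw [e] at hcκ
                exact hcτ hcκ
            · have h3 : σ.erase u ⊆ κ := sub_of_insert hcσu ((Finset.subset_insert _ _).trans h)
              rcases huniq κ hκ h3 with e | e
              · left; rw [e]
              · right; rw [e]

section

variable {c b : ℕ} {σ σ' : Finset ℕ} {s : ℕ → ℕ}

/-- both members contain `b` -/
theorem her_wedge_bb (hb : ∀ σ ∈ K, b ∉ σ) (hc : ∃ σ ∈ K, c ∈ σ)
    (hσ : σ ∈ K) (hσ' : σ' ∈ K) (hs : Ret K σ σ' s) :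
    ∃ r, Ret (wedge K c b) (insert b σ) (insert b σ') r := by
  classical
  obtain ⟨κ, hκ, hcκ⟩ := hc
  set r : ℕ → ℕ := fun x => if x = b then b else s x with hr
  have rb : r b = b := if_pos rfl
  have hbx : ∀ τ ∈ K, ∀ x ∈ τ, x ≠ b := fun τ hτ x hx e => hb τ hτ (e ▸ hx)
  have rK : ∀ τ ∈ K, ∀ x ∈ τ, r x = s x := fun τ hτ x hx => if_neg (hbx τ hτ x hx)
  have hmem : ∀ ρ ∈ wedge K c b, ∀ x ∈ ρ, x = b ∨ ∃ τ ∈ K, x ∈ τ := by
    rintro ρ ⟨τ, hτ, rfl | ⟨-, rfl⟩⟩ x hx
    · rcases Finset.mem_insert.1 hx with h | h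
      · exact Or.inl h
      · exact Or.inr ⟨τ, hτ, h⟩
    · rcases Finset.mem_insert.1 hx with h | h
      · exact Or.inr ⟨κ, hκ, h ▸ hcκ⟩
      · exact Or.inr ⟨τ, hτ, h⟩
  refine ⟨r, ?_, ?_, ?_, ?_, ?_⟩
  · intro ρ hρ x hx
    rcases hmem ρ hρ x hx with rfl | ⟨τ, hτ, h⟩
    · rw [rb]; exact Finset.mem_insert_self _ _
    · rw [rK τ hτ x h]; exact Finset.mem_insert_of_mem (hs.mem τ hτ x h)
  · intro x hx
    rcases Finset.mem_insert.1 hx with rfl | h
    · exact rb
    · rw [rK σ hσ x h, hs.fix x h]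
  · intro y hy
    rcases Finset.mem_insert.1 hy with rfl | h
    · exact Finset.mem_image.2 ⟨y, Finset.mem_insert_self _ _, rb⟩
    · obtain ⟨z, hz, hzy⟩ := Finset.mem_image.1 (hs.top h)
      exact Finset.mem_image.2 ⟨z, Finset.mem_insert_of_mem hz, by rw [rK σ' hσ' z hz, hzy]⟩
  · intro ρ hρ hcov
    have hbσ := hb σ hσ
    -- `b` lies in `ρ`
    obtain ⟨z, hz, hzb⟩ := Finset.mem_image.1 (hcov (Finset.mem_insert_self b σ))
    have hzb' : z = b := by
      rcases hmem ρ hρ z hz with h | ⟨τ, hτ, h⟩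
      · exact h
      · rw [rK τ hτ z h] at hzb
        have := hs.mem τ hτ z h
        rw [hzb] at this
        exact absurd this hbσ
    rw [hzb'] at hz
    obtain ⟨τ, hτ, rfl | ⟨-, rfl⟩⟩ := hρ
    · have : σ ⊆ τ.image s := by
        intro y hy
        obtain ⟨z, hz, hzy⟩ := Finset.mem_image.1 (hcov (Finset.mem_insert_of_mem hy))
        rcases Finset.mem_insert.1 hz with rfl | h
        · rw [rb] at hzy
          rw [← hzy] at hy
          exact absurd hy hbσ
        · rw [rK τ hτ z h] at hzy
          exact Finset.mem_image.2 ⟨z, h, hzy⟩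
      rcases hs.only τ hτ this with e | e
      · left; rw [e]
      · right; rw [e]
    · exfalso
      rcases Finset.mem_insert.1 hz with h | h
      · exact hb κ hκ (h ▸ hcκ)
      · exact hb τ hτ h
  · intro x hx hxw ρ hρ y hy hyx
    rcases Finset.mem_insert.1 hx with rfl | h
    · rcases hmem ρ hρ y hy with h' | ⟨τ, hτ, h'⟩
      · exact h'
      · rw [rK τ hτ y h'] at hyx
        have := hs.mem τ hτ y h'
        rw [hyx] at this
        exact absurd this (hb σ hσ)
    · have hxb : x ≠ b := fun e => hb σ hσ (e ▸ h)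
      have hxσ' := (Finset.mem_insert.1 hxw).resolve_left hxb
      rcases hmem ρ hρ y hy with h' | ⟨τ, hτ, h'⟩
      · rw [h', rb] at hyx
        exact absurd hyx.symm hxb
      · rw [rK τ hτ y h'] at hyx
        exact hs.uniq x h hxσ' τ hτ y h' hyx

/-- the labelling that keeps `c` and gives `b` the label of `c` -/
theorem her_wedge_c (hb : ∀ σ ∈ K, b ∉ σ) (hc : ∃ σ ∈ K, c ∈ σ)
    (hσ : σ ∈ K) (hcσ : c ∉ σ) (hσ' : σ' ∈ K) (hs : Ret K σ σ' s) {w : Finset ℕ}
    (hw : (c ∉ σ' ∧ w = insert c σ') ∨ (c ∈ σ' ∧ w = insert b σ')) :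
    ∃ r, Ret (wedge K c b) (insert c σ) w r := by
  classical
  obtain ⟨κ, hκ, hcκ⟩ := hc
  have hcb : c ≠ b := fun e => hb κ hκ (e ▸ hcκ)
  set r : ℕ → ℕ := fun x => if x = c then c else if x = b then s c else s x with hr
  have rc : r c = c := if_pos rfl
  have rb : r b = s c := (if_neg hcb.symm).trans (if_pos rfl)
  have hbx : ∀ τ ∈ K, ∀ x ∈ τ, x ≠ b := fun τ hτ x hx e => hb τ hτ (e ▸ hx)
  have rK : ∀ τ ∈ K, ∀ x ∈ τ, x ≠ c → r x = s x := fun τ hτ x hx hxc =>
    (if_neg hxc).trans (if_neg (hbx τ hτ x hx))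
  have sc : s c ∈ σ := hs.mem κ hκ c hcκ
  have hwc : c ∈ w := by
    rcases hw with ⟨-, rfl⟩ | ⟨h, rfl⟩
    · exact Finset.mem_insert_self _ _
    · exact Finset.mem_insert_of_mem h
  have hwσ' : σ' ⊆ w := by
    rcases hw with ⟨-, rfl⟩ | ⟨h, rfl⟩
    · exact Finset.subset_insert _ _
    · exact Finset.subset_insert _ _
  have hmem : ∀ ρ ∈ wedge K c b, ∀ x ∈ ρ, x = c ∨ x = b ∨ (x ≠ c ∧ ∃ τ ∈ K, x ∈ τ) := by
    rintro ρ ⟨τ, hτ, h'⟩ x hx
    by_cases hxc : x = c
    · exact Or.inl hxc
    right
    rcases h' with rfl | ⟨-, rfl⟩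
    · rcases Finset.mem_insert.1 hx with h | h
      · exact Or.inl h
      · exact Or.inr ⟨hxc, τ, hτ, h⟩
    · exact Or.inr ⟨hxc, τ, hτ, (Finset.mem_insert.1 hx).resolve_left hxc⟩
  refine ⟨r, ?_, ?_, ?_, ?_, ?_⟩
  · intro ρ hρ x hx
    rcases hmem ρ hρ x hx with rfl | rfl | ⟨hxc, τ, hτ, h⟩
    · rw [rc]; exact Finset.mem_insert_self _ _
    · rw [rb]; exact Finset.mem_insert_of_mem sc
    · rw [rK τ hτ x h hxc]; exact Finset.mem_insert_of_mem (hs.mem τ hτ x h)
  · intro x hx
    rcases Finset.mem_insert.1 hx with rfl | h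
    · exact rc
    · rw [rK σ hσ x h (fun e => hcσ (e ▸ h)), hs.fix x h]
  · intro y hy
    rcases Finset.mem_insert.1 hy with rfl | h
    · exact Finset.mem_image.2 ⟨y, hwc, rc⟩
    · obtain ⟨z, hz, hzy⟩ := Finset.mem_image.1 (hs.top h)
      by_cases hzc : z = c
      · rcases hw with ⟨hn, rfl⟩ | ⟨-, rfl⟩
        · exact absurd (hzc ▸ hz) hn
        · exact Finset.mem_image.2 ⟨b, Finset.mem_insert_self _ _, by rw [rb, ← hzc, hzy]⟩
      · exact Finset.mem_image.2 ⟨z, hwσ' hz, by rw [rK σ' hσ' z hz hzc, hzy]⟩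
  · intro ρ hρ hcov
    obtain ⟨z, hz, hzc⟩ := Finset.mem_image.1 (hcov (Finset.mem_insert_self c σ))
    have hzc' : z = c := by
      rcases hmem ρ hρ z hz with h | rfl | ⟨hzc', τ, hτ, h⟩
      · exact h
      · rw [rb] at hzc
        rw [hzc] at sc
        exact absurd sc hcσ
      · rw [rK τ hτ z h hzc'] at hzc
        have := hs.mem τ hτ z h
        rw [hzc] at this
        exact absurd this hcσ
    rw [hzc'] at hz
    obtain ⟨τ, hτ, h'⟩ := hρ
    have hcover : σ ⊆ τ.image s := by
      intro y hy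
      obtain ⟨z', hz', hzy⟩ := Finset.mem_image.1 (hcov (Finset.mem_insert_of_mem hy))
      by_cases hz'c : z' = c
      · rw [hz'c, rc] at hzy
        rw [← hzy] at hy
        exact absurd hy hcσ
      rcases h' with rfl | ⟨-, rfl⟩
      · have hcτ := (Finset.mem_insert.1 hz).resolve_left hcb
        rcases Finset.mem_insert.1 hz' with h | h
        · rw [h, rb] at hzy
          exact Finset.mem_image.2 ⟨c, hcτ, hzy⟩
        · rw [rK τ hτ z' h hz'c] at hzy
          exact Finset.mem_image.2 ⟨z', h, hzy⟩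
      · have h := (Finset.mem_insert.1 hz').resolve_left hz'c
        rw [rK τ hτ z' h hz'c] at hzy
        exact Finset.mem_image.2 ⟨z', h, hzy⟩
    rcases h' with rfl | ⟨hcτ, rfl⟩
    · have hcτ := (Finset.mem_insert.1 hz).resolve_left hcb
      right
      rcases hs.only τ hτ hcover with e | e
      · exact absurd (e ▸ hcτ) hcσ
      · rcases hw with ⟨hn, -⟩ | ⟨-, rfl⟩
        · exact absurd (e ▸ hcτ) hn
        · rw [e]
    · rcases hs.only τ hτ hcover with e | e
      · left; rw [e]
      · right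
        rcases hw with ⟨-, rfl⟩ | ⟨hn, -⟩
        · rw [e]
        · exact absurd (e ▸ hn) hcτ
  · intro x hx hxw ρ hρ y hy hyx
    rcases Finset.mem_insert.1 hx with rfl | h
    · rcases hmem ρ hρ y hy with h' | rfl | ⟨hyc, τ, hτ, h'⟩
      · exact h'
      · rw [rb] at hyx
        rw [hyx] at sc
        exact absurd sc hcσ
      · rw [rK τ hτ y h' hyc] at hyx
        have := hs.mem τ hτ y h'
        rw [hyx] at this
        exact absurd this hcσ
    · have hxc : x ≠ c := fun e => hcσ (e ▸ h)
      have hxb : x ≠ b := fun e => hb σ hσ (e ▸ h)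
      have hxσ' : x ∈ σ' := by
        rcases hw with ⟨-, rfl⟩ | ⟨-, rfl⟩
        · exact (Finset.mem_insert.1 hxw).resolve_left hxc
        · exact (Finset.mem_insert.1 hxw).resolve_left hxb
      rcases hmem ρ hρ y hy with rfl | rfl | ⟨hyc, τ, hτ, h'⟩
      · rw [rc] at hyx
        exact hyx
      · rw [rb] at hyx
        exact absurd (hs.uniq x h hxσ' κ hκ c hcκ hyx).symm hxc
      · rw [rK τ hτ y h' hyc] at hyx
        exact hs.uniq x h hxσ' τ hτ y h' hyx

/-- the exchange case -/
theorem her_wedge_ex (hK : PM d K) (hb : ∀ σ ∈ K, b ∉ σ) (hc : ∃ σ ∈ K, c ∈ σ)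
    (hσ : σ ∈ K) (hcσ : c ∉ σ) (hσ' : σ' ∈ K) (hcσ' : c ∉ σ') (hs : Ret K σ σ' s) :
    ∃ r, Ret (wedge K c b) (insert c σ) (insert b σ') r := by
  classical
  obtain ⟨κ, hκ, hcκ⟩ := hc
  have hcb : c ≠ b := fun e => hb κ hκ (e ▸ hcκ)
  have sc : s c ∈ σ := hs.mem κ hκ c hcκ
  obtain ⟨g, hg, hgc⟩ := Finset.mem_image.1 (hs.top sc)
  have hgc' : g ≠ c := fun e => hcσ' (e ▸ hg)
  have hgb : g ≠ b := fun e => hb σ' hσ' (e ▸ hg)
  have hgσ : g ∉ σ := by
    intro h
    have h1 := hs.fix g h
    rw [hgc] at h1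
    exact hgc' (hs.uniq g h hg κ hκ c hcκ h1).symm
  set r : ℕ → ℕ := fun x => if x = c then c else if x = b then s c else if x = g then c else s x
    with hr
  have rc : r c = c := if_pos rfl
  have rb : r b = s c := (if_neg hcb.symm).trans (if_pos rfl)
  have rg : r g = c := (if_neg hgc').trans ((if_neg hgb).trans (if_pos rfl))
  have hbx : ∀ τ ∈ K, ∀ x ∈ τ, x ≠ b := fun τ hτ x hx e => hb τ hτ (e ▸ hx)
  have rK : ∀ τ ∈ K, ∀ x ∈ τ, x ≠ c → x ≠ g → r x = s x := fun τ hτ x hx hxc hxg =>
    (if_neg hxc).trans ((if_neg (hbx τ hτ x hx)).trans (if_neg hxg))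
  have hmem : ∀ ρ ∈ wedge K c b, ∀ x ∈ ρ, x = c ∨ x = b ∨ (x ≠ c ∧ ∃ τ ∈ K, x ∈ τ) := by
    rintro ρ ⟨τ, hτ, h'⟩ x hx
    by_cases hxc : x = c
    · exact Or.inl hxc
    right
    rcases h' with rfl | ⟨-, rfl⟩
    · rcases Finset.mem_insert.1 hx with h | h
      · exact Or.inl h
      · exact Or.inr ⟨hxc, τ, hτ, h⟩
    · exact Or.inr ⟨hxc, τ, hτ, (Finset.mem_insert.1 hx).resolve_left hxc⟩
  refine ⟨r, ?_, ?_, ?_, ?_, ?_⟩
  · intro ρ hρ x hx
    rcases hmem ρ hρ x hx with rfl | rfl | ⟨hxc, τ, hτ, h⟩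
    · rw [rc]; exact Finset.mem_insert_self _ _
    · rw [rb]; exact Finset.mem_insert_of_mem sc
    · by_cases hxg : x = g
      · rw [hxg, rg]; exact Finset.mem_insert_self _ _
      · rw [rK τ hτ x h hxc hxg]; exact Finset.mem_insert_of_mem (hs.mem τ hτ x h)
  · intro x hx
    rcases Finset.mem_insert.1 hx with rfl | h
    · exact rc
    · rw [rK σ hσ x h (fun e => hcσ (e ▸ h)) (fun e => hgσ (e ▸ h)), hs.fix x h]
  · intro y hy
    rcases Finset.mem_insert.1 hy with rfl | h
    · exact Finset.mem_image.2 ⟨g, Finset.mem_insert_of_mem hg, rg⟩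
    · obtain ⟨z, hz, hzy⟩ := Finset.mem_image.1 (hs.top h)
      by_cases hzg : z = g
      · exact Finset.mem_image.2 ⟨b, Finset.mem_insert_self _ _, by rw [rb, ← hgc, ← hzg, hzy]⟩
      · exact Finset.mem_image.2 ⟨z, Finset.mem_insert_of_mem hz, by
          rw [rK σ' hσ' z hz (fun e => hcσ' (e ▸ hz)) hzg, hzy]⟩
  · intro ρ hρ hcov
    obtain ⟨τ, hτ, h'⟩ := hρ
    rcases h' with rfl | ⟨hcτ, rfl⟩
    · -- `ρ = insert b τ`
      have hbτ := hb τ hτ
      have hcover : ∀ y ∈ σ, y = s c ∨ y ∈ ((τ.erase c).erase g).image s := by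
        intro y hy
        obtain ⟨z, hz, hzy⟩ := Finset.mem_image.1 (hcov (Finset.mem_insert_of_mem hy))
        by_cases hzc : z = c
        · rw [hzc, rc] at hzy
          rw [← hzy] at hy
          exact absurd hy hcσ
        rcases Finset.mem_insert.1 hz with h | h
        · rw [h, rb] at hzy
          exact Or.inl hzy.symm
        · by_cases hzg : z = g
          · rw [hzg, rg] at hzy
            rw [← hzy] at hy
            exact absurd hy hcσ
          · rw [rK τ hτ z h hzc hzg] at hzy
            exact Or.inr (Finset.mem_image.2 ⟨z, Finset.mem_erase.2 ⟨hzg,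
              Finset.mem_erase.2 ⟨hzc, h⟩⟩, hzy⟩)
      have hcount : ¬ (c ∈ τ ∧ g ∈ τ) := by
        rintro ⟨h1, h2⟩
        have h3 : σ ⊆ insert (s c) (((τ.erase c).erase g).image s) := fun y hy => by
          rcases hcover y hy with h | h
          · rw [h]; exact Finset.mem_insert_self _ _
          · exact Finset.mem_insert_of_mem h
        have h4 := Finset.card_le_card h3
        have h5 := Finset.card_insert_le (s c) (((τ.erase c).erase g).image s)
        have h6 := (Finset.card_image_le (s := (τ.erase c).erase g) (f := s))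
        rw [Finset.card_erase_of_mem (Finset.mem_erase.2 ⟨hgc', h2⟩),
          Finset.card_erase_of_mem h1, hK.card _ hτ] at h6
        rw [hK.card _ hσ] at h4
        have h7 : 1 < τ.card := by
          apply Finset.one_lt_card.2
          exact ⟨c, h1, g, h2, hgc'.symm⟩
        rw [hK.card _ hτ] at h7
        omega
      -- the label `c` comes from `c` or from `g`
      obtain ⟨z, hz, hzc⟩ := Finset.mem_image.1 (hcov (Finset.mem_insert_self c σ))
      have hzg : z = c ∨ z = g := by
        by_contra hcon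
        push Not at hcon
        rcases Finset.mem_insert.1 hz with h | h
        · rw [h, rb] at hzc
          rw [hzc] at sc
          exact hcσ sc
        · rw [rK τ hτ z h hcon.1 hcon.2] at hzc
          have := hs.mem τ hτ z h
          rw [hzc] at this
          exact hcσ this
      have hσc : σ ⊆ τ.image s := by
        rcases hzg with e | e
        · rw [e] at hz
          have hcτ := (Finset.mem_insert.1 hz).resolve_left hcb
          intro y hy
          rcases hcover y hy with h | h
          · rw [h]; exact Finset.mem_image_of_mem _ hcτ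
          · exact Finset.image_subset_image ((Finset.erase_subset _ _).trans
              (Finset.erase_subset _ _)) h
        · rw [e] at hz
          have hgτ := (Finset.mem_insert.1 hz).resolve_left hgb
          intro y hy
          rcases hcover y hy with h | h
          · rw [h, ← hgc]; exact Finset.mem_image_of_mem _ hgτ
          · exact Finset.image_subset_image ((Finset.erase_subset _ _).trans
              (Finset.erase_subset _ _)) h
      have hgτ : g ∈ τ := by
        rcases hzg with e | e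
        · rw [e] at hz
          have hcτ := (Finset.mem_insert.1 hz).resolve_left hcb
          rcases hs.only τ hτ hσc with e' | e'
          · exact absurd (e' ▸ hcτ) hcσ
          · exact absurd (e' ▸ hcτ) hcσ'
        · rw [e] at hz
          exact (Finset.mem_insert.1 hz).resolve_left hgb
      right
      rcases hs.only τ hτ hσc with e | e
      · exact absurd (e ▸ hgτ) hgσ
      · rw [e]
    · -- `ρ = insert c τ`, `c ∉ τ`
      have hcover : σ ⊆ (τ.erase g).image s := by
        intro y hy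
        obtain ⟨z, hz, hzy⟩ := Finset.mem_image.1 (hcov (Finset.mem_insert_of_mem hy))
        by_cases hzc : z = c
        · rw [hzc, rc] at hzy
          rw [← hzy] at hy
          exact absurd hy hcσ
        have h := (Finset.mem_insert.1 hz).resolve_left hzc
        by_cases hzg : z = g
        · rw [hzg, rg] at hzy
          rw [← hzy] at hy
          exact absurd hy hcσ
        · rw [rK τ hτ z h hzc hzg] at hzy
          exact Finset.mem_image.2 ⟨z, Finset.mem_erase.2 ⟨hzg, h⟩, hzy⟩
      have hgτ : g ∉ τ := by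
        intro h1
        have h4 := Finset.card_le_card hcover
        have h6 := (Finset.card_image_le (s := τ.erase g) (f := s))
        rw [Finset.card_erase_of_mem h1, hK.card _ hτ] at h6
        rw [hK.card _ hσ] at h4
        have h7 : 0 < τ.card := Finset.card_pos.2 ⟨g, h1⟩
        rw [hK.card _ hτ] at h7
        omega
      left
      rcases hs.only τ hτ (hcover.trans (Finset.image_subset_image (Finset.erase_subset _ _)))
        with e | e
      · rw [e]
      · exact absurd (e ▸ hg) hgτ
  · intro x hx hxw ρ hρ y hy hyx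
    rcases Finset.mem_insert.1 hx with rfl | h
    · rcases Finset.mem_insert.1 hxw with h' | h'
      · exact absurd h' hcb
      · exact absurd h' hcσ'
    · have hxc : x ≠ c := fun e => hcσ (e ▸ h)
      have hxb : x ≠ b := fun e => hb σ hσ (e ▸ h)
      have hxσ' : x ∈ σ' := (Finset.mem_insert.1 hxw).resolve_left hxb
      rcases hmem ρ hρ y hy with rfl | rfl | ⟨hyc, τ, hτ, h'⟩
      · rw [rc] at hyx
        exact hyx
      · rw [rb] at hyx
        exact absurd (hs.uniq x h hxσ' κ hκ c hcκ hyx).symm hxc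
      · by_cases hyg : y = g
        · rw [hyg, rg] at hyx
          exact absurd hyx.symm hxc
        · rw [rK τ hτ y h' hyc hyg] at hyx
          exact hs.uniq x h hxσ' τ hτ y h' hyx

/-- adjacent members -/
theorem her_adj {M : Set (Finset ℕ)} (hM : PM (d + 1) M) {b c : ℕ} (hbσ : b ∉ σ) (hcσ : c ∉ σ)
    (hcb : c ≠ b) (h1 : insert c σ ∈ M) (h2 : insert b σ ∈ M) :
    ∃ r, Ret M (insert c σ) (insert b σ) r := by
  classical
  set r : ℕ → ℕ := fun x => if x ∈ σ then x else c with hr
  have rσ : ∀ x ∈ σ, r x = x := fun x hx => if_pos hx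
  have rn : ∀ x, x ∉ σ → r x = c := fun x hx => if_neg hx
  have hcard : σ.card = d := by
    have := hM.card _ h1
    rw [Finset.card_insert_of_notMem hcσ] at this
    omega
  refine ⟨r, ?_, ?_, ?_, ?_, ?_⟩
  · intro ρ _ x _
    by_cases h : x ∈ σ
    · rw [rσ x h]; exact Finset.mem_insert_of_mem h
    · rw [rn x h]; exact Finset.mem_insert_self _ _
  · intro x hx
    rcases Finset.mem_insert.1 hx with rfl | h
    · exact rn x hcσ
    · exact rσ x h
  · intro y hy
    rcases Finset.mem_insert.1 hy with rfl | h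
    · exact Finset.mem_image.2 ⟨b, Finset.mem_insert_self _ _, rn b hbσ⟩
    · exact Finset.mem_image.2 ⟨y, Finset.mem_insert_of_mem h, rσ y h⟩
  · intro ρ hρ hcov
    have hσρ : σ ⊆ ρ := by
      intro y hy
      obtain ⟨z, hz, hzy⟩ := Finset.mem_image.1 (hcov (Finset.mem_insert_of_mem hy))
      by_cases h : z ∈ σ
      · rw [rσ z h] at hzy
        rw [← hzy]; exact hz
      · rw [rn z h] at hzy
        rw [← hzy] at hy
        exact absurd hy hcσ
    obtain ⟨τ, hτ, hne, hsub, huniq⟩ := hM.two _ h1 c (Finset.mem_insert_self _ _)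
    rw [Finset.erase_insert hcσ] at huniq
    have e1 : insert b σ = τ := by
      rcases huniq _ h2 (Finset.subset_insert _ _) with e | e
      · exfalso
        have : b ∈ insert c σ := by rw [← e]; exact Finset.mem_insert_self _ _
        rcases Finset.mem_insert.1 this with h | h
        · exact hcb h.symm
        · exact hbσ h
      · exact e
    rw [e1]
    exact huniq ρ hρ hσρ
  · intro x hx hxw ρ _ y _ hyx
    rcases Finset.mem_insert.1 hx with rfl | h
    · rcases Finset.mem_insert.1 hxw with h' | h'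
      · exact absurd h' hcb
      · exact absurd h' hcσ
    · by_cases hy : y ∈ σ
      · rw [rσ y hy] at hyx; exact hyx
      · rw [rn y hy] at hyx
        rw [← hyx] at h
        exact absurd h hcσ

end

theorem her_wedge (hK : PM d K) (hH : Her K) {c b : ℕ} (hb : ∀ σ ∈ K, b ∉ σ)
    (hc : ∃ σ ∈ K, c ∈ σ) : Her (wedge K c b) := by
  classical
  have hW := pm_wedge hK hb hc
  have hcb : c ≠ b := by
    obtain ⟨σ, hσ, hcσ⟩ := hc
    exact fun e => hb σ hσ (e ▸ hcσ)
  -- the first one contains `c` but not `b`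
  have main : ∀ σ ∈ K, c ∉ σ → ∀ w ∈ wedge K c b, insert c σ ≠ w →
      ∃ r, Ret (wedge K c b) (insert c σ) w r := by
    rintro σ hσ hcσ w ⟨σ', hσ', h'⟩ hne
    by_cases hσσ' : σ = σ'
    · subst hσσ'
      rcases h' with rfl | ⟨-, rfl⟩
      · exact her_adj hW (hb σ hσ) hcσ hcb ⟨σ, hσ, Or.inr ⟨hcσ, rfl⟩⟩ ⟨σ, hσ, Or.inl rfl⟩
      · exact absurd rfl hne
    · obtain ⟨s, hs⟩ := hH σ hσ σ' hσ' hσσ'
      rcases h' with rfl | ⟨hcσ', rfl⟩
      · by_cases hcσ' : c ∈ σ'
        · exact her_wedge_c hb hc hσ hcσ hσ' hs (Or.inr ⟨hcσ', rfl⟩)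
        · exact her_wedge_ex hK hb hc hσ hcσ hσ' hcσ' hs
      · exact her_wedge_c hb hc hσ hcσ hσ' hs (Or.inl ⟨hcσ', rfl⟩)
  intro v hv w hw hvw
  obtain ⟨σ, hσ, rfl | ⟨hcσ, rfl⟩⟩ := hv
  · obtain ⟨σ', hσ', rfl | ⟨hcσ', rfl⟩⟩ := hw
    · have hne : σ ≠ σ' := fun h => hvw (by rw [h])
      obtain ⟨s, hs⟩ := hH σ hσ σ' hσ' hne
      exact her_wedge_bb hb hc hσ hσ' hs
    · have hv' : insert b σ ∈ wedge K c b := ⟨σ, hσ, Or.inl rfl⟩
      have hw' : insert c σ' ∈ wedge K c b := ⟨σ', hσ', Or.inr ⟨hcσ', rfl⟩⟩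
      obtain ⟨r, hr⟩ := main σ' hσ' hcσ' _ hv' hvw.symm
      exact hr.symm (by rw [hW.card _ hv', hW.card _ hw']) hw' hv'
  · exact main σ hσ hcσ w hw hvw

end Pool.Agent.Lock
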